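import Pool.Agent.PWS.All
import Pool.Agent.PWX.Kill

/-!
Campaign PWS, module Cost: the cost of a subgroup, with steps for the groups `SL_2(F_p)`.
-/

set_option autoImplicit false

namespace Pool.Agent.PWS

open Pool.Agent.PW Pool.Agent.PWM Pool.Agent.PWB Pool.Agent.PWX

/-- The subgroup `N` of `G` can be reached from `⊤` with cost `s`.  Five kinds of steps from `N` to
a smaller subgroup `M`: `N/M` cyclic (cost 1), `N/M` an abelian chief factor of `G` (cost 1), `N/M`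
central in `G/M` and consisting of non-generators of `G/M` (no cost), any subgroup `M` of index
`r + 1` in `N` (cost `r`), and any subgroup `M` of `N` which contains the kernel of a homomorphism
from `N` to a quotient `S/T` of a subgroup `S` of `SL_2(F_p)` for some prime `p` (cost `C`). -/
inductive Cost3 (C : ℕ) (G : Type) [Group G] : ℕ → Subgroup G → Prop
  | top : Cost3 C G 0 ⊤
  | cyclic {s : ℕ} {N M : Subgroup G} : Cost3 C G s N → M ≤ N →
      (∀ x ∈ N, ∀ y ∈ M, x * y * x⁻¹ ∈ M) → (∃ c ∈ N, ∀ x ∈ N, ∃ k : ℤ, (c ^ k)⁻¹ * x ∈ M) →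
      Cost3 C G (s + 1) M
  | chief {s : ℕ} {N M : Subgroup G} : Cost3 C G s N → N.Normal → M.Normal → M ≤ N →
      (∀ x ∈ N, ∀ y ∈ N, x * y * x⁻¹ * y⁻¹ ∈ M) →
      (∀ L : Subgroup G, L.Normal → M ≤ L → L ≤ N → L = M ∨ L = N) → Cost3 C G (s + 1) M
  | frattini {s : ℕ} {N M : Subgroup G} : Cost3 C G s N → N.Normal → M.Normal → M ≤ N →
      (∀ x ∈ N, ∀ y, x * y * x⁻¹ * y⁻¹ ∈ M) → (∀ H : Subgroup G, H ⊔ N = ⊤ → H ⊔ M = ⊤) →
      Cost3 C G s M
  | index {s r : ℕ} {N M : Subgroup G} : Cost3 C G s N → M ≤ N → M.relIndex N = r + 1 →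
      Cost3 C G (s + r) M
  | sl2 {s : ℕ} {N M : Subgroup G} (p : ℕ) [Fact p.Prime]
      (S : Subgroup (Matrix.SpecialLinearGroup (Fin 2) (ZMod p))) (T : Subgroup S) [T.Normal]
      (σ : N →* S ⧸ T) : Cost3 C G s N → M ≤ N → (∀ x : N, σ x = 1 → (x : G) ∈ M) →
      Cost3 C G (s + C) M

/-- The cost without the new step. -/
theorem cost3_of_cost2 (C : ℕ) {G : Type} [Group G] {s : ℕ} {N : Subgroup G} (h : Cost2 G s N) :
    Cost3 C G s N := by
  induction h with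
  | top => exact Cost3.top
  | cyclic _ h1 h2 h3 ih => exact Cost3.cyclic ih h1 h2 h3
  | chief _ h1 h2 h3 h4 h5 ih => exact Cost3.chief ih h1 h2 h3 h4 h5
  | frattini _ h1 h2 h3 h4 h5 ih => exact Cost3.frattini ih h1 h2 h3 h4 h5
  | index _ h1 h2 ih => exact Cost3.index ih h1 h2

/-- Homomorphisms to a section kill a handle. -/
theorem dead_of_section {Γ : Type} [Group Γ] {h : ℕ} (hD : ∀ ρ : F h 0 →* Γ, Dead ρ)
    (S : Subgroup Γ) (T : Subgroup S) [T.Normal] (ρ : F h 0 →* S ⧸ T) : Dead ρ := by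
  choose t ht using fun x : Gen h 0 => QuotientGroup.mk'_surjective T (ρ (FreeGroup.of x))
  have h1 : (QuotientGroup.mk' T).comp (FreeGroup.lift t) = ρ := by
    ext x
    rw [MonoidHom.comp_apply, FreeGroup.lift_apply_of]
    exact ht x
  obtain ⟨φ, hφ, h0, ha, hb⟩ := hD (S.subtype.comp (FreeGroup.lift t))
  refine ⟨φ, hφ, h0, ?_, ?_⟩
  · rw [← h1, MonoidHom.comp_apply]
    have h2 : FreeGroup.lift t (φ (ga ⟨0, h0⟩)) = 1 := Subtype.ext ha
    rw [h2, map_one]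
  · rw [← h1, MonoidHom.comp_apply]
    have h2 : FreeGroup.lift t (φ (gb ⟨0, h0⟩)) = 1 := Subtype.ext hb
    rw [h2, map_one]

/-- After a mapping class the first `g - s` handles go to `N`, if `N` has cost `s`. -/
theorem go_of_cost3 (kcyc : St_KCyc) (kchr : St_KChr) (kchief : St_KChief) (kfrat : St_KFrat)
    (kind : PWX.St_Ind) {C : ℕ}
    (hC : ∀ (p : ℕ) [Fact p.Prime] (ρ : F C 0 →* SL p), Dead ρ)
    {Q : Type} [Group Q] [Finite Q] {g n s : ℕ} {N : Subgroup Q}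
    (hc : Cost3 C Q s N) (hs : s ≤ g) (ρ : F g n →* Q) (hρ : Function.Surjective ρ) :
    ∃ φ ∈ MCG g n, Inv (g - s) N (ρ.comp (MulEquiv.toMonoidHom φ)) := by
  induction hc with
  | top => exact ⟨1, (MCG g n).one_mem, fun i _ => ⟨Subgroup.mem_top _, Subgroup.mem_top _⟩⟩
  | @cyclic s N M _ hMN hn hc ih =>
    obtain ⟨φ, hφ, h1⟩ := ih (by omega)
    obtain ⟨m, X, hX⟩ := kchr hMN hn hc
    have e : g - s = (g - (s + 1)) + 1 := by omega
    rw [e] at h1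
    obtain ⟨ψ, hψ, h2⟩ := kcyc hX (by omega) (ρ.comp (MulEquiv.toMonoidHom φ)) h1
    exact ⟨φ * ψ, (MCG g n).mul_mem hφ hψ, h2⟩
  | @chief s N M _ hN hM hMN hab hmin ih =>
    obtain ⟨φ, hφ, h1⟩ := ih (by omega)
    have e : g - s = (g - (s + 1)) + 1 := by omega
    rw [e] at h1
    obtain ⟨ψ, hψ, h2⟩ := kchief (by omega) (ρ.comp (MulEquiv.toMonoidHom φ)) N M
      (hρ.comp φ.surjective) hN hM hMN hab hmin h1
    exact ⟨φ * ψ, (MCG g n).mul_mem hφ hψ, h2⟩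
  | @frattini s N M _ hN hM hMN hz hg ih =>
    obtain ⟨φ, hφ, h1⟩ := ih hs
    obtain ⟨ψ, hψ, h2⟩ := kfrat (by omega) (ρ.comp (MulEquiv.toMonoidHom φ)) N M
      (hρ.comp φ.surjective) hN hM hMN hz hg h1
    exact ⟨φ * ψ, (MCG g n).mul_mem hφ hψ, h2⟩
  | @index s r N M _ hMN hr ih =>
    obtain ⟨φ, hφ, h1⟩ := ih (by omega)
    have e : g - s = (g - (s + r)) + r := by omega
    rw [e] at h1
    obtain ⟨ψ, hψ, h2⟩ := kind (by omega) (ρ.comp (MulEquiv.toMonoidHom φ)) N M hr h1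
    exact ⟨φ * ψ, (MCG g n).mul_mem hφ hψ, h2⟩
  | @sl2 s N M p _ S T _ σ _ hMN hσ ih =>
    obtain ⟨φ, hφ, h1⟩ := ih (by omega)
    rcases Nat.eq_zero_or_pos (g - (s + C)) with h0 | h0
    · refine ⟨φ, hφ, fun i hi => ?_⟩
      rw [h0] at hi
      exact absurd hi (Nat.not_lt_zero _)
    · let A : Subgroup (F g n) := N.comap ρ
      let τ : A →* S ⧸ T := σ.comp (ρ.subgroupComap N)
      obtain ⟨φ', hφ', h2⟩ := Itr_step (m := g - (s + C)) (m' := g - s)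
        (dead_of_section (hC p) S T) (by omega) (by omega) A τ hφ (fun i hi => h1 i hi)
      refine ⟨φ', hφ', fun i hi => ?_⟩
      obtain ⟨⟨a1, a2⟩, b1, b2⟩ := h2 i hi
      exact ⟨hσ ⟨ρ (φ' (ga i)), a1⟩ a2, hσ ⟨ρ (φ' (gb i)), b1⟩ b2⟩

end Pool.Agent.PWS
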