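import Mathlib
import Pool.Agent.PWX.Defs

/-!
Campaign PWS (problem MP_26af1b_gt, Putman-Wieland for the covers with the group PSL_2(p)).
Definitions.
-/

set_option autoImplicit false

namespace Pool.Agent.PWS

open Pool.Agent.PW Pool.Agent.PWM Pool.Agent.PWX
open scoped Classical

/-! ### Groups -/

/-- The group `SL_2` of the field with `p` elements. -/
abbrev SL (p : ℕ) : Type := Matrix.SpecialLinearGroup (Fin 2) (ZMod p)

/-- The matrices. -/
abbrev M2 (p : ℕ) : Type := Matrix (Fin 2) (Fin 2) (ZMod p)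

/-- The trace. -/
def tr {p : ℕ} (x : SL p) : ZMod p := Matrix.trace (x : M2 p)

/-- The element is not central. -/
def NC {G : Type} [Group G] (x : G) : Prop := x ∉ Subgroup.center G

/-- The centraliser of an element. -/
def Cz {G : Type} [Group G] (c : G) : Subgroup G := Subgroup.centralizer {c}

/-- The elements which conjugate the centraliser of `c` into itself. -/
def Nz {G : Type} [Group G] (c : G) : Subgroup G where
  carrier := {x | ∀ y, y ∈ Cz c ↔ x * y * x⁻¹ ∈ Cz c}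
  one_mem' := by
    intro y
    simp
  mul_mem' := by
    intro a b ha hb y
    rw [hb y, ha (b * y * b⁻¹)]
    simp [mul_assoc]
  inv_mem' := by
    intro a ha y
    rw [ha (a⁻¹ * y * a⁻¹⁻¹)]
    simp [mul_assoc]

/-- The trace function `l ↦ tr (c ^ l * b)` takes no value more than four times in a period. -/
def Nd {p : ℕ} (c b : SL p) : Prop :=
  ∀ τ : ZMod p, ((Finset.range (orderOf c)).filter fun l => tr (c ^ l * b) = τ).card ≤ 4

/-! ### Surfaces -/

variable {g n : ℕ}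

/-- Some handle can be killed. -/
def Dead {Q : Type} [Group Q] (ρ : F g n →* Q) : Prop :=
  ∃ φ ∈ MCG g n, ∃ h : 0 < g, ρ (φ (ga ⟨0, h⟩)) = 1 ∧ ρ (φ (gb ⟨0, h⟩)) = 1

/-- The composite with an automorphism. -/
def pre {Q : Type} [Group Q] (ρ : F g n →* Q) (φ : MulAut (F g n)) : F g n →* Q :=
  ρ.comp (MulEquiv.toMonoidHom φ)

/-- The subgroup generated by the letters of the handles `i`, `l ≤ i < l + h`. -/
def Let (g l h : ℕ) : Subgroup (F g 0) :=
  Subgroup.closure
    {x | ∃ i : Fin g, l ≤ (i : ℕ) ∧ (i : ℕ) < l + h ∧ (x = ga i ∨ x = gb i)}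

/-- The mapping classes with support in the block of the handles `i`, `l ≤ i < l + h`. -/
def Loc (g l h : ℕ) : Subgroup (MulAut (F g 0)) where
  carrier := {ψ | ψ (bdry g 0) = bdry g 0 ∧
    (∀ i : Fin g, (i : ℕ) < l ∨ l + h ≤ (i : ℕ) → ψ (ga i) = ga i ∧ ψ (gb i) = gb i) ∧
    ∀ x, x ∈ Let g l h ↔ ψ x ∈ Let g l h}
  one_mem' := ⟨rfl, fun _ _ => ⟨rfl, rfl⟩, fun _ => Iff.rfl⟩
  mul_mem' := by
    rintro φ ψ ⟨h1, h2, h3⟩ ⟨h4, h5, h6⟩
    refine ⟨?_, fun i hi => ⟨?_, ?_⟩, fun x => ?_⟩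
    · show φ (ψ (bdry g 0)) = bdry g 0
      rw [h4, h1]
    · show φ (ψ (ga i)) = ga i
      rw [(h5 i hi).1, (h2 i hi).1]
    · show φ (ψ (gb i)) = gb i
      rw [(h5 i hi).2, (h2 i hi).2]
    · exact (h6 x).trans (h3 (ψ x))
  inv_mem' := by
    rintro φ ⟨h1, h2, h3⟩
    have key : ∀ x y : F g 0, φ x = y → φ⁻¹ y = x := by
      intro x y h
      rw [← h]
      simp
    refine ⟨key _ _ h1, fun i hi => ⟨key _ _ (h2 i hi).1, key _ _ (h2 i hi).2⟩, fun x => ?_⟩
    have := h3 (φ⁻¹ x)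
    have e : φ (φ⁻¹ x) = x := by simp
    rw [e] at this
    exact this.symm

/-- The values of `ρ` on the simple closed curves `ψ (a_i)` in the block of the handles `i`,
`l ≤ i < l + h`. -/
def Sm {Q : Type} [Group Q] (ρ : F g 0 →* Q) (l h : ℕ) : Set Q :=
  {q | ∃ ψ ∈ Loc g l h, ∃ i : Fin g, l ≤ (i : ℕ) ∧ (i : ℕ) < l + h ∧ q = ρ (ψ (ga i))}

/-- The product `a_l a_(l+1) ... a_(l+h-1)`. -/
def pa (g l h : ℕ) : F g 0 :=
  ((List.range' l h).map fun k => if hk : k < g then (ga ⟨k, hk⟩ : F g 0) else 1).prod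

/-- All the blocks of `u` handles in all the frames have full image, and no simple closed curve
is in the kernel. -/
structure Tight {p : ℕ} (ρ : F g 0 →* SL p) (u : ℕ) : Prop where
  full : ∀ ψ ∈ MCGd g, ∀ l, l + u ≤ g → (Let g l u).map (pre ρ ψ) = ⊤
  one : (1 : SL p) ∉ Sm ρ 0 g

/-- Sum over left translates by the elements of `A`. -/
noncomputable def Lt {G : Type} [Group G] (A : Finset G) (f : G → ℂ) : G → ℂ :=
  fun x => ∑ a ∈ A, f (a⁻¹ * x)

/-- A space of functions with sum zero which is invariant under the right translations. -/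
def RInv {G : Type} [Group G] [Fintype G] (V : Submodule ℂ (G → ℂ)) : Prop :=
  (∀ f ∈ V, ∀ x : G, (fun y => f (y * x)) ∈ V) ∧ ∀ f ∈ V, ∑ x, f x = 0

end Pool.Agent.PWS
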