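import Pool.Agent.PWS.St

/-!
# PWS (MP_26af1b_gt), Bas: four independent simple curves
-/

set_option autoImplicit false

namespace Pool.Agent.PWS

open Pool.Agent.PW Pool.Agent.PWM Pool.Agent.PWX
open scoped Classical Pointwise

/-- span of the matrices of a set -/
private noncomputable def Bas_sp {p : ℕ} (S : Set (SL p)) : Submodule (ZMod p) (M2 p) :=
  Submodule.span (ZMod p) ((fun x : SL p => (x : M2 p)) '' S)

/-- the products with `1` or an element of `T` -/
private def Bas_st {p : ℕ} (S T : Set (SL p)) : Set (SL p) :=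
  {z | ∃ x ∈ S, ∃ y, (y = 1 ∨ y ∈ T) ∧ z = x * y}

private theorem Bas_le {p : ℕ} (S T : Set (SL p)) : Bas_sp S ≤ Bas_sp (Bas_st S T) :=
  Submodule.span_mono (Set.image_mono fun x hx => ⟨x, hx, 1, Or.inl rfl, (mul_one x).symm⟩)

private theorem Bas_one {p : ℕ} (S T : Set (SL p)) (h : (1 : SL p) ∈ S) : (1 : SL p) ∈ Bas_st S T :=
  ⟨1, h, 1, Or.inl rfl, (mul_one 1).symm⟩

private theorem Bas_grow (hSpn : St_Spn) {p : ℕ} [Fact p.Prime] (S T : Set (SL p))
    (h1S : (1 : SL p) ∈ S) (hT : Subgroup.closure T = ⊤) (hne : Bas_sp S ≠ ⊤) :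
    Bas_sp S < Bas_sp (Bas_st S T) := by
  refine lt_of_le_of_ne (Bas_le S T) ?_
  intro heq
  apply hne
  have hmul : ∀ y ∈ T, ∀ v ∈ Bas_sp S, v * (y : M2 p) ∈ Bas_sp S := by
    intro y hy v hv
    refine Submodule.span_induction (p := fun v _ => v * (y : M2 p) ∈ Bas_sp S) ?_ ?_ ?_ ?_ hv
    · rintro _ ⟨x, hx, rfl⟩
      rw [heq]
      apply Submodule.subset_span
      exact ⟨x * y, ⟨x, hx, y, Or.inr hy, rfl⟩, Matrix.SpecialLinearGroup.coe_mul x y⟩
    · rw [zero_mul]
      exact Submodule.zero_mem _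
    · intro a b _ _ ha hb
      rw [add_mul]
      exact Submodule.add_mem _ ha hb
    · intro c a _ ha
      rw [smul_mul_assoc]
      exact Submodule.smul_mem _ _ ha
  have hall : ∀ x : SL p, ∀ v ∈ Bas_sp S, v * (x : M2 p) ∈ Bas_sp S := by
    intro x
    have hx : x ∈ Subgroup.closure T := by rw [hT]; trivial
    refine Subgroup.closure_induction
      (p := fun (x : SL p) _ => ∀ v ∈ Bas_sp S, v * (x : M2 p) ∈ Bas_sp S)
      (fun y hy => hmul y hy) ?_ ?_ ?_ hx
    · intro v hv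
      simpa using hv
    · intro a b _ _ ha hb v hv
      rw [Matrix.SpecialLinearGroup.coe_mul, ← mul_assoc]
      exact hb _ (ha v hv)
    · intro a _ ha v hv
      have hpow : ∀ n : ℕ, ∀ v ∈ Bas_sp S, v * ((a ^ n : SL p) : M2 p) ∈ Bas_sp S := by
        intro n
        induction n with
        | zero =>
          intro v hv
          simpa using hv
        | succ n ih =>
          intro v hv
          rw [pow_succ, Matrix.SpecialLinearGroup.coe_mul, ← mul_assoc]
          exact ha _ (ih v hv)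
      have hinv : a⁻¹ = a ^ (orderOf a - 1) := by
        apply inv_eq_of_mul_eq_one_right
        rw [← pow_succ', Nat.sub_add_cancel (orderOf_pos a), pow_orderOf_eq_one]
      rw [hinv]
      exact hpow _ v hv
  exact hSpn p _ (Submodule.subset_span ⟨1, h1S, Matrix.SpecialLinearGroup.coe_one⟩) hall

private theorem Bas_prod (hMon : St_Mon) (hPrd : St_Prd) {p g : ℕ} (ρ : F g 0 →* SL p)
    (l h h' : ℕ) (x y : SL p) (hx : x = 1 ∨ x ∈ Sm ρ l h) (hy : y = 1 ∨ y ∈ Sm ρ (l + h) h') :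
    x * y = 1 ∨ x * y ∈ Sm ρ l (h + h') := by
  rcases hx with rfl | hx
  · rcases hy with rfl | hy
    · left; simp
    · right
      rw [one_mul]
      exact (hMon g (l + h) h' l (h + h') (by omega) (by omega)).2 ρ hy
  · rcases hy with rfl | hy
    · right
      rw [mul_one]
      exact (hMon g l h l (h + h') (by omega) (by omega)).2 ρ hx
    · right
      exact hPrd ρ l h h' x y hx hy

theorem thm_Bas (hMon : St_Mon) (hPrd : St_Prd) (hGen : St_Gen) (hSpn : St_Spn) : St_Bas := by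
  intro p _ g ρ u l hρ hl
  have hcl : ∀ l', l' + u ≤ g → Subgroup.closure (Sm ρ l' u) = ⊤ := by
    intro l' hl'
    rw [hGen ρ l' u]
    have h1 := hρ.full 1 (MCGd g).one_mem l' hl'
    have h2 : pre ρ 1 = ρ := by
      ext x
      rfl
    rwa [h2] at h1
  set S0 : Set (SL p) := {1} with hS0
  set S1 := Bas_st S0 (Sm ρ l u) with hS1
  set S2 := Bas_st S1 (Sm ρ (l + u) u) with hS2
  set S3 := Bas_st S2 (Sm ρ (l + u + u) u) with hS3
  have h01 : (1 : SL p) ∈ S0 := rfl
  have h11 : (1 : SL p) ∈ S1 := Bas_one _ _ h01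
  have h21 : (1 : SL p) ∈ S2 := Bas_one _ _ h11
  have hM : Module.finrank (ZMod p) (M2 p) = 4 := by
    rw [Module.finrank_matrix]
    simp
  have htop : Bas_sp S3 = ⊤ := by
    by_contra hne3
    have hne2 : Bas_sp S2 ≠ ⊤ := fun h => hne3 (top_le_iff.mp (h ▸ Bas_le S2 _))
    have hne1 : Bas_sp S1 ≠ ⊤ := fun h => hne2 (top_le_iff.mp (h ▸ Bas_le S1 _))
    have hne0 : Bas_sp S0 ≠ ⊤ := fun h => hne1 (top_le_iff.mp (h ▸ Bas_le S0 _))
    have g1 := Submodule.finrank_lt_finrank_of_lt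
      (Bas_grow hSpn S0 (Sm ρ l u) h01 (hcl l (by omega)) hne0)
    have g2 := Submodule.finrank_lt_finrank_of_lt
      (Bas_grow hSpn S1 (Sm ρ (l + u) u) h11 (hcl (l + u) (by omega)) hne1)
    have g3 := Submodule.finrank_lt_finrank_of_lt
      (Bas_grow hSpn S2 (Sm ρ (l + u + u) u) h21 (hcl (l + u + u) (by omega)) hne2)
    have g0 : 0 < Module.finrank (ZMod p) (Bas_sp S0) := by
      rw [Module.finrank_pos_iff]
      refine ⟨⟨⟨1, Submodule.subset_span ⟨1, h01, Matrix.SpecialLinearGroup.coe_one⟩⟩, 0, ?_⟩⟩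
      intro h
      have := congrArg Subtype.val h
      exact one_ne_zero this
    have g4 := Submodule.finrank_le (Bas_sp S3)
    rw [hM] at g4
    apply hne3
    apply Submodule.eq_top_of_finrank_eq
    rw [hM]
    change Module.finrank (ZMod p) (Bas_sp S0) < Module.finrank (ZMod p) (Bas_sp S1) at g1
    change Module.finrank (ZMod p) (Bas_sp S1) < Module.finrank (ZMod p) (Bas_sp S2) at g2
    change Module.finrank (ZMod p) (Bas_sp S2) < Module.finrank (ZMod p) (Bas_sp S3) at g3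
    omega
  have hsub : ∀ z ∈ S3, z = 1 ∨ z ∈ Sm ρ l (3 * u) := by
    rintro z ⟨x2, ⟨x1, ⟨x0, hx0, y1, hy1, rfl⟩, y2, hy2, rfl⟩, y3, hy3, rfl⟩
    have hx0' : x0 = 1 := hx0
    subst hx0'
    rw [one_mul]
    have e1 := Bas_prod hMon hPrd ρ l u u y1 y2 hy1 hy2
    have e2 := Bas_prod hMon hPrd ρ l (u + u) u (y1 * y2) y3 e1 (by rw [← add_assoc]; exact hy3)
    have e3 : u + u + u = 3 * u := by ring
    rw [e3] at e2
    exact e2
  obtain ⟨b, hb, hbs, hbl⟩ := exists_linearIndependent (ZMod p)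
    ((fun x : SL p => (x : M2 p)) '' S3)
  have hbt : Submodule.span (ZMod p) b = ⊤ := by rw [hbs]; exact htop
  have hfin : b.Finite := Set.Finite.subset (Set.toFinite _) hb
  have : Fintype b := hfin.fintype
  have hcard : Fintype.card b = 4 := by
    have h1 := finrank_span_eq_card hbl
    rw [Subtype.range_coe, hbt, finrank_top, hM] at h1
    exact h1.symm
  let E : Fin 4 ≃ b := (Fintype.equivFinOfCardEq hcard).symm
  have hch : ∀ i : Fin 4, ∃ x ∈ S3, (x : M2 p) = (E i : M2 p) := by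
    intro i
    obtain ⟨x, hx, hx2⟩ := hb (E i).2
    exact ⟨x, hx, hx2⟩
  choose e he1 he2 using hch
  refine ⟨e, ?_, fun i => hsub _ (he1 i)⟩
  have h3 : (fun i => (e i : M2 p)) = Subtype.val ∘ E := funext he2
  rw [h3]
  exact hbl.comp _ E.injective

end Pool.Agent.PWS
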