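import Pool.Agent.PWS.St
import Pool.Agent.PWM.Blk
import Pool.Agent.PWM.Swp

/-!
Campaign PWS, module Blk: a handle which can be killed in a block can be killed.
-/

set_option autoImplicit false

namespace Pool.Agent.PWS

open Pool.Agent.PW Pool.Agent.PWM Pool.Agent.PWX

/-- A mapping class which moves the first handle to the place `l`. -/
theorem Blk_move {g n : ℕ} (l : ℕ) (hl : l < g) : ∃ ω ∈ MCG g n,
    ω (ga ⟨0, by omega⟩) = ga ⟨l, hl⟩ ∧ ω (gb ⟨0, by omega⟩) = gb ⟨l, hl⟩ := by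
  obtain ⟨C, hC, ⟨h1, h2⟩, -, -⟩ := swp_cycle (g := g) (n := n) 0 l (by omega)
  refine ⟨C⁻¹, (MCG g n).inv_mem hC, ?_, ?_⟩
  · rw [← h1]
    have e : (⟨0 + l, by omega⟩ : Fin g) = ⟨l, hl⟩ := Fin.ext (Nat.zero_add l)
    rw [e]
    simp
  · rw [← h2]
    have e : (⟨0 + l, by omega⟩ : Fin g) = ⟨l, hl⟩ := Fin.ext (Nat.zero_add l)
    rw [e]
    simp

/-- A mapping class can be corrected by an inner automorphism so that it fixes the boundary. -/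
theorem Blk_fix {h : ℕ} {φ : MulAut (F h 0)} (hφ : φ ∈ MCG h 0) :
    ∃ w : F h 0, MulAut.conj w * φ ∈ MCGd h := by
  obtain ⟨w, hw⟩ := isConj_iff.mp hφ.1
  exact ⟨w, hw⟩

/-- (Blk) A handle which can be killed in a block can be killed. -/
theorem thm_Blk : St_Blk := by
  intro Q _ g n ρ h l hl hD
  obtain ⟨φ, hφ, h0, ha, hb⟩ := hD
  obtain ⟨w, hw⟩ := Blk_fix hφ
  obtain ⟨Ψ, hΨ, -, h4, -, -⟩ := st_Blk (n := n) hl _ hw
  obtain ⟨ω, hω, h5, h6⟩ := Blk_move (g := g) (n := n) l (by omega)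
  refine ⟨Ψ * ω, (MCG g n).mul_mem hΨ hω, by omega, ?_, ?_⟩
  · have e1 : (ga ⟨l, by omega⟩ : F g n) = blk h g n l hl (ga ⟨0, h0⟩) := by
      rw [blk_a]
      rfl
    rw [MulAut.mul_apply, h5, e1, h4]
    have e2 : (MulAut.conj w * φ) (ga ⟨0, h0⟩) = w * φ (ga ⟨0, h0⟩) * w⁻¹ := rfl
    have e3 : ρ (blk h g n l hl (φ (ga ⟨0, h0⟩))) = 1 := ha
    rw [e2, map_mul, map_mul, map_mul, map_mul, e3, map_inv, map_inv, mul_one, mul_inv_cancel]
  · have e1 : (gb ⟨l, by omega⟩ : F g n) = blk h g n l hl (gb ⟨0, h0⟩) := by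
      rw [blk_b]
      rfl
    rw [MulAut.mul_apply, h6, e1, h4]
    have e2 : (MulAut.conj w * φ) (gb ⟨0, h0⟩) = w * φ (gb ⟨0, h0⟩) * w⁻¹ := rfl
    have e3 : ρ (blk h g n l hl (φ (gb ⟨0, h0⟩))) = 1 := hb
    rw [e2, map_mul, map_mul, map_mul, map_mul, e3, map_inv, map_inv, mul_one, mul_inv_cancel]

end Pool.Agent.PWS
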