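import Pool.Agent.PWS.Defs

/-!
Campaign PWS: there is an absolute `g₀` such that for every prime `p`, every `g ≥ g₀` and every
homomorphism `ρ : F g n →* SL_2(F_p)` some handle can be killed; so the property of Putman and
Wieland holds for all covers whose deck group is a subquotient of `SL_2(F_p)`, or an extension of
such a group by an abelian group.

Each `St_X` is a statement; its proof in words is in the docstring.  Part I: surfaces (all the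
automorphisms are in the library: `PW/Autos` (`e1`, `e2`, `psh`), `PWM/Rot` (`rr`), `PWM/Swp` (`Sw`),
`PWM/Blk` (`exists_ext`), `PW/Central` (`pushable_eq`), `PWX/Kill`).  Part II: `SL_2(F_p)`.
Part III: growth.  Part IV: assembly.

Conventions: `Sm ρ l h` is the set of the `ρ (ψ (a_i))`, `i` in the block `[l, l + h)`, `ψ ∈ Loc g l h`
(mapping classes of the block).  The product of an element of a block and an element of a block
further to the right is again such an element (`St_Prd`); inverses are not in `Sm` in general.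
-/

set_option autoImplicit false

namespace Pool.Agent.PWS

open Pool.Agent.PW Pool.Agent.PWM Pool.Agent.PWX
open scoped Classical Pointwise

/-! ### Part I: surfaces -/

/-- (Mon) Monotonicity.
Proof.  First part: let `ψ ∈ Loc g l h`.  A letter outside `[l', l' + h')` is outside `[l, l + h)`, so
fixed.  Letters of `[l', l' + h')`: those in `[l, l + h)` go to `Let g l h ≤ Let g l' h'`, the others are
fixed; so `ψ` maps `Let g l' h'` into itself, and so does `ψ⁻¹` (also in `Loc g l h`); this is the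
iff.  Second part: clear from the first. -/
def St_Mon : Prop := ∀ (g l h l' h' : ℕ), l' ≤ l → l + h ≤ l' + h' → Loc g l h ≤ Loc g l' h' ∧
  ∀ {Q : Type} [Group Q] (ρ : F g 0 →* Q), Sm ρ l h ⊆ Sm ρ l' h'

/-- (Hnd) Twists in one handle and its rotation.
Proof.  `e2 i k`, `e1 i k` of `PW/Autos` and `(rr i)⁻¹` of `PWM/Rot` (`rri_a`: `a_i ↦ (b_i)⁻¹`); they fix
`bdry`, fix the letters of the other handles and map the letters of the handle `i` into the group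
generated by these two letters, and so do their inverses.  (Prove first: `ψ ∈ Loc g i 1` if `ψ` fixes
`bdry` and all the other letters and if `ψ` and `ψ⁻¹` map `ga i`, `gb i` into `Let g i 1`.) -/
def St_Hnd : Prop := ∀ (g : ℕ) (i : Fin g),
  (∀ k : ℤ, ∃ ψ ∈ Loc g i 1, ψ (ga i) = ga i * gb i ^ k ∧ ψ (gb i) = gb i) ∧
  (∀ k : ℤ, ∃ ψ ∈ Loc g i 1, ψ (ga i) = ga i ∧ ψ (gb i) = gb i * ga i ^ k) ∧
  ∃ ψ ∈ Loc g i 1, ψ (ga i) = (gb i)⁻¹

/-- (Sws) The handle `i` can be moved to the place `j`.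
Proof.  Induction on `j - i`.  `i = j`: identity.  Step from `j` to `j + 1`: let `ψ` be as wanted for
`(i, j)`; put `ψ' = (Sw j (j+1))⁻¹ * ψ` (`PWM/Swp`: `(Sw i j h)⁻¹` maps `ga i ↦ ga j`, `gb i ↦ gb j` for
`j = i + 1`, `Sw_inv_ai`, `Sw_inv_bi`; it fixes `bdry` and the other letters, and maps
the letters of `i + 1` into the group of the letters of `i, i + 1`, `Sw_inv_aj`, `Sw_inv_bj`; the same
for `Sw i j h`).  So `ψ' (ga i) = (Sw ..)⁻¹ (ga j) = ga (j + 1)`. -/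
def St_Sws : Prop := ∀ (g : ℕ) (i j : Fin g), (i : ℕ) ≤ j →
  ∃ ψ ∈ Loc g i ((j : ℕ) - (i : ℕ) + 1), ψ (ga i) = ga j ∧ ψ (gb i) = gb j

/-- (Ext) `a_i ↦ a_i a_(i+1)`.
Proof.  `ψ = e2 i 1 * rr i * psh i j h (-1) * (rr i)⁻¹` with `j = i + 1` (`mid g n i j = 1`,
`PWM` or `PWX`: `mid_one`, `pw_one`).  With `a = ga i`, `b = gb i`, `s = ga j`, `t = gb j` it is
`a ↦ a s`, `b ↦ s⁻¹ b s`, `s ↦ s⁻¹ b s b⁻¹ s`, `t ↦ t s⁻¹ b⁻¹ s`, all the other letters fixed.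
(`rr i : a ↦ a b a⁻¹, b ↦ a⁻¹`; `psh i j h (-1) : a ↦ a, b ↦ s⁻¹ b a, s ↦ w⁻¹ s w, t ↦ t s⁻¹ w`
with `w = b a⁻¹ b⁻¹ s`.)  One may also define the endomorphism and its inverse
`a ↦ a b⁻¹ s⁻¹ b`, `b ↦ b⁻¹ s b s⁻¹ b`, `s ↦ b⁻¹ s b`, `t ↦ t b` by these formulas and check that
`[a s, s⁻¹ b s] [s⁻¹ b s b⁻¹ s, t s⁻¹ b⁻¹ s] = [a, b] [s, t]` (it holds in every group). -/
def St_Ext : Prop := ∀ (g : ℕ) (i j : Fin g), (j : ℕ) = i + 1 →
  ∃ ψ ∈ Loc g i 2, ψ (ga i) = ga i * ga j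

/-- (Prd) Products of simple closed curves in consecutive blocks.
Proof.  Let `x = ρ (ψ (ga i))`, `y = ρ (ψ' (ga j))`, `ψ ∈ Loc g l h`, `ψ' ∈ Loc g (l+h) h'`, `i` in the first,
`j` in the second block, so `i < j`.  `ψ` fixes the elements of `Let g (l+h) h'`, so `Ψ = ψ * ψ'` has
`Ψ (ga i) = ψ (ga i)` (`ψ'` fixes `ga i`) and `Ψ (ga j) = ψ (ψ' (ga j)) = ψ' (ga j)` (`ψ' (ga j)` lies in
`Let g (l+h) h'`).  So `x * y = ρ (Ψ (ga i * ga j))`, `Ψ ∈ Loc g l (h+h')` (`St_Mon`).  Let `i' = i + 1 ≤ j`.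
By `St_Ext` there is `χ ∈ Loc g i 2` with `χ (ga i) = ga i * ga i'`, and by `St_Sws` `ω ∈ Loc g i' (j-i'+1)`
with `ω (ga i') = ga j`; `ω` fixes `ga i`.  So `ω (χ (ga i)) = ga i * ga j` and
`x * y = ρ ((Ψ * ω * χ) (ga i))`. -/
def St_Prd : Prop := ∀ {Q : Type} [Group Q] {g : ℕ} (ρ : F g 0 →* Q) (l h h' : ℕ) (x y : Q),
  x ∈ Sm ρ l h → y ∈ Sm ρ (l + h) h' → x * y ∈ Sm ρ l (h + h')

/-- (Gen) The simple closed curves of a block generate the group of the block.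
Proof.  `Sm ρ l h` is contained in `ρ (Let g l h)` because `ψ (ga i) ∈ Let g l h`.  Conversely `ρ (ga i)`
and `ρ ((gb i)⁻¹)` are in `Sm ρ l h` for `i` in the block (`St_Hnd`, `St_Mon`). -/
def St_Gen : Prop := ∀ {Q : Type} [Group Q] {g : ℕ} (ρ : F g 0 →* Q) (l h : ℕ),
  Subgroup.closure (Sm ρ l h) = (Let g l h).map ρ

/-- (Par) The products of consecutive `a_i`.
Proof.  Induction on `j` from `j = 1`: `pa g l 1 = ga l` (`ga l ∈ Sm`: `ψ = 1`), and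
`pa g l (j + 1) = pa g l j * ga (l + j)` with `pa g l j ∈ Sm ρ l j`, `ga (l + j) ∈ Sm ρ (l + j) 1`
(`St_Prd`); then `St_Mon`. -/
def St_Par : Prop := ∀ {Q : Type} [Group Q] {g : ℕ} (ρ : F g 0 →* Q) (l j r : ℕ),
  1 ≤ j → j ≤ r → l + r ≤ g → ρ (pa g l j) ∈ Sm ρ l r

/-- (Frm) Every simple closed curve can be moved to `a_0 a_1 ... a_(g-1)`.
Proof.  `Loc g 0 g = MCGd g` (`Let g 0 g = ⊤`).  Let `q = ρ (ψ (ga i))`.  By `St_Sws` there is `ω` with
`ω (ga 0) = ga i`.  By induction on `k` there is `χ_k ∈ MCGd g` with `χ_k (ga 0) = pa g 0 (k+1)`, `k < g`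
(`χ_0 = 1`; `χ_(k+1) = ε * χ_k` with `ε ∈ Loc g k 2` from `St_Ext`, `ε (ga k) = ga k * ga (k+1)`, `ε` fixes
`ga l`, `l < k`).  Then `ω (χ_(g-1)⁻¹ (pa g 0 g)) = ga i` and `q = ρ ((ψ * ω * χ_(g-1)⁻¹) (pa g 0 g))`. -/
def St_Frm : Prop := ∀ {Q : Type} [Group Q] {g : ℕ} (ρ : F g 0 →* Q) (q : Q), q ∈ Sm ρ 0 g →
  ∃ ψ ∈ MCGd g, ρ (ψ (pa g 0 g)) = q

/-- (Mtw) The multitwist about the curve `c = a_0 a_1 ... a_(g-1)`.
Proof.  Put `C i = pa g (i+1) (g-i-1) * pa g 0 (i+1) = a_(i+1) ... a_(g-1) a_0 ... a_i`.  Let `T_k` be the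
endomorphism with the given values on the letters.  (1) `T_k c = c` because `c` is the product
of the `ga i` and each is conjugated by `c ^ (-k)`; `T_k (C i) = c ^ (-k) * C i * c ^ k` (same reason).
(2) `T_k ∘ T_l = T_(k+l)`: `T_k (c ^ (-l) * C i ^ l * gb i * c ^ l) =
c ^ (-l) * (c ^ (-k) * C i ^ l * c ^ k) * (c ^ (-k) * C i ^ k * gb i * c ^ k) * c ^ l`.  So `T_k` is an
automorphism with the inverse `T_(-k)`.  (3) `T_k` fixes `bdry`: put `C (-1) = c`; for all `i`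
`a_i * C i = C (i-1) * a_i`, so `a_i * (C i) ^ k = (C (i-1)) ^ k * a_i`, hence
`[T_k a_i, T_k b_i] = c^(-k) * C (i-1)^k * [a_i, b_i] * C i ^(-k) * c^k`; the product over `i` telescopes to
`c^(-k) * c^k * (∏ [a_i, b_i]) * C (g-1)^(-k) * c^k` and `C (g-1) = c`.  (Formally: prove by induction on `j` that
the image of the product of the first `j` commutators is
`(that product) * (C (j-1))^(-k) * c^k`.) -/
def St_Mtw : Prop := ∀ (g : ℕ) (k : ℤ), ∃ ψ ∈ MCGd g, ∀ i : Fin g,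
  ψ (ga i) = (pa g 0 g) ^ (-k) * ga i * (pa g 0 g) ^ k ∧
  ψ (gb i) = (pa g 0 g) ^ (-k) *
    ((pa g ((i : ℕ) + 1) (g - (i : ℕ) - 1) * pa g 0 ((i : ℕ) + 1)) ^ k * gb i) * (pa g 0 g) ^ k

/-- (Pre) Change of the frame.
Proof.  `MCGd g = Loc g 0 g` (for `x ∈ Let g 0 g = ⊤` trivial), so `ψ' ↦ ψ * ψ'` is a bijection of
`Loc g 0 g`; `pre (pre ρ ψ) ψ' = pre ρ (ψ * ψ')`. -/
def St_Pre : Prop := ∀ (p g : ℕ) (ρ : F g 0 →* SL p), ∀ ψ ∈ MCGd g,
  Sm (pre ρ ψ) 0 g = Sm ρ 0 g ∧ ∀ u, Tight ρ u → Tight (pre ρ ψ) u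

/-- (Blk) A handle which can be killed in a block can be killed.
Proof.  Let `φ ∈ MCG h 0` kill the handle `0` of `ρ ∘ blk`.  `φ (bdry) = w * bdry * w⁻¹` for some `w`;
`ψ x = w⁻¹ * φ x * w` is in `MCGd h` and still kills the handle `0` (`ρ (blk (w⁻¹ x w)) = 1` if
`ρ (blk x) = 1`).  By `PWM/Blk` (`exists_ext`) there is `Ψ ∈ MCG g n` with `Ψ (blk x) = blk (ψ x)`, so
`ρ (Ψ (ga l)) = ρ (Ψ (gb l)) = 1` for the first handle `l` of the block.  Moving the handle `0`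
to the place `l` by the swaps `(Sw i (i+1))⁻¹` (`PWM/Swp`) gives `ω ∈ MCG g n` with `ω (ga 0) = ga l`,
`ω (gb 0) = gb l`; take `Ψ * ω`. -/
def St_Blk : Prop := ∀ {Q : Type} [Group Q] {g n : ℕ} (ρ : F g n →* Q) (h l : ℕ) (hl : l + h ≤ g),
  Dead (ρ.comp (blk h g n l hl)) → Dead ρ

/-- (Two) Two handles.
Proof.  `ρ ∘ blk` for the block `[0, h)` is `Dead`, so `Dead ρ` (`St_Blk`): some `φ₁ ∈ MCG g n` kills the
handle `0`.  Put `ρ' = pre ρ φ₁`.  The composite of `ρ'` with the block `[1, 1 + h)` is `Dead`; as in the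
proof of `St_Blk` get `ψ ∈ MCGd h` which kills its handle `0` and `Ψ ∈ MCG g n` with `Ψ (blk x) = blk (ψ x)`
which fixes the letters of the handle `0` (`exists_ext`).  So `ρ' ∘ Ψ` kills the handles `0` and `1`;
`φ = φ₁ * Ψ`. -/
def St_Two : Prop := ∀ {Q : Type} [Group Q] (h : ℕ), 0 < h → (∀ ρ : F h 0 →* Q, Dead ρ) →
  ∀ {g n : ℕ} (ρ : F g n →* Q), h + 1 ≤ g →
  ∃ φ ∈ MCG g n, ∀ i : Fin g, (i : ℕ) < 2 → ρ (φ (ga i)) = 1 ∧ ρ (φ (gb i)) = 1

/-- (Ded) Killing by cost.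
Proof.  `PWX.go_of_cost2` (for the arguments see the proof of
`Pool/Agent/Results/MP_26af1b_gt/AbelianByCost.lean`: `go_of_cost2 (st_KCyc st_KEuc) st_KChr
(st_KChief kpair) (st_KFrat st_KPush) (st_Ind st_Real) hc _ ρ hρ` with
`kpair := st_KPair (st_KSlide st_KConj)`) for the surjection of `F g n` onto the range of `ρ`; as
`0 < g - s` the handle `0` goes to `⊥`. -/
def St_Ded : Prop := ∀ {Q : Type} [Group Q] [Finite Q] {g n : ℕ} (ρ : F g n →* Q) (s : ℕ),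
  Cost2 ρ.range s ⊥ → s < g → Dead ρ

/-- (Cst) Costs.
Proof.  First part: `Cost2.index` from `⊤` to `⊥`: `relIndex = Nat.card Q = r + 1`, cost `r`.
Second part: `Cost2.cyclic` from `⊤` to `M` and from `M` to `⊥` (`M` is cyclic). -/
def St_Cst : Prop := ∀ {Q : Type} [Group Q] [Finite Q],
  Cost2 Q (Nat.card Q - 1) ⊥ ∧
  ∀ M : Subgroup Q, M.Normal → IsCyclic M → (∃ w : Q, ∀ x : Q, ∃ k : ℤ, (w ^ k)⁻¹ * x ∈ M) →
    Cost2 Q 2 ⊥

/-- (Fot) A simple closed curve in the kernel.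
Proof.  Let `1 = ρ (ψ (ga i))`.  Let `ω ∈ MCGd g` move the handle `0` to the place `i` (`St_Sws`), so
`ρ' = pre ρ (ψ * ω)` has `ρ' (ga 0) = 1`.  By the hypothesis there is `y ∈ Let g 1 (g-1)` with
`ρ' y = (ρ' (gb 0))⁻¹`.  `Let g 1 (g-1) = away 0` (`PW/Central`; there are no letters `gc`), so `pushable_eq` gives
`φ ∈ MCG g 0` with `φ (ga 0) = ga 0` and `qa 0 z (φ (gb 0)) = qa 0 z (y * gb 0)`; since `ρ'` kills the
normal closure of `ga 0`, `ρ' (φ (gb 0)) = ρ' y * ρ' (gb 0) = 1`.  So `ψ * ω * φ` kills the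
handle `0` of `ρ` (`MCGd g ≤ MCG g 0`). -/
def St_Fot : Prop := ∀ {Q : Type} [Group Q] {g : ℕ} (ρ : F g 0 →* Q), (1 : Q) ∈ Sm ρ 0 g →
  (∀ ψ ∈ MCGd g, (Let g 1 (g - 1)).map (pre ρ ψ) = ⊤) → Dead ρ

/-! ### Part II: the group `SL_2(F_p)` -/

/-- (Com) Centralisers are commutative; the centre; the order of the group.
Proof.  If `c` is not central then `c` is not a scalar matrix (a scalar matrix commutes with
everything) and the matrices which commute with `c` are the `α + β c` (there is a vector `v` with `v`, `c v`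
a basis; write `x v = α v + β c v`; then `x` and `α + β c` agree on `v` and on `c v`); these commute.
The centre: `x` central commutes with `!![1,1;0,1]` and `!![1,0;1,1]`, so `x` is scalar, `x = ±1`.
The order: `Matrix.card_GL_field` and the surjection `det` onto the units (kernel `SL`), or directly:
count the pairs (first column nonzero, then `p` second columns). -/
def St_Com : Prop := ∀ (p : ℕ) [Fact p.Prime],
  (∀ c x y : SL p, NC c → x ∈ Cz c → y ∈ Cz c → x * y = y * x) ∧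
  (∀ x : SL p, x ∈ Subgroup.center (SL p) ↔ x = 1 ∨ x = -1) ∧
  Nat.card (SL p) = p * (p ^ 2 - 1)

/-- (Cen) The size of centralisers and normalisers.
Proof.  `Cz c = {α + β c}` with `det = α² + α β τ + β² = 1`, `τ = tr c` (see `St_Com`; `c` not scalar): for each
`β` at most two `α`, so at most `2 p` elements.  Let `τ ≠ 2, -2`.  If `x = α + β c ∈ Cz c` is not central, i.e.
`β ≠ 0`: `tr x = 2α + βτ` and `(tr x)² - 4 = (2α + βτ)² - 4(α² + αβτ + β²) = β² (τ² - 4) ≠ 0`.  If `x ∈ Nz c`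
then `x c x⁻¹ = α + β c` commutes with `c` and has trace `τ`: `2α = τ(1 - β)`; in the equation `det = 1`
(times `4`): `(1 - β²)(τ² - 4) = 0`, so `β = ±1`, `x c x⁻¹ = c` or `= c⁻¹ (= τ - c)`.  So
`Nz c` is the union of `Cz c` and of at most one coset of `Cz c`. -/
def St_Cen : Prop := ∀ (p : ℕ) [Fact p.Prime], 3 ≤ p → ∀ c : SL p, NC c →
  Nat.card (Cz c) ≤ 2 * p ∧
  (tr c ≠ 2 → tr c ≠ -2 → Nat.card (Nz c) ≤ 2 * Nat.card (Cz c) ∧
    ∀ x ∈ Cz c, NC x → tr x ≠ 2 ∧ tr x ≠ -2)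

/-- (Nrm) The centraliser of a noncentral element is not normal.
Proof.  If `Nz c = ⊤` then all conjugates of `c` are in `Cz c`.  Their number is
`card (SL p) / card (Cz c) ≥ p (p² - 1) / (2 p) = (p² - 1)/2`, and `Cz c` has at most `2 p` elements
(`St_Com`, `St_Cen`): `p² - 1 ≤ 4 p`, so `p < 5`. -/
def St_Nrm : Prop := ∀ (p : ℕ) [Fact p.Prime], 5 ≤ p → ∀ c : SL p, NC c → Nz c ≠ ⊤

/-- (Trc) Few traces of elements of small order.
Proof.  For `d ≥ 1` the elements with `x ^ d = 1` have at most `d` traces: over an algebraic closure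
`K` of `ZMod p` the matrix `x` has an eigenvalue `λ`; `λ ^ d = 1`, and the trace is `λ + λ⁻¹`
(`det = 1`); there are at most `d` such `λ`.  Sum over `1 ≤ d < t`. -/
def St_Trc : Prop := ∀ (p : ℕ) [Fact p.Prime] (t : ℕ),
  {τ : ZMod p | ∃ x : SL p, orderOf x < t ∧ tr x = τ}.ncard ≤ t ^ 2

/-- (Seq) The trace functions `l ↦ tr (c ^ l b)`.
Proof.  Let `K` be an algebraic closure.  Case 1: `tr c ≠ ±2`.  Then `c` has two distinct eigenvalues
`μ`, `μ⁻¹` in `K`; in a basis of eigenvectors `b` has diagonal entries `α`, `β` and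
`tr (c ^ l b) = α μ ^ l + β μ ^ (-l)`.  `l ↦ μ ^ l` is injective on `l < orderOf c`.  If `(α, β) ≠ (0,0)` the
equation `α X² - τ X + β = 0` has at most two solutions `X = μ ^ l`: `Nd c b`.  If `α = β = 0` then
`b` exchanges the two eigenlines, `b c b⁻¹ = c⁻¹`, so `b ∈ Nz c`.  So if neither `Nd c b` nor
`Nd c (b a)` then `b` and `b a` exchange the two eigenlines, `a` keeps them, `a` commutes with `c`:
`a ∈ Cz c ≤ Nz c`.
Case 2: `tr c = 2 ε`, `ε = ±1`: `c = ε (1 + n)`, `n² = 0`, `n ≠ 0` (`c` is not central), `c ^ l = ε ^ l (1 + l n)`,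
`orderOf c` is `p` or `2 p`; `tr (c ^ l b) = ε ^ l (tr b + l tr (n b))`.  If `tr (n b) ≠ 0` then for each
`τ` and each of the two values of `ε ^ l` the residue of `l` modulo `p` is determined, so there are
at most `4` values `l < 2 p`: `Nd c b`.  If `tr (n b) = 0` then `b` keeps the line `im n = ker n`
(`n = v φ`, `φ v = 0`, `tr (n b) = φ (b v)`), so `b n b⁻¹` is a multiple of `n` and `b ∈ Nz c` (`Cz c` is the set
of the `±(1 + x n)`).  So if neither `Nd c b` nor `Nd c (b a)` then `b`, `b a ∈ Nz c`. -/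
def St_Seq : Prop := ∀ (p : ℕ) [Fact p.Prime], 3 ≤ p → ∀ a b c : SL p, NC c →
  Nd c b ∨ Nd c (b * a) ∨ (a ∈ Nz c ∧ b ∈ Nz c)

/-- (Spn) Right ideals.
Proof.  `V` contains all `x ∈ SL p`, so `!![1,1;0,1] - 1 = E_12`, `E_21`, and
`!![1,1;0,1] * !![1,0;1,1] = !![2,1;1,1]`, so `!![1,0;0,0]`, and `E_22 = 1 - E_11`. -/
def St_Spn : Prop := ∀ (p : ℕ) [Fact p.Prime] (V : Submodule (ZMod p) (M2 p)), (1 : M2 p) ∈ V →
  (∀ x : SL p, ∀ v ∈ V, v * (x : M2 p) ∈ V) → V = ⊤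

/-- (Gn2) Two noncommuting unipotent elements generate.
Proof.  `u = 1 + n`, `v = 1 + n'`, `n² = n'² = 0` (Cayley-Hamilton), `n, n' ≠ 0`.  The lines `im n = ker n`
and `im n' = ker n'` are different (else `n n' = 0 = n' n`).  Let `e`, `f` be vectors of these lines; in the
basis `e, f`: `u = !![1,a;0,1]`, `v = !![1,0;b,1]`, `a, b ≠ 0`.  The powers of `u` are all `!![1,x;0,1]` (the
field is `ZMod p`), those of `v` all `!![1,0;y,1]`.  A matrix `!![a,b;c,d]` of determinant one with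
`c ≠ 0` is `!![1,(a-1)/c;0,1] * !![1,0;c,1] * !![1,(d-1)/c;0,1]`; if `c = 0` multiply by `!![1,0;1,1]` first.
(Conjugation by a matrix of `GL_2` is an automorphism of `SL p`.) -/
def St_Gn2 : Prop := ∀ (p : ℕ) [Fact p.Prime] (u v : SL p), tr u = 2 → tr v = 2 → u * v ≠ v * u →
  Subgroup.closure ({u, v} : Set (SL p)) = ⊤

/-- (Cyc) The centraliser of a noncentral element is cyclic and has a cyclic quotient in its
normaliser.
Proof.  `tr c ≠ ±2`: let `v` be an eigenvector of `c` over an algebraic closure `K`; every `x ∈ Cz c` has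
`x v = χ(x) v` (the eigenvalues of `c` are distinct), `χ` is an injective homomorphism to the units of
`K` (the other eigenvalue is `χ(x)⁻¹`; `χ(x) = 1` gives `x = 1` since `x` is diagonalisable), so `Cz c` is
cyclic (a finite subgroup of the units of a field); `Nz c` has at most two cosets of `Cz c`
(`St_Cen`; or directly), `w` in the nontrivial one.  `tr c = 2 ε`: `c = ε(1+n)`,
`Cz c = {±(1 + x n)}` is generated by `-(1 + n)` (order `2 p`, `p` odd): `(-(1+n))^k = (-1)^k (1 + k n)`.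
The elements of `Nz c` keep the line `im n` (`x n x⁻¹` is a multiple of `n`); the eigenvalue on it is a
homomorphism `Nz c → (ZMod p)ˣ` whose kernel consists of unipotent elements `1 + x n ∈ Cz c`; its image is
cyclic; let `w` be a preimage of a generator. -/
def St_Cyc : Prop := ∀ (p : ℕ) [Fact p.Prime], 3 ≤ p → ∀ c : SL p, NC c → IsCyclic (Cz c) ∧
  ∃ w ∈ Nz c, ∀ x ∈ Nz c, ∃ k : ℤ, (w ^ k)⁻¹ * x ∈ Cz c

/-- (Dka) The class equation.
Proof.  Write `z = card Z`.  Let `X` be the complement of `Z`.  For `x, y ∈ X` which commute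
`Cz x = Cz y`; commuting is an equivalence relation on `X` and the class of `x` is `Cz x \ Z`; `Z ≤ Cz x`.
For `x ∈ X` put `c = card (Cz x)`, `e = card (Nz x) / c ∈ {1, 2}` (`Cz x ≤ Nz x`), `a = c / z ≥ 2`.  Call
`x, y ∈ X` linked if `Cz y` is a conjugate of `Cz x`: an equivalence relation; the class of `x` has
`(card H / card (Nz x)) (c - z)` elements, the fraction `(1 - 1/a)/e ≥ 1/4` of `card H`.  So, if `r` is the
number of the classes, `∑ (1 - 1/a_i)/e_i = 1 - 1/h` with `h = card H / z`, and `r ≤ 3`.  Suppose `h > 60` and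
`Nz x ≠ ⊤` for all `x ∈ X`, i.e. `e_i a_i < h` (it divides `h`).  `r = 0`: `H = Z`, `h = 1`.  `r = 1`: `e = 1`
gives `a = h`, no; `e = 2`: left side `< 1/2`, no.  `r = 2`: `e = (1,1)`: left side `≥ 1`, no;
`e = (2,2)`: `1/a_1 + 1/a_2 = 2/h` but `a_i < h`, no; `e = (1,2)`: `1/a_1 + 1/(2 a_2) = 1/2 + 1/h`: `a_1 = 2` gives
`h = 2 a_2`, no; `a_1 ≥ 3` gives `1/(2 a_2) > 1/6`, `a_2 = 2`, `1/a_1 = 1/4 + 1/h`, `a_1 = 3`, `h = 12`, no.
`r = 3`: if some `e_i = 1` the left side is `≥ 1/2 + 1/4 + 1/4`, no; so `∑ 1/a_i = 1 + 2/h`,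
`a_1 ≤ a_2 ≤ a_3`: `a_1 = 2`, `1/a_2 + 1/a_3 = 1/2 + 2/h`: `a_2 = 2` gives `h = 2 a_3`, no; `a_2 = 3`: `a_3 < 6`,
`a_3 = 3, 4, 5` gives `h = 12, 24, 60`, no; `a_2 ≥ 4`: left side `≤ 1/2`, no.
(Formally: pick `x_1 ∈ X`, its class; if there is more, `x_2`, and so on; four disjoint classes have more
than `card X` elements.) -/
def St_Dka : Prop := ∀ {H : Type} [Group H] [Finite H] (Z : Subgroup H), Z ≤ Subgroup.center H →
  (∀ x y z : H, x ∉ Z → x * y = y * x → x * z = z * x → y * z = z * y) →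
  (∀ x : H, x ∉ Z → Nat.card (Nz x) ≤ 2 * Nat.card (Cz x)) →
  Nat.card H ≤ 60 * Nat.card Z ∨ ∃ x : H, x ∉ Z ∧ Nz x = ⊤

/-- (Dik) The subgroups of `SL_2(F_p)`.
Proof.  `p = 2, 3`: `card (SL p) ≤ 24` (`St_Com`).  Let `p ≥ 5`.  Case `p ∣ card H`: there is `u ∈ H` of order
`p` (Cauchy); `(u - 1)^p = u^p - 1 = 0` as matrices, so `u - 1` is nilpotent, `tr u = 2`; `u` is not
central.  If `u` commutes with all its conjugates under `H` then for `x ∈ H`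
`Cz (x u x⁻¹) = Cz u` (`St_Com`), i.e. `x ∈ Nz u`: `H ≤ Nz u`.  Otherwise `v = x u x⁻¹` does not commute with `u`
and `H = ⊤` by `St_Gn2`.  Case `p` does not divide `card H`: let `Z` be the set of `x : H` which are central in
`SL p` (at most two elements).  `St_Dka` for `H`: commuting is transitive by `St_Com`; for `x : H`
outside `Z` the trace is not `±2` (else `x` is `±(1 + n)` and `x ^ 2 = 1 + 2 n` has order `p`);
the elements of `H` which normalise `Cz x ∩ H` normalise `Cz x` (in `SL p`): if `y` is one then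
`y x y⁻¹ ∈ Cz x` is not central, so `y Cz x y⁻¹ = Cz (y x y⁻¹) = Cz x`; by `St_Cen` (the proof of it:
`y x y⁻¹ = x` or `x⁻¹`; or: `Nz x` has at most two cosets of `Cz x`, so `H ∩ Nz x` has at most two cosets of
`H ∩ Cz x`) the second hypothesis of `St_Dka` holds.  So `card H ≤ 120` or `H ≤ Nz x`. -/
def St_Dik : Prop := ∀ (p : ℕ) [Fact p.Prime] (H : Subgroup (SL p)), H = ⊤ ∨ Nat.card H ≤ 120 ∨
  ∃ c : SL p, NC c ∧ H ≤ Nz c

/-- (Prp) A block with a small image can be killed.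
Proof.  `ρ' = ρ ∘ blk h g 0 l`, its range `H` is the image of `Let g l h`.  `St_Dik`: if
`card H ≤ 120` then `Cost2 H s ⊥`, `s = card H - 1 ≤ 119 < h` (`St_Cst`).  If `H ≤ Nz c`, `p ≥ 3`: `M = H ∩ Cz c`
(as a subgroup of `H`) is normal, cyclic, and `H/M` embeds in the cyclic group `Nz c / Cz c`
(`St_Cyc`), so it is cyclic: `Cost2 H 2 ⊥`.  `p = 2`: `card H ≤ 6` (`St_Com`).  In all cases `Dead ρ'`
(`St_Ded`) and `Dead ρ` (`St_Blk`). -/
def St_Prp : Prop := ∀ (p : ℕ) [Fact p.Prime] {g : ℕ} (ρ : F g 0 →* SL p) (l h : ℕ), 120 ≤ h →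
  l + h ≤ g → (Let g l h).map ρ ≠ ⊤ → Dead ρ

/-- (Tgt) If no handle can be killed then `ρ` is tight.
Proof.  `Dead (pre ρ ψ)` implies `Dead ρ` for `ψ ∈ MCGd g` (`MCGd g ≤ MCG g 0`).  `full`: `St_Prp`.
`one`: `St_Fot`, since `Let g 1 (g-1)` contains `Let g 1 120` (`121 ≤ g`). -/
def St_Tgt : Prop := ∀ (p : ℕ) [Fact p.Prime] {g : ℕ} (ρ : F g 0 →* SL p), 121 ≤ g → ¬ Dead ρ →
  Tight ρ 120

/-! ### Part III: growth in `SL_2(F_p)` -/

/-- (Ruz) Ruzsa's calculus.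
Proof.  Ruzsa's triangle inequality (Mathlib: `Finset.ruzsa_triangle_inequality_...`):
`|X W| |Y| ≤ |X Y⁻¹| |Y W|`.  (1) For `w, w' ∈ {A, A R}`: `|w⁻¹ w'| |L| ≤ |w⁻¹ L⁻¹| |L w'| = |L w| |L w'| ≤ (K N)²`,
so `|w⁻¹ w'| ≤ K² N`.  (2) `|A⁻¹ A A⁻¹ A R| |R| ≤ |A⁻¹ A R| |R⁻¹ A⁻¹ A R| ≤ (K² N)²`
(`X = A⁻¹ A`, `W = A⁻¹ A R`, `Y = R⁻¹`; the last factor is `w⁻¹ w` for `w = A R`), so it is `≤ K⁴ N`.
(3) `|D³| |R| ≤ |D² R| |R⁻¹ D| ≤ K⁴ N K² N`. -/
def St_Ruz : Prop := ∀ {G : Type} [Group G] [DecidableEq G] (L A R : Finset G) (N K : ℕ), 0 < N →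
  N ≤ L.card → N ≤ A.card → N ≤ R.card → (L * A).card ≤ K * N → (L * A * R).card ≤ K * N →
  (A⁻¹ * A).card ≤ K ^ 2 * N ∧ ((A⁻¹ * A) ^ 3).card ≤ K ^ 6 * N

/-- (One) Cosets of centralisers.
Proof.  Let `W` be the set on the left; if it is empty nothing to do; let `y ∈ W`, so
`W ⊆ y Cz c`.  Some `h ∈ D` has `h y ∉ Nz c`: else `y ∈ Nz c` (`1 ∈ D`) and `D ⊆ Nz c`, `Nz c = ⊤`, against `St_Nrm`.
The map `W × W → D^(2k+1)`, `(w, w') ↦ w h w'`: put `w = y x`, `w' = y x'`, `γ = h y`: `w h w' = y (x γ x')`.  If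
`x γ x' = u γ u'` (`x, x', u, u' ∈ Cz c`) then `u⁻¹ x = γ (u' x'⁻¹) γ⁻¹ ∈ Cz c ∩ Cz (γ c γ⁻¹)`; if this were
not central it would follow (`St_Com`) that `Cz c = Cz (γ c γ⁻¹) = γ (Cz c) γ⁻¹`, `γ ∈ Nz c`.  So
`u ∈ {x, -x}`, and `u'` is determined by `u`: the fibres have at most two elements. -/
def St_One : Prop := ∀ (p : ℕ) [Fact p.Prime], 5 ≤ p → ∀ (D : Finset (SL p)) (k : ℕ), 1 ∈ D →
  Subgroup.closure (D : Set (SL p)) = ⊤ → ∀ g c : SL p, NC c →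
  ((D ^ k).filter fun y => g⁻¹ * y ∈ Cz c).card ^ 2 ≤ 2 * (D ^ (2 * k + 1)).card

/-- (Lin) Three trace conditions.
Proof.  `1, u, v` are linearly independent (`u` is not scalar, and `v = α + β u` would commute with `u`), so by
the nondegeneracy of the trace form the matrices `w` with `tr w = tr (w u) = tr (w v) = 0` form
a line, spanned by some `w ≠ 0`, and the set `S` on the left is contained in an affine line
`y + F w`, `y ∈ S`.  `det (y + s w) = det y + s tr (adj y * w) + s² det w`.  If `S` has at least three elements the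
quadratic polynomial `det (y + s w) - 1` has three zeros, so it is zero: `det w = 0`, hence
`w² = 0` (`tr w = 0`, Cayley-Hamilton), and `tr (adj y * w) = 0` with `adj y = τ - y`: `tr (y w) = 0`
for each `y ∈ S`. -/
def St_Lin : Prop := ∀ (p : ℕ) [Fact p.Prime] (τ : ZMod p) (u v : SL p), NC u → v ∉ Cz u →
  {y : SL p | tr y = τ ∧ tr (y * u) = τ ∧ tr (y * v) = τ}.ncard ≤ 2 ∨
  ∃ w : M2 p, w ≠ 0 ∧ w * w = 0 ∧ Matrix.trace (w * (u : M2 p)) = 0 ∧
    Matrix.trace (w * (v : M2 p)) = 0 ∧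
    ∀ y : SL p, tr y = τ → tr (y * u) = τ → tr (y * v) = τ → Matrix.trace (w * (y : M2 p)) = 0

/-- (Lne) Elements which keep a line.
Remember: a nonzero `w` with `w² = 0` is `w = v φ`, `φ v = 0`, `v ≠ 0`, `φ ≠ 0` (rank one; `ker w = im w =` the
line of `v`), and `tr (w y) = φ (y v)` vanishes iff `v` is an eigenvector of `y`.
Proof.  (1) products and inverses of elements which keep the line keep it.
(2) The eigenvalue `μ` of `y` on the line satisfies `μ² - τ μ + 1 = 0`: at most two values.  For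
two elements `y, y'` with the same `μ` the quotient `y⁻¹ y'` fixes `v`, so it is `1 + s w`-like (it
keeps `v` and has determinant one) and commutes with `c = 1 + w ∈ SL p`, which is not central.  So
these `y` are in one coset `y Cz c`: at most `M` elements of `Y`.  (3) `y` has two distinct
eigenvalues (`τ² ≠ 4`), so at most two eigenlines, and `w` is determined by its line up to a
scalar: the sets `{x | tr (w x) = 0}` for the possible `w` are at most two; take `w_1, w_2` (if there are fewer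
take any nonzero `w_i` with `w_i² = 0`). -/
def St_Lne : Prop := ∀ (p : ℕ) [Fact p.Prime], 3 ≤ p → ∀ τ : ZMod p, τ ≠ 2 → τ ≠ -2 →
  (∀ (w : M2 p) (x y : SL p), w ≠ 0 → w * w = 0 → Matrix.trace (w * (x : M2 p)) = 0 →
    Matrix.trace (w * (y : M2 p)) = 0 → Matrix.trace (w * ((x * y : SL p) : M2 p)) = 0) ∧
  (∀ (w : M2 p) (Y : Finset (SL p)) (M : ℕ), w ≠ 0 → w * w = 0 → (∀ y ∈ Y, tr y = τ) →
    (∀ g c : SL p, NC c → (Y.filter fun y => g⁻¹ * y ∈ Cz c).card ≤ M) →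
    (Y.filter fun y => Matrix.trace (w * (y : M2 p)) = 0).card ≤ 2 * M) ∧
  ∀ y : SL p, tr y = τ → ∃ w₁ w₂ : M2 p, w₁ ≠ 0 ∧ w₁ * w₁ = 0 ∧ w₂ ≠ 0 ∧ w₂ * w₂ = 0 ∧
    ∀ w : M2 p, w ≠ 0 → w * w = 0 → Matrix.trace (w * (y : M2 p)) = 0 →
    (∀ x : SL p, Matrix.trace (w * (x : M2 p)) = 0 → Matrix.trace (w₁ * (x : M2 p)) = 0) ∨
    ∀ x : SL p, Matrix.trace (w * (x : M2 p)) = 0 → Matrix.trace (w₂ * (x : M2 p)) = 0

/-- (Tri) Triples in a conjugacy class.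
Proof.  Consider the triples `(y0, y1, y2) ∈ Y³`, `u = y0⁻¹ y1`, `v = y0⁻¹ y2`, both in `Y⁻¹ Y`.  Bad triples:
(B1) `u` central: `y1 = ±y0`, at most `2 |Y|²` triples; (B2) `u` not central, `v ∈ Cz u`, i.e.
`y2 ∈ y0 Cz u`: at most `M |Y|²`; (B3) some `w ≠ 0`, `w² = 0` has `tr (w y0) = tr (w y1) = 0`: for fixed
`y0` this means `y1` in one of two sets (`St_Lne`, third part) of at most `2 M` elements each: at most
`4 M |Y|²`.  For the other triples `(u, v)` determines `y0` up to two possibilities: `y0` is in the set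
of `St_Lin` for `(τ, u, v)`; if this set has more than two elements then the `w` of `St_Lin` has
`tr (w y0) = 0`, `tr (w u) = 0`, so `tr (w y1) = tr (w (y0 u)) = 0` (`St_Lne`, first part), against (B3).
So `|Y|³ ≤ 2 |Y⁻¹ Y|² + (2 + 5 M) |Y|²`. -/
def St_Tri : Prop := ∀ (p : ℕ) [Fact p.Prime], 3 ≤ p → ∀ (τ : ZMod p) (Y : Finset (SL p)) (M : ℕ),
  τ ≠ 2 → τ ≠ -2 → (∀ y ∈ Y, tr y = τ) →
  (∀ g c : SL p, NC c → (Y.filter fun y => g⁻¹ * y ∈ Cz c).card ≤ M) →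
  Y.card ^ 3 ≤ 2 * (Y⁻¹ * Y).card ^ 2 + (2 + 5 * M) * Y.card ^ 2

/-- (Cls) Few elements in a conjugacy class.
Proof.  `|D^m| ≤ K^(m-2) |D| ≤ K^m a`, `a = |D|` (`Finset.small_pow_of_small_tripling`).  `Y =` the set on the
left; `Y⁻¹ Y ⊆ D^8` (`D` symmetric), `M = ⌊√(2 K^9 a)⌋` (`St_One` with `k = 4`).  `St_Tri`:
`|Y|³ ≤ 2 (K^8 a)² + (2 + 5 M) |Y|²`; if `|Y| ≥ 2 (2 + 5 M)` then `|Y|³ ≤ 4 K^16 a²`; otherwise
`|Y| ≤ 4 + 10 M ≤ 4 + 15 √(K^9 a) ≤ 19 √(K^9 a)`, `|Y|³ ≤ 6859 (K^9 a)^(3/2) ≤ 7000 K^16 a²` (`a ≥ 1`, `K ≥ 1`). -/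
def St_Cls : Prop := ∀ (p : ℕ) [Fact p.Prime], 5 ≤ p → ∀ (D : Finset (SL p)) (K : ℕ), 1 ≤ K → 1 ∈ D →
  D⁻¹ = D → Subgroup.closure (D : Set (SL p)) = ⊤ → (D ^ 3).card ≤ K * D.card →
  ∀ τ : ZMod p, τ ≠ 2 → τ ≠ -2 →
  ((D ^ 4).filter fun y => tr y = τ).card ^ 3 ≤ 7000 * K ^ 16 * D.card ^ 2

/-- (Orb) Rich tori.
Proof.  The map `D → (D ^ 4).filter (tr = tr c)`, `x ↦ x c x⁻¹` (`c ∈ D²`, `D` symmetric).  If `x c x⁻¹ = x' c x'⁻¹` then
`x⁻¹ x' ∈ D² ∩ Cz c`; so each fibre has at most `R` elements, `R = |D² ∩ Cz c|`, and `a ≤ R |Y|` with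
`|Y|³ ≤ 7000 K^16 a²` (`St_Cls`): `a³ ≤ R³ 7000 K^16 a²`. -/
def St_Orb : Prop := ∀ (p : ℕ) [Fact p.Prime], 5 ≤ p → ∀ (D : Finset (SL p)) (K : ℕ), 1 ≤ K → 1 ∈ D →
  D⁻¹ = D → Subgroup.closure (D : Set (SL p)) = ⊤ → (D ^ 3).card ≤ K * D.card →
  ∀ c ∈ D ^ 2, NC c → tr c ≠ 2 → tr c ≠ -2 →
  D.card ≤ 7000 * K ^ 16 * ((D ^ 2).filter fun y => y ∈ Cz c).card ^ 3

/-- (Reg) There is a regular semisimple element.
Proof.  Suppose all elements of `D²` have trace `±2`.  `D ⊆ D²` (`1 ∈ D`).  Write `a ∈ D` as `ε (1 + n)`,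
`ε = ±1`, `n² = 0` (`tr a = 2 ε`; `p ≠ 2`).  For `a, b ∈ D`: `a b`, `a b⁻¹ ∈ D²` have the traces
`εε' (2 + x)`, `εε' (2 - x)`, `x = tr (n n')`; both are `±2`, so `x ∈ {0, -4}` and `x ∈ {0, 4}`, hence `x = 0`
(`p` odd).  Two matrices with `n² = n'² = 0`, `tr (n n') = 0` satisfy `n n' = n' n = 0` (if `n ≠ 0` take a
basis in which `n = E_12`; then `n' = !![x,y;z,-x]` with `z = tr (n n') = 0`, so `x = 0`).  So all the elements of
`D` commute and `SL p = closure D` is commutative, which is false.  A noncentral element is not needed: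
trace `≠ ±2` implies not central. -/
def St_Reg : Prop := ∀ (p : ℕ) [Fact p.Prime], 3 ≤ p → ∀ D : Finset (SL p), 1 ∈ D → D⁻¹ = D →
  Subgroup.closure (D : Set (SL p)) = ⊤ → ∃ c ∈ D ^ 2, NC c ∧ tr c ≠ 2 ∧ tr c ≠ -2

/-- (Piv) The pivot argument.
Proof.  Let `E` be the set of the `x` such that some noncentral `c' ∈ D²` is in `x (Cz c) x⁻¹ = Cz (x c x⁻¹)`.
`1 ∈ E` (`c' = c`).  Claim: `x ∈ E`, `d ∈ D` imply `d x ∈ E`; then `E = ⊤` (`D` is symmetric and generates).  Let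
`T = Cz (x c x⁻¹) = Cz c'` (`St_Com`); `tr c' ≠ ±2` (`St_Cen` for `x c x⁻¹`).  `R = |D² ∩ T|` satisfies
`a ≤ 7000 K^16 R³` (`St_Orb` for `c'`).  Suppose `D² ∩ d T d⁻¹` consists of central elements.  The map
`D × (D² ∩ T) → D^5`, `(y, t) ↦ y (d t d⁻¹)`: if `y (d t d⁻¹) = y' (d t' d⁻¹)` then
`y'⁻¹ y = d t' t⁻¹ d⁻¹ ∈ D² ∩ d T d⁻¹` is central, `±1`: the fibres have at most two elements, so
`a R ≤ 2 |D^5| ≤ 2 K^5 a`, `R ≤ 2 K^5`, `a ≤ 7000 K^16 8 K^15 = 56000 K^31`, a contradiction. -/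
def St_Piv : Prop := ∀ (p : ℕ) [Fact p.Prime], 5 ≤ p → ∀ (D : Finset (SL p)) (K : ℕ), 1 ≤ K → 1 ∈ D →
  D⁻¹ = D → Subgroup.closure (D : Set (SL p)) = ⊤ → (D ^ 3).card ≤ K * D.card →
  56000 * K ^ 31 < D.card → ∀ c ∈ D ^ 2, NC c → tr c ≠ 2 → tr c ≠ -2 →
  ∀ x : SL p, ∃ c' ∈ D ^ 2, NC c' ∧ c' ∈ Cz (x * c * x⁻¹)

/-- (Hel) Growth (Helfgott's theorem).
Proof.  Suppose `a = |D| > 450000 K^31`.  Take `c` from `St_Reg`.  For `x : SL p` let `T_x = Cz (x c x⁻¹)` and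
`r_x` the number of noncentral elements of `D²` in `T_x`.  By `St_Piv` there is one, `c'`; `T_x = Cz c'`,
`tr c' ≠ ±2`, and by `St_Orb` `(r_x + 2)³ ≥ a / (7000 K^16)`; let `R` be the least natural number with
`a ≤ 7000 K^16 R³`; as `a > 448000 K^31`, `R³ > 64 K^15`, `R ≥ 4`, and `r_x ≥ R - 2 ≥ R/2`.
Double counting of the pairs `(x, y)`, `y ∈ D²` noncentral, `y ∈ T_x`: for fixed `y` all these `x` have
`T_x = Cz y`, so they are in one coset of `Nz c`, at most `2 |Cz c| ≤ 4 p` (`St_Cen`).  So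
`|SL p| R / 2 ≤ |D²| 4 p`, `(p² - 1) R ≤ 8 |D²| ≤ 8 |D³| ≤ 8 K a`; cube:
`(p² - 1)³ a ≤ (p² - 1)³ R³ 7000 K^16 ≤ 512 K³ a³ 7000 K^16`, so `(p² - 1)³ ≤ 3584000 K^19 a²`, and
`p^6 ≤ (25/24)³ (p² - 1)³ ≤ 4100000 K^19 a²`, `p³ ≤ 2100 K^10 a`. -/
def St_Hel : Prop := ∀ (p : ℕ) [Fact p.Prime], 5 ≤ p → ∀ (D : Finset (SL p)) (K : ℕ), 1 ≤ K → 1 ∈ D →
  D⁻¹ = D → Subgroup.closure (D : Set (SL p)) = ⊤ → (D ^ 3).card ≤ K * D.card →
  D.card ≤ 450000 * K ^ 31 ∨ p ^ 3 ≤ 2100 * K ^ 10 * D.card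

/-- (Rep) Frobenius: invariant spaces of functions are large.
Proof.  Write `(R_x f)(y) = f (y x)`, `R_x R_y = R_(xy)`; `u_t = !![1,t;0,1]`, `d_s = !![s,0;0,s⁻¹]`.
Case A: all `R_(u_t)` are the identity on `V`.  Then so are their conjugates (`V` is invariant), in
particular the `R_x` with `x` lower unipotent; these generate `SL p` (`St_Gn2`, or elementary
matrices), so each `f ∈ V` is constant, with sum zero, so `f = 0`, against `V ≠ ⊥`.  Case B: the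
operators `R_(u_t)`, `t : ZMod p`, commute and have order `p`: `f = ∑_ψ P_ψ f`,
`P_ψ f = (1/p) ∑_t ψ(-t) R_(u_t) f ∈ V`, `ψ` over the characters of `ZMod p`, `R_(u_t) P_ψ f = ψ(t) P_ψ f`.  As not
all `R_(u_t)` are the identity there are a nontrivial `ψ` and `h ∈ V`, `h ≠ 0`, `R_(u_t) h = ψ(t) h`.
For `s ≠ 0` put `h_s = R_(d_s) h ∈ V`, `≠ 0`; `u_t d_s = d_s u_(s⁻² t)`, so `R_(u_t) h_s = ψ(s⁻² t) h_s`.  The
characters `ψ(s⁻² t)` for the `(p-1)/2` different values of `s⁻²` are different (`ψ` is injective),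
so the corresponding `h_s` are linearly independent (eigenvectors of `R_(u_1)` with different
eigenvalues). -/
def St_Rep : Prop := ∀ (p : ℕ) [Fact p.Prime], 3 ≤ p → ∀ V : Submodule ℂ (SL p → ℂ), V ≠ ⊥ →
  RInv V → (p - 1) / 2 ≤ Module.finrank ℂ V

/-- (Spc) The spectral gap.
Proof.  `M = Lt A` is linear and commutes with the right translations; `S = M^* M` (for the standard
inner product of `G → ℂ`; `M^* = Lt A⁻¹`) is selfadjoint, positive, commutes with right translations and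
keeps the space `E` of the functions with sum zero.  If `E = 0` nothing to do.  Let `λ ≥ 0` be the largest
eigenvalue of `S` on `E`; its eigenspace `V ≤ E` is `RInv` and not `⊥`, so `d ≤ finrank V`.  The trace of `S` is
`∑_x ‖M δ_x‖² = |G| |A|` and it is at least `λ finrank V` (all the eigenvalues are `≥ 0`), so
`d λ ≤ |G| |A|`.  For `f ∈ E`: `‖M f‖² = ⟨S f, f⟩ ≤ λ ‖f‖²`. -/
def St_Spc : Prop := ∀ {G : Type} [Group G] [Fintype G] (d : ℕ),
  (∀ V : Submodule ℂ (G → ℂ), V ≠ ⊥ → RInv V → d ≤ Module.finrank ℂ V) →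
  ∀ (A : Finset G) (f : G → ℂ), ∑ x, f x = 0 →
  (d : ℝ) * ∑ x, ‖Lt A f x‖ ^ 2 ≤ (A.card : ℝ) * (Fintype.card G : ℝ) * ∑ x, ‖f x‖ ^ 2

/-- (Gow) Gowers's theorem: the product of three large sets is everything.
Proof.  `d = (p - 1)/2` (`p` is odd).  `1_B = |B|/|G| + f`, `∑ f = 0`, `‖f‖² ≤ |B|`.  The number of the `(a, b, c)` with
`a b c = x` is `∑_y (Lt A 1_B)(y) 1_C(y⁻¹ x) = |A||B||C|/|G| + ⟨Lt A f, 1_(x C⁻¹)⟩`, and the last term is at most
`‖Lt A f‖ |C|^(1/2) ≤ (|A| |G| / d)^(1/2) |B|^(1/2) |C|^(1/2)` (`St_Spc`, `St_Rep`).  It is positive if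
`|A||B||C| > |G|³/d`. -/
def St_Gow : Prop := ∀ (p : ℕ) [Fact p.Prime], 3 ≤ p → ∀ A B C : Finset (SL p),
  2 * Nat.card (SL p) ^ 3 < A.card * B.card * C.card * (p - 1) →
  ∀ x : SL p, ∃ a ∈ A, ∃ b ∈ B, ∃ c ∈ C, a * b * c = x

/-! ### Part IV: assembly -/

/-- (Bas) Four independent simple curves (or `1`).
Proof.  For a block `J` let `V_J` be the span of `1` and of `Sm ρ J`.  Let `J_1, J_2, J_3` be the three blocks of `u`
handles from `l` on.  The products `x_1 x_2 x_3`, `x_i ∈ {1} ∪ Sm ρ J_i`, are in `{1} ∪ Sm ρ l (3u)` (`St_Prd`,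
`St_Mon`).  Claim: if `V` is a space with `1 ∈ V ≠ ⊤` then `V ⊔ (span of the v x, v ∈ V, x ∈ Sm ρ J_i)` has larger
dimension: else `v x ∈ V` for all `v ∈ V`, `x ∈ Sm ρ J_i`; the `x` with `V x ⊆ V` form a submonoid, in the
finite group a subgroup, which contains `closure (Sm ρ J_i) = ρ (Let J_i) = ⊤` (`St_Gen`, `Tight.full` with
`ψ = 1`), so `V = ⊤` (`St_Spn`).  `V_(J_1)` has dimension at least two (`Sm ρ J_1` generates `SL p`, so it contains a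
nonscalar element), `V_(J_1) V_(J_2)` at least three, `V_(J_1) V_(J_2) V_(J_3)` is everything.  So the set
`{1} ∪ Sm ρ l (3u)` spans `M2 p`; choose a basis in it. -/
def St_Bas : Prop := ∀ (p : ℕ) [Fact p.Prime] {g : ℕ} (ρ : F g 0 →* SL p) (u l : ℕ), Tight ρ u →
  l + 3 * u ≤ g → ∃ e : Fin 4 → SL p, LinearIndependent (ZMod p) (fun i => (e i : M2 p)) ∧
    ∀ i, e i = 1 ∨ e i ∈ Sm ρ l (3 * u)

/-- (Upb) The upper bound.
Proof.  Let `e` be as in `St_Bas` for the block `[0, 3u)`.  For `y ∈ Sm ρ l h` all the `e_i y` are in `Sm ρ 0 g` (`St_Prd`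
with the block `[0, l)` and `Sm ρ 0 (3u) ⊆ Sm ρ 0 l`, then `St_Mon`), so they have order at most `s` and
`tr (e_i y)` is in a set of at most `(s + 1)²` elements (`St_Trc`).  The `e_i` are a basis of `M2 p`, so `y` is
determined by the four traces (the trace form is nondegenerate). -/
def St_Upb : Prop := ∀ (p : ℕ) [Fact p.Prime] {g : ℕ} (ρ : F g 0 →* SL p) (u l h s : ℕ),
  Tight ρ u → 3 * u ≤ l → l + h ≤ g → (∀ q ∈ Sm ρ 0 g, orderOf q ≤ s) →
  (Sm ρ l h).ncard ≤ (s + 1) ^ 8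

/-- (Gro) The lower bound by the products `a_l ... a_(l+j-1)`.
Proof.  The `ρ (pa g l j)`, `1 ≤ j ≤ r`, are in `Sm ρ l r` (`St_Par`) and they are different: if
`ρ (pa g l i) = ρ (pa g l j)`, `i < j`, then `pa g l j = pa g l i * pa g (l+i) (j-i)` gives
`ρ (pa g (l+i) (j-i)) = 1`, and this is in `Sm ρ 0 g` (`St_Par`, `St_Mon`). -/
def St_Gro : Prop := ∀ {Q : Type} [Group Q] [Finite Q] {g : ℕ} (ρ : F g 0 →* Q) (l r : ℕ),
  (1 : Q) ∉ Sm ρ 0 g → l + r ≤ g → r ≤ (Sm ρ l r).ncard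

/-- (Flo) Every block has a handle whose trace function is not degenerate.
Proof.  Write `A_k = ρ (ga k)`, `B_k = ρ (gb k)`, `C_k = ρ (pa g (k+1) (g-k-1) * pa g 0 (k+1))`, `C = ρ (pa g 0 g)`;
`C_k` is conjugate to `C` (`C = X Y`, `C_k = Y X` with `X = ρ (pa g 0 (k+1))`), so it has the same order `s ≥ 3` and it
is not central (`St_Com`: central elements have order at most two).  Suppose that for all `k` in the block
`[l, l + u)` neither `Nd C_k B_k` nor `Nd C_k (B_k A_k)`.  Then `A_k, B_k ∈ Nz C_k` (`St_Seq`).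
`A_k C_k A_k⁻¹ = C_(k-1)` for `k ≥ 1` (`A_k A_(k+1) ... = ...`), so `Cz C_(k-1) = A_k (Cz C_k) A_k⁻¹ = Cz C_k`: all
the `Nz C_k` of the block are the same group `N`, and `ρ (Let g l u) ≤ N`, `N ≠ ⊤` (`St_Nrm`), against
`Tight.full` (`ψ = 1`). -/
def St_Flo : Prop := ∀ (p : ℕ) [Fact p.Prime], 5 ≤ p → ∀ {g : ℕ} (ρ : F g 0 →* SL p) (u l : ℕ),
  Tight ρ u → l + u ≤ g → 3 ≤ orderOf (ρ (pa g 0 g)) → ∃ k : Fin g, l ≤ (k : ℕ) ∧ (k : ℕ) < l + u ∧
  ∃ j : ℕ, Nd (ρ (pa g ((k : ℕ) + 1) (g - (k : ℕ) - 1) * pa g 0 ((k : ℕ) + 1)))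
    (ρ (gb k * ga k ^ j))

/-- (Flw) In some frame all the blocks contain an element of large order.
Proof.  By `St_Frm` and `St_Pre` we may assume `ρ (pa g 0 g) = q`, of order `s`.  For `i < m` let `k_i`, `j_i` be as in
`St_Flo` for the block `[l + i v, l + i v + u)`; these blocks are disjoint.  Let `ψ₁ ∈ MCGd g` be the
product of the `gb k_i ↦ gb k_i * ga k_i ^ j_i` (`St_Hnd`); it fixes all the `ga k`, so all the `pa`.  Let
`ψ₂` be the multitwist with `0 ≤ k < s` (`St_Mtw`), `ψ = ψ₁ * ψ₂`.  `ρ (ψ (gb k_i))` is conjugate to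
`C_i ^ k * B_i'`, `B_i' = ρ (gb k_i * ga k_i ^ j_i)`, `C_i` of order `s`.  The number of the `k < s` for which
this element has order `< t` is at most `4 t²` (`St_Trc`, `Nd`), so for all `i` together at most
`4 m t² < s`: some `k` is good for all `i`.  Then `ρ (ψ (ga k_i * gb k_i ^ j))`, `j < t`, are `t` different
elements of `Sm (pre ρ ψ) (l + i v) u` (`St_Hnd`, `St_Mon`). -/
def St_Flw : Prop := ∀ (p : ℕ) [Fact p.Prime], 5 ≤ p → ∀ {g : ℕ} (ρ : F g 0 →* SL p)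
  (u v l m s t : ℕ) (q : SL p), Tight ρ u → u ≤ v → l + m * v ≤ g → q ∈ Sm ρ 0 g → orderOf q = s →
  3 ≤ s → 4 * m * t ^ 2 < s → ∃ ψ ∈ MCGd g, ∀ i < m, t ≤ (Sm (pre ρ ψ) (l + i * v) u).ncard

/-- (Scl) The scales.
Proof.  Let `m_r` be the minimum of `f i (3^r)` over `i + 3^r ≤ 3^R`, `r ≤ R`.  `m_0 ≥ T`,
`m_R = f 0 (3^R) < K^R T`.  So for some `r < R` we have `m_(r+1) ≤ K m_r` (otherwise `m_R ≥ K^R T`).  Take
`i` with `f i (3^(r+1)) = m_(r+1)`, `h = 3^r`, `N = m_r ≥ m_0 ≥ T` (`m_r ≤ m_(r+1)` by monotonicity: the interval with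
`f = m_(r+1)` contains an interval of length `3^r`). -/
def St_Scl : Prop := ∀ (f : ℕ → ℕ → ℕ) (R K T : ℕ),
  (∀ i h i' h', i' ≤ i → i + h ≤ i' + h' → i' + h' ≤ 3 ^ R → f i h ≤ f i' h') →
  (∀ i < 3 ^ R, T ≤ f i 1) → f 0 (3 ^ R) < K ^ R * T →
  ∃ i h N, 1 ≤ h ∧ i + 3 * h ≤ 3 ^ R ∧ T ≤ N ∧ N ≤ f i h ∧ N ≤ f (i + h) h ∧ N ≤ f (i + 2 * h) h ∧
    f i (3 * h) ≤ K * N

/-- (Ari) The choice of the constants.
Proof.  `R = 9300`, `m = 3^R`.  `K` is the largest natural number with `4 m (10^32 K^612)² < s`, and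
`T = 10^32 K^612`.  Then `s ≤ 4 m 10^64 (K+1)^1224 ≤ c K^1224` with `c = 4 m 10^64 2^1224`, so
`(s + 1)^8 ≤ (2 c)^8 K^9792`, which is less than `K^R T` if `K^120 > (2 c)^8`; this holds if `s` is large.
(Keep `m` as a variable; never let the numbers be computed.) -/
def St_Ari : Prop := ∃ R S : ℕ, ∀ s, S ≤ s → ∃ K T : ℕ, 1 ≤ K ∧ T = 10 ^ 32 * K ^ 612 ∧
  4 * 3 ^ R * T ^ 2 < s ∧ (s + 1) ^ 8 < K ^ R * T

/-- (End) No tight `ρ` has consecutive blocks without growth.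
Proof.  Suppose the contrary.  Let `L, A, R` be the sets `Sm ρ l h`, `Sm ρ (l+h) h`, `Sm ρ (l+2h) h` as finsets.
`L A R ⊆ Sm ρ l (3h)`, `L A ⊆ Sm ρ l (2h) ⊆ Sm ρ l (3h)` (`St_Prd`, `St_Mon`), so both have at most `K N` elements
(`N ≥ 10^32 > 0`).  `D = A⁻¹ A`: `|D| ≤ K² N`, `|D³| ≤ K^6 N ≤ K^6 |D|` (`St_Ruz`; `|D| ≥ |A| ≥ N`).  `1 ∈ D`, `D⁻¹ = D`.
`D` generates: let `J'` be the first handle of the block `[l+h, l+2h)` and `J''` the other ones (at least `u`);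
for `x' ∈ Sm ρ J'` (not empty), `x'' ∈ Sm ρ J''`: `x' x''`, `x' ∈ A`, so `x'' ∈ D`; and `Sm ρ J''` generates
`ρ (Let J'') = ⊤` (`St_Gen`, `Tight.full` with `ψ = 1`, `Let` is monotone).  `St_Hel` with `K^6`: either
`N ≤ |D| ≤ 450000 K^186`, impossible; or `p³ ≤ 2100 K^60 |D| ≤ 2100 K^62 N`.  Then
`|L||A||R| (p - 1) ≥ N³ (p - 1) ≥ p^9 (p - 1) / (2100³ K^186) > 2 |SL p|³`, because `|SL p| < p³` and
`p³ > |SL p| ≥ |A| ≥ N ≥ 10^32 K^612 > (4 * 10^10 K^204)³`, so `p > 4 * 10^10 K^204` and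
`p - 1 ≥ 4 * 10^10 K^204 > 2 * 2100³ K^186` (`2100³ < 10^10`).  So by `St_Gow` `1 = a b c` with `a ∈ L`, `b ∈ A`, `c ∈ R`, and
`1 ∈ Sm ρ l (3h) ⊆ Sm ρ 0 g`, against `Tight.one`. -/
def St_End : Prop := ∀ (p : ℕ) [Fact p.Prime], 5 ≤ p → ∀ {g : ℕ} (ρ : F g 0 →* SL p)
  (u l h N K : ℕ), Tight ρ u → u + 1 ≤ h → l + 3 * h ≤ g → 1 ≤ K → 10 ^ 32 * K ^ 612 ≤ N →
  N ≤ (Sm ρ l h).ncard → N ≤ (Sm ρ (l + h) h).ncard → N ≤ (Sm ρ (l + 2 * h) h).ncard →
  (Sm ρ l (3 * h)).ncard ≤ K * N → False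

/-- (Cor) The core theorem: for one genus, all `p`.
Proof.  Let `R`, `S` be as in `St_Ari` and `u = 120`, `v = 121`, `r = (S + 1)^8 + 1`, `g₀ = 3u + 3^R v + r`.  Let
`ρ : F g₀ 0 →* SL p` and suppose `¬ Dead ρ`.  `p = 2, 3`: `card (SL p) ≤ 24` (`St_Com`), `Dead` by `St_Ded`, `St_Cst`
(`card - 1 < g₀`), contradiction.  Let `p ≥ 5`.  `Tight ρ u` (`St_Tgt`).  Let `s` be the maximal order of the elements
of `Sm ρ 0 g₀`, attained by `q`.  `St_Gro`, `St_Upb` for `[3u, 3u + r)`: `r ≤ (s + 1)^8`, so `s > S`, wlog `S ≥ 3`.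
Let `K`, `T` be as in `St_Ari` for `s`.  `St_Flw` with `l = 3u`, `m = 3^R`, `t = T`: replace `ρ` by `pre ρ ψ`
(`St_Pre`: still tight, the same `Sm ρ 0 g₀`).  Put `f i h = (Sm ρ (3u + i v) (h v)).ncard`: monotone (`St_Mon`),
`T ≤ f i 1` (`Sm ρ (3u + i v) u ⊆ Sm ρ (3u + i v) v`), `f 0 (3^R) ≤ (s+1)^8 < K^R T` (`St_Upb`).  `St_Scl` gives
`i, h, N`; `St_End` with `3u + i v`, `h v ≥ 121` is a contradiction. -/
def St_Cor : Prop := ∃ g₀ : ℕ, 0 < g₀ ∧ ∀ (p : ℕ) [Fact p.Prime] (ρ : F g₀ 0 →* SL p), Dead ρ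

/-- (Fin) The theorem.
Proof.  `g₁ = g₀ + 1`, `g₀` from `St_Cor`.  By `St_Two` there is `φ ∈ MCG g n` with `ρ (φ (ga i)) = ρ (φ (gb i)) = 1` for
`i < 2`.  `PWB.infinite_of_block` (`PWB/Main`) with `B` the image of `ρ.ker` in `Deck K = F g n ⧸ K.normalCore`: it is
normal, commutative because `⁅ρ.ker, ρ.ker⁆` is normal and contained in `K`, so in `K.normalCore`. -/
def St_Fin : Prop := ∃ g₁ : ℕ, ∀ (p : ℕ) [Fact p.Prime] (g n : ℕ), g₁ ≤ g →
  ∀ (ρ : F g n →* SL p) (K : Subgroup (F g n)) [K.FiniteIndex], ⁅ρ.ker, ρ.ker⁆ ≤ K →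
  bdry g n ∈ K.normalCore → ∀ f : K → ℚ, IsClass K f → f ≠ 0 → (orbit K f).Infinite

end Pool.Agent.PWS
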