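import Mathlib
import Pool.Agent.PWS.St

/-!
Campaign PWS: (Cen) the size of centralisers and normalisers in `SL_2`.
-/

set_option autoImplicit false

namespace Pool.Agent.PWS

open scoped Classical

section

variable {p : ℕ}

theorem Cen_det (x : SL p) : (x : M2 p) 0 0 * (x : M2 p) 1 1 - (x : M2 p) 0 1 * (x : M2 p) 1 0 = 1 := by
  have h := x.det_coe
  rwa [Matrix.det_fin_two] at h

theorem Cen_tr (x : SL p) : tr x = (x : M2 p) 0 0 + (x : M2 p) 1 1 := by
  unfold tr
  rw [Matrix.trace_fin_two]

theorem Cen_ext {x y : SL p} (h0 : (x : M2 p) 0 0 = (y : M2 p) 0 0)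
    (h1 : (x : M2 p) 0 1 = (y : M2 p) 0 1) (h2 : (x : M2 p) 1 0 = (y : M2 p) 1 0)
    (h3 : (x : M2 p) 1 1 = (y : M2 p) 1 1) : x = y := by
  apply Subtype.ext
  ext i j
  fin_cases i <;> fin_cases j
  · exact h0
  · exact h1
  · exact h2
  · exact h3

/-- Scalar matrices are central. -/
theorem Cen_sc {x : SL p} (h1 : (x : M2 p) 0 1 = 0) (h2 : (x : M2 p) 1 0 = 0)
    (h3 : (x : M2 p) 0 0 = (x : M2 p) 1 1) : x ∈ Subgroup.center (SL p) := by
  rw [Subgroup.mem_center_iff]
  intro g
  apply Cen_ext <;> simp only [Matrix.SpecialLinearGroup.coe_mul, Matrix.mul_apply,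
    Fin.sum_univ_two, h1, h2, h3] <;> ring

theorem Cen_mem {c x : SL p} : x ∈ Cz c ↔ c * x = x * c := by
  unfold Cz
  rw [Subgroup.mem_centralizer_iff]
  simp

variable [Fact p.Prime]

/-- The elements of the centraliser are linear in `c`. -/
theorem Cen_lin {c x : SL p} (hc : NC c) (hx : x ∈ Cz c) : ∃ α β : ZMod p,
    (x : M2 p) 0 0 = α + β * (c : M2 p) 0 0 ∧ (x : M2 p) 0 1 = β * (c : M2 p) 0 1 ∧
    (x : M2 p) 1 0 = β * (c : M2 p) 1 0 ∧ (x : M2 p) 1 1 = α + β * (c : M2 p) 1 1 := by
  have h := Cen_mem.1 hx
  have h' : ∀ i j, ((c * x : SL p) : M2 p) i j = ((x * c : SL p) : M2 p) i j := by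
    intro i j
    rw [h]
  have h00 := h' 0 0
  have h01 := h' 0 1
  have h10 := h' 1 0
  simp only [Matrix.SpecialLinearGroup.coe_mul, Matrix.mul_apply, Fin.sum_univ_two] at h00 h01 h10
  by_cases e1 : (c : M2 p) 0 1 = 0
  · by_cases e2 : (c : M2 p) 1 0 = 0
    · by_cases e3 : (c : M2 p) 0 0 - (c : M2 p) 1 1 = 0
      · exact absurd (Cen_sc e1 e2 (sub_eq_zero.1 e3)) hc
      · refine ⟨(x : M2 p) 0 0 - ((x : M2 p) 0 0 - (x : M2 p) 1 1) /
          ((c : M2 p) 0 0 - (c : M2 p) 1 1) * (c : M2 p) 0 0,
          ((x : M2 p) 0 0 - (x : M2 p) 1 1) / ((c : M2 p) 0 0 - (c : M2 p) 1 1), ?_, ?_, ?_, ?_⟩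
        · ring
        · rw [e1, mul_zero]
          rw [e1] at h01
          have : (x : M2 p) 0 1 * ((c : M2 p) 0 0 - (c : M2 p) 1 1) = 0 := by linear_combination h01
          exact (mul_eq_zero.1 this).resolve_right e3
        · rw [e2, mul_zero]
          rw [e2] at h10
          have : (x : M2 p) 1 0 * ((c : M2 p) 0 0 - (c : M2 p) 1 1) = 0 := by linear_combination -h10
          exact (mul_eq_zero.1 this).resolve_right e3
        · field_simp
          ring
    · refine ⟨(x : M2 p) 0 0 - (x : M2 p) 1 0 / (c : M2 p) 1 0 * (c : M2 p) 0 0,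
        (x : M2 p) 1 0 / (c : M2 p) 1 0, ?_, ?_, ?_, ?_⟩
      · ring
      · field_simp
        linear_combination -h00
      · field_simp
      · field_simp
        linear_combination -h10
  · refine ⟨(x : M2 p) 0 0 - (x : M2 p) 0 1 / (c : M2 p) 0 1 * (c : M2 p) 0 0,
      (x : M2 p) 0 1 / (c : M2 p) 0 1, ?_, ?_, ?_, ?_⟩
    · ring
    · field_simp
    · field_simp
      linear_combination h00
    · field_simp
      linear_combination h01

/-- The determinant. -/
theorem Cen_q {c x : SL p} {α β : ZMod p} (h00 : (x : M2 p) 0 0 = α + β * (c : M2 p) 0 0)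
    (h01 : (x : M2 p) 0 1 = β * (c : M2 p) 0 1) (h10 : (x : M2 p) 1 0 = β * (c : M2 p) 1 0)
    (h11 : (x : M2 p) 1 1 = α + β * (c : M2 p) 1 1) :
    α ^ 2 + α * β * tr c + β ^ 2 = 1 ∧ tr x = 2 * α + β * tr c := by
  have h1 := Cen_det x
  have h2 := Cen_det c
  rw [Cen_tr, Cen_tr]
  rw [h00, h01, h10, h11] at *
  constructor
  · linear_combination h1 - β ^ 2 * h2
  · ring

theorem Cen_card (τ : ZMod p) : ((Finset.univ : Finset (ZMod p × ZMod p)).filter fun w =>
    w.1 ^ 2 + w.1 * w.2 * τ + w.2 ^ 2 = 1).card ≤ 2 * p := by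
  have h := Finset.card_le_mul_card_image_of_maps_to (s := (Finset.univ : Finset (ZMod p × ZMod p)).filter
    fun w => w.1 ^ 2 + w.1 * w.2 * τ + w.2 ^ 2 = 1) (t := (Finset.univ : Finset (ZMod p)))
    (f := fun w => w.2) (fun _ _ => Finset.mem_univ _) 2 ?_
  · rwa [Finset.card_univ, ZMod.card] at h
  · intro β _
    by_cases hne : (((Finset.univ : Finset (ZMod p × ZMod p)).filter fun w =>
      w.1 ^ 2 + w.1 * w.2 * τ + w.2 ^ 2 = 1).filter fun w => w.2 = β).Nonempty
    · obtain ⟨⟨a, b⟩, hw⟩ := hne
      simp only [Finset.mem_filter, Finset.mem_univ, true_and] at hw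
      obtain ⟨hw1, hw2⟩ := hw
      subst hw2
      refine le_trans (Finset.card_le_card (t := {(a, b), (-(b * τ) - a, b)}) ?_) Finset.card_le_two
      rintro ⟨a', b'⟩ hw'
      simp only [Finset.mem_filter, Finset.mem_univ, true_and] at hw'
      obtain ⟨hw3, hw4⟩ := hw'
      subst hw4
      have h5 : (a' - a) * (a' + a + b' * τ) = 0 := by linear_combination hw3 - hw1
      rcases mul_eq_zero.1 h5 with h6 | h6
      · rw [sub_eq_zero.1 h6]
        simp
      · have : a' = -(b' * τ) - a := by linear_combination h6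
        rw [this]
        simp
    · rw [Finset.not_nonempty_iff_eq_empty] at hne
      rw [hne]
      simp

end

theorem thm_Cen : St_Cen := by
  intro p _ hp c hc
  have h2 : (2 : ZMod p) ≠ 0 := by
    intro h
    have h' : ((2 : ℕ) : ZMod p) = 0 := by exact_mod_cast h
    rw [ZMod.natCast_eq_zero_iff] at h'
    have := Nat.le_of_dvd (by norm_num) h'
    omega
  refine ⟨?_, fun ht1 ht2 => ?_⟩
  · choose α β h00 h01 h10 h11 using fun x : Cz c => Cen_lin hc x.2
    refine le_trans ?_ (Cen_card (tr c))
    rw [Nat.card_eq_fintype_card, ← Finset.card_univ]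
    refine Finset.card_le_card_of_injOn (fun x => (α x, β x)) ?_ ?_
    · intro x _
      simp only [Finset.coe_filter, Finset.mem_univ, true_and, Set.mem_ofPred_eq]
      exact (Cen_q (h00 x) (h01 x) (h10 x) (h11 x)).1
    · intro x _ y _ hxy
      have hα : α x = α y := congrArg Prod.fst hxy
      have hβ : β x = β y := congrArg Prod.snd hxy
      apply Subtype.ext
      apply Cen_ext
      · rw [h00 x, h00 y, hα, hβ]
      · rw [h01 x, h01 y, hβ]
      · rw [h10 x, h10 y, hβ]
      · rw [h11 x, h11 y, hα, hβ]
  · have ht : tr c ^ 2 - 4 ≠ 0 := by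
      intro h
      have : (tr c - 2) * (tr c + 2) = 0 := by linear_combination h
      rcases mul_eq_zero.1 this with h' | h'
      · exact ht1 (sub_eq_zero.1 h')
      · exact ht2 (eq_neg_of_add_eq_zero_left h')
    constructor
    · -- the conjugates of `c`
      have hcc : c ∈ Cz c := Cen_mem.2 rfl
      have hconj : ∀ x ∈ Nz c, x ∈ Cz c ∨ x * c * x⁻¹ = c⁻¹ := by
        intro x hx
        have h3 : x * c * x⁻¹ ∈ Cz c := (hx c).1 hcc
        obtain ⟨α, β, h00, h01, h10, h11⟩ := Cen_lin hc h3
        obtain ⟨hq, htr⟩ := Cen_q h00 h01 h10 h11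
        have htr' : tr (x * c * x⁻¹) = tr c := by
          unfold tr
          rw [Matrix.SpecialLinearGroup.coe_mul, Matrix.trace_mul_comm,
            ← Matrix.SpecialLinearGroup.coe_mul, ← mul_assoc, inv_mul_cancel, one_mul]
        rw [htr'] at htr
        have key : (1 - β ^ 2) * (tr c ^ 2 - 4) = 0 := by
          linear_combination 4 * hq + (tr c + 2 * α + β * tr c) * htr
        have h4 : (1 - β) * (1 + β) = 0 := by
          linear_combination (mul_eq_zero.1 key).resolve_right ht
        rcases mul_eq_zero.1 h4 with h5 | h5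
        · left
          have hβ : β = 1 := (sub_eq_zero.1 h5).symm
          have hα : α = 0 := by
            have : 2 * α = 0 := by
              rw [hβ] at htr
              linear_combination -htr
            exact (mul_eq_zero.1 this).resolve_left h2
          rw [hα, hβ] at h00 h11
          rw [hβ] at h01 h10
          have h6 : x * c * x⁻¹ = c := by
            apply Cen_ext
            · rw [h00]; ring
            · rw [h01]; ring
            · rw [h10]; ring
            · rw [h11]; ring
          rw [Cen_mem]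
          rw [mul_inv_eq_iff_eq_mul] at h6
          exact h6.symm
        · right
          have hβ : β = -1 := by linear_combination h5
          have hα : α = tr c := by
            have : 2 * (α - tr c) = 0 := by
              rw [hβ] at htr
              linear_combination -htr
            exact sub_eq_zero.1 ((mul_eq_zero.1 this).resolve_left h2)
          rw [hα, hβ, Cen_tr] at h00 h11
          rw [hβ] at h01 h10
          apply Cen_ext
          · rw [h00, Matrix.SpecialLinearGroup.coe_inv, Matrix.adjugate_fin_two]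
            simp
          · rw [h01, Matrix.SpecialLinearGroup.coe_inv, Matrix.adjugate_fin_two]
            simp
          · rw [h10, Matrix.SpecialLinearGroup.coe_inv, Matrix.adjugate_fin_two]
            simp
          · rw [h11, Matrix.SpecialLinearGroup.coe_inv, Matrix.adjugate_fin_two]
            simp
      by_cases hall : ∀ x ∈ Nz c, x ∈ Cz c
      · calc Nat.card (Nz c) ≤ Nat.card (Cz c) := Nat.card_le_card_of_injective
              (Subgroup.inclusion hall) (Subgroup.inclusion_injective hall)
          _ ≤ 2 * Nat.card (Cz c) := by omega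
      · push Not at hall
        obtain ⟨y, hy, hyc⟩ := hall
        have hy' := (hconj y hy).resolve_left hyc
        have hsub : ((Nz c : Subgroup (SL p)) : Set (SL p)) ⊆
            (Cz c : Set (SL p)) ∪ (fun z => y * z) '' (Cz c : Set (SL p)) := by
          intro x hx
          rcases hconj x hx with h | h
          · exact Or.inl h
          · right
            refine ⟨y⁻¹ * x, ?_, by group⟩
            show y⁻¹ * x ∈ Cz c
            rw [Cen_mem]
            rw [← hy'] at h
            calc c * (y⁻¹ * x) = y⁻¹ * (y * c * y⁻¹) * x := by group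
              _ = y⁻¹ * (x * c * x⁻¹) * x := by rw [h]
              _ = y⁻¹ * x * c := by group
        have h7 := Set.ncard_le_ncard hsub (Set.toFinite _)
        have h8 := Set.ncard_union_le (Cz c : Set (SL p)) ((fun z => y * z) '' (Cz c : Set (SL p)))
        have h9 := Set.ncard_image_le (f := fun z => y * z) (Set.toFinite (Cz c : Set (SL p)))
        have h10 : (Nz c : Set (SL p)).ncard = Nat.card (Nz c) := rfl
        have h11 : (Cz c : Set (SL p)).ncard = Nat.card (Cz c) := rfl
        omega
    · intro x hx hnc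
      obtain ⟨α, β, h00, h01, h10, h11⟩ := Cen_lin hc hx
      obtain ⟨hq, htr⟩ := Cen_q h00 h01 h10 h11
      have hβ : β ≠ 0 := by
        rintro rfl
        apply hnc
        apply Cen_sc
        · rw [h01, zero_mul]
        · rw [h10, zero_mul]
        · rw [h00, h11, zero_mul, zero_mul]
      have key : tr x ^ 2 - 4 = β ^ 2 * (tr c ^ 2 - 4) := by
        rw [htr]
        linear_combination 4 * hq
      have hne : tr x ^ 2 - 4 ≠ 0 := by
        rw [key]
        exact mul_ne_zero (pow_ne_zero 2 hβ) ht
      constructor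
      · intro h
        apply hne
        rw [h]
        ring
      · intro h
        apply hne
        rw [h]
        ring

end Pool.Agent.PWS
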