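import Pool.Agent.PWS.St

/-!
Campaign PWS, module Cls: few elements in a conjugacy class.
-/

set_option autoImplicit false

namespace Pool.Agent.PWS

open scoped Classical Pointwise

private theorem Cls_pow {G : Type} [Group G] [DecidableEq G] (D : Finset G) (K m : ℕ) (hm : 3 ≤ m)
    (hD : D⁻¹ = D) (h3 : (D ^ 3).card ≤ K * D.card) : (D ^ m).card ≤ K ^ (m - 2) * D.card := by
  have h := Finset.small_pow_of_small_tripling (A := D) (K := (K : ℝ)) hm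
    (by exact_mod_cast h3) hD
  exact_mod_cast h

private theorem Cls_num (n M K a : ℕ) (hK : 1 ≤ K) (ha : 1 ≤ a)
    (hM : M ^ 2 ≤ 2 * K ^ 7 * a) (h : n ^ 3 ≤ 2 * (K ^ 6 * a) ^ 2 + (2 + 5 * M) * n ^ 2) :
    n ^ 3 ≤ 7000 * K ^ 16 * a ^ 2 := by
  have hK12 : K ^ 12 ≤ K ^ 16 := Nat.pow_le_pow_right hK (by norm_num)
  have hK14 : K ^ 14 ≤ K ^ 16 := Nat.pow_le_pow_right hK (by norm_num)
  have h1 : 1 ≤ K ^ 16 * a ^ 2 := Nat.one_le_iff_ne_zero.2 (by positivity)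
  by_cases hn : 2 * (2 + 5 * M) ≤ n
  · have h2 : 2 * ((2 + 5 * M) * n ^ 2) ≤ n ^ 3 := by
      calc 2 * ((2 + 5 * M) * n ^ 2) = 2 * (2 + 5 * M) * n ^ 2 := by ring
        _ ≤ n * n ^ 2 := Nat.mul_le_mul_right _ hn
        _ = n ^ 3 := by ring
    have h3 : (K ^ 6 * a) ^ 2 = K ^ 12 * a ^ 2 := by ring
    rw [h3] at h
    have h4 : K ^ 12 * a ^ 2 ≤ K ^ 16 * a ^ 2 := Nat.mul_le_mul_right _ hK12
    have h5 : 7000 * K ^ 16 * a ^ 2 = 7000 * (K ^ 16 * a ^ 2) := by ring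
    rw [h5]
    omega
  · push Not at hn
    have h5 : 7000 * K ^ 16 * a ^ 2 = 7000 * (K ^ 16 * a ^ 2) := by ring
    rw [h5]
    by_cases hM1 : M ≤ 1
    · have h6 : n ≤ 13 := by omega
      have h7 : n ^ 3 ≤ 13 ^ 3 := Nat.pow_le_pow_left h6 3
      omega
    · have h6 : n ≤ 12 * M := by omega
      have h7 : n ^ 3 ≤ (12 * M) ^ 3 := Nat.pow_le_pow_left h6 3
      have h8 : 2 * M ^ 3 ≤ M ^ 4 := by
        calc 2 * M ^ 3 ≤ M * M ^ 3 := Nat.mul_le_mul_right _ (by omega)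
          _ = M ^ 4 := by ring
      have h9 : M ^ 4 ≤ 4 * (K ^ 14 * a ^ 2) := by
        calc M ^ 4 = (M ^ 2) ^ 2 := by ring
          _ ≤ (2 * K ^ 7 * a) ^ 2 := Nat.pow_le_pow_left hM 2
          _ = 4 * (K ^ 14 * a ^ 2) := by ring
      have h10 : K ^ 14 * a ^ 2 ≤ K ^ 16 * a ^ 2 := Nat.mul_le_mul_right _ hK14
      have h11 : (12 * M) ^ 3 = 1728 * M ^ 3 := by ring
      rw [h11] at h7
      omega

theorem thm_Cls (hOne : St_One) (hTri : St_Tri) : St_Cls := by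
  intro p _ hp D K hK h1D hDs hgen h3 τ hτ1 hτ2
  obtain ⟨Y, hY⟩ : ∃ Y, Y = (D ^ 4).filter fun y => tr y = τ := ⟨_, rfl⟩
  rw [← hY]
  have hYD : Y ⊆ D ^ 4 := by
    rw [hY]
    exact Finset.filter_subset _ _
  have h4 : (Y⁻¹ * Y).card ≤ K ^ 6 * D.card := by
    have h5 : Y⁻¹ * Y ⊆ D ^ 8 := by
      have h6 : (D ^ 8 : Finset (SL p)) = (D ^ 4)⁻¹ * D ^ 4 := by
        rw [← inv_pow, hDs, ← pow_add]
      rw [h6]
      exact Finset.mul_subset_mul (Finset.inv_subset_inv hYD) hYD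
    exact le_trans (Finset.card_le_card h5) (Cls_pow D K 8 (by norm_num) hDs h3)
  have h5 : ∀ g c : SL p, NC c → (Y.filter fun y => g⁻¹ * y ∈ Cz c).card ≤
      Nat.sqrt (2 * K ^ 7 * D.card) := by
    intro g c hc
    have h6 := hOne p hp D 4 h1D hgen g c hc
    have h7 : (D ^ (2 * 4 + 1)).card ≤ K ^ 7 * D.card := Cls_pow D K 9 (by norm_num) hDs h3
    have h8 : (Y.filter fun y => g⁻¹ * y ∈ Cz c).card ≤
        ((D ^ 4).filter fun y => g⁻¹ * y ∈ Cz c).card :=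
      Finset.card_le_card (Finset.filter_subset_filter _ hYD)
    rw [Nat.le_sqrt']
    calc (Y.filter fun y => g⁻¹ * y ∈ Cz c).card ^ 2
        ≤ ((D ^ 4).filter fun y => g⁻¹ * y ∈ Cz c).card ^ 2 := Nat.pow_le_pow_left h8 2
      _ ≤ 2 * (D ^ (2 * 4 + 1)).card := h6
      _ ≤ 2 * (K ^ 7 * D.card) := Nat.mul_le_mul_left _ h7
      _ = 2 * K ^ 7 * D.card := by ring
  have h6 := hTri p (by omega) τ Y _ hτ1 hτ2 (fun y hy => by
    rw [hY, Finset.mem_filter] at hy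
    exact hy.2) h5
  have ha : 1 ≤ D.card := Finset.card_pos.2 ⟨1, h1D⟩
  refine Cls_num Y.card _ K D.card hK ha (Nat.sqrt_le' _) (le_trans h6 ?_)
  exact Nat.add_le_add_right (Nat.mul_le_mul_left _ (Nat.pow_le_pow_left h4 2)) _

end Pool.Agent.PWS
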