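import Pool.Agent.PWS.St

/-!
Campaign PWS, module Com: centralisers, centre and order of `SL_2(ZMod p)`.
-/

set_option autoImplicit false

namespace Pool.Agent.PWS

open Pool.Agent.PW Pool.Agent.PWM Pool.Agent.PWX
open scoped Classical

section

variable {p : ℕ} [Fact p.Prime]

/-- two matrices commute iff the three minors vanish -/
theorem Com_iff (x y : SL p) : x * y = y * x ↔ x.1 0 1 * y.1 1 0 = y.1 0 1 * x.1 1 0 ∧
    (x.1 0 0 - x.1 1 1) * y.1 0 1 = (y.1 0 0 - y.1 1 1) * x.1 0 1 ∧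
    (x.1 0 0 - x.1 1 1) * y.1 1 0 = (y.1 0 0 - y.1 1 1) * x.1 1 0 := by
  have h1 : x * y = y * x ↔ x.1 * y.1 = y.1 * x.1 := by
    constructor
    · intro h
      have := congrArg Subtype.val h
      rwa [Matrix.SpecialLinearGroup.coe_mul, Matrix.SpecialLinearGroup.coe_mul] at this
    · intro h
      apply Subtype.ext
      rw [Matrix.SpecialLinearGroup.coe_mul, Matrix.SpecialLinearGroup.coe_mul]
      exact h
  rw [h1]
  constructor
  · intro h
    have e1 := congrFun (congrFun h 0) 0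
    have e2 := congrFun (congrFun h 0) 1
    have e3 := congrFun (congrFun h 1) 0
    rw [Matrix.mul_apply, Matrix.mul_apply, Fin.sum_univ_two, Fin.sum_univ_two] at e1 e2 e3
    refine ⟨?_, ?_, ?_⟩
    · linear_combination e1
    · linear_combination e2
    · linear_combination -e3
  · rintro ⟨e1, e2, e3⟩
    ext i j
    rw [Matrix.mul_apply, Matrix.mul_apply, Fin.sum_univ_two, Fin.sum_univ_two]
    fin_cases i <;> fin_cases j
    · show x.1 0 0 * y.1 0 0 + x.1 0 1 * y.1 1 0 = y.1 0 0 * x.1 0 0 + y.1 0 1 * x.1 1 0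
      linear_combination e1
    · show x.1 0 0 * y.1 0 1 + x.1 0 1 * y.1 1 1 = y.1 0 0 * x.1 0 1 + y.1 0 1 * x.1 1 1
      linear_combination e2
    · show x.1 1 0 * y.1 0 0 + x.1 1 1 * y.1 1 0 = y.1 1 0 * x.1 0 0 + y.1 1 1 * x.1 1 0
      linear_combination -e3
    · show x.1 1 0 * y.1 0 1 + x.1 1 1 * y.1 1 1 = y.1 1 0 * x.1 0 1 + y.1 1 1 * x.1 1 1
      linear_combination -e1

/-- scalar matrices are central -/
theorem Com_scalar (c : SL p) (h1 : c.1 0 1 = 0) (h2 : c.1 1 0 = 0) (h3 : c.1 0 0 = c.1 1 1) :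
    c ∈ Subgroup.center (SL p) := by
  rw [Subgroup.mem_center_iff]
  intro y
  rw [Com_iff, h1, h2, h3]
  refine ⟨?_, ?_, ?_⟩ <;> ring

theorem Com_comm (c x y : SL p) (hc : NC c) (hx : x ∈ Cz c) (hy : y ∈ Cz c) :
    x * y = y * x := by
  have hx1 : c * x = x * c := (Subgroup.mem_centralizer_iff.1 hx) c (Set.mem_singleton c)
  have hy1 : c * y = y * c := (Subgroup.mem_centralizer_iff.1 hy) c (Set.mem_singleton c)
  rw [Com_iff] at hx1 hy1 ⊢
  obtain ⟨a1, a2, a3⟩ := hx1
  obtain ⟨b1, b2, b3⟩ := hy1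
  by_cases h1 : c.1 0 1 = 0
  · by_cases h2 : c.1 1 0 = 0
    · have h3 : c.1 0 0 - c.1 1 1 ≠ 0 := by
        intro h3
        exact hc (Com_scalar c h1 h2 (sub_eq_zero.1 h3))
      refine ⟨?_, ?_, ?_⟩
      · apply mul_left_cancel₀ h3
        linear_combination (y.1 1 0) * a2 - (x.1 1 0) * b2 +
          (x.1 0 0 - x.1 1 1) * (y.1 1 0) * h1 - (y.1 0 0 - y.1 1 1) * (x.1 1 0) * h1
      · apply mul_left_cancel₀ h3
        linear_combination (x.1 0 0 - x.1 1 1) * b2 - (y.1 0 0 - y.1 1 1) * a2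
      · apply mul_left_cancel₀ h3
        linear_combination (x.1 0 0 - x.1 1 1) * b3 - (y.1 0 0 - y.1 1 1) * a3
    · refine ⟨?_, ?_, ?_⟩
      · apply mul_left_cancel₀ h2
        linear_combination -(y.1 1 0) * a1 + (x.1 1 0) * b1
      · apply mul_left_cancel₀ h2
        linear_combination (-(x.1 0 0 - x.1 1 1)) * b1 + (y.1 0 0 - y.1 1 1) * a1 +
          (x.1 0 0 - x.1 1 1) * (y.1 1 0) * h1 - (y.1 0 0 - y.1 1 1) * (x.1 1 0) * h1
      · apply mul_left_cancel₀ h2
        linear_combination -(y.1 1 0) * a3 + (x.1 1 0) * b3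
  · have key : x.1 0 1 * y.1 1 0 = y.1 0 1 * x.1 1 0 := by
      apply mul_left_cancel₀ h1
      linear_combination (x.1 0 1) * b1 - (y.1 0 1) * a1
    refine ⟨key, ?_, ?_⟩
    · apply mul_left_cancel₀ h1
      linear_combination -(y.1 0 1) * a2 + (x.1 0 1) * b2
    · apply mul_left_cancel₀ h1
      linear_combination (c.1 0 0 - c.1 1 1) * key - (y.1 1 0) * a2 + (x.1 1 0) * b2

theorem Com_center (x : SL p) : x ∈ Subgroup.center (SL p) ↔ x = 1 ∨ x = -1 := by
  constructor
  · intro h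
    rw [Subgroup.mem_center_iff] at h
    obtain ⟨T, hT⟩ : ∃ T : SL p, T.1 = !![1, 1; 0, 1] :=
      ⟨⟨!![1, 1; 0, 1], by rw [Matrix.det_fin_two_of]; ring⟩, rfl⟩
    obtain ⟨T', hT'⟩ : ∃ T : SL p, T.1 = !![1, 0; 1, 1] :=
      ⟨⟨!![1, 0; 1, 1], by rw [Matrix.det_fin_two_of]; ring⟩, rfl⟩
    have h1 := h T
    have h2 := h T'
    rw [Com_iff, hT] at h1
    rw [Com_iff, hT'] at h2
    obtain ⟨a1, a2, -⟩ := h1
    obtain ⟨b1, -, b3⟩ := h2
    simp only [Matrix.of_apply, Matrix.cons_val', Matrix.cons_val_zero, Matrix.cons_val_one,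
      Matrix.cons_val_fin_one] at a1 a2 b1 b3
    have e1 : x.1 1 0 = 0 := by linear_combination a1
    have e2 : x.1 0 0 = x.1 1 1 := by linear_combination -a2
    have e3 : x.1 0 1 = 0 := by linear_combination -b1
    have hdet := x.2
    rw [Matrix.det_fin_two, e1, e3, ← e2] at hdet
    have h4 : (x.1 0 0 - 1) * (x.1 0 0 + 1) = 0 := by linear_combination hdet
    rcases mul_eq_zero.1 h4 with h5 | h5
    · left
      have h6 : x.1 0 0 = 1 := sub_eq_zero.1 h5
      apply Subtype.ext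
      ext i j
      rw [Matrix.SpecialLinearGroup.coe_one]
      fin_cases i <;> fin_cases j
      · show x.1 0 0 = (1 : M2 p) 0 0
        rw [h6, Matrix.one_apply_eq]
      · show x.1 0 1 = (1 : M2 p) 0 1
        rw [e3, Matrix.one_apply_ne (by decide)]
      · show x.1 1 0 = (1 : M2 p) 1 0
        rw [e1, Matrix.one_apply_ne (by decide)]
      · show x.1 1 1 = (1 : M2 p) 1 1
        rw [← e2, h6, Matrix.one_apply_eq]
    · right
      have h6 : x.1 0 0 = -1 := eq_neg_of_add_eq_zero_left h5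
      apply Subtype.ext
      ext i j
      rw [Matrix.SpecialLinearGroup.coe_neg, Matrix.SpecialLinearGroup.coe_one]
      fin_cases i <;> fin_cases j
      · show x.1 0 0 = (-(1 : M2 p)) 0 0
        rw [h6, Matrix.neg_apply, Matrix.one_apply_eq]
      · show x.1 0 1 = (-(1 : M2 p)) 0 1
        rw [e3, Matrix.neg_apply, Matrix.one_apply_ne (by decide), neg_zero]
      · show x.1 1 0 = (-(1 : M2 p)) 1 0
        rw [e1, Matrix.neg_apply, Matrix.one_apply_ne (by decide), neg_zero]
      · show x.1 1 1 = (-(1 : M2 p)) 1 1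
        rw [← e2, h6, Matrix.neg_apply, Matrix.one_apply_eq]
  · rintro (rfl | rfl)
    · exact Subgroup.one_mem _
    · rw [Subgroup.mem_center_iff]
      intro y
      rw [Com_iff]
      have g1 : (-1 : SL p).1 0 1 = 0 := by
        rw [Matrix.SpecialLinearGroup.coe_neg, Matrix.SpecialLinearGroup.coe_one,
          Matrix.neg_apply, Matrix.one_apply_ne (by decide), neg_zero]
      have g2 : (-1 : SL p).1 1 0 = 0 := by
        rw [Matrix.SpecialLinearGroup.coe_neg, Matrix.SpecialLinearGroup.coe_one,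
          Matrix.neg_apply, Matrix.one_apply_ne (by decide), neg_zero]
      have g3 : (-1 : SL p).1 0 0 = (-1 : SL p).1 1 1 := by
        rw [Matrix.SpecialLinearGroup.coe_neg, Matrix.SpecialLinearGroup.coe_one,
          Matrix.neg_apply, Matrix.neg_apply, Matrix.one_apply_eq, Matrix.one_apply_eq]
      rw [g1, g2, g3]
      refine ⟨?_, ?_, ?_⟩ <;> ring

theorem Com_card : Nat.card (SL p) = p * (p ^ 2 - 1) := by
  have hp : p.Prime := Fact.out
  have hp2 := hp.two_le
  obtain ⟨f, hf⟩ : ∃ f : GL (Fin 2) (ZMod p) →* (ZMod p)ˣ,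
    f = Matrix.GeneralLinearGroup.det := ⟨_, rfl⟩
  have hsur : Function.Surjective f := by
    intro u
    have hd : (!![(u : ZMod p), 0; 0, 1] : M2 p).det = u := by
      rw [Matrix.det_fin_two_of]
      ring
    refine ⟨Matrix.GeneralLinearGroup.mkOfDetNeZero !![(u : ZMod p), 0; 0, 1] (by
      rw [hd]
      exact u.ne_zero), ?_⟩
    rw [hf]
    ext
    rw [Matrix.GeneralLinearGroup.val_det_apply]
    exact hd
  have h1 := Subgroup.card_eq_card_quotient_mul_card_subgroup f.ker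
  have h2 : Nat.card (GL (Fin 2) (ZMod p) ⧸ f.ker) = p - 1 := by
    rw [Nat.card_congr (QuotientGroup.quotientKerEquivOfSurjective f hsur).toEquiv,
      Nat.card_eq_fintype_card, ZMod.card_units]
  have h3 : Nat.card f.ker = Nat.card (SL p) := by
    refine (Nat.card_congr (Equiv.ofBijective (fun x : SL p =>
      (⟨Matrix.SpecialLinearGroup.toGL x, ?_⟩ : f.ker)) ⟨?_, ?_⟩)).symm
    · rw [MonoidHom.mem_ker, hf]
      ext
      rw [Matrix.GeneralLinearGroup.val_det_apply]
      exact x.2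
    · intro x y hxy
      exact Matrix.SpecialLinearGroup.toGL_injective (congrArg Subtype.val hxy)
    · rintro ⟨y, hy⟩
      rw [MonoidHom.mem_ker, hf] at hy
      have hdet : (y : M2 p).det = 1 := by
        have := congrArg Units.val hy
        rwa [Matrix.GeneralLinearGroup.val_det_apply] at this
      refine ⟨⟨(y : M2 p), hdet⟩, ?_⟩
      apply Subtype.ext
      ext i j
      rfl
  have h4 : Nat.card (GL (Fin 2) (ZMod p)) = (p ^ 2 - 1) * (p ^ 2 - p) := by
    rw [Matrix.card_GL_field, Fin.prod_univ_two]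
    simp [ZMod.card]
  rw [h2, h3, h4] at h1
  have h5 : p ^ 2 - p = (p - 1) * p := by
    rw [Nat.sub_mul, one_mul, sq]
  rw [h5] at h1
  have h6 : (p - 1) * (p * (p ^ 2 - 1)) = (p - 1) * Nat.card (SL p) := by
    rw [← h1]
    ring
  exact (Nat.eq_of_mul_eq_mul_left (by omega) h6).symm

end

theorem thm_Com : St_Com := by
  intro p _
  exact ⟨fun c x y hc hx hy => Com_comm c x y hc hx hy, fun x => Com_center x, Com_card⟩

end Pool.Agent.PWS
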