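import Pool.Agent.PWS.St

/-!
Campaign PWS, module Cor: assembly of the core theorem.
-/

set_option autoImplicit false

namespace Pool.Agent.PWS

open Pool.Agent.PW Pool.Agent.PWM Pool.Agent.PWX
open scoped Classical Pointwise

theorem Cor_main (hMon : St_Mon) (hGro : St_Gro) (hUpb : St_Upb) (hFlw : St_Flw) (hPre : St_Pre)
    (hScl : St_Scl) (hEnd : St_End) (R S m r g : ℕ) (hm : m = 3 ^ R) (hr : r = (S + 3 + 1) ^ 8 + 1)
    (hg : g = 360 + m * 121 + r)
    (hRS : ∀ s, S ≤ s → ∃ K T : ℕ, 1 ≤ K ∧ T = 10 ^ 32 * K ^ 612 ∧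
      4 * 3 ^ R * T ^ 2 < s ∧ (s + 1) ^ 8 < K ^ R * T)
    (p : ℕ) [Fact p.Prime] (h5 : 5 ≤ p) (ρ : F g 0 →* SL p) (ht : Tight ρ 120) : False := by
  have hg0 := hGro ρ 0 g ht.one (by omega)
  have hne : (Sm ρ 0 g).Nonempty := by
    rw [Set.nonempty_iff_ne_empty]
    intro h
    rw [h, Set.ncard_empty] at hg0
    omega
  obtain ⟨q, hq, hmax⟩ := Set.exists_max_image (Sm ρ 0 g) orderOf (Set.toFinite _) hne
  obtain ⟨s, hs⟩ : ∃ s, s = orderOf q := ⟨_, rfl⟩
  rw [← hs] at hmax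
  have h1 := hUpb p ρ 120 360 r s ht (by norm_num) (by omega) hmax
  have h2 := hGro ρ 360 r ht.one (by omega)
  have h3 : S + 3 < s := by
    by_contra hcon
    have h4 : (s + 1) ^ 8 ≤ (S + 3 + 1) ^ 8 := Nat.pow_le_pow_left (by omega) 8
    omega
  obtain ⟨K, T, hK, hT, h5', h6⟩ := hRS s (by omega)
  rw [← hm] at h5'
  obtain ⟨ψ, hψ, h7⟩ := hFlw p h5 ρ 120 121 360 m s T q ht (by norm_num) (by omega) hq hs.symm
    (by omega) h5'
  obtain ⟨hP1, hP2⟩ := hPre p g ρ ψ hψ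
  have ht' := hP2 120 ht
  have hmax' : ∀ x ∈ Sm (pre ρ ψ) 0 g, orderOf x ≤ s := by
    rw [hP1]
    exact hmax
  have mono : ∀ l h l' h', l' ≤ l → l + h ≤ l' + h' →
      (Sm (pre ρ ψ) l h).ncard ≤ (Sm (pre ρ ψ) l' h').ncard := by
    intro l h l' h' e1 e2
    exact Set.ncard_le_ncard ((hMon g l h l' h' e1 e2).2 (pre ρ ψ)) (Set.toFinite _)
  obtain ⟨i, h, N, a1, a2, a3, a4, a5, a6, a7⟩ := hScl
    (fun i h => (Sm (pre ρ ψ) (360 + i * 121) (h * 121)).ncard) R K T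
    (by
      intro i h i' h' e1 e2 _
      exact mono _ _ _ _ (by omega) (by omega))
    (by
      intro i hi
      rw [← hm] at hi
      exact (h7 i hi).trans (mono _ _ _ _ (by omega) (by omega)))
    (by
      refine lt_of_le_of_lt ?_ h6
      rw [← hm]
      exact hUpb p (pre ρ ψ) 120 (360 + 0 * 121) (m * 121) s ht' (by norm_num) (by omega) hmax')
  rw [← hm] at a2
  have b1 : 360 + (i + h) * 121 = 360 + i * 121 + h * 121 := by ring
  have b2 : 360 + (i + 2 * h) * 121 = 360 + i * 121 + 2 * (h * 121) := by ring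
  have b3 : 3 * h * 121 = 3 * (h * 121) := by ring
  simp only [b1, b2, b3] at a4 a5 a6 a7
  exact hEnd p h5 (pre ρ ψ) 120 (360 + i * 121) (h * 121) N K ht' (by omega) (by omega) hK
    (by rw [← hT]; exact a3) a4 a5 a6 a7

theorem thm_Cor (hCom : St_Com) (hMon : St_Mon) (hCst : St_Cst) (hDed : St_Ded) (hTgt : St_Tgt)
    (hGro : St_Gro) (hUpb : St_Upb) (hAri : St_Ari) (hFlw : St_Flw) (hPre : St_Pre)
    (hScl : St_Scl) (hEnd : St_End) : St_Cor := by
  obtain ⟨R, S, hRS⟩ := hAri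
  obtain ⟨m, hm⟩ : ∃ m, m = 3 ^ R := ⟨_, rfl⟩
  obtain ⟨r, hr⟩ : ∃ r, r = (S + 3 + 1) ^ 8 + 1 := ⟨_, rfl⟩
  obtain ⟨g, hg⟩ : ∃ g, g = 360 + m * 121 + r := ⟨_, rfl⟩
  refine ⟨g, by omega, ?_⟩
  intro p hpf ρ
  by_contra hD
  have hp : p.Prime := Fact.out
  by_cases h5 : p < 5
  · have hcard : Nat.card (SL p) ≤ 24 := by
      rw [(hCom p).2.2]
      have h2 := hp.two_le
      have h4 : p ≠ 4 := by
        intro h
        rw [h] at hp
        exact absurd hp (by norm_num)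
      have h23 : p = 2 ∨ p = 3 := by omega
      rcases h23 with h | h
      · rw [h]
        norm_num
      · rw [h]
        norm_num
    refine hD (hDed ρ (Nat.card ρ.range - 1) (hCst (Q := ρ.range)).1 ?_)
    have : Nat.card ρ.range ≤ Nat.card (SL p) := Subgroup.card_le_card_group _
    omega
  · exact Cor_main hMon hGro hUpb hFlw hPre hScl hEnd R S m r g hm hr hg hRS p (by omega) ρ
      (hTgt p ρ (by omega) hD)

end Pool.Agent.PWS
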