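import Pool.Agent.PWS.St

/-!
Campaign PWS, module Cst: costs (problem MP_26af1b_gt).
-/

set_option autoImplicit false

namespace Pool.Agent.PWS

open Pool.Agent.PW Pool.Agent.PWM Pool.Agent.PWX

theorem thm_Cst : St_Cst := by
  intro Q _ _
  constructor
  · have h := Cost2.index (s := 0) (r := Nat.card Q - 1) (N := (⊤ : Subgroup Q))
      (M := (⊥ : Subgroup Q)) Cost2.top bot_le (by
        rw [Subgroup.relIndex_top_right, Subgroup.index_bot]
        have := Nat.card_pos (α := Q)
        omega)
    rwa [zero_add] at h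
  · intro M hM hc hw
    have h1 : Cost2 Q (0 + 1) M := by
      refine Cost2.cyclic Cost2.top le_top (fun x _ y hy => hM.conj_mem y hy x) ?_
      obtain ⟨w, hw⟩ := hw
      exact ⟨w, Subgroup.mem_top w, fun x _ => hw x⟩
    refine Cost2.cyclic h1 bot_le (fun x _ y hy => ?_) ?_
    · rw [Subgroup.mem_bot] at hy ⊢
      rw [hy]
      simp
    · obtain ⟨⟨c, hcM⟩, hc⟩ := hc.exists_generator
      refine ⟨c, hcM, fun x hx => ?_⟩
      obtain ⟨k, hk⟩ := Subgroup.mem_zpowers_iff.1 (hc ⟨x, hx⟩)
      refine ⟨k, ?_⟩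
      have hk' : c ^ k = x := by
        have := congrArg Subtype.val hk
        simpa using this
      rw [Subgroup.mem_bot, hk', inv_mul_cancel]

end Pool.Agent.PWS
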