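import Pool.Agent.PWS.St

/-!
# PWS: module Cyc, centralisers of noncentral elements are cyclic
-/

set_option autoImplicit false

namespace Pool.Agent.PWS

open Pool.Agent.PW Pool.Agent.PWM Pool.Agent.PWX
open scoped Classical Pointwise

private lemma Cyc_nsc {p : ℕ} [Fact p.Prime] (c : SL p) (hc : NC c) :
    ¬ (c.1 0 1 = 0 ∧ c.1 1 0 = 0 ∧ c.1 0 0 = c.1 1 1) := by
  rintro ⟨h1, h2, h3⟩
  apply hc
  rw [Subgroup.mem_center_iff]
  intro g
  apply Subtype.ext
  show g.1 * c.1 = c.1 * g.1
  ext i j
  fin_cases i <;> fin_cases j <;>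
    simp [Matrix.mul_apply, Fin.sum_univ_two, h1, h2, h3, mul_comm]

private lemma Cyc_lin {p : ℕ} [Fact p.Prime] (c : SL p) (hc : NC c) (x : SL p) (hx : x ∈ Cz c) :
    ∃ α β : ZMod p, x.1 = α • (1 : M2 p) + β • c.1 := by
  have hcomm : c * x = x * c := by
    have := Subgroup.mem_centralizer_iff.1 hx c rfl
    exact this
  have hM : c.1 * x.1 = x.1 * c.1 := congrArg Subtype.val hcomm
  have e00 := congrFun (congrFun hM 0) 0
  have e01 := congrFun (congrFun hM 0) 1
  have e10 := congrFun (congrFun hM 1) 0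
  simp only [Matrix.mul_apply, Fin.sum_univ_two] at e00 e01 e10
  by_cases h01 : c.1 0 1 = 0
  · by_cases h10 : c.1 1 0 = 0
    · have h00 : c.1 0 0 - c.1 1 1 ≠ 0 := by
        intro h
        exact Cyc_nsc c hc ⟨h01, h10, sub_eq_zero.1 h⟩
      refine ⟨x.1 0 0 - (x.1 0 0 - x.1 1 1) / (c.1 0 0 - c.1 1 1) * c.1 0 0,
        (x.1 0 0 - x.1 1 1) / (c.1 0 0 - c.1 1 1), ?_⟩
      have a1 : x.1 0 1 = 0 := by
        have : (c.1 0 0 - c.1 1 1) * x.1 0 1 = 0 := by
          rw [h01] at e01
          linear_combination e01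
        exact (mul_eq_zero.1 this).resolve_left h00
      have a2 : x.1 1 0 = 0 := by
        have : (c.1 0 0 - c.1 1 1) * x.1 1 0 = 0 := by
          rw [h10] at e10
          linear_combination -e10
        exact (mul_eq_zero.1 this).resolve_left h00
      ext i j
      fin_cases i <;> fin_cases j
      · simp
      · simp [a1, h01]
      · simp [a2, h10]
      · simp
        field_simp
        ring
    · refine ⟨x.1 0 0 - x.1 1 0 / c.1 1 0 * c.1 0 0, x.1 1 0 / c.1 1 0, ?_⟩
      ext i j
      fin_cases i <;> fin_cases j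
      · simp
      · simp
        field_simp
        linear_combination -e00
      · simp
        field_simp
      · simp
        field_simp
        linear_combination -e10
  · refine ⟨x.1 0 0 - x.1 0 1 / c.1 0 1 * c.1 0 0, x.1 0 1 / c.1 0 1, ?_⟩
    ext i j
    fin_cases i <;> fin_cases j
    · simp
    · simp
      field_simp
    · simp
      field_simp
      linear_combination e00
    · simp
      field_simp
      linear_combination e01

private lemma Cyc_ch {p : ℕ} (c : SL p) : c.1 * c.1 = tr c • c.1 - 1 := by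
  have hd := c.2
  rw [Matrix.det_fin_two] at hd
  ext i j
  fin_cases i <;> fin_cases j
  · simp [Matrix.mul_apply, Fin.sum_univ_two, tr, Matrix.trace_fin_two]
    linear_combination -hd
  · simp [Matrix.mul_apply, Fin.sum_univ_two, tr, Matrix.trace_fin_two]
    ring
  · simp [Matrix.mul_apply, Fin.sum_univ_two, tr, Matrix.trace_fin_two]
    ring
  · simp [Matrix.mul_apply, Fin.sum_univ_two, tr, Matrix.trace_fin_two]
    linear_combination -hd

private lemma Cyc_det {p : ℕ} (c x : SL p) (α β : ZMod p)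
    (hx : x.1 = α • (1 : M2 p) + β • c.1) : α ^ 2 + α * β * tr c + β ^ 2 = 1 := by
  have hd := c.2
  have hdx := x.2
  rw [Matrix.det_fin_two] at hd hdx
  rw [hx] at hdx
  simp at hdx
  simp only [tr, Matrix.trace_fin_two]
  linear_combination hdx - β ^ 2 * hd

private lemma Cyc_ind {p : ℕ} [Fact p.Prime] (c : SL p) (hc : NC c) (α β : ZMod p)
    (h : α • (1 : M2 p) + β • c.1 = 0) : α = 0 ∧ β = 0 := by
  have e00 := congrFun (congrFun h 0) 0
  have e01 := congrFun (congrFun h 0) 1
  have e10 := congrFun (congrFun h 1) 0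
  have e11 := congrFun (congrFun h 1) 1
  simp at e00 e01 e10 e11
  have hβ : β = 0 := by
    by_contra hβ
    refine Cyc_nsc c hc ⟨?_, ?_, ?_⟩
    · exact e01.resolve_left hβ
    · exact e10.resolve_left hβ
    · have : β * (c.1 0 0 - c.1 1 1) = 0 := by linear_combination e00 - e11
      exact sub_eq_zero.1 ((mul_eq_zero.1 this).resolve_left hβ)
  refine ⟨?_, hβ⟩
  rw [hβ] at e00
  simpa using e00

/-- Case of distinct eigenvalues: the centraliser is cyclic. -/
private lemma Cyc_A {p : ℕ} [Fact p.Prime] (c : SL p) (hc : NC c) (h1 : tr c ≠ 2)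
    (h2 : tr c ≠ -2) : IsCyclic (Cz c) := by
  let K := AlgebraicClosure (ZMod p)
  let φ : ZMod p →+* K := algebraMap (ZMod p) K
  have hφ : Function.Injective φ := (algebraMap (ZMod p) K).injective
  obtain ⟨l, hl⟩ : ∃ l : K, l * l - φ (tr c) * l + 1 = 0 := by
    have hdeg : ((Polynomial.X ^ 2 - Polynomial.C (φ (tr c)) * Polynomial.X +
        Polynomial.C 1 : Polynomial K)).degree ≠ 0 := by
      have : (Polynomial.X ^ 2 - Polynomial.C (φ (tr c)) * Polynomial.X +
        Polynomial.C 1 : Polynomial K).degree = 2 := by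
        compute_degree!
      rw [this]
      decide
    obtain ⟨l, hl⟩ := IsAlgClosed.exists_root _ hdeg
    refine ⟨l, ?_⟩
    simp only [Polynomial.IsRoot.def, Polynomial.eval_add, Polynomial.eval_sub,
      Polynomial.eval_pow, Polynomial.eval_X, Polynomial.eval_mul, Polynomial.eval_C] at hl
    linear_combination hl
  set t : K := φ (tr c) with ht
  -- the other eigenvalue is `t - l`
  have hne : l - (t - l) ≠ 0 := by
    intro h
    have h3 : t ^ 2 = 4 := by
      have : t = 2 * l := by linear_combination -h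
      rw [this] at hl ⊢
      linear_combination -4 * hl
    have h4 : (tr c - 2) * (tr c + 2) = 0 := by
      apply hφ
      rw [map_mul, map_sub, map_add, map_ofNat, map_zero]
      linear_combination h3
    rcases mul_eq_zero.1 h4 with h5 | h5
    · exact h1 (sub_eq_zero.1 h5)
    · exact h2 (eq_neg_of_add_eq_zero_left h5)
  -- the linear functional
  let χ : M2 p → K := fun x => (φ (Matrix.trace (x * c.1)) - (t - l) * φ (Matrix.trace x)) /
    (l - (t - l))
  have hχ : ∀ α β : ZMod p, χ (α • (1 : M2 p) + β • c.1) = φ α + φ β * l := by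
    intro α β
    have e1 : Matrix.trace ((α • (1 : M2 p) + β • c.1) * c.1) =
        α * tr c + β * (tr c * tr c - 2) := by
      rw [add_mul, smul_mul_assoc, smul_mul_assoc, one_mul, Cyc_ch]
      simp [tr, Matrix.trace_add, Matrix.trace_sub, Matrix.trace_smul]
    have e2 : Matrix.trace (α • (1 : M2 p) + β • c.1) = 2 * α + β * tr c := by
      simp [tr, Matrix.trace_add, Matrix.trace_smul]
      ring
    show (φ (Matrix.trace ((α • (1 : M2 p) + β • c.1) * c.1)) -
      (t - l) * φ (Matrix.trace (α • (1 : M2 p) + β • c.1))) / (l - (t - l)) = _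
    rw [e1, e2, div_eq_iff hne]
    simp only [map_add, map_mul, map_sub, map_ofNat, ← ht]
    linear_combination -2 * (φ β) * hl
  let f : Cz c →* K :=
    { toFun := fun x => χ x.1.1
      map_one' := by
        have := hχ 1 0
        simpa using this
      map_mul' := by
        intro x y
        obtain ⟨α, β, hx⟩ := Cyc_lin c hc x.1 x.2
        obtain ⟨α', β', hy⟩ := Cyc_lin c hc y.1 y.2
        have hxy : (x.1 * y.1).1 = (α * α' - β * β') • (1 : M2 p) +
            (α * β' + α' * β + β * β' * tr c) • c.1 := by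
          show x.1.1 * y.1.1 = _
          rw [hx, hy]
          have := Cyc_ch c
          simp only [add_mul, mul_add, smul_mul_assoc, mul_smul_comm, one_mul, mul_one, this,
            smul_sub, smul_smul, sub_smul, add_smul]
          module
        show χ (x.1 * y.1).1 = χ x.1.1 * χ y.1.1
        rw [hxy, hx, hy, hχ, hχ, hχ]
        simp only [map_add, map_mul, map_sub, ← ht]
        linear_combination -(φ β) * φ β' * hl }
  refine isCyclic_of_injective_ringHom f ?_
  rw [injective_iff_map_eq_one]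
  intro x hx1
  obtain ⟨α, β, hx⟩ := Cyc_lin c hc x.1 x.2
  have hfx : φ α + φ β * l = 1 := by
    rw [← hχ, ← hx]
    exact hx1
  have hdet := congrArg φ (Cyc_det c x.1 α β hx)
  simp only [map_add, map_mul, map_pow, map_one, ← ht] at hdet
  have h3 : φ α + φ β * (t - l) = 1 := by
    have : (φ α + φ β * l) * (φ α + φ β * (t - l)) = 1 := by
      linear_combination hdet - (φ β) ^ 2 * hl
    rw [hfx, one_mul] at this
    exact this
  have h4 : φ β = 0 := by
    have : φ β * (l - (t - l)) = 0 := by linear_combination hfx - h3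
    exact (mul_eq_zero.1 this).resolve_right hne
  have h5 : β = 0 := by
    apply hφ
    rw [h4, map_zero]
  have h6 : α = 1 := by
    apply hφ
    rw [map_one]
    rw [h4] at h3
    linear_combination h3
  apply Subtype.ext
  apply Subtype.ext
  rw [hx, h5, h6]
  simp

private lemma Cyc_le {p : ℕ} (c : SL p) : Cz c ≤ Nz c := by
  intro x hx y
  constructor
  · intro hy
    exact (Cz c).mul_mem ((Cz c).mul_mem hx hy) ((Cz c).inv_mem hx)
  · intro hy
    have := (Cz c).mul_mem ((Cz c).mul_mem ((Cz c).inv_mem hx) hy) hx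
    have e : x⁻¹ * (x * y * x⁻¹) * x = y := by group
    rwa [e] at this

private lemma Cyc_A2 {p : ℕ} [Fact p.Prime] (c : SL p)
    (h : Nat.card (Nz c) ≤ 2 * Nat.card (Cz c)) :
    ∃ w ∈ Nz c, ∀ x ∈ Nz c, ∃ k : ℤ, (w ^ k)⁻¹ * x ∈ Cz c := by
  have hle := Cyc_le c
  by_cases hall : ∀ x ∈ Nz c, x ∈ Cz c
  · exact ⟨1, (Nz c).one_mem, fun x hx => ⟨0, by simpa using hall x hx⟩⟩
  · push Not at hall
    obtain ⟨w, hw, hwn⟩ := hall
    refine ⟨w, hw, fun x hx => ?_⟩
    by_cases hx' : x ∈ Cz c
    · exact ⟨0, by simpa using hx'⟩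
    · refine ⟨1, ?_⟩
      let H : Subgroup (Nz c) := (Cz c).subgroupOf (Nz c)
      have hcard : Nat.card H = Nat.card (Cz c) := Nat.card_congr
        (Subgroup.subgroupOfEquivOfLe hle).toEquiv
      have hidx : Nat.card H * H.index = Nat.card (Nz c) := H.card_mul_index
      have hpos : 0 < Nat.card H := Nat.card_pos
      have hi2 : H.index ≤ 2 := by
        by_contra hcon
        push Not at hcon
        have : Nat.card H * 3 ≤ Nat.card H * H.index := Nat.mul_le_mul_left _ hcon
        rw [hidx, hcard] at this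
        rw [hcard] at hpos
        omega
      have hi1 : H.index ≠ 1 := by
        intro h1
        rw [Subgroup.index_eq_one] at h1
        have : (⟨w, hw⟩ : Nz c) ∈ H := by rw [h1]; trivial
        exact hwn (Subgroup.mem_subgroupOf.1 this)
      have hi0 : H.index ≠ 0 := Subgroup.index_ne_zero_of_finite
      have hi : H.index = 2 := by omega
      have hmem : (⟨w, hw⟩ : Nz c)⁻¹ * ⟨x, hx⟩ ∈ H := by
        rw [Subgroup.mul_mem_iff_of_index_two hi]
        constructor
        · intro h1
          exact absurd (Subgroup.mem_subgroupOf.1 (H.inv_mem_iff.1 h1)) hwn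
        · intro h1
          exact absurd (Subgroup.mem_subgroupOf.1 h1) hx'
      have := Subgroup.mem_subgroupOf.1 hmem
      rw [zpow_one]
      exact this

/-- Case of one eigenvalue. -/
private lemma Cyc_B {p : ℕ} [Fact p.Prime] (hp : 3 ≤ p) (c : SL p) (hc : NC c) (ε : ZMod p)
    (hε : ε = 1 ∨ ε = -1) (ht : tr c = 2 * ε) : IsCyclic (Cz c) ∧
    ∃ w ∈ Nz c, ∀ x ∈ Nz c, ∃ k : ℤ, (w ^ k)⁻¹ * x ∈ Cz c := by
  have hε2 : ε * ε = 1 := by
    rcases hε with h | h <;> rw [h] <;> ring
  have h2 : (2 : ZMod p) ≠ 0 := by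
    intro h
    have h3 : ((2 : ℕ) : ZMod p) = 0 := by exact_mod_cast h
    rw [ZMod.natCast_eq_zero_iff] at h3
    have := Nat.le_of_dvd (by norm_num) h3
    omega
  set n : M2 p := ε • c.1 - 1 with hn
  have hcn : c.1 = ε • (1 + n) := by
    rw [hn, add_sub_cancel, smul_smul, hε2, one_smul]
  have hnn : n * n = 0 := by
    rw [hn]
    have := Cyc_ch c
    simp only [sub_mul, mul_sub, smul_mul_assoc, mul_smul_comm, one_mul, mul_one, this,
      smul_sub, smul_smul, hε2, ht]
    have e : (ε * (ε * (2 * ε)) : ZMod p) = 2 * ε := by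
      linear_combination 2 * ε * hε2
    rw [e]
    module
  have hn0 : n ≠ 0 := by
    intro h
    have h3 : (-ε : ZMod p) • (1 : M2 p) + (1 : ZMod p) • c.1 = 0 := by
      rw [hcn, h]
      module
    have := (Cyc_ind c hc _ _ h3).2
    exact one_ne_zero this
  have htrn : Matrix.trace n = 0 := by
    rw [hn]
    have ht' : Matrix.trace c.1 = 2 * ε := ht
    simp [Matrix.trace_sub, Matrix.trace_smul, ht']
    linear_combination 2 * hε2
  have hcc : c ∈ Cz c := by
    rw [Cz, Subgroup.mem_centralizer_iff]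
    intro h hh
    rw [Set.mem_singleton_iff.1 hh]
  constructor
  · -- the generator
    obtain ⟨g, hg, hgM⟩ : ∃ g ∈ Cz c, g.1 = -(1 + n) := by
      rcases hε with h | h
      · refine ⟨-c, ?_, ?_⟩
        · rw [Cz, Subgroup.mem_centralizer_iff]
          intro h hh
          rw [Set.mem_singleton_iff.1 hh]
          simp
        · rw [h, one_smul] at hcn
          rw [Matrix.SpecialLinearGroup.coe_neg, hcn]
      · refine ⟨c, hcc, ?_⟩
        rw [hcn, h, neg_smul, one_smul]
    have hpow : ∀ k : ℕ, (g ^ k).1 = (-1 : ZMod p) ^ k • (1 + (k : ZMod p) • n) := by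
      intro k
      induction k with
      | zero => simp
      | succ k ih =>
        rw [pow_succ]
        show (g ^ k).1 * g.1 = _
        rw [ih, hgM, pow_succ]
        push_cast
        simp only [smul_mul_assoc, add_mul, mul_add, mul_neg, one_mul, mul_one, hnn, smul_zero]
        module
    refine ⟨⟨⟨g, hg⟩, fun x => ?_⟩⟩
    obtain ⟨α, β, hx⟩ := Cyc_lin c hc x.1 x.2
    have hdet := Cyc_det c x.1 α β hx
    rw [ht] at hdet
    have hδ : (α + ε * β - 1) * (α + ε * β + 1) = 0 := by
      linear_combination hdet + β ^ 2 * hε2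
    set δ := α + ε * β with hδdef
    have hδ' : δ = 1 ∨ δ = -1 := by
      rcases mul_eq_zero.1 hδ with h | h
      · left; exact sub_eq_zero.1 h
      · right; exact eq_neg_of_add_eq_zero_left h
    have hδ2 : δ * δ = 1 := by rcases hδ' with h | h <;> rw [h] <;> ring
    have hxM : x.1.1 = δ • (1 + (δ * (β * ε)) • n) := by
      rw [hx, hcn, smul_add δ, smul_smul δ, ← mul_assoc δ δ, hδ2, one_mul, hδdef]
      module
    have hpo : Odd p := by
      rcases (Fact.out : p.Prime).eq_two_or_odd' with h | h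
      · omega
      · exact h
    obtain ⟨k, hk1, hk2⟩ : ∃ k : ℕ, (-1 : ZMod p) ^ k = δ ∧ (k : ZMod p) = δ * (β * ε) := by
      set s : ZMod p := δ * (β * ε) with hs
      have hsv : ((s.val : ℕ) : ZMod p) = s := ZMod.natCast_zmod_val s
      rcases neg_one_pow_eq_or (ZMod p) s.val with h | h
      · rcases hδ' with h' | h'
        · exact ⟨s.val, by rw [h, h'], hsv⟩
        · refine ⟨s.val + p, ?_, ?_⟩
          · rw [pow_add, h, hpo.neg_one_pow, h', one_mul]
          · push_cast
            rw [hsv, CharP.cast_eq_zero, add_zero]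
      · rcases hδ' with h' | h'
        · refine ⟨s.val + p, ?_, ?_⟩
          · rw [pow_add, h, hpo.neg_one_pow, h']
            ring
          · push_cast
            rw [hsv, CharP.cast_eq_zero, add_zero]
        · exact ⟨s.val, by rw [h, h'], hsv⟩
    refine ⟨k, ?_⟩
    show (⟨g, hg⟩ : Cz c) ^ (k : ℤ) = x
    rw [zpow_natCast]
    apply Subtype.ext
    apply Subtype.ext
    show (g ^ k).1 = x.1.1
    rw [hpow, hxM, hk1, hk2]
  · -- the action on the line
    obtain ⟨i, j, hij⟩ : ∃ i j, n i j ≠ 0 := by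
      by_contra hcon
      push Not at hcon
      exact hn0 (by ext i j; exact hcon i j)
    have hinv : ∀ x : SL p, x.1 * (x⁻¹).1 = 1 := by
      intro x
      have := congrArg Subtype.val (mul_inv_cancel x)
      exact this
    have hinv' : ∀ x : SL p, (x⁻¹).1 * x.1 = 1 := by
      intro x
      have := congrArg Subtype.val (inv_mul_cancel x)
      exact this
    have hkey : ∀ x ∈ Nz c, ∃ β : ZMod p, x.1 * n * (x⁻¹).1 = β • n := by
      intro x hx
      have hxc : x * c * x⁻¹ ∈ Cz c := (hx c).1 hcc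
      obtain ⟨α, β, hM⟩ := Cyc_lin c hc _ hxc
      have hM' : x.1 * c.1 * (x⁻¹).1 = α • (1 : M2 p) + β • c.1 := hM
      have e1 : x.1 * n * (x⁻¹).1 = (ε * α - 1 + β) • (1 : M2 p) + β • n := by
        have : x.1 * n * (x⁻¹).1 = ε • (x.1 * c.1 * (x⁻¹).1) - 1 := by
          rw [hn]
          simp only [mul_sub, sub_mul, mul_one, mul_smul_comm, smul_mul_assoc, hinv]
        rw [this, hM', hcn]
        simp only [smul_add, smul_smul]
        have e2 : ε * (β * ε) = β := by linear_combination β * hε2
        rw [e2]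
        module
      have e3 : Matrix.trace (x.1 * n * (x⁻¹).1) = 0 := by
        rw [Matrix.trace_mul_comm, ← mul_assoc, hinv', one_mul, htrn]
      rw [e1] at e3
      have e4 : 2 * (ε * α - 1 + β) = 0 := by
        simpa [Matrix.trace_add, Matrix.trace_smul, htrn, mul_comm] using e3
      have e5 := (mul_eq_zero.1 e4).resolve_left h2
      exact ⟨β, by rw [e1, e5, zero_smul, zero_add]⟩
    let μ : SL p → ZMod p := fun x => (x.1 * n * (x⁻¹).1) i j / n i j
    have hμ : ∀ x ∈ Nz c, x.1 * n * (x⁻¹).1 = μ x • n := by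
      intro x hx
      obtain ⟨β, hβ⟩ := hkey x hx
      have : μ x = β := by
        show (x.1 * n * (x⁻¹).1) i j / n i j = β
        rw [hβ, Matrix.smul_apply, smul_eq_mul, mul_div_assoc, div_self hij, mul_one]
      rw [this, hβ]
    let f : Nz c →* ZMod p :=
      { toFun := fun x => μ x.1
        map_one' := by
          show ((1 : SL p).1 * n * ((1 : SL p)⁻¹).1) i j / n i j = 1
          rw [inv_one]
          have : (1 : SL p).1 = 1 := rfl
          rw [this, one_mul, mul_one, div_self hij]
        map_mul' := by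
          intro x y
          have hx := hμ x.1 x.2
          have hy := hμ y.1 y.2
          show ((x.1 * y.1).1 * n * ((x.1 * y.1)⁻¹).1) i j / n i j = μ x.1 * μ y.1
          rw [mul_inv_rev]
          have e : (x.1 * y.1).1 * n * ((y.1)⁻¹ * (x.1)⁻¹).1 = (μ x.1 * μ y.1) • n := by
            show x.1.1 * y.1.1 * n * ((y.1⁻¹).1 * (x.1⁻¹).1) = _
            calc x.1.1 * y.1.1 * n * ((y.1⁻¹).1 * (x.1⁻¹).1)
                = x.1.1 * (y.1.1 * n * (y.1⁻¹).1) * (x.1⁻¹).1 := by noncomm_ring
              _ = _ := by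
                rw [hy, mul_smul_comm, smul_mul_assoc, hx, smul_smul, mul_comm]
          rw [e, Matrix.smul_apply, smul_eq_mul, mul_div_assoc, div_self hij, mul_one] }
    have hker : ∀ x : Nz c, f x = 1 → x.1 ∈ Cz c := by
      intro x hx
      have h3 := hμ x.1 x.2
      have h4 : μ x.1 = 1 := hx
      rw [h4, one_smul] at h3
      have h5 : x.1.1 * n = n * x.1.1 := by
        calc x.1.1 * n = x.1.1 * n * ((x.1⁻¹).1 * x.1.1) := by rw [hinv', mul_one]
          _ = (x.1.1 * n * (x.1⁻¹).1) * x.1.1 := by noncomm_ring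
          _ = n * x.1.1 := by rw [h3]
      rw [Cz, Subgroup.mem_centralizer_iff]
      intro h hh
      rw [Set.mem_singleton_iff.1 hh]
      apply Subtype.ext
      show c.1 * x.1.1 = x.1.1 * c.1
      rw [hcn, smul_mul_assoc, mul_smul_comm, add_mul, mul_add, one_mul, mul_one, h5]
    let R : Subgroup (ZMod p)ˣ := f.toHomUnits.range
    obtain ⟨u, hu⟩ := (inferInstance : IsCyclic R).exists_generator
    obtain ⟨w, hw⟩ := u.2
    refine ⟨w.1, w.2, fun x hx => ?_⟩
    obtain ⟨k, hk⟩ := Subgroup.mem_zpowers_iff.1 (hu ⟨f.toHomUnits ⟨x, hx⟩, ⟨x, hx⟩, rfl⟩)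
    refine ⟨k, ?_⟩
    have h3 : f.toHomUnits (w ^ k) = f.toHomUnits ⟨x, hx⟩ := by
      rw [map_zpow, hw]
      exact congrArg Subtype.val hk
    have h4 : f.toHomUnits ((w ^ k)⁻¹ * ⟨x, hx⟩) = 1 := by
      rw [map_mul, map_inv, h3, inv_mul_cancel]
    have h5 : f ((w ^ k)⁻¹ * ⟨x, hx⟩) = 1 := by
      have := congrArg Units.val h4
      exact this
    exact hker _ h5

theorem thm_Cyc (hCen : St_Cen) : St_Cyc := by
  intro p _ hp c hc
  by_cases h1 : tr c = 2
  · exact Cyc_B hp c hc 1 (Or.inl rfl) (by rw [h1, mul_one])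
  · by_cases h2 : tr c = -2
    · exact Cyc_B hp c hc (-1) (Or.inr rfl) (by rw [h2]; ring)
    · exact ⟨Cyc_A c hc h1 h2, Cyc_A2 c ((hCen p hp c hc).2 h1 h2).1⟩

end Pool.Agent.PWS
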