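import Pool.Agent.PWS.St
import Pool.Agent.PWB.Main
import Pool.Agent.PWB.KEuc
import Pool.Agent.PWB.KCyc
import Pool.Agent.PWB.KChr
import Pool.Agent.PWB.KConj
import Pool.Agent.PWB.KSlide
import Pool.Agent.PWB.KPair
import Pool.Agent.PWB.KChief
import Pool.Agent.PWB.KPush
import Pool.Agent.PWB.KFrat
import Pool.Agent.PWX.Kill
import Pool.Agent.PWX.Ind
import Pool.Agent.PWX.Real

/-!
Campaign PWS, module Ded: killing by cost.
-/

set_option autoImplicit false

namespace Pool.Agent.PWS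

open Pool.Agent.PW Pool.Agent.PWM Pool.Agent.PWX Pool.Agent.PWB

theorem thm_Ded : St_Ded := by
  intro Q _ _ g n ρ s hc hs
  have kpair : St_KPair := st_KPair (st_KSlide st_KConj)
  obtain ⟨φ, hφ, h1⟩ := go_of_cost2 (st_KCyc st_KEuc) st_KChr (st_KChief kpair)
    (st_KFrat st_KPush) (st_Ind st_Real) hc hs.le ρ.rangeRestrict ρ.rangeRestrict_surjective
  have hg : 0 < g := by omega
  have h2 := h1 ⟨0, hg⟩ (by
    show 0 < g - s
    omega)
  refine ⟨φ, hφ, hg, ?_, ?_⟩
  · exact congrArg Subtype.val (Subgroup.mem_bot.1 h2.1)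
  · exact congrArg Subtype.val (Subgroup.mem_bot.1 h2.2)

end Pool.Agent.PWS
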