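import Pool.Agent.PWS.St

/-!
Campaign PWS, module Dik: the subgroups of `SL_2(F_p)`.
-/

set_option autoImplicit false

namespace Pool.Agent.PWS

open Pool.Agent.PW Pool.Agent.PWM Pool.Agent.PWX

theorem Dik_memCz {G : Type} [Group G] (c x : G) : x ∈ Cz c ↔ x * c = c * x := by
  unfold Cz
  rw [Subgroup.mem_centralizer_singleton_iff]

theorem Dik_memNz {G : Type} [Group G] (c x : G) :
    x ∈ Nz c ↔ ∀ y, y ∈ Cz c ↔ x * y * x⁻¹ ∈ Cz c := Iff.rfl

/-- if centralisers of noncentral elements are commutative, an element which conjugates `c` to an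
element commuting with `c` is in `Nz c` -/
theorem Dik_nz {G : Type} [Group G]
    (hC : ∀ c x y : G, NC c → x ∈ Cz c → y ∈ Cz c → x * y = y * x) (c h : G) (hc : NC c)
    (hh : (h * c * h⁻¹) * c = c * (h * c * h⁻¹)) : h ∈ Nz c := by
  have hc' : NC (h * c * h⁻¹) := by
    intro hcen
    apply hc
    have := (inferInstance : (Subgroup.center G).Normal).conj_mem _ hcen h⁻¹
    simpa [mul_assoc] using this
  rw [Dik_memNz]
  intro y
  rw [Dik_memCz, Dik_memCz]
  -- `y` commutes with `c` iff `h y h⁻¹` commutes with `h c h⁻¹` iff it commutes with `c`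
  have key : y * c = c * y ↔ (h * y * h⁻¹) * (h * c * h⁻¹) = (h * c * h⁻¹) * (h * y * h⁻¹) := by
    constructor
    · intro e
      calc (h * y * h⁻¹) * (h * c * h⁻¹) = h * (y * c) * h⁻¹ := by group
        _ = h * (c * y) * h⁻¹ := by rw [e]
        _ = _ := by group
    · intro e
      have e2 : h * (y * c) * h⁻¹ = h * (c * y) * h⁻¹ := by
        calc h * (y * c) * h⁻¹ = (h * y * h⁻¹) * (h * c * h⁻¹) := by group
          _ = (h * c * h⁻¹) * (h * y * h⁻¹) := e
          _ = _ := by group
      exact mul_left_cancel (mul_right_cancel e2)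
  rw [key]
  constructor
  · intro e
    exact hC (h * c * h⁻¹) (h * y * h⁻¹) c hc' ((Dik_memCz _ _).2 e) ((Dik_memCz _ _).2 hh.symm)
  · intro e
    exact hC c (h * y * h⁻¹) (h * c * h⁻¹) hc ((Dik_memCz _ _).2 e) ((Dik_memCz _ _).2 hh)

theorem Dik_CH {p : ℕ} (x : SL p) :
    (x : M2 p) * (x : M2 p) = tr x • (x : M2 p) - 1 := by
  have hdet : (x : M2 p).det = 1 := x.2
  rw [Matrix.det_fin_two] at hdet
  ext i j
  fin_cases i <;> fin_cases j <;>
    simp [tr, Matrix.mul_apply, Fin.sum_univ_two, Matrix.trace_fin_two, Matrix.sub_apply,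
      Matrix.smul_apply] <;>
    first
      | ring1
      | linear_combination (exp := 1) (-1 : ZMod p) * hdet

theorem Dik_tr_of_pow {p : ℕ} [Fact p.Prime] (u : SL p) (hu : u ^ p = 1) : tr u = 2 := by
  have h1 : ((u : M2 p) - 1) ^ p = 0 := by
    rw [sub_pow_char_of_commute (p := p) (Commute.one_right (u : M2 p))]
    have : (u : M2 p) ^ p = 1 := by
      have := congrArg (fun z : SL p => (z : M2 p)) hu
      simpa using this
    rw [this, one_pow, sub_self]
  have h2 : IsNilpotent (Matrix.trace ((u : M2 p) - 1)) :=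
    Matrix.isNilpotent_trace_of_isNilpotent ⟨p, h1⟩
  have h3 : Matrix.trace ((u : M2 p) - 1) = 0 := h2.eq_zero
  rw [Matrix.trace_sub, Matrix.trace_one] at h3
  have : tr u - 2 = 0 := by
    simpa [tr] using h3
  linear_combination this

theorem Dik_pow_of_tr {p : ℕ} [Fact p.Prime] (u : SL p) (hu : tr u = 2) : u ^ p = 1 := by
  have h1 : ((u : M2 p) - 1) ^ 2 = 0 := by
    have e := Dik_CH u
    rw [hu] at e
    have : ((u : M2 p) - 1) ^ 2 = (u : M2 p) * u - (2 : ZMod p) • (u : M2 p) + 1 := by
      rw [two_smul]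
      noncomm_ring
    rw [this, e]
    simp
  have hp : 2 ≤ p := (Fact.out : p.Prime).two_le
  have h2 : ((u : M2 p) - 1) ^ p = 0 := by
    obtain ⟨k, rfl⟩ := Nat.exists_eq_add_of_le hp
    rw [pow_add, h1, zero_mul]
  rw [sub_pow_char_of_commute (p := p) (Commute.one_right (u : M2 p)), one_pow, sub_eq_zero] at h2
  apply Subtype.ext
  simpa using h2

theorem Dik_ordp {p : ℕ} [Fact p.Prime] (hp3 : 3 ≤ p)
    (hcen : ∀ x : SL p, x ∈ Subgroup.center (SL p) ↔ x = 1 ∨ x = -1) (x : SL p) (hx : NC x)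
    (ht : tr x = 2 ∨ tr x = -2) : ∃ k : ℕ, orderOf (x ^ k) = p := by
  have hpp : p.Prime := Fact.out
  have hne : ¬ (x = 1 ∨ x = -1) := fun h => hx ((hcen x).2 h)
  push Not at hne
  rcases ht with ht | ht
  · refine ⟨1, ?_⟩
    rw [pow_one]
    exact orderOf_eq_prime (Dik_pow_of_tr x ht) hne.1
  · refine ⟨2, ?_⟩
    have hy : (-x) ^ p = 1 := by
      apply Dik_pow_of_tr
      have : tr (-x) = - tr x := by
        simp [tr, Matrix.trace_neg]
      rw [this, ht, neg_neg]
    have h2 : (-x) ^ 2 = x ^ 2 := neg_sq x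
    apply orderOf_eq_prime
    · rw [← h2, ← pow_mul, mul_comm, pow_mul, hy, one_pow]
    · intro h
      rw [← h2] at h
      obtain ⟨m, hm⟩ := hpp.odd_of_ne_two (by omega)
      have hy2 : (-x) ^ (2 * m + 1) = 1 := by
        rw [← hm]
        exact hy
      rw [pow_succ, pow_mul, h, one_pow, one_mul] at hy2
      exact hne.2 (by rw [← hy2, neg_neg])

theorem Dik_cardcen {p : ℕ} [Fact p.Prime]
    (hcen : ∀ x : SL p, x ∈ Subgroup.center (SL p) ↔ x = 1 ∨ x = -1) (H : Subgroup (SL p)) :
    Nat.card ((Subgroup.center (SL p)).subgroupOf H) ≤ 2 := by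
  classical
  have : ∀ z : ((Subgroup.center (SL p)).subgroupOf H), ((z : H) : SL p) ∈ ({1, -1} : Finset (SL p)) := by
    intro z
    have := (hcen ((z : H) : SL p)).1 z.2
    simpa using this
  have hinj : Function.Injective (fun z : ((Subgroup.center (SL p)).subgroupOf H) =>
      (⟨((z : H) : SL p), this z⟩ : ({1, -1} : Finset (SL p)))) := by
    intro a b hab
    apply Subtype.ext
    apply Subtype.ext
    exact congrArg (fun z : ({1, -1} : Finset (SL p)) => (z : SL p)) hab
  have h := Nat.card_le_card_of_injective _ hinj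
  refine h.trans ?_
  rw [Nat.card_eq_fintype_card, Fintype.card_coe]
  exact Finset.card_le_two

theorem Dik_Cz_le_Nz {G : Type} [Group G] (c : G) : Cz c ≤ Nz c := by
  intro x hx
  rw [Dik_memNz]
  intro y
  constructor
  · intro hy
    exact (Cz c).mul_mem ((Cz c).mul_mem hx hy) ((Cz c).inv_mem hx)
  · intro hy
    have := (Cz c).mul_mem ((Cz c).mul_mem ((Cz c).inv_mem hx) hy) hx
    simpa [mul_assoc] using this

theorem Dik_card {G : Type} [Group G] (C N : Subgroup G) (h : C ≤ N) :
    Nat.card C * C.relIndex N = Nat.card N := by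
  have := Subgroup.relIndex_mul_relIndex (⊥ : Subgroup G) C N bot_le h
  rwa [Subgroup.relIndex_bot_left, Subgroup.relIndex_bot_left] at this

/-- the normaliser of `Cz x ∩ H` in `H` is in the normaliser of `Cz x` -/
theorem Dik_sub {G : Type} [Group G]
    (hC : ∀ c x y : G, NC c → x ∈ Cz c → y ∈ Cz c → x * y = y * x) (H : Subgroup G) (x : H)
    (hx : NC (x : G)) : (Nz x).map H.subtype ≤ Nz (x : G) := by
  rintro _ ⟨h, hh, rfl⟩
  apply Dik_nz hC (x : G) (h : G) hx
  have h1 : x ∈ Cz x := (Dik_memCz _ _).2 rfl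
  have h2 : h * x * h⁻¹ ∈ Cz x := ((Dik_memNz _ _).1 hh x).1 h1
  have h3 := (Dik_memCz _ _).1 h2
  have := congrArg (fun z : H => (z : G)) h3
  simpa using this

theorem Dik_half {G : Type} [Group G] [Finite G]
    (hC : ∀ c x y : G, NC c → x ∈ Cz c → y ∈ Cz c → x * y = y * x) (H : Subgroup G) (x : H)
    (hx : NC (x : G)) (h2 : Nat.card (Nz (x : G)) ≤ 2 * Nat.card (Cz (x : G))) :
    Nat.card (Nz x) ≤ 2 * Nat.card (Cz x) := by
  have e1 : (Cz (x : G)).comap H.subtype = Cz x := by
    ext y
    rw [Subgroup.mem_comap, Dik_memCz, Dik_memCz, Subtype.ext_iff]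
    rfl
  have hpos : 0 < Nat.card (Cz (x : G)) := Nat.card_pos
  have h3 : (Cz (x : G)).relIndex (Nz (x : G)) ≤ 2 := by
    rw [← Dik_card _ _ (Dik_Cz_le_Nz (x : G))] at h2
    by_contra hcon
    push Not at hcon
    nlinarith
  have h4 : (Cz (x : G)).relIndex ((Nz x).map H.subtype) ≤ (Cz (x : G)).relIndex (Nz (x : G)) := by
    apply Subgroup.relIndex_le_of_le_right (Dik_sub hC H x hx)
    intro h0
    have := Dik_card _ _ (Dik_Cz_le_Nz (x : G))
    rw [h0, mul_zero] at this
    exact absurd this.symm (Nat.card_pos).ne'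
  rw [← Subgroup.relIndex_comap, e1] at h4
  rw [← Dik_card _ _ (Dik_Cz_le_Nz x), mul_comm]
  exact Nat.mul_le_mul (h4.trans h3) le_rfl

theorem thm_Dik (hCom : St_Com) (hCen : St_Cen) (hGn2 : St_Gn2) (hDka : St_Dka) : St_Dik := by
  intro p hp H
  have hpp : p.Prime := Fact.out
  obtain ⟨hC, hcen, hord⟩ := hCom p
  have hle : Nat.card H ≤ Nat.card (SL p) := Subgroup.card_le_card_group H
  by_cases hsmall : p ≤ 3
  · right
    left
    refine hle.trans ?_
    rw [hord]
    have : p * (p ^ 2 - 1) ≤ 3 * (3 ^ 2 - 1) :=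
      Nat.mul_le_mul hsmall (Nat.sub_le_sub_right (Nat.pow_le_pow_left hsmall 2) 1)
    omega
  have hp3 : 3 ≤ p := by omega
  by_cases hdiv : p ∣ Nat.card H
  · obtain ⟨u, hu⟩ := exists_prime_orderOf_dvd_card' (G := H) p hdiv
    have huo : orderOf (u : SL p) = p := by
      rw [Subgroup.orderOf_coe]
      exact hu
    have hup : (u : SL p) ^ p = 1 := orderOf_dvd_iff_pow_eq_one.1 huo.dvd
    have hnc : NC (u : SL p) := by
      intro hce
      have h2 : (u : SL p) ^ 2 = 1 := by
        rcases (hcen _).1 hce with h | h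
        · rw [h, one_pow]
        · rw [h, neg_sq, one_pow]
      have := Nat.le_of_dvd (by norm_num) (orderOf_dvd_of_pow_eq_one h2)
      omega
    by_cases hall : ∀ x ∈ H, (x * (u : SL p) * x⁻¹) * u = u * (x * (u : SL p) * x⁻¹)
    · right
      right
      exact ⟨u, hnc, fun x hx => Dik_nz hC _ x hnc (hall x hx)⟩
    · push Not at hall
      obtain ⟨x, hx, hne⟩ := hall
      left
      have ht1 := Dik_tr_of_pow _ hup
      have ht2 : tr (x * (u : SL p) * x⁻¹) = 2 := by
        apply Dik_tr_of_pow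
        rw [conj_pow, hup]
        group
      have := hGn2 p u (x * (u : SL p) * x⁻¹) ht1 ht2 (fun h => hne h.symm)
      rw [eq_top_iff, ← this, Subgroup.closure_le]
      intro y hy
      rcases hy with rfl | hy
      · exact u.2
      · rw [Set.mem_singleton_iff] at hy
        rw [hy]
        exact H.mul_mem (H.mul_mem hx u.2) (H.inv_mem hx)
  · have key := @hDka H _ _ ((Subgroup.center (SL p)).subgroupOf H) ?_ ?_ ?_
    · rcases key with h | ⟨x, hx, h⟩
      · right
        left
        refine h.trans ?_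
        have := Dik_cardcen hcen H
        omega
      · right
        right
        have hnx : NC (x : SL p) := fun h => hx (Subgroup.mem_subgroupOf.2 h)
        refine ⟨(x : SL p), hnx, ?_⟩
        have := Dik_sub hC H x hnx
        rw [h] at this
        intro y hy
        exact this ⟨⟨y, hy⟩, Subgroup.mem_top _, rfl⟩
    · intro z hz
      rw [Subgroup.mem_center_iff]
      intro g
      apply Subtype.ext
      exact Subgroup.mem_center_iff.1 (Subgroup.mem_subgroupOf.1 hz) (g : SL p)
    · intro x y z hx hxy hxz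
      have hnx : NC (x : SL p) := fun h => hx (Subgroup.mem_subgroupOf.2 h)
      apply Subtype.ext
      apply hC (x : SL p) y z hnx
      · rw [Dik_memCz]
        exact (congrArg (fun w : H => (w : SL p)) hxy).symm
      · rw [Dik_memCz]
        exact (congrArg (fun w : H => (w : SL p)) hxz).symm
    · intro x hx
      have hnx : NC (x : SL p) := fun h => hx (Subgroup.mem_subgroupOf.2 h)
      have hno : ¬ (tr (x : SL p) = 2 ∨ tr (x : SL p) = -2) := by
        intro ht
        obtain ⟨k, hk⟩ := Dik_ordp hp3 hcen (x : SL p) hnx ht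
        apply hdiv
        have := Subgroup.orderOf_dvd_natCard H (H.pow_mem x.2 k)
        rwa [hk] at this
      push Not at hno
      exact Dik_half hC H x hnx ((hCen p hp3 _ hnx).2 hno.1 hno.2).1

end Pool.Agent.PWS
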