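import Pool.Agent.PWS.St

/-!
# PWS: [Dka] the class equation for a finite group with transitive commuting (helper63)
-/

set_option autoImplicit false

namespace Pool.Agent.PWS

/-! ### Arithmetic -/

private structure DkaD (v t : ℚ) (a e : ℕ) : Prop where
  ha : 2 ≤ a
  he : e = 1 ∨ e = 2
  hv : (e : ℚ) * v < 1 / a
  ht : t = (1 - 1 / a) / e

private theorem Dka_inv (a m : ℕ) (hm : 1 ≤ m) (h : m ≤ a) : (1 : ℚ) / a ≤ 1 / m := by
  have h1 : (0 : ℚ) < m := by exact_mod_cast hm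
  have h2 : (m : ℚ) ≤ a := by exact_mod_cast h
  exact one_div_le_one_div_of_le h1 h2

private theorem Dka_lt (a m : ℕ) (hm : 1 ≤ m) (h : (1 : ℚ) / m < 1 / a) : a < m := by
  by_contra hlt
  exact absurd (Dka_inv a m hm (not_lt.mp hlt)) (not_le.mpr h)

private theorem Dka_half {v t : ℚ} {a e : ℕ} (d : DkaD v t a e) : (1 : ℚ) / a ≤ 1 / 2 := by
  have h := Dka_inv a 2 (by norm_num) d.ha
  exact_mod_cast h

private theorem Dka_t {v t : ℚ} {a e : ℕ} (d : DkaD v t a e) :
    (e = 1 ∧ v < 1 / a ∧ t = 1 - 1 / a) ∨ (e = 2 ∧ 2 * v < 1 / a ∧ t = (1 - 1 / a) / 2) := by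
  rcases d.he with h | h
  · left
    have h1 := d.hv
    have h2 := d.ht
    rw [h] at h1 h2
    simp only [Nat.cast_one, one_mul, div_one] at h1 h2
    exact ⟨h, h1, h2⟩
  · right
    have h1 := d.hv
    have h2 := d.ht
    rw [h] at h1 h2
    simp only [Nat.cast_ofNat] at h1 h2
    exact ⟨h, h1, h2⟩

private theorem Dka_quarter {v t : ℚ} {a e : ℕ} (d : DkaD v t a e) : 1 / 4 ≤ t := by
  have h1 := Dka_half d
  rcases Dka_t d with ⟨-, -, h⟩ | ⟨-, -, h⟩ <;> rw [h] <;> linarith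

private theorem Dka_one {v t : ℚ} {a e : ℕ} (hv : 0 < v) (hv2 : v < 1 / 60) (d : DkaD v t a e)
    (h : t = 1 - v) : False := by
  have h1 := Dka_half d
  have h0 : (0 : ℚ) < 1 / a := by
    have h2 := d.ha
    have h3 : (0 : ℚ) < a := by
      have : 0 < a := by omega
      exact_mod_cast this
    positivity
  rcases Dka_t d with ⟨-, h3, h4⟩ | ⟨-, h3, h4⟩ <;> linarith

private theorem Dka_twoA {v t s : ℚ} {a b e f : ℕ} (hv : 0 < v) (hv2 : v < 1 / 60)
    (d : DkaD v t a e) (d' : DkaD v s b f) (he : e = 1) (hf : f = 2) (h : t + s = 1 - v) :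
    False := by
  have h1 := Dka_half d
  have h1' := Dka_half d'
  rcases Dka_t d with ⟨-, h3, h4⟩ | ⟨h2, -, -⟩
  swap
  · omega
  rcases Dka_t d' with ⟨h2, -, -⟩ | ⟨-, h3', h4'⟩
  · omega
  have hsum : (1 : ℚ) / a + 1 / b / 2 = 1 / 2 + v := by
    rw [h4, h4'] at h
    linarith
  have ha := d.ha
  rcases Nat.lt_or_ge 2 a with h5 | h5
  · have h6 : (1 : ℚ) / a ≤ 1 / (3 : ℕ) := Dka_inv a 3 (by norm_num) h5
    have h7 : b < 3 := by
      apply Dka_lt b 3 (by norm_num)
      push_cast at h6 ⊢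
      linarith
    have h8 : b = 2 := by
      have := d'.ha
      omega
    subst h8
    have h9 : a < 4 := by
      apply Dka_lt a 4 (by norm_num)
      push_cast at hsum ⊢
      linarith
    have h10 : a = 3 := by omega
    subst h10
    push_cast at hsum
    linarith
  · have h6 : a = 2 := by omega
    subst h6
    push_cast at hsum
    linarith

private theorem Dka_two {v t s : ℚ} {a b e f : ℕ} (hv : 0 < v) (hv2 : v < 1 / 60)
    (d : DkaD v t a e) (d' : DkaD v s b f) (h : t + s = 1 - v) : False := by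
  have h1 := Dka_half d
  have h1' := Dka_half d'
  rcases Dka_t d with ⟨h2, h3, h4⟩ | ⟨h2, h3, h4⟩
  · rcases Dka_t d' with ⟨h2', h3', h4'⟩ | ⟨h2', h3', h4'⟩
    · rw [h4, h4'] at h
      linarith
    · exact Dka_twoA hv hv2 d d' h2 h2' h
  · rcases Dka_t d' with ⟨h2', h3', h4'⟩ | ⟨h2', h3', h4'⟩
    · exact Dka_twoA hv hv2 d' d h2' h2 (by rw [add_comm]; exact h)
    · rw [h4, h4'] at h
      linarith

private theorem Dka_ord {v : ℚ} {a b c : ℕ} (hv : 0 < v) (hv2 : v < 1 / 60) (ha : 2 ≤ a)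
    (hab : a ≤ b) (hbc : b ≤ c) (hc : 2 * v < 1 / c)
    (h : (1 : ℚ) / a + 1 / b + 1 / c = 1 + 2 * v) : False := by
  have i1 : (1 : ℚ) / b ≤ 1 / a := Dka_inv b a (by omega) hab
  have i2 : (1 : ℚ) / c ≤ 1 / b := Dka_inv c b (by omega) hbc
  have h1 : a < 3 := by
    apply Dka_lt a 3 (by norm_num)
    push_cast
    linarith
  have h2 : a = 2 := by omega
  subst h2
  have h3 : b < 4 := by
    apply Dka_lt b 4 (by norm_num)
    push_cast at h ⊢
    linarith
  rcases Nat.lt_or_ge 2 b with h4 | h4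
  · have h5 : b = 3 := by omega
    subst h5
    have h6 : c < 6 := by
      apply Dka_lt c 6 (by norm_num)
      push_cast at h ⊢
      linarith
    interval_cases c
    · push_cast at h
      linarith
    · push_cast at h
      linarith
    · push_cast at h
      linarith
  · have h5 : b = 2 := by omega
    subst h5
    push_cast at h
    linarith

private theorem Dka_three {v t s r : ℚ} {a b c e f g : ℕ} (hv : 0 < v) (hv2 : v < 1 / 60)
    (d : DkaD v t a e) (d' : DkaD v s b f) (d'' : DkaD v r c g) (h : t + s + r = 1 - v) :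
    False := by
  have h1 := Dka_half d
  have h1' := Dka_half d'
  have h1'' := Dka_half d''
  have q1 := Dka_quarter d
  have q2 := Dka_quarter d'
  have q3 := Dka_quarter d''
  rcases Dka_t d with ⟨h2, h3, h4⟩ | ⟨h2, h3, h4⟩
  · linarith
  rcases Dka_t d' with ⟨h2', h3', h4'⟩ | ⟨h2', h3', h4'⟩
  · linarith
  rcases Dka_t d'' with ⟨h2'', h3'', h4''⟩ | ⟨h2'', h3'', h4''⟩
  · linarith
  rw [h4, h4', h4''] at h
  have hs : (1 : ℚ) / a + 1 / b + 1 / c = 1 + 2 * v := by linarith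
  rcases le_total a b with o1 | o1 <;> rcases le_total b c with o2 | o2 <;>
    rcases le_total a c with o3 | o3
  · exact Dka_ord hv hv2 d.ha o1 o2 h3'' hs
  · exact Dka_ord hv hv2 d.ha o1 o2 h3'' hs
  · exact Dka_ord hv hv2 d.ha o3 o2 h3' (by linarith)
  · exact Dka_ord hv hv2 d''.ha o3 o1 h3' (by linarith)
  · exact Dka_ord hv hv2 d'.ha o1 o3 h3'' (by linarith)
  · exact Dka_ord hv hv2 d'.ha o2 o3 h3 (by linarith)
  · exact Dka_ord hv hv2 d''.ha o2 o1 h3 (by linarith)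
  · exact Dka_ord hv hv2 d''.ha o2 o1 h3 (by linarith)

/-! ### Groups -/

section

variable {H : Type} [Group H]

private theorem Dka_mem {x y : H} : y ∈ Cz x ↔ x * y = y * x := by
  rw [Cz, Subgroup.mem_centralizer_iff]
  constructor
  · intro h
    exact h x rfl
  · rintro h _ rfl
    exact h

private theorem Dka_nmem {x g : H} : g ∈ Nz x ↔ ∀ y, y ∈ Cz x ↔ g * y * g⁻¹ ∈ Cz x := Iff.rfl

variable (Z : Subgroup H) (hZ : Z ≤ Subgroup.center H)
  (hT : ∀ x y z : H, x ∉ Z → x * y = y * x → x * z = z * x → y * z = z * y)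

include hZ in
private theorem Dka_Zc (x : H) : Z ≤ Cz x := by
  intro y hy
  rw [Dka_mem]
  exact (Subgroup.mem_center_iff.mp (hZ hy)) x

include hZ in
private theorem Dka_conjZ {g y : H} (h : g * y * g⁻¹ ∈ Z) : y ∈ Z := by
  have h1 := (Subgroup.mem_center_iff.mp (hZ h)) g
  have h2 : g * y * g⁻¹ = y := by
    have h3 : g * (g * y * g⁻¹) = g * y := by
      rw [h1]
      group
    exact mul_left_cancel h3
  rwa [h2] at h

include hT in
private theorem Dka_eq {x y : H} (hx : x ∉ Z) (hy : y ∉ Z) (h : y ∈ Cz x) : Cz y = Cz x := by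
  rw [Dka_mem] at h
  ext w
  rw [Dka_mem, Dka_mem]
  constructor
  · intro h1
    exact hT y x w hy h.symm h1
  · intro h1
    exact hT x y w hx h h1

private theorem Dka_conj (g y w : H) : w ∈ Cz (g * y * g⁻¹) ↔ g⁻¹ * w * g ∈ Cz y := by
  rw [Dka_mem, Dka_mem]
  constructor
  · intro h
    calc y * (g⁻¹ * w * g) = g⁻¹ * (g * y * g⁻¹ * w) * g := by group
      _ = g⁻¹ * (w * (g * y * g⁻¹)) * g := by rw [h]
      _ = g⁻¹ * w * g * y := by group
  · intro h
    calc g * y * g⁻¹ * w = g * (y * (g⁻¹ * w * g)) * g⁻¹ := by group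
      _ = g * (g⁻¹ * w * g * y) * g⁻¹ := by rw [h]
      _ = w * (g * y * g⁻¹) := by group

include hZ hT in
private theorem Dka_Nz {x y g : H} (hx : x ∉ Z) (hy : y ∉ Z) (h : y ∈ Cz x)
    (h2 : g * y * g⁻¹ ∈ Cz x) : g ∈ Nz x := by
  have h3 : g * y * g⁻¹ ∉ Z := fun h4 => hy (Dka_conjZ Z hZ h4)
  have h4 := Dka_eq Z hT hx h3 h2
  have h5 := Dka_eq Z hT hx hy h
  rw [Dka_nmem]
  intro w
  have h6 := Dka_conj g y (g * w * g⁻¹)
  rw [h4, h5] at h6
  rw [h6]
  have h7 : g⁻¹ * (g * w * g⁻¹) * g = w := by group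
  rw [h7]

private theorem Dka_le (x : H) : Cz x ≤ Nz x := by
  intro g hg
  rw [Dka_nmem]
  intro w
  constructor
  · intro hw
    exact (Cz x).mul_mem ((Cz x).mul_mem hg hw) ((Cz x).inv_mem hg)
  · intro hw
    have h1 := (Cz x).mul_mem ((Cz x).mul_mem ((Cz x).inv_mem hg) hw) hg
    have h2 : g⁻¹ * (g * w * g⁻¹) * g = w := by group
    rwa [h2] at h1

open Classical in
/-- the class of `x` -/
private noncomputable def DkaK [Fintype H] (x : H) : Finset H :=
  Finset.univ.filter fun w => w ∉ Z ∧ ∃ g : H, g⁻¹ * w * g ∈ Cz x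

private theorem Dka_memK [Fintype H] (x w : H) :
    w ∈ DkaK Z x ↔ w ∉ Z ∧ ∃ g : H, g⁻¹ * w * g ∈ Cz x := by
  classical
  simp [DkaK]

include hZ in
private theorem Dka_conjZ' {g y : H} (h : g⁻¹ * y * g ∈ Z) : y ∈ Z := by
  refine Dka_conjZ Z hZ (g := g⁻¹) ?_
  rw [inv_inv]
  exact h

include hZ hT in
private theorem Dka_disj [Fintype H] {x y : H} (hx : x ∉ Z) (hy : y ∉ Z) (h : y ∉ DkaK Z x) :
    Disjoint (DkaK Z x) (DkaK Z y) := by
  rw [Finset.disjoint_left]
  intro w hw hw'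
  rw [Dka_memK] at hw hw'
  obtain ⟨hwZ, g, hg⟩ := hw
  obtain ⟨-, k, hk⟩ := hw'
  apply h
  rw [Dka_memK]
  have h1 : g⁻¹ * w * g ∉ Z := fun h2 => hwZ (Dka_conjZ' Z hZ h2)
  have h2 : k⁻¹ * w * k ∉ Z := fun h2 => hwZ (Dka_conjZ' Z hZ h2)
  have e1 := Dka_eq Z hT hx h1 hg
  have e2 := Dka_eq Z hT hy h2 hk
  refine ⟨hy, k⁻¹ * g, ?_⟩
  rw [← e1]
  have h3 : y ∈ Cz (k⁻¹ * w * k) := by
    rw [e2, Dka_mem]
  have h4 : y ∈ Cz ((k⁻¹ * g) * (g⁻¹ * w * g) * (k⁻¹ * g)⁻¹) := by
    have h5 : (k⁻¹ * g) * (g⁻¹ * w * g) * (k⁻¹ * g)⁻¹ = k⁻¹ * w * k := by group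
    rw [h5]
    exact h3
  rw [Dka_conj] at h4
  exact h4

include hZ hT in
open Classical in
private theorem Dka_card [Fintype H] {x : H} (hx : x ∉ Z) :
    Nat.card H * (Nat.card (Cz x) - Nat.card Z) = (DkaK Z x).card * Nat.card (Nz x) := by
  have hcard : Nat.card H = (Finset.univ : Finset H).card := by
    rw [Nat.card_eq_fintype_card, Finset.card_univ]
  have hsub : ∀ S : Subgroup H, Nat.card S = (Finset.univ.filter fun y => y ∈ S).card := by
    intro S
    rw [Nat.card_eq_fintype_card, Fintype.card_subtype]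
  rw [hcard]
  refine Finset.card_mul_eq_card_mul (fun g w => g⁻¹ * w * g ∈ Cz x) ?_ ?_
  · intro g _
    have h1 : (DkaK Z x).bipartiteAbove (fun g w => g⁻¹ * w * g ∈ Cz x) g =
        ((Finset.univ.filter fun y => y ∈ Cz x) \ (Finset.univ.filter fun y => y ∈ Z)).image
          fun y => g * y * g⁻¹ := by
      ext w
      simp only [Finset.mem_bipartiteAbove, Dka_memK, Finset.mem_image, Finset.mem_sdiff,
        Finset.mem_filter, Finset.mem_univ, true_and]
      constructor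
      · rintro ⟨⟨h2, -⟩, h3⟩
        refine ⟨g⁻¹ * w * g, ⟨h3, fun h4 => h2 (Dka_conjZ' Z hZ h4)⟩, by group⟩
      · rintro ⟨y, ⟨h2, h3⟩, rfl⟩
        have h4 : g⁻¹ * (g * y * g⁻¹) * g = y := by group
        refine ⟨⟨fun h5 => h3 (Dka_conjZ Z hZ h5), g, ?_⟩, ?_⟩
        · rw [h4]
          exact h2
        · rw [h4]
          exact h2
    rw [h1, Finset.card_image_of_injective, Finset.card_sdiff_of_subset, hsub, hsub]
    · intro y hy
      rw [Finset.mem_filter] at hy ⊢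
      exact ⟨hy.1, Dka_Zc Z hZ x hy.2⟩
    · intro y y' h2
      simpa using h2
  · intro w hw
    rw [Dka_memK] at hw
    obtain ⟨hwZ, g0, hg0⟩ := hw
    have hy : g0⁻¹ * w * g0 ∉ Z := fun h2 => hwZ (Dka_conjZ' Z hZ h2)
    rw [hsub]
    refine Finset.card_bij (fun g _ => g⁻¹ * g0) ?_ ?_ ?_
    · intro g hg
      rw [Finset.mem_bipartiteBelow] at hg
      rw [Finset.mem_filter]
      refine ⟨Finset.mem_univ _, Dka_Nz Z hZ hT hx hy hg0 ?_⟩
      have h2 : g⁻¹ * g0 * (g0⁻¹ * w * g0) * (g⁻¹ * g0)⁻¹ = g⁻¹ * w * g := by group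
      rw [h2]
      exact hg.2
    · intro g _ g' _ h2
      simpa using h2
    · intro k hk
      rw [Finset.mem_filter] at hk
      refine ⟨g0 * k⁻¹, ?_, by group⟩
      rw [Finset.mem_bipartiteBelow]
      refine ⟨Finset.mem_univ _, ?_⟩
      have h2 : (g0 * k⁻¹)⁻¹ * w * (g0 * k⁻¹) = k * (g0⁻¹ * w * g0) * k⁻¹ := by group
      rw [h2]
      exact (hk.2 _).mp hg0

include hZ hT in
private theorem Dka_data [Fintype H] {x : H} (hx : x ∉ Z)
    (hN : Nat.card (Nz x) ≤ 2 * Nat.card (Cz x)) (htop : Nz x ≠ ⊤) :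
    ∃ a e : ℕ, DkaD ((Nat.card Z : ℚ) / Nat.card H) (((DkaK Z x).card : ℚ) / Nat.card H) a e := by
  have hcard := Dka_card Z hZ hT hx
  have hZpos : 0 < Nat.card Z := Nat.card_pos
  have hHpos : 0 < Nat.card H := Nat.card_pos
  have hCpos : 0 < Nat.card (Cz x) := Nat.card_pos
  obtain ⟨a, ha⟩ := Subgroup.card_dvd_of_le (Dka_Zc Z hZ x)
  obtain ⟨e, he⟩ := Subgroup.card_dvd_of_le (Dka_le x)
  have hlt : Nat.card (Nz x) < Nat.card H := by
    have h1 := Subgroup.card_le_card_group (Nz x)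
    rcases Nat.lt_or_ge (Nat.card (Nz x)) (Nat.card H) with h2 | h2
    · exact h2
    · exact absurd (Subgroup.eq_top_of_card_eq _ (le_antisymm h1 h2)) htop
  have ha2 : 2 ≤ a := by
    rcases Nat.lt_or_ge 1 a with h1 | h1
    · exact h1
    · exfalso
      have h2 : Nat.card (Cz x) ≤ Nat.card Z := by
        rw [ha]
        calc Nat.card Z * a ≤ Nat.card Z * 1 := Nat.mul_le_mul_left _ h1
          _ = Nat.card Z := mul_one _
      have h3 : Z = Cz x := Subgroup.eq_of_le_of_card_ge (Dka_Zc Z hZ x) h2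
      apply hx
      rw [h3, Dka_mem]
  have he12 : e = 1 ∨ e = 2 := by
    have h1 : 0 < e := by
      rcases Nat.eq_zero_or_pos e with h2 | h2
      · rw [h2, mul_zero] at he
        have h3 : 0 < Nat.card (Nz x) := Nat.card_pos
        omega
      · exact h2
    have h2 : e ≤ 2 := by
      rw [he] at hN
      by_contra h3
      have h4 : Nat.card (Cz x) * 3 ≤ Nat.card (Cz x) * e := Nat.mul_le_mul_left _ (by omega)
      omega
    omega
  have haq : (0 : ℚ) < a := by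
    have : 0 < a := by omega
    exact_mod_cast this
  have heq : (0 : ℚ) < e := by
    have : 0 < e := by omega
    exact_mod_cast this
  have hZq : (0 : ℚ) < Nat.card Z := by exact_mod_cast hZpos
  have hHq : (0 : ℚ) < Nat.card H := by exact_mod_cast hHpos
  refine ⟨a, e, ha2, he12, ?_, ?_⟩
  · rw [he, ha] at hlt
    have h1 : (Nat.card Z : ℚ) * a * e < Nat.card H := by exact_mod_cast hlt
    rw [← mul_div_assoc, div_lt_div_iff₀ hHq haq]
    linarith
  · rw [he, ha] at hcard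
    have h1 : (Nat.card Z : ℚ) * a - Nat.card Z = ((Nat.card Z * a - Nat.card Z : ℕ) : ℚ) := by
      rw [Nat.cast_sub, Nat.cast_mul]
      calc Nat.card Z = Nat.card Z * 1 := (mul_one _).symm
        _ ≤ Nat.card Z * a := Nat.mul_le_mul_left _ (by omega)
    have h2 : (Nat.card H : ℚ) * (Nat.card Z * a - Nat.card Z) =
        (DkaK Z x).card * (Nat.card Z * a * e) := by
      rw [h1]
      exact_mod_cast hcard
    rw [div_eq_div_iff hHq.ne' heq.ne']
    have h3 : (Nat.card Z : ℚ) * (((DkaK Z x).card : ℚ) * (a * e)) =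
        Nat.card Z * (Nat.card H * (a - 1)) := by linarith
    have h4 := mul_left_cancel₀ hZq.ne' h3
    field_simp
    linarith

end

theorem thm_Dka : St_Dka := by
  classical
  intro H _ _ Z hZ hT hN
  have : Fintype H := Fintype.ofFinite H
  by_contra hcon
  rw [not_or, not_le] at hcon
  obtain ⟨hbig, hno⟩ := hcon
  have hno' : ∀ x : H, x ∉ Z → Nz x ≠ ⊤ := fun x hx h => hno ⟨x, hx, h⟩
  have hZpos : 0 < Nat.card Z := Nat.card_pos
  have hHpos : 0 < Nat.card H := Nat.card_pos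
  have hZq : (0 : ℚ) < Nat.card Z := by exact_mod_cast hZpos
  have hHq : (0 : ℚ) < Nat.card H := by exact_mod_cast hHpos
  set v : ℚ := (Nat.card Z : ℚ) / Nat.card H with hv
  have hv0 : 0 < v := by positivity
  have hv1 : v < 1 / 60 := by
    rw [hv, div_lt_div_iff₀ hHq (by norm_num)]
    have h1 : (60 : ℚ) * Nat.card Z < Nat.card H := by exact_mod_cast hbig
    linarith
  -- the complement of `Z`
  set X : Finset H := Finset.univ.filter fun w => w ∉ Z with hX
  have hXc : (X.card : ℚ) / Nat.card H = 1 - v := by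
    have h1 : X.card + Nat.card Z = Nat.card H := by
      rw [Nat.card_eq_fintype_card (α := H), Nat.card_eq_fintype_card, Fintype.card_subtype,
        ← Finset.card_univ, hX, add_comm]
      exact Finset.card_filter_add_card_filter_not _
    have h2 : (X.card : ℚ) + Nat.card Z = Nat.card H := by exact_mod_cast h1
    rw [hv, eq_sub_iff_add_eq, ← add_div, h2, div_self hHq.ne']
  have hKX : ∀ x, DkaK Z x ⊆ X := by
    intro x w hw
    rw [Dka_memK] at hw
    rw [hX, Finset.mem_filter]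
    exact ⟨Finset.mem_univ _, hw.1⟩
  have hXZ : ∀ x ∈ X, x ∉ Z := by
    intro x hx
    rw [hX, Finset.mem_filter] at hx
    exact hx.2
  have hdat : ∀ x ∈ X, ∃ a e : ℕ, DkaD v (((DkaK Z x).card : ℚ) / Nat.card H) a e := fun x hx =>
    Dka_data Z hZ hT (hXZ x hx) (hN x (hXZ x hx)) (hno' x (hXZ x hx))
  have hdis : ∀ x ∈ X, ∀ y ∈ X, y ∉ DkaK Z x → Disjoint (DkaK Z x) (DkaK Z y) :=
    fun x hx y hy h => Dka_disj Z hZ hT (hXZ x hx) (hXZ y hy) h
  have hne : X.Nonempty := by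
    rw [Finset.nonempty_iff_ne_empty]
    intro h
    rw [h, Finset.card_empty, Nat.cast_zero, zero_div] at hXc
    linarith
  obtain ⟨x1, hx1⟩ := hne
  obtain ⟨a1, e1, d1⟩ := hdat x1 hx1
  by_cases h1 : X ⊆ DkaK Z x1
  · have h2 : DkaK Z x1 = X := Finset.Subset.antisymm (hKX x1) h1
    rw [h2] at d1
    exact Dka_one hv0 hv1 d1 hXc
  rw [Finset.not_subset] at h1
  obtain ⟨x2, hx2, hn2⟩ := h1
  obtain ⟨a2, e2, d2⟩ := hdat x2 hx2
  have D12 := hdis x1 hx1 x2 hx2 hn2
  have c12 := Finset.card_union_of_disjoint D12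
  by_cases h1 : X ⊆ DkaK Z x1 ∪ DkaK Z x2
  · have h2 : DkaK Z x1 ∪ DkaK Z x2 = X :=
      Finset.Subset.antisymm (Finset.union_subset (hKX x1) (hKX x2)) h1
    rw [h2] at c12
    refine Dka_two hv0 hv1 d1 d2 ?_
    rw [← hXc, ← add_div, c12]
    push_cast
    rfl
  rw [Finset.not_subset] at h1
  obtain ⟨x3, hx3, hn3⟩ := h1
  rw [Finset.mem_union, not_or] at hn3
  obtain ⟨a3, e3, d3⟩ := hdat x3 hx3
  have D13 := hdis x1 hx1 x3 hx3 hn3.1
  have D23 := hdis x2 hx2 x3 hx3 hn3.2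
  have D123 : Disjoint (DkaK Z x1 ∪ DkaK Z x2) (DkaK Z x3) := Finset.disjoint_union_left.mpr ⟨D13, D23⟩
  have c123 := Finset.card_union_of_disjoint D123
  rw [c12] at c123
  by_cases h1 : X ⊆ DkaK Z x1 ∪ DkaK Z x2 ∪ DkaK Z x3
  · have h2 : DkaK Z x1 ∪ DkaK Z x2 ∪ DkaK Z x3 = X :=
      Finset.Subset.antisymm (Finset.union_subset (Finset.union_subset (hKX x1) (hKX x2))
        (hKX x3)) h1
    rw [h2] at c123
    refine Dka_three hv0 hv1 d1 d2 d3 ?_
    rw [← hXc, ← add_div, ← add_div, c123]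
    push_cast
    rfl
  rw [Finset.not_subset] at h1
  obtain ⟨x4, hx4, hn4⟩ := h1
  rw [Finset.mem_union, Finset.mem_union, not_or, not_or] at hn4
  obtain ⟨a4, e4, d4⟩ := hdat x4 hx4
  have D14 := hdis x1 hx1 x4 hx4 hn4.1.1
  have D24 := hdis x2 hx2 x4 hx4 hn4.1.2
  have D34 := hdis x3 hx3 x4 hx4 hn4.2
  have D1234 : Disjoint (DkaK Z x1 ∪ DkaK Z x2 ∪ DkaK Z x3) (DkaK Z x4) :=
    Finset.disjoint_union_left.mpr ⟨Finset.disjoint_union_left.mpr ⟨D14, D24⟩, D34⟩
  have c1234 := Finset.card_union_of_disjoint D1234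
  rw [c123] at c1234
  have hle : (DkaK Z x1 ∪ DkaK Z x2 ∪ DkaK Z x3 ∪ DkaK Z x4).card ≤ X.card :=
    Finset.card_le_card (Finset.union_subset (Finset.union_subset (Finset.union_subset
      (hKX x1) (hKX x2)) (hKX x3)) (hKX x4))
  rw [c1234] at hle
  have hleq : ((DkaK Z x1).card : ℚ) / Nat.card H + (DkaK Z x2).card / Nat.card H +
      (DkaK Z x3).card / Nat.card H + (DkaK Z x4).card / Nat.card H ≤ 1 - v := by
    rw [← hXc, ← add_div, ← add_div, ← add_div]
    apply div_le_div_of_nonneg_right _ hHq.le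
    exact_mod_cast hle
  have q1 := Dka_quarter d1
  have q2 := Dka_quarter d2
  have q3 := Dka_quarter d3
  have q4 := Dka_quarter d4
  linarith

end Pool.Agent.PWS
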