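import Pool.Agent.PWS.St

/-!
Campaign PWS, module End: no tight homomorphism has consecutive blocks without growth.
-/

set_option autoImplicit false

namespace Pool.Agent.PWS

open Pool.Agent.PW Pool.Agent.PWM Pool.Agent.PWX
open scoped Classical Pointwise

private theorem End_num (p G N K d a b c : ℕ) (hp : 5 ≤ p) (hK : 1 ≤ K)
    (hG : G = p * (p ^ 2 - 1)) (hN : 10 ^ 32 * K ^ 612 ≤ N) (ha : N ≤ a) (hb : N ≤ b)
    (hc : N ≤ c) (hbG : b ≤ G) (hd : d ≤ K ^ 2 * N) (h : p ^ 3 ≤ 2100 * (K ^ 6) ^ 10 * d) :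
    2 * G ^ 3 < a * b * c * (p - 1) := by
  have hG1 : G < p ^ 3 := by
    have h1 : p ^ 2 - 1 < p ^ 2 := Nat.sub_lt (by positivity) (by norm_num)
    calc G = p * (p ^ 2 - 1) := hG
      _ < p * p ^ 2 := Nat.mul_lt_mul_of_pos_left h1 (by omega)
      _ = p ^ 3 := by ring
  have h2 : (4 * 10 ^ 10 * K ^ 204) ^ 3 < p ^ 3 := by
    calc (4 * 10 ^ 10 * K ^ 204) ^ 3 = 64 * 10 ^ 30 * K ^ 612 := by ring
      _ ≤ 10 ^ 32 * K ^ 612 := Nat.mul_le_mul_right _ (by norm_num)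
      _ ≤ N := hN
      _ ≤ b := hb
      _ ≤ G := hbG
      _ < p ^ 3 := hG1
  have h3 : 4 * 10 ^ 10 * K ^ 204 < p := lt_of_pow_lt_pow_left₀ 3 (Nat.zero_le _) h2
  have h4 : 2 * 2100 ^ 3 * K ^ 186 ≤ p - 1 := by
    have h5 : K ^ 186 ≤ K ^ 204 := Nat.pow_le_pow_right hK (by norm_num)
    have h6 : 2 * 2100 ^ 3 * K ^ 186 ≤ 4 * 10 ^ 10 * K ^ 204 :=
      Nat.mul_le_mul (by norm_num) h5
    omega
  have h5 : p ^ 3 ≤ 2100 * K ^ 62 * N := by
    calc p ^ 3 ≤ 2100 * (K ^ 6) ^ 10 * d := h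
      _ ≤ 2100 * (K ^ 6) ^ 10 * (K ^ 2 * N) := Nat.mul_le_mul_left _ hd
      _ = 2100 * K ^ 62 * N := by ring
  calc 2 * G ^ 3 < 2 * (p ^ 3) ^ 3 := by
        have := Nat.pow_lt_pow_left hG1 (n := 3) (by norm_num)
        omega
    _ ≤ 2 * (2100 * K ^ 62 * N) ^ 3 := Nat.mul_le_mul_left _ (Nat.pow_le_pow_left h5 3)
    _ = N * N * N * (2 * 2100 ^ 3 * K ^ 186) := by ring
    _ ≤ a * b * c * (p - 1) :=
        Nat.mul_le_mul (Nat.mul_le_mul (Nat.mul_le_mul ha hb) hc) h4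

private theorem End_card {p : ℕ} [Fact p.Prime] {S : Set (SL p)} {X : Finset (SL p)} {m : ℕ}
    (h : (X : Set (SL p)) ⊆ S) (hS : S.ncard ≤ m) : X.card ≤ m := by
  rw [← Set.ncard_coe_finset]
  exact le_trans (Set.ncard_le_ncard h (Set.toFinite _)) hS

private theorem End_gen (hMon : St_Mon) (hPrd : St_Prd) (hGen : St_Gen) {p : ℕ} [Fact p.Prime]
    {g : ℕ} (ρ : F g 0 →* SL p) (u l h : ℕ) (ht : Tight ρ u) (hu : u + 1 ≤ h)
    (hl : l + h ≤ g) (D : Finset (SL p))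
    (hD : ∀ x ∈ Sm ρ l h, ∀ y ∈ Sm ρ l h, x⁻¹ * y ∈ D) :
    Subgroup.closure (D : Set (SL p)) = ⊤ := by
  have hx : ρ (ga ⟨l, by omega⟩) ∈ Sm ρ l 1 :=
    ⟨1, one_mem _, ⟨l, by omega⟩, le_refl _, Nat.lt_succ_self _, rfl⟩
  have h1 : Sm ρ (l + 1) (h - 1) ⊆ (D : Set (SL p)) := by
    intro y hy
    have h2 := hPrd ρ l 1 (h - 1) _ y hx hy
    have h3 : 1 + (h - 1) = h := by omega
    rw [h3] at h2
    have h4 := hD _ ((hMon g l 1 l h (le_refl _) (by omega)).2 ρ hx) _ h2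
    rw [inv_mul_cancel_left] at h4
    exact h4
  have h2 := hGen ρ (l + 1) (h - 1)
  have h3 := ht.full 1 (one_mem _) (l + 1) (by omega)
  have h4 : pre ρ 1 = ρ := by
    ext x
    rfl
  rw [h4] at h3
  have h5 : Let g (l + 1) u ≤ Let g (l + 1) (h - 1) := by
    apply Subgroup.closure_mono
    rintro x ⟨i, h6, h7, h8⟩
    exact ⟨i, h6, by omega, h8⟩
  rw [eq_top_iff, ← h3]
  refine le_trans (Subgroup.map_mono h5) ?_
  rw [← h2]
  exact Subgroup.closure_mono h1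

theorem thm_End (hCom : St_Com) (hMon : St_Mon) (hPrd : St_Prd) (hGen : St_Gen)
    (hRuz : St_Ruz) (hHel : St_Hel) (hGow : St_Gow) : St_End := by
  intro p _ hp g ρ u l h N K ht hu hl hK hN hL hA hR hB
  obtain ⟨L, hLd⟩ : ∃ L : Finset (SL p), L = (Set.toFinite (Sm ρ l h)).toFinset := ⟨_, rfl⟩
  obtain ⟨A, hAd⟩ : ∃ A : Finset (SL p), A = (Set.toFinite (Sm ρ (l + h) h)).toFinset := ⟨_, rfl⟩
  obtain ⟨R, hRd⟩ : ∃ R : Finset (SL p), R = (Set.toFinite (Sm ρ (l + 2 * h) h)).toFinset :=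
    ⟨_, rfl⟩
  have hLm : ∀ x, x ∈ L ↔ x ∈ Sm ρ l h := by
    intro x
    rw [hLd, Set.Finite.mem_toFinset]
  have hAm : ∀ x, x ∈ A ↔ x ∈ Sm ρ (l + h) h := by
    intro x
    rw [hAd, Set.Finite.mem_toFinset]
  have hRm : ∀ x, x ∈ R ↔ x ∈ Sm ρ (l + 2 * h) h := by
    intro x
    rw [hRd, Set.Finite.mem_toFinset]
  have hLc : N ≤ L.card := by
    rw [hLd, ← Set.ncard_eq_toFinset_card]
    exact hL
  have hAc : N ≤ A.card := by
    rw [hAd, ← Set.ncard_eq_toFinset_card]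
    exact hA
  have hRc : N ≤ R.card := by
    rw [hRd, ← Set.ncard_eq_toFinset_card]
    exact hR
  have hN0 : 0 < N := lt_of_lt_of_le (by positivity) hN
  have hLA : ∀ a ∈ L, ∀ b ∈ A, a * b ∈ Sm ρ l (h + h) := by
    intro a ha b hb
    exact hPrd ρ l h h a b ((hLm a).1 ha) ((hAm b).1 hb)
  have hLAR : ∀ a ∈ L, ∀ b ∈ A, ∀ c ∈ R, a * b * c ∈ Sm ρ l (3 * h) := by
    intro a ha b hb c hc
    have h1 := (hRm c).1 hc
    have h2 : l + 2 * h = l + (h + h) := by ring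
    rw [h2] at h1
    have h3 := hPrd ρ l (h + h) h _ c (hLA a ha b hb) h1
    have h4 : h + h + h = 3 * h := by ring
    rw [h4] at h3
    exact h3
  have hc1 : (L * A).card ≤ K * N := by
    refine End_card (fun x hx => ?_) hB
    obtain ⟨a, ha, b, hb, rfl⟩ := Finset.mem_mul.1 (Finset.mem_coe.1 hx)
    exact (hMon g l (h + h) l (3 * h) (le_refl _) (by omega)).2 ρ (hLA a ha b hb)
  have hc2 : (L * A * R).card ≤ K * N := by
    refine End_card (fun x hx => ?_) hB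
    obtain ⟨y, hy, c, hc, rfl⟩ := Finset.mem_mul.1 (Finset.mem_coe.1 hx)
    obtain ⟨a, ha, b, hb, rfl⟩ := Finset.mem_mul.1 hy
    exact hLAR a ha b hb c hc
  obtain ⟨hD1, hD3⟩ := hRuz L A R N K hN0 hLc hAc hRc hc1 hc2
  have hA0 : A.Nonempty := Finset.card_pos.1 (lt_of_lt_of_le hN0 hAc)
  have hDA : A.card ≤ (A⁻¹ * A).card :=
    Finset.card_le_card_mul_left hA0.inv
  have h1D : (1 : SL p) ∈ A⁻¹ * A := by
    obtain ⟨a, ha⟩ := hA0
    have h1 := Finset.mul_mem_mul (Finset.inv_mem_inv ha) ha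
    rw [inv_mul_cancel] at h1
    exact h1
  have hDs : (A⁻¹ * A)⁻¹ = A⁻¹ * A := by
    rw [mul_inv_rev, inv_inv]
  have hgen : Subgroup.closure ((A⁻¹ * A : Finset (SL p)) : Set (SL p)) = ⊤ := by
    refine End_gen hMon hPrd hGen ρ u (l + h) h ht hu (by omega) (A⁻¹ * A) ?_
    intro x hx y hy
    exact Finset.mul_mem_mul (Finset.inv_mem_inv ((hAm x).2 hx)) ((hAm y).2 hy)
  have hK6 : 1 ≤ K ^ 6 := Nat.one_le_pow _ _ hK
  have h3 : ((A⁻¹ * A) ^ 3).card ≤ K ^ 6 * (A⁻¹ * A).card :=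
    le_trans hD3 (Nat.mul_le_mul_left _ (le_trans hAc hDA))
  obtain ⟨-, -, hcard⟩ := hCom p
  have hAG : A.card ≤ Nat.card (SL p) := by
    rw [Nat.card_eq_fintype_card]
    exact Finset.card_le_univ A
  rcases hHel p hp (A⁻¹ * A) (K ^ 6) hK6 h1D hDs hgen h3 with h4 | h4
  · have h5 : N ≤ 450000 * K ^ 186 := by
      calc N ≤ A.card := hAc
        _ ≤ (A⁻¹ * A).card := hDA
        _ ≤ 450000 * (K ^ 6) ^ 31 := h4
        _ = 450000 * K ^ 186 := by ring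
    have h6 : K ^ 186 ≤ K ^ 612 := Nat.pow_le_pow_right hK (by norm_num)
    have h7 : 1 ≤ K ^ 186 := Nat.one_le_pow _ _ hK
    have h8 : 10 ^ 32 * K ^ 186 ≤ 10 ^ 32 * K ^ 612 := Nat.mul_le_mul_left _ h6
    omega
  · have h5 := End_num p (Nat.card (SL p)) N K (A⁻¹ * A).card L.card A.card R.card hp hK hcard
      hN hLc hAc hRc hAG hD1 h4
    obtain ⟨a, ha, b, hb, c, hc, h6⟩ := hGow p (by omega) L A R h5 1
    apply ht.one
    rw [← h6]
    exact (hMon g l (3 * h) 0 g (Nat.zero_le _) (by omega)).2 ρ (hLAR a ha b hb c hc)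

end Pool.Agent.PWS
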