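import Pool.Agent.PWS.St
import Pool.Agent.PWM.Swp

/-!
# PWS, module Ext: `a_i ↦ a_i a_(i+1)`
-/

set_option autoImplicit false
set_option linter.unusedSimpArgs false

namespace Pool.Agent.PWS

open Pool.Agent.PW Pool.Agent.PWM Pool.Agent.PWX
open scoped Classical Pointwise

variable {g n : ℕ}

/-- `a ↦ a s`, `b ↦ s⁻¹ b s`, `s ↦ s⁻¹ b s b⁻¹ s`, `t ↦ t s⁻¹ b⁻¹ s` -/
noncomputable def Ext_h (i j : Fin g) : F g n →* F g n :=
  FreeGroup.lift fun x =>
    if x = Gen.a i then ga i * ga j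
    else if x = Gen.b i then (ga j)⁻¹ * gb i * ga j
    else if x = Gen.a j then (ga j)⁻¹ * gb i * ga j * (gb i)⁻¹ * ga j
    else if x = Gen.b j then gb j * (ga j)⁻¹ * (gb i)⁻¹ * ga j
    else FreeGroup.of x

/-- the inverse: `a ↦ a b⁻¹ s⁻¹ b`, `b ↦ b⁻¹ s b s⁻¹ b`, `s ↦ b⁻¹ s b`, `t ↦ t b` -/
noncomputable def Ext_k (i j : Fin g) : F g n →* F g n :=
  FreeGroup.lift fun x =>
    if x = Gen.a i then ga i * (gb i)⁻¹ * (ga j)⁻¹ * gb i
    else if x = Gen.b i then (gb i)⁻¹ * ga j * gb i * (ga j)⁻¹ * gb i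
    else if x = Gen.a j then (gb i)⁻¹ * ga j * gb i
    else if x = Gen.b j then gb j * gb i
    else FreeGroup.of x

theorem Ext_h_ai (i j : Fin g) : Ext_h (n := n) i j (ga i) = ga i * ga j := by
  simp [Ext_h, ga]

theorem Ext_h_bi (i j : Fin g) : Ext_h (n := n) i j (gb i) = (ga j)⁻¹ * gb i * ga j := by
  simp [Ext_h, gb]

theorem Ext_h_aj {i j : Fin g} (hji : j ≠ i) :
    Ext_h (n := n) i j (ga j) = (ga j)⁻¹ * gb i * ga j * (gb i)⁻¹ * ga j := by
  simp [Ext_h, ga, hji]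

theorem Ext_h_bj {i j : Fin g} (hji : j ≠ i) :
    Ext_h (n := n) i j (gb j) = gb j * (ga j)⁻¹ * (gb i)⁻¹ * ga j := by
  simp [Ext_h, gb, hji]

theorem Ext_h_a' {i j l : Fin g} (h1 : l ≠ i) (h2 : l ≠ j) :
    Ext_h (n := n) i j (ga l) = ga l := by
  simp [Ext_h, ga, h1, h2]

theorem Ext_h_b' {i j l : Fin g} (h1 : l ≠ i) (h2 : l ≠ j) :
    Ext_h (n := n) i j (gb l) = gb l := by
  simp [Ext_h, gb, h1, h2]

theorem Ext_h_c (i j : Fin g) (l : Fin n) : Ext_h i j (gc l) = gc l := by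
  simp [Ext_h, gc]

theorem Ext_k_ai (i j : Fin g) :
    Ext_k (n := n) i j (ga i) = ga i * (gb i)⁻¹ * (ga j)⁻¹ * gb i := by
  simp [Ext_k, ga]

theorem Ext_k_bi (i j : Fin g) :
    Ext_k (n := n) i j (gb i) = (gb i)⁻¹ * ga j * gb i * (ga j)⁻¹ * gb i := by
  simp [Ext_k, gb]

theorem Ext_k_aj {i j : Fin g} (hji : j ≠ i) :
    Ext_k (n := n) i j (ga j) = (gb i)⁻¹ * ga j * gb i := by
  simp [Ext_k, ga, hji]

theorem Ext_k_bj {i j : Fin g} (hji : j ≠ i) :
    Ext_k (n := n) i j (gb j) = gb j * gb i := by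
  simp [Ext_k, gb, hji]

theorem Ext_k_a' {i j l : Fin g} (h1 : l ≠ i) (h2 : l ≠ j) :
    Ext_k (n := n) i j (ga l) = ga l := by
  simp [Ext_k, ga, h1, h2]

theorem Ext_k_b' {i j l : Fin g} (h1 : l ≠ i) (h2 : l ≠ j) :
    Ext_k (n := n) i j (gb l) = gb l := by
  simp [Ext_k, gb, h1, h2]

theorem Ext_k_c (i j : Fin g) (l : Fin n) : Ext_k i j (gc l) = gc l := by
  simp [Ext_k, gc]

theorem Ext_kh {i j : Fin g} (hji : j ≠ i) :
    (Ext_k (n := n) i j).comp (Ext_h i j) = MonoidHom.id _ := by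
  apply hom_ext
  · intro m
    rw [MonoidHom.comp_apply, MonoidHom.id_apply]
    by_cases hm : m = i
    · subst hm
      rw [Ext_h_ai]
      simp only [map_mul, map_inv, Ext_k_ai, Ext_k_bi, Ext_k_aj hji, Ext_k_bj hji]
      group
    · by_cases hm' : m = j
      · subst hm'
        rw [Ext_h_aj hji]
        simp only [map_mul, map_inv, Ext_k_ai, Ext_k_bi, Ext_k_aj hji, Ext_k_bj hji]
        group
      · rw [Ext_h_a' hm hm', Ext_k_a' hm hm']
  · intro m
    rw [MonoidHom.comp_apply, MonoidHom.id_apply]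
    by_cases hm : m = i
    · subst hm
      rw [Ext_h_bi]
      simp only [map_mul, map_inv, Ext_k_ai, Ext_k_bi, Ext_k_aj hji, Ext_k_bj hji]
      group
    · by_cases hm' : m = j
      · subst hm'
        rw [Ext_h_bj hji]
        simp only [map_mul, map_inv, Ext_k_ai, Ext_k_bi, Ext_k_aj hji, Ext_k_bj hji]
        group
      · rw [Ext_h_b' hm hm', Ext_k_b' hm hm']
  · intro m
    rw [MonoidHom.comp_apply, MonoidHom.id_apply, Ext_h_c, Ext_k_c]

theorem Ext_hk {i j : Fin g} (hji : j ≠ i) :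
    (Ext_h (n := n) i j).comp (Ext_k i j) = MonoidHom.id _ := by
  apply hom_ext
  · intro m
    rw [MonoidHom.comp_apply, MonoidHom.id_apply]
    by_cases hm : m = i
    · subst hm
      rw [Ext_k_ai]
      simp only [map_mul, map_inv, Ext_h_ai, Ext_h_bi, Ext_h_aj hji, Ext_h_bj hji]
      group
    · by_cases hm' : m = j
      · subst hm'
        rw [Ext_k_aj hji]
        simp only [map_mul, map_inv, Ext_h_ai, Ext_h_bi, Ext_h_aj hji, Ext_h_bj hji]
        group
      · rw [Ext_k_a' hm hm', Ext_h_a' hm hm']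
  · intro m
    rw [MonoidHom.comp_apply, MonoidHom.id_apply]
    by_cases hm : m = i
    · subst hm
      rw [Ext_k_bi]
      simp only [map_mul, map_inv, Ext_h_ai, Ext_h_bi, Ext_h_aj hji, Ext_h_bj hji]
      group
    · by_cases hm' : m = j
      · subst hm'
        rw [Ext_k_bj hji]
        simp only [map_mul, map_inv, Ext_h_ai, Ext_h_bi, Ext_h_aj hji, Ext_h_bj hji]
        group
      · rw [Ext_k_b' hm hm', Ext_h_b' hm hm']
  · intro m
    rw [MonoidHom.comp_apply, MonoidHom.id_apply, Ext_k_c, Ext_h_c]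

/-- The automorphism. -/
noncomputable def Ext_f (i j : Fin g) (h : (j : ℕ) = i + 1) : MulAut (F g n) :=
  mkAut (Ext_h i j) (Ext_k i j) (Ext_kh (swp_ne h)) (Ext_hk (swp_ne h))

theorem Ext_f_apply {i j : Fin g} (h : (j : ℕ) = i + 1) (x : F g n) :
    Ext_f i j h x = Ext_h i j x := rfl

/-- The commutators. -/
theorem Ext_word {G : Type*} [Group G] (a b s t : G) :
    cm (a * s) (s⁻¹ * b * s) * cm (s⁻¹ * b * s * b⁻¹ * s) (t * s⁻¹ * b⁻¹ * s) =
      cm a b * cm s t := by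
  unfold cm
  group

theorem Ext_bdry {i j : Fin g} (h : (j : ℕ) = i + 1) : Ext_h i j (bdry g n) = bdry g n := by
  have hij : (i : ℕ) < j := by omega
  rw [bdry_split2 i j hij]
  simp only [map_mul]
  have h1 : Ext_h i j (seg g n 0 i) = seg g n 0 i := by
    apply seg_congr (ψ := MonoidHom.id _)
    intro l _ hl
    have hli : l ≠ i := by
      rintro rfl
      omega
    have hlj : l ≠ j := by
      rintro rfl
      omega
    exact ⟨Ext_h_a' hli hlj, Ext_h_b' hli hlj⟩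
  have h2 : Ext_h i j (seg g n (j + 1) (g - j - 1)) = seg g n (j + 1) (g - j - 1) := by
    apply seg_congr (ψ := MonoidHom.id _)
    intro l hl _
    have hli : l ≠ i := by
      rintro rfl
      omega
    have hlj : l ≠ j := by
      rintro rfl
      omega
    exact ⟨Ext_h_a' hli hlj, Ext_h_b' hli hlj⟩
  have h3 : Ext_h i j (cseg g n 0 n) = cseg g n 0 n := by
    apply cseg_congr (ψ := MonoidHom.id _)
    intro l _ _
    exact Ext_h_c _ _ _
  have h4 : seg g n (i + 1) (j - i - 1) = 1 := by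
    have h5 : (j : ℕ) - i - 1 = 0 := by omega
    rw [h5, seg_zero]
  rw [h1, h2, h3, h4, map_one, mul_one, mul_one, map_cm, map_cm, Ext_h_ai, Ext_h_bi,
    Ext_h_aj (swp_ne h), Ext_h_bj (swp_ne h), Ext_word]

theorem Ext_Let {i j : Fin g} (h : (j : ℕ) = i + 1) {φ : F g 0 →* F g 0}
    (h1 : φ (ga i) ∈ Let g i 2) (h2 : φ (gb i) ∈ Let g i 2) (h3 : φ (ga j) ∈ Let g i 2)
    (h4 : φ (gb j) ∈ Let g i 2) (x : F g 0) (hx : x ∈ Let g i 2) : φ x ∈ Let g i 2 := by
  have h5 : Let g i 2 ≤ (Let g i 2).comap φ := by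
    refine (Subgroup.closure_le _).2 ?_
    rintro y ⟨l, hl1, hl2, hy⟩
    have hl : l = i ∨ l = j := by
      rcases Nat.eq_or_lt_of_le hl1 with h6 | h6
      · exact Or.inl (Fin.ext h6.symm)
      · exact Or.inr (Fin.ext (by omega))
    rcases hl with rfl | rfl <;> rcases hy with rfl | rfl
    · exact h1
    · exact h2
    · exact h3
    · exact h4
  exact h5 hx

theorem thm_Ext : St_Ext := by
  intro g i j h
  have hji := swp_ne h
  have ha : (ga i : F g 0) ∈ Let g i 2 := Subgroup.subset_closure ⟨i, le_refl _, by omega, Or.inl rfl⟩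
  have hb : (gb i : F g 0) ∈ Let g i 2 := Subgroup.subset_closure ⟨i, le_refl _, by omega, Or.inr rfl⟩
  have hs : (ga j : F g 0) ∈ Let g i 2 :=
    Subgroup.subset_closure ⟨j, by omega, by omega, Or.inl rfl⟩
  have ht : (gb j : F g 0) ∈ Let g i 2 :=
    Subgroup.subset_closure ⟨j, by omega, by omega, Or.inr rfl⟩
  refine ⟨Ext_f i j h, ⟨Ext_bdry h, fun l hl => ?_, fun x => ⟨fun hx => ?_, fun hx => ?_⟩⟩,
    Ext_h_ai i j⟩
  · have hli : l ≠ i := by
      rintro rfl
      omega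
    have hlj : l ≠ j := by
      rintro rfl
      omega
    exact ⟨Ext_h_a' hli hlj, Ext_h_b' hli hlj⟩
  · refine Ext_Let h (φ := Ext_h i j) ?_ ?_ ?_ ?_ x hx
    · rw [Ext_h_ai]
      exact mul_mem ha hs
    · rw [Ext_h_bi]
      exact mul_mem (mul_mem (inv_mem hs) hb) hs
    · rw [Ext_h_aj hji]
      exact mul_mem (mul_mem (mul_mem (mul_mem (inv_mem hs) hb) hs) (inv_mem hb)) hs
    · rw [Ext_h_bj hji]
      exact mul_mem (mul_mem (mul_mem ht (inv_mem hs)) (inv_mem hb)) hs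
  · have h1 := Ext_Let h (φ := Ext_k i j) (by
        rw [Ext_k_ai]
        exact mul_mem (mul_mem (mul_mem ha (inv_mem hb)) (inv_mem hs)) hb) (by
        rw [Ext_k_bi]
        exact mul_mem (mul_mem (mul_mem (mul_mem (inv_mem hb) hs) hb) (inv_mem hs)) hb) (by
        rw [Ext_k_aj hji]
        exact mul_mem (mul_mem (inv_mem hb) hs) hb) (by
        rw [Ext_k_bj hji]
        exact mul_mem ht hb) _ hx
    have h2 : Ext_k i j (Ext_f i j h x) = x :=
      DFunLike.congr_fun (Ext_kh (n := 0) hji) x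
    rwa [h2] at h1

end Pool.Agent.PWS
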