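import Pool.Agent.PWS.St

/-!
Campaign PWS, module Flo: a nondegenerate handle in every block.
-/

set_option autoImplicit false

namespace Pool.Agent.PWS

open Pool.Agent.PW Pool.Agent.PWM Pool.Agent.PWX
open scoped Classical Pointwise

theorem Flo_pa_add (g l a b : ℕ) : pa g l (a + b) = pa g l a * pa g (l + a) b := by
  unfold pa
  rw [← List.prod_append, ← List.map_append]
  congr 2
  rw [← List.range'_append, one_mul]

theorem Flo_pa_one (g l : ℕ) (hl : l < g) : pa g l 1 = ga ⟨l, hl⟩ := by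
  unfold pa
  simp [hl]

/-- the cyclic word -/
def Flo_C (g k : ℕ) : F g 0 := pa g (k + 1) (g - k - 1) * pa g 0 (k + 1)

theorem Flo_rel (g k : ℕ) (hk : k + 1 < g) :
    ga ⟨k + 1, hk⟩ * Flo_C g (k + 1) * (ga ⟨k + 1, hk⟩)⁻¹ = Flo_C g k := by
  unfold Flo_C
  have h1 : pa g (k + 1) (g - k - 1) = ga ⟨k + 1, hk⟩ * pa g (k + 1 + 1) (g - (k + 1) - 1) := by
    have e : g - k - 1 = 1 + (g - (k + 1) - 1) := by omega
    rw [e, Flo_pa_add, Flo_pa_one g (k + 1) hk]
  have h2 : pa g 0 (k + 1 + 1) = pa g 0 (k + 1) * ga ⟨k + 1, hk⟩ := by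
    rw [Flo_pa_add g 0 (k + 1) 1]
    congr 1
    rw [Nat.zero_add, Flo_pa_one g (k + 1) hk]
  rw [h1, h2]
  group

theorem Flo_cm {G : Type} [Group G] (X Y : G) (h : Y * X ∈ Subgroup.center G) :
    X * Y = Y * X := by
  have h4 := Subgroup.mem_center_iff.1 h X
  rw [← mul_assoc] at h4
  exact mul_right_cancel h4

theorem Flo_NC (p : ℕ) [Fact p.Prime] (hCom : St_Com) {g : ℕ} (ρ : F g 0 →* SL p) (k : ℕ)
    (hk : k < g) (h3 : 3 ≤ orderOf (ρ (pa g 0 g))) : NC (ρ (Flo_C g k)) := by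
  intro hc
  have h1 : pa g 0 g = pa g 0 (k + 1) * pa g (k + 1) (g - k - 1) := by
    have h := Flo_pa_add g 0 (k + 1) (g - k - 1)
    rw [Nat.zero_add, show k + 1 + (g - k - 1) = g by omega] at h
    exact h
  have h2 : ρ (pa g 0 g) = ρ (Flo_C g k) := by
    unfold Flo_C at hc ⊢
    rw [h1]
    rw [map_mul] at hc ⊢
    rw [map_mul]
    exact Flo_cm _ _ hc
  have h5 := ((hCom p).2.1 (ρ (Flo_C g k))).1 hc
  have h6 : (ρ (pa g 0 g)) ^ 2 = 1 := by
    rw [h2]
    rcases h5 with h5 | h5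
    · rw [h5, one_pow]
    · rw [h5]
      simp
  have h7 := orderOf_le_of_pow_eq_one (by norm_num : 0 < 2) h6
  omega

theorem Flo_Cz {G : Type} [Group G] (a c : G) (ha : a ∈ Nz c) : Cz (a * c * a⁻¹) = Cz c := by
  ext y
  have h0 : y ∈ Cz (a * c * a⁻¹) ↔ a⁻¹ * y * a ∈ Cz c := by
    unfold Cz
    rw [Subgroup.mem_centralizer_singleton_iff, Subgroup.mem_centralizer_singleton_iff]
    constructor
    · intro h
      calc a⁻¹ * y * a * c = a⁻¹ * (y * (a * c * a⁻¹)) * a := by group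
        _ = a⁻¹ * ((a * c * a⁻¹) * y) * a := by rw [h]
        _ = c * (a⁻¹ * y * a) := by group
    · intro h
      calc y * (a * c * a⁻¹) = a * (a⁻¹ * y * a * c) * a⁻¹ := by group
        _ = a * (c * (a⁻¹ * y * a)) * a⁻¹ := by rw [h]
        _ = a * c * a⁻¹ * y := by group
  rw [h0, ha (a⁻¹ * y * a)]
  have e : a * (a⁻¹ * y * a) * a⁻¹ = y := by group
  rw [e]

theorem Flo_Nz {G : Type} [Group G] (c d : G) (h : Cz c = Cz d) : Nz c = Nz d := by
  ext x
  show (∀ y, y ∈ Cz c ↔ x * y * x⁻¹ ∈ Cz c) ↔ (∀ y, y ∈ Cz d ↔ x * y * x⁻¹ ∈ Cz d)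
  rw [h]

theorem thm_Flo (hCom : St_Com) (hNrm : St_Nrm) (hSeq : St_Seq) : St_Flo := by
  intro p _ hp g ρ u l hT hlu h3
  by_contra hcon
  push Not at hcon
  have hfull : (Let g l u).map ρ = ⊤ := by
    have := hT.full 1 (one_mem _) l hlu
    have e : pre ρ (1 : MulAut (F g 0)) = ρ := by
      ext x
      rfl
    rwa [e] at this
  have hmem : ∀ k (hk : k < g), l ≤ k → k < l + u → ρ (ga ⟨k, hk⟩) ∈ Nz (ρ (Flo_C g k)) ∧
      ρ (gb ⟨k, hk⟩) ∈ Nz (ρ (Flo_C g k)) := by
    intro k hk h1 h2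
    have hn := hcon ⟨k, hk⟩ h1 h2
    have n0 : ¬ Nd (ρ (Flo_C g k)) (ρ (gb ⟨k, hk⟩)) := by
      have := hn 0
      rw [pow_zero, mul_one] at this
      exact this
    have n1 : ¬ Nd (ρ (Flo_C g k)) (ρ (gb ⟨k, hk⟩) * ρ (ga ⟨k, hk⟩)) := by
      have := hn 1
      rw [pow_one, map_mul ρ (gb _)] at this
      exact this
    rcases hSeq p (by omega) (ρ (ga ⟨k, hk⟩)) (ρ (gb ⟨k, hk⟩)) (ρ (Flo_C g k))
      (Flo_NC p hCom ρ k hk h3) with h | h | h
    · exact absurd h n0
    · exact absurd h n1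
    · exact h
  rcases Nat.eq_zero_or_pos u with hu | hu
  · subst hu
    have hbot : Let g l 0 = ⊥ := by
      unfold Let
      rw [Subgroup.closure_eq_bot_iff]
      rintro x ⟨i, h1, h2, -⟩
      omega
    rw [hbot, Subgroup.map_bot] at hfull
    have : ρ (pa g 0 g) ∈ (⊥ : Subgroup (SL p)) := by
      rw [hfull]
      trivial
    rw [Subgroup.mem_bot] at this
    rw [this, orderOf_one] at h3
    omega
  · have hNz : ∀ j : ℕ, j < u → Nz (ρ (Flo_C g (l + j))) = Nz (ρ (Flo_C g l)) := by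
      intro j
      induction j with
      | zero => intro _; rfl
      | succ j ih =>
        intro hj
        rw [← ih (by omega)]
        have hk : l + j + 1 < g := by omega
        have hrel := Flo_rel g (l + j) hk
        have hm := (hmem (l + j + 1) hk (by omega) (by omega)).1
        have h5 := Flo_Cz _ _ hm
        rw [← map_inv, ← map_mul, ← map_mul, hrel] at h5
        exact (Flo_Nz _ _ h5).symm
    have hle : (Let g l u).map ρ ≤ Nz (ρ (Flo_C g l)) := by
      rw [Subgroup.map_le_iff_le_comap]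
      unfold Let
      rw [Subgroup.closure_le]
      rintro x ⟨i, h1, h2, hx⟩
      have hm := hmem i i.2 h1 h2
      have e := hNz (i - l) (by omega)
      rw [show l + ((i : ℕ) - l) = i by omega] at e
      rw [e] at hm
      rcases hx with rfl | rfl
      · exact hm.1
      · exact hm.2
    rw [hfull, top_le_iff] at hle
    exact hNrm p hp _ (Flo_NC p hCom ρ l (by omega) h3) hle

end Pool.Agent.PWS
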