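import Pool.Agent.PWS.St

set_option autoImplicit false

/-!
Campaign PWS, module Flw (helper69): in some frame all the blocks contain an element of large order.
-/

namespace Pool.Agent.PWS

open Pool.Agent.PW Pool.Agent.PWM Pool.Agent.PWX
open scoped Classical Pointwise

private theorem Flw_pa_split (g l a b : ℕ) : pa g l (a + b) = pa g l a * pa g (l + a) b := by
  unfold pa
  rw [← List.range'_append_1, List.map_append, List.prod_append]

private theorem Flw_fix_pa {g : ℕ} (ψ : MulAut (F g 0)) (h : ∀ k : Fin g, ψ (ga k) = ga k)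
    (l r : ℕ) : ψ (pa g l r) = pa g l r := by
  unfold pa
  rw [map_list_prod, List.map_map]
  congr 1
  apply List.map_congr_left
  intro k _
  simp only [Function.comp]
  split_ifs with hk
  · exact h _
  · exact map_one ψ

private theorem Flw_conj {G : Type} [Group G] (x y : G) : orderOf (x * y * x⁻¹) = orderOf y :=
  orderOf_injective (MulAut.conj x).toMonoidHom (MulAut.conj x).injective y

private theorem Flw_tw (hHnd : St_Hnd) {g : ℕ} (J : Fin g → ℤ) (S : Finset (Fin g)) :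
    ∃ ψ ∈ MCGd g, ∀ k : Fin g, ψ (ga k) = ga k ∧
      ψ (gb k) = gb k * ga k ^ (if k ∈ S then J k else 0) := by
  induction S using Finset.induction_on with
  | empty => exact ⟨1, (MCGd g).one_mem, fun k => ⟨rfl, by simp⟩⟩
  | insert a S ha ih =>
    obtain ⟨ψ, hψ, h1⟩ := ih
    obtain ⟨τ, hτ, h2, h3⟩ := (hHnd g a).2.1 (J a)
    refine ⟨ψ * τ, (MCGd g).mul_mem hψ hτ.1, fun k => ?_⟩
    by_cases hk : k = a
    · subst hk
      constructor
      · show ψ (τ (ga k)) = ga k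
        rw [h2, (h1 k).1]
      · show ψ (τ (gb k)) = _
        rw [h3, map_mul, map_zpow, (h1 k).1, (h1 k).2, if_neg ha, if_pos (Finset.mem_insert_self k S),
          zpow_zero, mul_one]
    · have hne : (k : ℕ) ≠ a := fun h => hk (Fin.ext h)
      obtain ⟨e1, e2⟩ := hτ.2.1 k (by omega)
      constructor
      · show ψ (τ (ga k)) = ga k
        rw [e1, (h1 k).1]
      · show ψ (τ (gb k)) = _
        rw [e2, (h1 k).2]
        have : (k ∈ insert a S) ↔ k ∈ S := by
          rw [Finset.mem_insert]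
          exact ⟨fun h => h.resolve_left hk, Or.inr⟩
        simp only [this]

private theorem Flw_count (hTrc : St_Trc) {p : ℕ} [Fact p.Prime] (c b : SL p) (t : ℕ)
    (h : Nd c b) :
    ((Finset.range (orderOf c)).filter fun l => orderOf (c ^ l * b) < t).card ≤ 4 * t ^ 2 := by
  set T : Set (ZMod p) := {τ : ZMod p | ∃ x : SL p, orderOf x < t ∧ tr x = τ} with hT
  have h1 : T.toFinset.card ≤ t ^ 2 := by
    rw [← Set.ncard_eq_toFinset_card']
    exact hTrc p t
  refine le_trans (Finset.card_le_mul_card_image_of_maps_to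
    (f := fun l => tr (c ^ l * b)) (t := T.toFinset) ?_ 4 ?_) (Nat.mul_le_mul_left 4 h1)
  · intro l hl
    rw [Finset.mem_filter] at hl
    rw [Set.mem_toFinset]
    exact ⟨_, hl.2, rfl⟩
  · intro τ _
    refine le_trans (Finset.card_le_card ?_) (h τ)
    intro l hl
    rw [Finset.mem_filter, Finset.mem_filter] at hl
    rw [Finset.mem_filter]
    exact ⟨hl.1.1, hl.2⟩

theorem thm_Flw (_ : St_Com) (hMon : St_Mon) (hHnd : St_Hnd) (hFrm : St_Frm)
    (hMtw : St_Mtw) (hPre : St_Pre) (hTrc : St_Trc) (hFlo : St_Flo) : St_Flw := by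
  intro p _ hp g ρ u v l m s t q hT huv hl hq hs h3 hlt
  obtain ⟨ψ0, hψ0, hq0⟩ := hFrm ρ q hq
  have hT0 : Tight (pre ρ ψ0) u := (hPre p g ρ ψ0 hψ0).2 u hT
  set ρ0 := pre ρ ψ0 with hρ0
  have hc : ρ0 (pa g 0 g) = q := hq0
  have hblk : ∀ i : Fin m, l + (i : ℕ) * v + v ≤ l + m * v := by
    intro i
    have h1 : ((i : ℕ) + 1) * v ≤ m * v := Nat.mul_le_mul_right v i.2
    rw [add_mul, one_mul] at h1
    omega
  have hex : ∀ i : Fin m, ∃ k : Fin g, l + (i : ℕ) * v ≤ (k : ℕ) ∧ (k : ℕ) < l + (i : ℕ) * v + u ∧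
      ∃ j : ℕ, Nd (ρ0 (pa g ((k : ℕ) + 1) (g - (k : ℕ) - 1) * pa g 0 ((k : ℕ) + 1)))
        (ρ0 (gb k * ga k ^ j)) := by
    intro i
    have h1 := hblk i
    exact hFlo p hp ρ0 u (l + (i : ℕ) * v) hT0 (by omega) (by rw [hc, hs]; exact h3)
  choose k hk1 hk2 j hj using hex
  have hlt' : ∀ a b : Fin m, a < b → (k a : ℕ) < k b := by
    intro a b hab
    have h1 : ((a : ℕ) + 1) * v ≤ (b : ℕ) * v := Nat.mul_le_mul_right v hab
    rw [add_mul, one_mul] at h1
    have h2 := hk2 a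
    have h3 := hk1 b
    omega
  have hinj : Function.Injective k := by
    intro a b hab
    rcases lt_trichotomy a b with h | h | h
    · exact absurd (congrArg Fin.val hab) (hlt' a b h).ne
    · exact h
    · exact absurd (congrArg Fin.val hab) (hlt' b a h).ne'
  obtain ⟨ψ1, hψ1, h1⟩ := Flw_tw hHnd (Function.extend k (fun i => ((j i : ℕ) : ℤ)) 0) Finset.univ
  have h1a : ∀ x, ψ1 (ga x) = ga x := fun x => (h1 x).1
  have h1b : ∀ i : Fin m, ψ1 (gb (k i)) = gb (k i) * ga (k i) ^ j i := by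
    intro i
    rw [(h1 (k i)).2, if_pos (Finset.mem_univ _), hinj.extend_apply, zpow_natCast]
  set C : Fin m → F g 0 := fun i =>
    pa g ((k i : ℕ) + 1) (g - (k i : ℕ) - 1) * pa g 0 ((k i : ℕ) + 1) with hC
  have hCo : ∀ i, orderOf (ρ0 (C i)) = s := by
    intro i
    have hki := (k i).2
    have e1 : pa g 0 g = pa g 0 ((k i : ℕ) + 1) * pa g ((k i : ℕ) + 1) (g - (k i : ℕ) - 1) := by
      have := Flw_pa_split g 0 ((k i : ℕ) + 1) (g - (k i : ℕ) - 1)
      rw [zero_add] at this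
      rw [← this]
      congr 1
      omega
    have e2 : C i = (pa g 0 ((k i : ℕ) + 1))⁻¹ * pa g 0 g * (pa g 0 ((k i : ℕ) + 1))⁻¹⁻¹ := by
      rw [e1, hC]
      group
    rw [e2, map_mul, map_mul, map_inv ρ0 ((pa g 0 ((k i : ℕ) + 1))⁻¹), Flw_conj, hc, hs]
  -- the bad exponents
  set bad : Fin m → Finset ℕ := fun i => (Finset.range s).filter fun n =>
    orderOf (ρ0 (C i) ^ n * ρ0 (gb (k i) * ga (k i) ^ j i)) < t with hbad
  have hb : ∀ i, (bad i).card ≤ 4 * t ^ 2 := by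
    intro i
    have := Flw_count hTrc (ρ0 (C i)) (ρ0 (gb (k i) * ga (k i) ^ j i)) t (hj i)
    rw [hCo i] at this
    exact this
  have hU : (Finset.univ.biUnion bad).card < (Finset.range s).card := by
    have h2 := Finset.card_biUnion_le_card_mul (Finset.univ : Finset (Fin m)) bad (4 * t ^ 2)
      (fun i _ => hb i)
    rw [Finset.card_univ, Fintype.card_fin] at h2
    rw [Finset.card_range]
    have h4 : m * (4 * t ^ 2) = 4 * m * t ^ 2 := by ring
    omega
  obtain ⟨n, hn1, hn2⟩ := Finset.exists_mem_notMem_of_card_lt_card hU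
  have hgood : ∀ i, t ≤ orderOf (ρ0 (C i) ^ n * ρ0 (gb (k i) * ga (k i) ^ j i)) := by
    intro i
    by_contra hcon
    push Not at hcon
    exact hn2 (Finset.mem_biUnion.2 ⟨i, Finset.mem_univ i, Finset.mem_filter.2 ⟨hn1, hcon⟩⟩)
  obtain ⟨ψ2, hψ2, h2⟩ := hMtw g (n : ℤ)
  refine ⟨ψ0 * ψ1 * ψ2, (MCGd g).mul_mem ((MCGd g).mul_mem hψ0 hψ1) hψ2, ?_⟩
  intro i' hi'
  set i : Fin m := ⟨i', hi'⟩ with hi
  set ρ' := pre ρ (ψ0 * ψ1 * ψ2) with hρ'
  have hval : ∀ x, ρ' x = ρ0 (ψ1 (ψ2 x)) := fun x => rfl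
  have hB : t ≤ orderOf (ρ' (gb (k i))) := by
    have e1 : ρ' (gb (k i)) = (ρ0 (pa g 0 g) ^ n)⁻¹ *
        (ρ0 (C i) ^ n * ρ0 (gb (k i) * ga (k i) ^ j i)) * (ρ0 (pa g 0 g) ^ n)⁻¹⁻¹ := by
      rw [hval, (h2 (k i)).2]
      simp only [map_mul, Flw_fix_pa ψ1 h1a, h1b, hC, zpow_neg, zpow_natCast, inv_inv,
        map_inv, map_pow]
    rw [e1, Flw_conj]
    exact hgood i
  have hsub : ((Finset.range t).image fun x => ρ' (ga (k i)) * ρ' (gb (k i)) ^ x : Set (SL p)) ⊆
      Sm ρ' (l + i' * v) u := by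
    intro y hy
    rw [Finset.mem_coe, Finset.mem_image] at hy
    obtain ⟨x, -, rfl⟩ := hy
    obtain ⟨χ, hχ, e1, -⟩ := (hHnd g (k i)).1 (x : ℤ)
    have hk3 : (k i : ℕ) < l + i' * v + u := hk2 i
    refine (hMon g (k i) 1 (l + i' * v) u (hk1 i) (by omega)).2 ρ' ?_
    refine ⟨χ, hχ, k i, le_rfl, by omega, ?_⟩
    rw [e1, map_mul, map_zpow, zpow_natCast]
  have hfin : Finite (SL p) := inferInstanceAs (Finite {A : M2 p // A.det = 1})
  have hcard : ((Finset.range t).image fun x => ρ' (ga (k i)) * ρ' (gb (k i)) ^ x).card = t := by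
    rw [Finset.card_image_of_injOn, Finset.card_range]
    intro x hx y hy hxy
    rw [Finset.mem_coe, Finset.mem_range] at hx hy
    exact pow_injOn_Iio_orderOf (lt_of_lt_of_le hx hB) (lt_of_lt_of_le hy hB) (mul_left_cancel hxy)
  calc t = ((Finset.range t).image fun x => ρ' (ga (k i)) * ρ' (gb (k i)) ^ x).card := hcard.symm
    _ = ((Finset.range t).image fun x => ρ' (ga (k i)) * ρ' (gb (k i)) ^ x : Set (SL p)).ncard :=
        (Set.ncard_coe_finset _).symm
    _ ≤ (Sm ρ' (l + i' * v) u).ncard := Set.ncard_le_ncard hsub (Set.toFinite _)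

end Pool.Agent.PWS
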