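import Pool.Agent.PWS.St
import Pool.Agent.PW.Central
import Pool.Agent.PWM.Bas

/-!
Campaign PWS, module Fot: a simple closed curve in the kernel.
-/

set_option autoImplicit false

namespace Pool.Agent.PWS

open Pool.Agent.PW Pool.Agent.PWM Pool.Agent.PWX
open scoped Classical Pointwise

private theorem Fot_let {g : ℕ} (z : Fin g) (hz : (z : ℕ) = 0) :
    Let g 1 (g - 1) ≤ away (n := 0) z := by
  unfold Let
  rw [Subgroup.closure_le]
  rintro x ⟨i, h1, -, h2⟩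
  have hi : i ≠ z := by
    rintro rfl
    omega
  rcases h2 with rfl | rfl
  · exact away_a hi
  · exact away_b hi

private theorem Fot_pre {Q : Type} [Group Q] {g : ℕ} (ρ : F g 0 →* Q) (φ : MulAut (F g 0))
    (x : F g 0) : pre ρ φ x = ρ (φ x) := rfl

private theorem Fot_loc {g l h : ℕ} {ψ : MulAut (F g 0)} (hψ : ψ ∈ Loc g l h) : ψ ∈ MCGd g :=
  hψ.1

theorem thm_Fot (hSws : St_Sws) : St_Fot := by
  intro Q _ g ρ h1 h2
  obtain ⟨ψ, hψ, i, -, -, hi⟩ := h1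
  have hg : 0 < g := i.pos
  obtain ⟨ω, hω, hωa, -⟩ := hSws g ⟨0, hg⟩ i (Nat.zero_le _)
  have hm : ψ * ω ∈ MCGd g := Subgroup.mul_mem _ (Fot_loc hψ) (Fot_loc hω)
  have ha : pre ρ (ψ * ω) (ga ⟨0, hg⟩) = 1 := by
    rw [Fot_pre, MulAut.mul_apply, hωa, ← hi]
  have htop : (pre ρ (ψ * ω) (gb ⟨0, hg⟩))⁻¹ ∈ (Let g 1 (g - 1)).map (pre ρ (ψ * ω)) := by
    rw [h2 _ hm]
    exact Subgroup.mem_top _
  obtain ⟨y, hy, hyb⟩ := htop
  obtain ⟨-, φ, hφ, hq⟩ := pushable_eq (n := 0) (z := ⟨0, hg⟩) rfl (Fot_let ⟨0, hg⟩ rfl hy)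
  have hker : Subgroup.normalClosure {(ga ⟨0, hg⟩ : F g 0)} ≤ (pre ρ (ψ * ω)).ker := by
    apply Subgroup.normalClosure_le_normal
    rintro _ rfl
    exact ha
  have hb : pre ρ (ψ * ω) (φ (gb ⟨0, hg⟩)) = 1 := by
    unfold qa at hq
    rw [QuotientGroup.mk'_apply, QuotientGroup.mk'_apply, QuotientGroup.eq] at hq
    have h3 := hker hq
    rw [MonoidHom.mem_ker, map_mul, map_inv, inv_mul_eq_one, map_mul, hyb, inv_mul_cancel] at h3
    exact h3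
  refine ⟨ψ * ω * φ, Subgroup.mul_mem _ (MCGd_le g hm) hφ.1, hg, ?_, ?_⟩
  · rw [MulAut.mul_apply, hφ.2.1]
    exact ha
  · rw [MulAut.mul_apply]
    exact hb

end Pool.Agent.PWS
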