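import Pool.Agent.PWS.St

/-!
Campaign PWS, module Frm (helper18): every simple closed curve can be moved to the product of all
the `a_i`.
-/

set_option autoImplicit false

namespace Pool.Agent.PWS

open Pool.Agent.PW Pool.Agent.PWM Pool.Agent.PWX

theorem Frm_succ (g k : ℕ) (hk : k < g) : pa g 0 (k + 1) = pa g 0 k * ga ⟨k, hk⟩ := by
  unfold pa
  rw [List.range'_concat, List.map_append, List.prod_append]
  simp [hk]

theorem Frm_fix (g k : ℕ) (hk : k ≤ g) (ε : MulAut (F g 0))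
    (h : ∀ i : Fin g, (i : ℕ) < k → ε (ga i) = ga i) : ε (pa g 0 k) = pa g 0 k := by
  induction k with
  | zero => simp [pa]
  | succ k ih =>
    rw [Frm_succ g k hk, map_mul, ih (by omega) (fun i hi => h i (by omega)),
      h ⟨k, hk⟩ (Nat.lt_succ_self k)]

theorem Frm_loc {g l h : ℕ} {ψ : MulAut (F g 0)} (hψ : ψ ∈ Loc g l h) : ψ ∈ MCGd g := hψ.1

theorem Frm_chain (hExt : St_Ext) (g : ℕ) (hg : 0 < g) : ∀ k, k < g →
    ∃ χ ∈ MCGd g, χ (ga ⟨0, hg⟩) = pa g 0 (k + 1) := by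
  intro k
  induction k with
  | zero =>
    intro _
    refine ⟨1, (MCGd g).one_mem, ?_⟩
    rw [Frm_succ g 0 hg]
    simp [pa]
  | succ k ih =>
    intro hk
    obtain ⟨χ, hχ, h1⟩ := ih (by omega)
    obtain ⟨ε, hε, h2⟩ := hExt g ⟨k, by omega⟩ ⟨k + 1, hk⟩ rfl
    refine ⟨ε * χ, (MCGd g).mul_mem (Frm_loc hε) hχ, ?_⟩
    change ε (χ (ga ⟨0, hg⟩)) = _
    rw [h1, Frm_succ g k (by omega), map_mul, h2,
      Frm_fix g k (by omega) ε (fun i hi => (hε.2.1 i (Or.inl hi)).1), Frm_succ g (k + 1) hk,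
      Frm_succ g k (by omega), mul_assoc]

theorem thm_Frm (hSws : St_Sws) (hExt : St_Ext) : St_Frm := by
  rintro Q _ g ρ q ⟨ψ, hψ, i, -, -, rfl⟩
  have hg : 0 < g := lt_of_le_of_lt (Nat.zero_le _) i.2
  obtain ⟨ω, hω, h1, -⟩ := hSws g ⟨0, hg⟩ i (Nat.zero_le _)
  obtain ⟨χ, hχ, h2⟩ := Frm_chain hExt g hg (g - 1) (by omega)
  rw [Nat.sub_add_cancel hg] at h2
  refine ⟨ψ * ω * χ⁻¹, (MCGd g).mul_mem ((MCGd g).mul_mem (Frm_loc hψ) (Frm_loc hω))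
    ((MCGd g).inv_mem hχ), ?_⟩
  have h3 : χ⁻¹ (pa g 0 g) = ga ⟨0, hg⟩ := by
    rw [← h2]
    simp
  change ρ (ψ (ω (χ⁻¹ (pa g 0 g)))) = _
  rw [h3, h1]

end Pool.Agent.PWS
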