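import Pool.Agent.PWS.St

/-!
Campaign PWS, module Gn2: two noncommuting unipotent elements generate `SL_2(F_p)`.
-/

set_option autoImplicit false

namespace Pool.Agent.PWS

/-- upper unipotent matrices -/
def Gn2_U {F : Type} [Field F] (s : F) : Matrix.SpecialLinearGroup (Fin 2) F :=
  ⟨!![1, s; 0, 1], by rw [Matrix.det_fin_two_of]; ring⟩

/-- lower unipotent matrices -/
def Gn2_L {F : Type} [Field F] (s : F) : Matrix.SpecialLinearGroup (Fin 2) F :=
  ⟨!![1, 0; s, 1], by rw [Matrix.det_fin_two_of]; ring⟩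

section

variable {F : Type} [Field F]

theorem Gn2_U00 (s : F) : (Gn2_U s).1 0 0 = 1 := rfl
theorem Gn2_U01 (s : F) : (Gn2_U s).1 0 1 = s := rfl
theorem Gn2_U10 (s : F) : (Gn2_U s).1 1 0 = 0 := rfl
theorem Gn2_U11 (s : F) : (Gn2_U s).1 1 1 = 1 := rfl
theorem Gn2_L00 (s : F) : (Gn2_L s).1 0 0 = 1 := rfl
theorem Gn2_L01 (s : F) : (Gn2_L s).1 0 1 = 0 := rfl
theorem Gn2_L10 (s : F) : (Gn2_L s).1 1 0 = s := rfl
theorem Gn2_L11 (s : F) : (Gn2_L s).1 1 1 = 1 := rfl

theorem Gn2_e (x y : Matrix.SpecialLinearGroup (Fin 2) F) (i j : Fin 2) :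
    (x * y).1 i j = x.1 i 0 * y.1 0 j + x.1 i 1 * y.1 1 j := by
  have h : (x * y).1 = x.1 * y.1 := rfl
  rw [h, Matrix.mul_apply, Fin.sum_univ_two]

theorem Gn2_ext (x y : Matrix.SpecialLinearGroup (Fin 2) F) (h00 : x.1 0 0 = y.1 0 0)
    (h01 : x.1 0 1 = y.1 0 1) (h10 : x.1 1 0 = y.1 1 0) (h11 : x.1 1 1 = y.1 1 1) : x = y := by
  apply Matrix.SpecialLinearGroup.ext
  intro i j
  fin_cases i <;> fin_cases j
  · exact h00
  · exact h01
  · exact h10
  · exact h11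

theorem Gn2_U_mul (s t : F) : Gn2_U s * Gn2_U t = Gn2_U (s + t) := by
  apply Gn2_ext <;> rw [Gn2_e] <;> simp only [Gn2_U00, Gn2_U01, Gn2_U10, Gn2_U11] <;> ring

theorem Gn2_L_mul (s t : F) : Gn2_L s * Gn2_L t = Gn2_L (s + t) := by
  apply Gn2_ext <;> rw [Gn2_e] <;> simp only [Gn2_L00, Gn2_L01, Gn2_L10, Gn2_L11] <;> ring

theorem Gn2_U_zero : Gn2_U (0 : F) = 1 := by
  apply Gn2_ext <;> rfl

theorem Gn2_L_zero : Gn2_L (0 : F) = 1 := by
  apply Gn2_ext <;> rfl

theorem Gn2_U_pow (s : F) (k : ℕ) : Gn2_U s ^ k = Gn2_U (k * s) := by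
  induction k with
  | zero => rw [pow_zero, Nat.cast_zero, zero_mul, Gn2_U_zero]
  | succ k ih =>
    rw [pow_succ, ih, Gn2_U_mul]
    congr 1
    push_cast
    ring

theorem Gn2_L_pow (s : F) (k : ℕ) : Gn2_L s ^ k = Gn2_L (k * s) := by
  induction k with
  | zero => rw [pow_zero, Nat.cast_zero, zero_mul, Gn2_L_zero]
  | succ k ih =>
    rw [pow_succ, ih, Gn2_L_mul]
    congr 1
    push_cast
    ring

/-- the elementary matrices generate -/
theorem Gn2_gen (K : Subgroup (Matrix.SpecialLinearGroup (Fin 2) F))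
    (hU : ∀ s, Gn2_U s ∈ K) (hL : ∀ s, Gn2_L s ∈ K) : K = ⊤ := by
  have key : ∀ x : Matrix.SpecialLinearGroup (Fin 2) F, x.1 1 0 ≠ 0 → x ∈ K := by
    intro x hx
    have hdet : x.1 0 0 * x.1 1 1 - x.1 0 1 * x.1 1 0 = 1 := by
      rw [← Matrix.det_fin_two]
      exact x.2
    have e : x = Gn2_U ((x.1 0 0 - 1) / x.1 1 0) * Gn2_L (x.1 1 0) *
        Gn2_U ((x.1 1 1 - 1) / x.1 1 0) := by
      apply Gn2_ext <;> rw [Gn2_e, Gn2_e, Gn2_e] <;>
        simp only [Gn2_U00, Gn2_U01, Gn2_U10, Gn2_U11, Gn2_L00, Gn2_L01, Gn2_L10, Gn2_L11]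
      · field_simp
        ring
      · field_simp
        linear_combination - hdet
      · ring
      · field_simp
        ring
    rw [e]
    exact K.mul_mem (K.mul_mem (hU _) (hL _)) (hU _)
  rw [eq_top_iff]
  intro x _
  by_cases hx : x.1 1 0 = 0
  · have hdet : x.1 0 0 * x.1 1 1 - x.1 0 1 * x.1 1 0 = 1 := by
      rw [← Matrix.det_fin_two]
      exact x.2
    have h1 : (Gn2_L 1 * x).1 1 0 ≠ 0 := by
      rw [Gn2_e, Gn2_L10, Gn2_L11, hx, one_mul, mul_zero, add_zero]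
      intro h
      rw [h, hx] at hdet
      simp at hdet
    have h2 := key _ h1
    have h3 := K.mul_mem (K.inv_mem (hL 1)) h2
    rwa [inv_mul_cancel_left] at h3
  · exact key x hx

/-- the shape of a unipotent matrix -/
theorem Gn2_shape (u : Matrix.SpecialLinearGroup (Fin 2) F)
    (hu : Matrix.trace (u : Matrix (Fin 2) (Fin 2) F) = 2) :
    ∃ c v w : F, u.1 0 0 = 1 - c * v * w ∧ u.1 0 1 = c * v ^ 2 ∧ u.1 1 0 = - (c * w ^ 2) ∧
      u.1 1 1 = 1 + c * v * w := by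
  have hdet : u.1 0 0 * u.1 1 1 - u.1 0 1 * u.1 1 0 = 1 := by
    rw [← Matrix.det_fin_two]
    exact u.2
  have htr : u.1 0 0 + u.1 1 1 = 2 := by
    rw [← hu, Matrix.trace_fin_two]
  by_cases hy : u.1 0 1 = 0
  · rw [hy] at hdet
    have h1 : (u.1 0 0 - 1) ^ 2 = 0 := by linear_combination (u.1 0 0) * htr - hdet
    have h2 : u.1 0 0 - 1 = 0 := (pow_eq_zero_iff (two_ne_zero)).mp h1
    refine ⟨- u.1 1 0, 0, 1, ?_, ?_, ?_, ?_⟩
    · linear_combination h2
    · rw [hy]; ring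
    · ring
    · linear_combination htr - h2
  · refine ⟨u.1 0 1, 1, - (u.1 0 0 - 1) / u.1 0 1, ?_, ?_, ?_, ?_⟩
    · field_simp; ring
    · ring
    · have h1 : u.1 0 1 * u.1 1 0 = - (u.1 0 0 - 1) ^ 2 := by
        linear_combination - hdet + (u.1 0 0) * htr
      field_simp
      linear_combination h1
    · field_simp
      linear_combination htr

end

/-- (Gn2) Two noncommuting unipotent elements generate. -/
theorem thm_Gn2 : St_Gn2 := by
  intro p _ u v hu hv huv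
  obtain ⟨c, v1, v2, a1, a2, a3, a4⟩ := Gn2_shape u hu
  obtain ⟨d, w1, w2, b1, b2, b3, b4⟩ := Gn2_shape v hv
  have hcomm : c ≠ 0 ∧ d ≠ 0 ∧ v1 * w2 - v2 * w1 ≠ 0 := by
    have aux : c * d * (v1 * w2 - v2 * w1) ≠ 0 := by
      intro h0
      apply huv
      apply Gn2_ext <;> rw [Gn2_e, Gn2_e] <;> simp only [a1, a2, a3, a4, b1, b2, b3, b4]
      · linear_combination (-(v1 * w2) - v2 * w1) * h0
      · linear_combination (2 * v1 * w1) * h0
      · linear_combination (- 2 * v2 * w2) * h0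
      · linear_combination (v1 * w2 + v2 * w1) * h0
    refine ⟨?_, ?_, ?_⟩
    · rintro rfl; simp at aux
    · rintro rfl; simp at aux
    · intro h; rw [h] at aux; simp at aux
  obtain ⟨hc, hd, hD⟩ := hcomm
  obtain ⟨D, hDdef⟩ : ∃ D, D = v1 * w2 - v2 * w1 := ⟨_, rfl⟩
  rw [← hDdef] at hD
  let P : SL p := ⟨!![v1, w1 / D; v2, w2 / D], by
    rw [Matrix.det_fin_two_of]
    field_simp
    rw [hDdef]; ring⟩
  have P00 : P.1 0 0 = v1 := rfl
  have P01 : P.1 0 1 = w1 / D := rfl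
  have P10 : P.1 1 0 = v2 := rfl
  have P11 : P.1 1 1 = w2 / D := rfl
  have hPu : u * P = P * Gn2_U c := by
    apply Gn2_ext <;> rw [Gn2_e, Gn2_e] <;> simp only [P00, P01, P10, P11, Gn2_U00, Gn2_U01,
      Gn2_U10, Gn2_U11, a1, a2, a3, a4]
    · ring
    · field_simp
      rw [hDdef]
      ring
    · ring
    · field_simp
      rw [hDdef]
      ring
  have hPv : v * P = P * Gn2_L (- (d * D ^ 2)) := by
    apply Gn2_ext <;> rw [Gn2_e, Gn2_e] <;> simp only [P00, P01, P10, P11, Gn2_L00, Gn2_L01,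
      Gn2_L10, Gn2_L11, b1, b2, b3, b4]
    · field_simp
      rw [hDdef]
      ring
    · field_simp
      ring
    · field_simp
      rw [hDdef]
      ring
    · field_simp
      ring
  have eu : u = P * Gn2_U c * P⁻¹ := by rw [← hPu]; group
  have ev : v = P * Gn2_L (- (d * D ^ 2)) * P⁻¹ := by rw [← hPv]; group
  set H := Subgroup.closure ({u, v} : Set (SL p)) with hH
  have hu' : u ∈ H := Subgroup.subset_closure (by simp)
  have hv' : v ∈ H := Subgroup.subset_closure (by simp)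
  have key : H.comap (MulAut.conj P).toMonoidHom = ⊤ := by
    apply Gn2_gen
    · intro s
      have h1 : u ^ (s / c).val ∈ H := H.pow_mem hu' _
      rw [eu, conj_pow, Gn2_U_pow, ZMod.natCast_val, ZMod.cast_id', id, div_mul_cancel₀ _ hc] at h1
      exact h1
    · intro s
      have hne : - (d * D ^ 2) ≠ 0 := neg_ne_zero.mpr (mul_ne_zero hd (pow_ne_zero 2 hD))
      have h1 : v ^ (s / (- (d * D ^ 2))).val ∈ H := H.pow_mem hv' _
      rw [ev, conj_pow, Gn2_L_pow, ZMod.natCast_val, ZMod.cast_id', id,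
        div_mul_cancel₀ _ hne] at h1
      exact h1
  rw [eq_top_iff]
  intro y _
  have h1 : P⁻¹ * y * P ∈ H.comap (MulAut.conj P).toMonoidHom := by
    rw [key]; trivial
  have h2 : P * (P⁻¹ * y * P) * P⁻¹ ∈ H := h1
  have e : P * (P⁻¹ * y * P) * P⁻¹ = y := by group
  rwa [e] at h2

end Pool.Agent.PWS
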