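import Pool.Agent.PWS.St

/-!
Campaign PWS, module Gow: Gowers's theorem, the product of three large sets is everything.
-/

set_option autoImplicit false

namespace Pool.Agent.PWS

open scoped Classical

/-- the abstract form -/
theorem Gow_abs {G : Type} [Group G] [Fintype G] (d : ℕ)
    (hd : ∀ (A : Finset G) (f : G → ℂ), ∑ x, f x = 0 →
      (d : ℝ) * ∑ x, ‖Lt A f x‖ ^ 2 ≤ (A.card : ℝ) * (Fintype.card G : ℝ) * ∑ x, ‖f x‖ ^ 2)
    (A B C : Finset G) (h : Fintype.card G ^ 3 < A.card * B.card * C.card * d) (x : G) :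
    ∃ a ∈ A, ∃ b ∈ B, ∃ c ∈ C, a * b * c = x := by
  by_contra hno
  push Not at hno
  have hG : (0 : ℝ) < Fintype.card G := by exact_mod_cast Fintype.card_pos
  obtain ⟨β, hβ⟩ : ∃ β : ℝ, β = (B.card : ℝ) / Fintype.card G := ⟨_, rfl⟩
  have hβG : β * Fintype.card G = B.card := by rw [hβ]; field_simp
  let f : G → ℂ := fun y => (((if y ∈ B then (1 : ℝ) else 0) - β : ℝ) : ℂ)
  have hsumB : ∑ y : G, (if y ∈ B then (1 : ℝ) else 0) = B.card := by
    rw [Finset.sum_ite_mem, Finset.univ_inter, Finset.sum_const, nsmul_eq_mul, mul_one]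
  have hf0 : ∑ y, f y = 0 := by
    have : ∑ y : G, ((if y ∈ B then (1 : ℝ) else 0) - β) = 0 := by
      rw [Finset.sum_sub_distrib, hsumB, Finset.sum_const, Finset.card_univ, nsmul_eq_mul,
        mul_comm, hβG, sub_self]
    change ∑ y : G, (((if y ∈ B then (1 : ℝ) else 0) - β : ℝ) : ℂ) = 0
    rw [← Complex.ofReal_sum, this, Complex.ofReal_zero]
  have hf2 : ∑ y, ‖f y‖ ^ 2 ≤ B.card := by
    have e1 : ∀ y, ‖f y‖ ^ 2 = (if y ∈ B then (1 : ℝ) else 0) * (1 - 2 * β) + β ^ 2 := by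
      intro y
      change ‖(((if y ∈ B then (1 : ℝ) else 0) - β : ℝ) : ℂ)‖ ^ 2 = _
      rw [Complex.norm_real, Real.norm_eq_abs, sq_abs]
      split_ifs <;> ring
    rw [Finset.sum_congr rfl fun y _ => e1 y, Finset.sum_add_distrib, ← Finset.sum_mul, hsumB,
      Finset.sum_const, Finset.card_univ, nsmul_eq_mul]
    have e2 : (Fintype.card G : ℝ) * β ^ 2 = β * B.card := by
      rw [← hβG]; ring
    rw [e2]
    have h0 : 0 ≤ β * B.card := by
      rw [hβ]; positivity
    nlinarith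
  have hLt : ∀ y, y⁻¹ * x ∈ C → Lt A f y = ((-(A.card * β) : ℝ) : ℂ) := by
    intro y hy
    have e1 : ∀ a ∈ A, f (a⁻¹ * y) = ((- β : ℝ) : ℂ) := by
      intro a ha
      have : a⁻¹ * y ∉ B := by
        intro hb
        refine hno a ha _ hb _ hy ?_
        group
      change (((if a⁻¹ * y ∈ B then (1 : ℝ) else 0) - β : ℝ) : ℂ) = _
      rw [if_neg this, zero_sub]
    unfold Lt
    rw [Finset.sum_congr rfl e1, Finset.sum_const, nsmul_eq_mul]
    push_cast
    ring
  have hlow : (C.card : ℝ) * (A.card * β) ^ 2 ≤ ∑ y, ‖Lt A f y‖ ^ 2 := by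
    have e1 : ∑ c ∈ C, ‖Lt A f (x * c⁻¹)‖ ^ 2 = (C.card : ℝ) * (A.card * β) ^ 2 := by
      have e2 : ∀ c ∈ C, ‖Lt A f (x * c⁻¹)‖ ^ 2 = (A.card * β) ^ 2 := by
        intro c hc
        rw [hLt (x * c⁻¹) (by
          have : (x * c⁻¹)⁻¹ * x = c := by group
          rw [this]; exact hc), Complex.norm_real, Real.norm_eq_abs, sq_abs]
        ring
      rw [Finset.sum_congr rfl e2, Finset.sum_const, nsmul_eq_mul]
    rw [← e1]
    have e3 : ∑ c ∈ C, ‖Lt A f (x * c⁻¹)‖ ^ 2 =
        ∑ y ∈ C.image (fun c => x * c⁻¹), ‖Lt A f y‖ ^ 2 := by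
      rw [Finset.sum_image]
      intro c _ c' _ hcc
      exact inv_injective (mul_left_cancel hcc)
    rw [e3]
    exact Finset.sum_le_univ_sum_of_nonneg fun y => by positivity
  have hmain := hd A f hf0
  have hA : (0 : ℝ) < A.card ∧ (0 : ℝ) < B.card := by
    constructor
    · have : A.card ≠ 0 := by
        rintro h0
        rw [h0] at h
        simp at h
      exact_mod_cast Nat.pos_of_ne_zero this
    · have : B.card ≠ 0 := by
        rintro h0
        rw [h0] at h
        simp at h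
      exact_mod_cast Nat.pos_of_ne_zero this
  obtain ⟨hA, hB⟩ := hA
  have h1 : (d : ℝ) * ((C.card : ℝ) * (A.card * β) ^ 2) ≤
      (A.card : ℝ) * (Fintype.card G : ℝ) * B.card :=
    le_trans (mul_le_mul_of_nonneg_left hlow (Nat.cast_nonneg _))
      (le_trans hmain (mul_le_mul_of_nonneg_left hf2 (by positivity)))
  have h2 : (Fintype.card G : ℝ) ^ 3 < A.card * B.card * C.card * d := by exact_mod_cast h
  have h3 : (d : ℝ) * ((C.card : ℝ) * (A.card * β) ^ 2) * (Fintype.card G : ℝ) ^ 2 =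
      (A.card * B.card * C.card * d) * (A.card * B.card) := by
    rw [← hβG]; ring
  have h4 : (d : ℝ) * ((C.card : ℝ) * (A.card * β) ^ 2) * (Fintype.card G : ℝ) ^ 2 ≤
      (Fintype.card G : ℝ) ^ 3 * (A.card * B.card) := by
    calc _ ≤ (A.card : ℝ) * (Fintype.card G : ℝ) * B.card * (Fintype.card G : ℝ) ^ 2 :=
          mul_le_mul_of_nonneg_right h1 (by positivity)
      _ = _ := by ring
  rw [h3] at h4
  have h5 : (Fintype.card G : ℝ) ^ 3 * (A.card * B.card) <
      (A.card * B.card * C.card * d) * (A.card * B.card) :=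
    mul_lt_mul_of_pos_right h2 (mul_pos hA hB)
  linarith

/-- (Gow) Gowers's theorem. -/
theorem thm_Gow (_hCom : St_Com) (hRep : St_Rep) (hSpc : St_Spc) : St_Gow := by
  intro p hp hp3 A B C hABC x
  have hodd : ∃ k, p = 2 * k + 1 := by
    rcases hp.out.eq_two_or_odd' with h | h
    · omega
    · exact h
  obtain ⟨k, hk⟩ := hodd
  have hd : (p - 1) / 2 = k := by omega
  have hp1 : p - 1 = 2 * k := by omega
  refine Gow_abs k ?_ A B C ?_ x
  · have := hSpc (G := SL p) ((p - 1) / 2) (hRep p hp3)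
    rw [hd] at this
    exact this
  · rw [hp1, Nat.card_eq_fintype_card] at hABC
    nlinarith

end Pool.Agent.PWS
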