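import Pool.Agent.PWS.St

/-!
Campaign PWS, module Gro: the lower bound by the products of consecutive `a_i`.
-/

set_option autoImplicit false

namespace Pool.Agent.PWS

open Pool.Agent.PW Pool.Agent.PWM Pool.Agent.PWX
open scoped Classical Pointwise

theorem Gro_add (g l i j : ℕ) : pa g l (i + j) = pa g l i * pa g (l + i) j := by
  unfold pa
  rw [← List.prod_append, ← List.map_append, List.range'_append_1]

theorem thm_Gro (hMon : St_Mon) (hPar : St_Par) : St_Gro := by
  intro Q _ _ g ρ l r h1 hlr
  have hne : ∀ i j : ℕ, i < j → j < r → ρ (pa g l (i + 1)) ≠ ρ (pa g l (j + 1)) := by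
    intro i j hij hj e
    have e1 : j + 1 = (i + 1) + (j - i) := by omega
    rw [e1, Gro_add g l (i + 1) (j - i), map_mul] at e
    have e2 : ρ (pa g (l + (i + 1)) (j - i)) = 1 := by
      simpa using e.symm
    apply h1
    rw [← e2]
    exact (hMon g (l + (i + 1)) (j - i) 0 g (Nat.zero_le _) (by omega)).2 ρ
      (hPar ρ (l + (i + 1)) (j - i) (j - i) (by omega) le_rfl (by omega))
  have hinj : Function.Injective fun j : Fin r => ρ (pa g l ((j : ℕ) + 1)) := by
    intro i j e
    rcases lt_trichotomy (i : ℕ) (j : ℕ) with h | h | h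
    · exact absurd e (hne i j h j.2)
    · exact Fin.ext h
    · exact absurd e.symm (hne j i h i.2)
  have hsub : (Set.range fun j : Fin r => ρ (pa g l ((j : ℕ) + 1))) ⊆ Sm ρ l r := by
    rintro _ ⟨j, rfl⟩
    exact hPar ρ l ((j : ℕ) + 1) r (by omega) (by have := j.2; omega) hlr
  have hcard : (Set.range fun j : Fin r => ρ (pa g l ((j : ℕ) + 1))).ncard = r := by
    rw [← Set.image_univ, Set.ncard_image_of_injective _ hinj, Set.ncard_univ]
    simp
  calc r = (Set.range fun j : Fin r => ρ (pa g l ((j : ℕ) + 1))).ncard := hcard.symm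
    _ ≤ (Sm ρ l r).ncard := Set.ncard_le_ncard hsub (Set.toFinite _)

end Pool.Agent.PWS
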