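import Pool.Agent.PWS.St

/-!
Campaign PWS: growth in `SL_2(F_p)` (Helfgott's theorem).
-/

set_option autoImplicit false

namespace Pool.Agent.PWS

open Pool.Agent.PW Pool.Agent.PWM Pool.Agent.PWX
open scoped Classical Pointwise

theorem Hel_tr {p : ℕ} (x c : SL p) : tr (x * c * x⁻¹) = tr c := by
  have e : ((x * c * x⁻¹ : SL p) : M2 p) = (x : M2 p) * (c : M2 p) * ((x⁻¹ : SL p) : M2 p) := by
    rw [Matrix.SpecialLinearGroup.coe_mul, Matrix.SpecialLinearGroup.coe_mul]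
  have e2 : ((x⁻¹ : SL p) : M2 p) * (x : M2 p) = 1 := by
    rw [← Matrix.SpecialLinearGroup.coe_mul]
    simp
  unfold tr
  rw [e, Matrix.trace_mul_comm, ← Matrix.mul_assoc, e2, Matrix.one_mul]

theorem Hel_cz {G : Type} [Group G] {x c : G} : x ∈ Cz c ↔ x * c = c * x := by
  unfold Cz
  rw [Subgroup.mem_centralizer_singleton_iff]

theorem Hel_cz_conj {G : Type} [Group G] (d x c : G) :
    x ∈ Cz (d * c * d⁻¹) ↔ d⁻¹ * x * d ∈ Cz c := by
  rw [Hel_cz, Hel_cz]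
  constructor
  · intro h
    calc d⁻¹ * x * d * c = d⁻¹ * (x * (d * c * d⁻¹)) * d := by group
      _ = d⁻¹ * ((d * c * d⁻¹) * x) * d := by rw [h]
      _ = c * (d⁻¹ * x * d) := by group
  · intro h
    calc x * (d * c * d⁻¹) = d * (d⁻¹ * x * d * c) * d⁻¹ := by group
      _ = d * (c * (d⁻¹ * x * d)) * d⁻¹ := by rw [h]
      _ = d * c * d⁻¹ * x := by group

theorem Hel_nc {G : Type} [Group G] {c : G} (h : NC c) (x : G) : NC (x * c * x⁻¹) := by
  intro h2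
  apply h
  have := (Subgroup.Normal.conj_mem (inferInstance : (Subgroup.center G).Normal) _ h2 x⁻¹)
  have e : x⁻¹ * (x * c * x⁻¹) * x⁻¹⁻¹ = c := by group
  rwa [e] at this

theorem Hel_eqcz (hCom : St_Com) (p : ℕ) [Fact p.Prime] (x y : SL p) (hx : NC x) (hy : NC y)
    (hxy : y ∈ Cz x) : Cz y = Cz x := by
  have hyx : x ∈ Cz y := Hel_cz.2 (Hel_cz.1 hxy).symm
  ext t
  constructor
  · intro ht
    exact Hel_cz.2 ((hCom p).1 y t x hy ht hyx)
  · intro ht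
    exact Hel_cz.2 ((hCom p).1 x t y hx ht hxy)

theorem Hel_nz {G : Type} [Group G] (x x0 c : G)
    (h : Cz (x * c * x⁻¹) = Cz (x0 * c * x0⁻¹)) : x0⁻¹ * x ∈ Nz c := by
  show ∀ y, y ∈ Cz c ↔ x0⁻¹ * x * y * (x0⁻¹ * x)⁻¹ ∈ Cz c
  intro y
  have h1 : y ∈ Cz c ↔ x * y * x⁻¹ ∈ Cz (x * c * x⁻¹) := by
    rw [Hel_cz_conj]
    have e : x⁻¹ * (x * y * x⁻¹) * x = y := by group
    rw [e]
  rw [h1, h, Hel_cz_conj]
  have e : x0⁻¹ * (x * y * x⁻¹) * x0 = x0⁻¹ * x * y * (x0⁻¹ * x)⁻¹ := by group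
  rw [e]

/-- The arithmetic. -/
theorem Hel_arith (p K a R E : ℕ) (hp : 5 ≤ p) (hK : 1 ≤ K) (ha : 0 < a) (hR4 : 4 ≤ R)
    (h1 : a ≤ 7000 * K ^ 16 * R ^ 3) (hE : E ≤ K * a)
    (h2 : p * (p ^ 2 - 1) * (R - 2) ≤ E * (4 * p)) : p ^ 3 ≤ 2100 * K ^ 10 * a := by
  obtain ⟨n, hn⟩ : ∃ n, n = p ^ 2 - 1 := ⟨_, rfl⟩
  have hp2 : 25 ≤ p ^ 2 := by nlinarith
  have hn1 : 24 * p ^ 2 ≤ 25 * n := by omega
  rw [← hn] at h2
  have h3 : n * (R - 2) ≤ 4 * E := by
    have : p * (n * (R - 2)) ≤ p * (4 * E) := by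
      calc p * (n * (R - 2)) = p * n * (R - 2) := by ring
        _ ≤ E * (4 * p) := h2
        _ = p * (4 * E) := by ring
    exact Nat.le_of_mul_le_mul_left this (by omega)
  have h4 : n * R ≤ 8 * (K * a) := by
    have hRR : R ≤ 2 * (R - 2) := by omega
    calc n * R ≤ n * (2 * (R - 2)) := Nat.mul_le_mul_left _ hRR
      _ = 2 * (n * (R - 2)) := by ring
      _ ≤ 2 * (4 * E) := Nat.mul_le_mul_left _ h3
      _ = 8 * E := by ring
      _ ≤ 8 * (K * a) := Nat.mul_le_mul_left _ hE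
  have h5 : a * n ^ 3 ≤ a * (3584000 * K ^ 19 * a ^ 2) := by
    calc a * n ^ 3 ≤ 7000 * K ^ 16 * R ^ 3 * n ^ 3 := Nat.mul_le_mul_right _ h1
      _ = 7000 * K ^ 16 * (n * R) ^ 3 := by ring
      _ ≤ 7000 * K ^ 16 * (8 * (K * a)) ^ 3 :=
        Nat.mul_le_mul_left _ (Nat.pow_le_pow_left h4 3)
      _ = a * (3584000 * K ^ 19 * a ^ 2) := by ring
  have h6 : n ^ 3 ≤ 3584000 * K ^ 19 * a ^ 2 := Nat.le_of_mul_le_mul_left h5 ha
  have h7 : 13824 * (p ^ 3) ^ 2 ≤ 15625 * n ^ 3 := by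
    calc 13824 * (p ^ 3) ^ 2 = (24 * p ^ 2) ^ 3 := by ring
      _ ≤ (25 * n) ^ 3 := Nat.pow_le_pow_left hn1 3
      _ = 15625 * n ^ 3 := by ring
  have h8 : K ^ 19 * a ^ 2 ≤ K ^ 20 * a ^ 2 :=
    Nat.mul_le_mul_right _ (Nat.pow_le_pow_right hK (by norm_num))
  have h9 : (p ^ 3) ^ 2 ≤ (2100 * K ^ 10 * a) ^ 2 := by
    have e : (2100 * K ^ 10 * a) ^ 2 = 4410000 * (K ^ 20 * a ^ 2) := by ring
    rw [e]
    have h10 : 13824 * (p ^ 3) ^ 2 ≤ 13824 * (4410000 * (K ^ 20 * a ^ 2)) := by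
      calc 13824 * (p ^ 3) ^ 2 ≤ 15625 * n ^ 3 := h7
        _ ≤ 15625 * (3584000 * K ^ 19 * a ^ 2) := Nat.mul_le_mul_left _ h6
        _ = 56000000000 * (K ^ 19 * a ^ 2) := by ring
        _ ≤ 56000000000 * (K ^ 20 * a ^ 2) := Nat.mul_le_mul_left _ h8
        _ ≤ 60963840000 * (K ^ 20 * a ^ 2) := Nat.mul_le_mul_right _ (by norm_num)
        _ = 13824 * (4410000 * (K ^ 20 * a ^ 2)) := by ring
    exact Nat.le_of_mul_le_mul_left h10 (by norm_num)
  exact le_of_sq_le_sq h9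
where
  le_of_sq_le_sq {x y : ℕ} (h : x ^ 2 ≤ y ^ 2) : x ≤ y :=
    (Nat.pow_le_pow_iff_left (by norm_num)).1 h

theorem thm_Hel (hCom : St_Com) (hCen : St_Cen) (hOrb : St_Orb) (hReg : St_Reg)
    (hPiv : St_Piv) : St_Hel := by
  intro p hp hp5 D K hK h1 hinv hcl h3
  by_cases hbig : D.card ≤ 450000 * K ^ 31
  · exact Or.inl hbig
  right
  push Not at hbig
  have ha : 0 < D.card := Finset.card_pos.2 ⟨1, h1⟩
  have hK1 : 1 ≤ K ^ 16 := Nat.one_le_pow _ _ hK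
  have hex : ∃ R : ℕ, D.card ≤ 7000 * K ^ 16 * R ^ 3 := by
    refine ⟨D.card, ?_⟩
    calc D.card = 1 * 1 * D.card ^ 1 := by ring
      _ ≤ 7000 * K ^ 16 * D.card ^ 3 :=
        Nat.mul_le_mul (Nat.mul_le_mul (by norm_num) hK1) (Nat.pow_le_pow_right ha (by norm_num))
  obtain ⟨R, hRle, hRmin⟩ : ∃ R : ℕ, D.card ≤ 7000 * K ^ 16 * R ^ 3 ∧
      ∀ r, D.card ≤ 7000 * K ^ 16 * r ^ 3 → R ≤ r :=
    ⟨Nat.find hex, Nat.find_spec hex, fun r hr => Nat.find_min' hex hr⟩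
  have hR4 : 4 ≤ R := by
    by_contra hlt
    push Not at hlt
    have hR3 : R ^ 3 ≤ 3 ^ 3 := Nat.pow_le_pow_left (by omega) 3
    have h16 : K ^ 16 ≤ K ^ 31 := Nat.pow_le_pow_right hK (by norm_num)
    have : D.card ≤ 450000 * K ^ 31 := by
      calc D.card ≤ 7000 * K ^ 16 * R ^ 3 := hRle
        _ ≤ 7000 * K ^ 16 * 3 ^ 3 := Nat.mul_le_mul_left _ hR3
        _ = 189000 * K ^ 16 := by ring
        _ ≤ 189000 * K ^ 31 := Nat.mul_le_mul_left _ h16
        _ ≤ 450000 * K ^ 31 := Nat.mul_le_mul_right _ (by norm_num)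
    omega
  obtain ⟨c, hc, hnc, ht1, ht2⟩ := hReg p (by omega) D h1 hinv hcl
  have hCc := hCen p (by omega) c hnc
  have hNz : Nat.card (Nz c) ≤ 4 * p := by
    have := (hCc.2 ht1 ht2).1
    have := hCc.1
    omega
  have hpiv := hPiv p hp5 D K hK h1 hinv hcl h3 (by
    refine lt_of_le_of_lt ?_ hbig
    exact Nat.mul_le_mul_right _ (by norm_num)) c hc hnc ht1 ht2
  have : Fintype (SL p) := Fintype.ofFinite _
  have hcount : (Finset.univ : Finset (SL p)).card * (R - 2) ≤ (D ^ 2).card * (4 * p) := by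
    refine Finset.card_mul_le_card_mul (fun (x y : SL p) => NC y ∧ y ∈ Cz (x * c * x⁻¹)) ?_ ?_
    · intro x _
      obtain ⟨c', hc', hnc', hcz⟩ := hpiv x
      have hncx : NC (x * c * x⁻¹) := Hel_nc hnc x
      have htc' := ((hCen p (by omega) (x * c * x⁻¹) hncx).2
        (by rw [Hel_tr]; exact ht1) (by rw [Hel_tr]; exact ht2)).2 c' hcz hnc'
      have hR := hOrb p hp5 D K hK h1 hinv hcl h3 c' hc' hnc' htc'.1 htc'.2
      have hle := hRmin _ hR
      have hsub : ((D ^ 2).filter fun y => y ∈ Cz c') ⊆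
          ((D ^ 2).filter fun y => NC y ∧ y ∈ Cz (x * c * x⁻¹)) ∪ {1, -1} := by
        intro y hy
        have hy' := Finset.mem_filter.1 hy
        rw [Finset.mem_union, Finset.mem_filter, Finset.mem_insert, Finset.mem_singleton]
        by_cases hyc : y ∈ Subgroup.center (SL p)
        · right
          exact ((hCom p).2.1 y).1 hyc
        · left
          refine ⟨hy'.1, hyc, ?_⟩
          rw [← Hel_eqcz hCom p (x * c * x⁻¹) c' hncx hnc' hcz]
          exact hy'.2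
      have hcard := (Finset.card_le_card hsub).trans (Finset.card_union_le _ _)
      have h2 : ({1, -1} : Finset (SL p)).card ≤ 2 := Finset.card_le_two
      have : R ≤ ((D ^ 2).filter fun y => NC y ∧ y ∈ Cz (x * c * x⁻¹)).card + 2 :=
        hle.trans (hcard.trans (Nat.add_le_add_left h2 _))
      show R - 2 ≤ ((D ^ 2).filter fun y => NC y ∧ y ∈ Cz (x * c * x⁻¹)).card
      omega
    · intro y _
      show ((Finset.univ : Finset (SL p)).filter
        fun x => NC y ∧ y ∈ Cz (x * c * x⁻¹)).card ≤ 4 * p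
      refine le_trans ?_ hNz
      have hcardN : Nat.card (Nz c) = ((Finset.univ : Finset (SL p)).filter
          fun x => x ∈ Nz c).card := by
        rw [Nat.card_eq_fintype_card]
        exact Fintype.card_subtype _
      rw [hcardN]
      by_cases hne : ((Finset.univ : Finset (SL p)).filter
        fun x => NC y ∧ y ∈ Cz (x * c * x⁻¹)).Nonempty
      · obtain ⟨x0, hx0⟩ := hne
        have hx0' := (Finset.mem_filter.1 hx0).2
        refine Finset.card_le_card_of_injOn (fun x => x0⁻¹ * x) ?_ ?_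
        · intro x hx
          have hx' := (Finset.mem_filter.1 (Finset.mem_coe.1 hx)).2
          refine Finset.mem_coe.2 (Finset.mem_filter.2 ⟨Finset.mem_univ _, ?_⟩)
          refine Hel_nz x x0 c ?_
          rw [← Hel_eqcz hCom p (x * c * x⁻¹) y (Hel_nc hnc x) hx'.1 hx'.2,
            Hel_eqcz hCom p (x0 * c * x0⁻¹) y (Hel_nc hnc x0) hx0'.1 hx0'.2]
        · intro x _ x' _ hxx
          exact mul_left_cancel hxx
      · rw [Finset.not_nonempty_iff_eq_empty] at hne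
        rw [hne]
        simp
  have hcardG : (Finset.univ : Finset (SL p)).card = p * (p ^ 2 - 1) := by
    rw [← (hCom p).2.2, Nat.card_eq_fintype_card]
    rfl
  rw [hcardG] at hcount
  have h23 : (D ^ 2).card ≤ K * D.card := by
    refine le_trans (Finset.card_le_card ?_) h3
    exact Finset.pow_subset_pow_right h1 (by norm_num)
  exact Hel_arith p K D.card R (D ^ 2).card hp5 hK ha hR4 hRle h23 hcount

end Pool.Agent.PWS
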