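import Pool.Agent.PWS.St

/-!
Campaign PWS, module Hnd: twists in one handle and its rotation.
-/

set_option autoImplicit false

namespace Pool.Agent.PWS

open Pool.Agent.PW Pool.Agent.PWM Pool.Agent.PWX
open scoped Classical

theorem Hnd_ga_mem {g l h : ℕ} {i : Fin g} (h1 : l ≤ (i : ℕ)) (h2 : (i : ℕ) < l + h) :
    (ga i : F g 0) ∈ Let g l h :=
  Subgroup.subset_closure ⟨i, h1, h2, Or.inl rfl⟩

theorem Hnd_gb_mem {g l h : ℕ} {i : Fin g} (h1 : l ≤ (i : ℕ)) (h2 : (i : ℕ) < l + h) :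
    (gb i : F g 0) ∈ Let g l h :=
  Subgroup.subset_closure ⟨i, h1, h2, Or.inr rfl⟩

theorem Hnd_map {g l h : ℕ} (ψ : MulAut (F g 0))
    (h1 : ∀ i : Fin g, l ≤ (i : ℕ) → (i : ℕ) < l + h → ψ (ga i) ∈ Let g l h ∧ ψ (gb i) ∈ Let g l h)
    {x : F g 0} (hx : x ∈ Let g l h) : ψ x ∈ Let g l h := by
  have key : Let g l h ≤ (Let g l h).comap (MulEquiv.toMonoidHom ψ) := by
    unfold Let
    rw [Subgroup.closure_le]
    rintro x ⟨i, hi1, hi2, hx | hx⟩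
    · subst hx
      exact (h1 i hi1 hi2).1
    · subst hx
      exact (h1 i hi1 hi2).2
  exact key hx

/-- A criterion for `ψ ∈ Loc g l h`. -/
theorem Hnd_loc {g l h : ℕ} (ψ : MulAut (F g 0)) (hb : ψ (bdry g 0) = bdry g 0)
    (hf : ∀ i : Fin g, (i : ℕ) < l ∨ l + h ≤ (i : ℕ) → ψ (ga i) = ga i ∧ ψ (gb i) = gb i)
    (h1 : ∀ i : Fin g, l ≤ (i : ℕ) → (i : ℕ) < l + h → ψ (ga i) ∈ Let g l h ∧ ψ (gb i) ∈ Let g l h)
    (h2 : ∀ i : Fin g, l ≤ (i : ℕ) → (i : ℕ) < l + h →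
      ψ⁻¹ (ga i) ∈ Let g l h ∧ ψ⁻¹ (gb i) ∈ Let g l h) : ψ ∈ Loc g l h := by
  refine ⟨hb, hf, fun x => ⟨fun hx => Hnd_map ψ h1 hx, fun hx => ?_⟩⟩
  have := Hnd_map ψ⁻¹ h2 hx
  have e : ψ⁻¹ (ψ x) = x := by simp
  rwa [e] at this

/-- The criterion for one handle. -/
theorem Hnd_loc1 {g : ℕ} (i : Fin g) (ψ : MulAut (F g 0)) (hb : ψ (bdry g 0) = bdry g 0)
    (hf : ∀ j : Fin g, j ≠ i → ψ (ga j) = ga j ∧ ψ (gb j) = gb j)
    (h1 : ψ (ga i) ∈ Let g i 1) (h2 : ψ (gb i) ∈ Let g i 1)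
    (h3 : ψ⁻¹ (ga i) ∈ Let g i 1) (h4 : ψ⁻¹ (gb i) ∈ Let g i 1) : ψ ∈ Loc g i 1 := by
  have e : ∀ j : Fin g, (i : ℕ) ≤ (j : ℕ) → (j : ℕ) < (i : ℕ) + 1 → j = i := by
    intro j h5 h6
    exact Fin.ext (by omega)
  apply Hnd_loc ψ hb
  · intro j hj
    apply hf
    rintro rfl
    omega
  · intro j h5 h6
    rw [e j h5 h6]
    exact ⟨h1, h2⟩
  · intro j h5 h6
    rw [e j h5 h6]
    exact ⟨h3, h4⟩

theorem thm_Hnd : St_Hnd := by
  intro g i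
  have ha : (ga i : F g 0) ∈ Let g i 1 := Hnd_ga_mem le_rfl (Nat.lt_succ_self _)
  have hb : (gb i : F g 0) ∈ Let g i 1 := Hnd_gb_mem le_rfl (Nat.lt_succ_self _)
  refine ⟨fun k => ?_, fun k => ?_, ?_⟩
  · refine ⟨e2 i k, Hnd_loc1 i _ (e2_bdry i k) ?_ ?_ ?_ ?_ ?_, e2_a i k, e2_b i i k⟩
    · intro j hj
      exact ⟨e2_a' hj k, e2_b i j k⟩
    · rw [e2_a]
      exact Subgroup.mul_mem _ ha (Subgroup.zpow_mem _ hb k)
    · rw [e2_b]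
      exact hb
    · have : (e2 (n := 0) i k)⁻¹ (ga i) = ga i * gb i ^ (-k) := by
        apply inv_of_eq
        rw [map_mul, map_zpow, e2_a, e2_b]
        group
      rw [this]
      exact Subgroup.mul_mem _ ha (Subgroup.zpow_mem _ hb _)
    · rw [inv_of_fix _ (e2_b i i k)]
      exact hb
  · refine ⟨e1 i k, Hnd_loc1 i _ (e1_bdry i k) ?_ ?_ ?_ ?_ ?_, e1_a i i k, e1_b i k⟩
    · intro j hj
      exact ⟨e1_a i j k, e1_b' hj k⟩
    · rw [e1_a]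
      exact ha
    · rw [e1_b]
      exact Subgroup.mul_mem _ hb (Subgroup.zpow_mem _ ha k)
    · rw [inv_of_fix _ (e1_a i i k)]
      exact ha
    · have : (e1 (n := 0) i k)⁻¹ (gb i) = gb i * ga i ^ (-k) := by
        apply inv_of_eq
        rw [map_mul, map_zpow, e1_a, e1_b]
        group
      rw [this]
      exact Subgroup.mul_mem _ hb (Subgroup.zpow_mem _ ha _)
  · refine ⟨(rr i)⁻¹, Hnd_loc1 i _ (rri_bdry i) ?_ ?_ ?_ ?_ ?_, rri_a i⟩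
    · intro j hj
      exact ⟨rri_a' hj, rri_b' hj⟩
    · rw [rri_a]
      exact Subgroup.inv_mem _ hb
    · rw [rri_b]
      exact Subgroup.mul_mem _ (Subgroup.mul_mem _ hb ha) (Subgroup.inv_mem _ hb)
    · rw [inv_inv, rr_a]
      exact Subgroup.mul_mem _ (Subgroup.mul_mem _ ha hb) (Subgroup.inv_mem _ ha)
    · rw [inv_inv, rr_b]
      exact Subgroup.inv_mem _ ha

end Pool.Agent.PWS
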