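import Pool.Agent.PWS.St
import Pool.Agent.PWM.Blk
import Pool.Agent.PWB.Main

/-!
Campaign PWS, module Itr: iteration of the core theorem along a chain of subgroups.
-/

set_option autoImplicit false

namespace Pool.Agent.PWS

open Pool.Agent.PW Pool.Agent.PWM Pool.Agent.PWX Pool.Agent.PWB
open scoped commutatorElement

/-- Several handles are killed. -/
theorem Itr_many {Q : Type} [Group Q] {h : ℕ} (hD : ∀ ρ : F h 0 →* Q, Dead ρ) (m : ℕ) :
    ∀ (g : ℕ), h + m ≤ g + 1 → ∀ ρ : F g 0 →* Q, ∃ ψ ∈ MCGd g,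
      ∀ i : Fin g, (i : ℕ) < m → ρ (ψ (ga i)) = 1 ∧ ρ (ψ (gb i)) = 1 := by
  induction m with
  | zero =>
    intro g _ ρ
    exact ⟨1, (MCGd g).one_mem, fun i hi => absurd hi (Nat.not_lt_zero _)⟩
  | succ m ih =>
    intro g hg ρ
    obtain ⟨φ₁, hφ₁, h1⟩ := ih g (by omega) ρ
    have hm : m + h ≤ g := by omega
    obtain ⟨φ, hφ, h0, hc, hd⟩ := hD ((pre ρ φ₁).comp (blk h g 0 m hm))
    obtain ⟨c, hcc⟩ := isConj_iff.1 hφ.1
    have hψ : MulAut.conj c * φ ∈ MCGd h := by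
      show (MulAut.conj c) (φ (bdry h 0)) = bdry h 0
      rw [MulAut.conj_apply, hcc]
    obtain ⟨Ψ, -, hΨ, hΨb, hΨo, -⟩ := st_Blk hm (MulAut.conj c * φ) hψ
    refine ⟨φ₁ * Ψ, (MCGd g).mul_mem hφ₁ hΨ, fun i hi => ?_⟩
    have hcon : ∀ x : F h 0, ρ (φ₁ (blk h g 0 m hm (φ x))) = 1 →
        ρ (φ₁ (Ψ (blk h g 0 m hm x))) = 1 := by
      intro x hx
      have e : (MulAut.conj c * φ) x = c * φ x * c⁻¹ := rfl
      rw [hΨb, e, map_mul, map_mul, map_inv, map_mul, map_mul, map_inv, map_mul, map_mul, map_inv,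
        hx, mul_one, mul_inv_cancel]
    have h2 : (i : ℕ) < m ∨ (i : ℕ) = m := by omega
    rcases h2 with h2 | h2
    · obtain ⟨e1, e2⟩ := hΨo i (Or.inl h2)
      constructor
      · show ρ (φ₁ (Ψ (ga i))) = 1
        rw [e1]
        exact (h1 i h2).1
      · show ρ (φ₁ (Ψ (gb i))) = 1
        rw [e2]
        exact (h1 i h2).2
    · have e1 : (ga i : F g 0) = blk h g 0 m hm (ga ⟨0, h0⟩) := by
        rw [blk_a]
        congr 1
        exact Fin.ext h2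
      have e2 : (gb i : F g 0) = blk h g 0 m hm (gb ⟨0, h0⟩) := by
        rw [blk_b]
        congr 1
        exact Fin.ext h2
      constructor
      · show ρ (φ₁ (Ψ (ga i))) = 1
        rw [e1]
        exact hcon _ hc
      · show ρ (φ₁ (Ψ (gb i))) = 1
        rw [e2]
        exact hcon _ hd

/-- One step of the chain. -/
theorem Itr_step {Q : Type} [Group Q] {h : ℕ} (hD : ∀ ρ : F h 0 →* Q, Dead ρ) {g n m m' : ℕ}
    (hg : m' ≤ g) (hm : h + m ≤ m' + 1) (A : Subgroup (F g n)) (ρ : A →* Q) {φ : MulAut (F g n)}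
    (hφ : φ ∈ MCG g n) (hA : ∀ i : Fin g, (i : ℕ) < m' → φ (ga i) ∈ A ∧ φ (gb i) ∈ A) :
    ∃ φ' ∈ MCG g n, ∀ i : Fin g, (i : ℕ) < m →
      (∃ ha : φ' (ga i) ∈ A, ρ ⟨φ' (ga i), ha⟩ = 1) ∧
      ∃ hb : φ' (gb i) ∈ A, ρ ⟨φ' (gb i), hb⟩ = 1 := by
  have hh : 0 < h := by
    obtain ⟨_, _, h0, _⟩ := hD 1
    exact h0
  have h0m : 0 + m' ≤ g := by omega
  have hmem : ∀ x : F m' 0, (φ.toMonoidHom.comp (blk m' g n 0 h0m)) x ∈ A := by
    intro x
    have key : (⊤ : Subgroup (F m' 0)) ≤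
        A.comap (φ.toMonoidHom.comp (blk m' g n 0 h0m)) := by
      rw [← FreeGroup.closure_range_of, Subgroup.closure_le]
      rintro _ ⟨y, rfl⟩
      cases y with
      | a i =>
        show φ (blk m' g n 0 h0m (ga i)) ∈ A
        rw [blk_a]
        exact (hA ⟨0 + i, by omega⟩ (by simp)).1
      | b i =>
        show φ (blk m' g n 0 h0m (gb i)) ∈ A
        rw [blk_b]
        exact (hA ⟨0 + i, by omega⟩ (by simp)).2
      | c j => exact j.elim0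
    exact key (Subgroup.mem_top x)
  obtain ⟨ψ, hψ, h1⟩ := Itr_many hD m m' hm
    (ρ.comp ((φ.toMonoidHom.comp (blk m' g n 0 h0m)).codRestrict A hmem))
  obtain ⟨Ψ, hΨ, -, hΨb, -, -⟩ := st_Blk h0m ψ hψ
  refine ⟨φ * Ψ, (MCG g n).mul_mem hφ hΨ, fun i hi => ?_⟩
  have hi' : (i : ℕ) < m' := by omega
  have e1 : (ga i : F g n) = blk m' g n 0 h0m (ga ⟨i, hi'⟩) := by
    rw [blk_a]
    congr 1
    exact Fin.ext (by simp)
  have e2 : (gb i : F g n) = blk m' g n 0 h0m (gb ⟨i, hi'⟩) := by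
    rw [blk_b]
    congr 1
    exact Fin.ext (by simp)
  have f1 : (φ * Ψ) (ga i) = φ (blk m' g n 0 h0m (ψ (ga ⟨i, hi'⟩))) := by
    show φ (Ψ (ga i)) = _
    rw [e1, hΨb]
  have f2 : (φ * Ψ) (gb i) = φ (blk m' g n 0 h0m (ψ (gb ⟨i, hi'⟩))) := by
    show φ (Ψ (gb i)) = _
    rw [e2, hΨb]
  obtain ⟨k1, k2⟩ := h1 ⟨i, hi'⟩ hi
  constructor
  · have hx : (φ * Ψ) (ga i) ∈ A := by
      rw [f1]
      exact hmem _
    refine ⟨hx, ?_⟩
    rw [← k1]
    show _ = ρ _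
    congr 1
    exact Subtype.ext f1
  · have hx : (φ * Ψ) (gb i) ∈ A := by
      rw [f2]
      exact hmem _
    refine ⟨hx, ?_⟩
    rw [← k2]
    show _ = ρ _
    congr 1
    exact Subtype.ext f2

/-- `B` contains the kernel of a homomorphism from `A` to `SL_2(F_p)`, `p` a prime, or to a finite
group which is cyclic or of order at most `N`. -/
def Stp (N : ℕ) {g n : ℕ} (A B : Subgroup (F g n)) : Prop :=
  (∃ (p : ℕ) (_ : Fact p.Prime) (ρ : A →* SL p), ∀ x : A, ρ x = 1 → (x : F g n) ∈ B) ∨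
  ∃ (Q : Type) (_ : Group Q) (_ : Finite Q) (ρ : A →* Q), (IsCyclic Q ∨ Nat.card Q ≤ N) ∧
    ∀ x : A, ρ x = 1 → (x : F g n) ∈ B

/-- The chain. -/
theorem Itr_chain (hCor : St_Cor) (hDed : St_Ded) (hCst : St_Cst) (N k : ℕ) :
    ∀ m : ℕ, ∃ G : ℕ, ∀ g n : ℕ, G ≤ g → ∀ L : ℕ → Subgroup (F g n), L 0 = ⊤ →
      (∀ i < k, Stp N (L i) (L (i + 1))) →
      ∃ φ ∈ MCG g n, ∀ i : Fin g, (i : ℕ) < m → φ (ga i) ∈ L k ∧ φ (gb i) ∈ L k := by
  obtain ⟨g₀, h0, hg₀⟩ := hCor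
  have hN : ∀ (Q : Type) [Group Q] [Finite Q], IsCyclic Q ∨ Nat.card Q ≤ N →
      ∀ ρ : F (N + 2) 0 →* Q, Dead ρ := by
    intro Q _ _ hQ ρ
    rcases hQ with hQ | hQ
    · have hc : IsCyclic ρ.range := inferInstance
      obtain ⟨c, hc⟩ := hc.exists_generator
      refine hDed ρ 1 (Cost2.cyclic Cost2.top le_top ?_ ⟨c, Subgroup.mem_top _, ?_⟩) (by omega)
      · intro x _ y hy
        rw [Subgroup.mem_bot] at hy
        rw [hy, mul_one, mul_inv_cancel]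
        exact Subgroup.one_mem _
      · intro x _
        obtain ⟨k, hk⟩ := Subgroup.mem_zpowers_iff.1 (hc x)
        refine ⟨k, ?_⟩
        rw [hk, inv_mul_cancel]
        exact Subgroup.one_mem _
    · refine hDed ρ (Nat.card ρ.range - 1) (hCst (Q := ρ.range)).1 ?_
      have : Nat.card ρ.range ≤ Nat.card Q := Subgroup.card_le_card_group _
      omega
  induction k with
  | zero =>
    intro m
    refine ⟨0, fun g n _ L hL _ => ⟨1, (MCG g n).one_mem, fun i _ => ?_⟩⟩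
    rw [hL]
    exact ⟨Subgroup.mem_top _, Subgroup.mem_top _⟩
  | succ k ih =>
    intro m
    obtain ⟨G, hG⟩ := ih (g₀ + N + 2 + m)
    refine ⟨G + (g₀ + N + 2 + m), fun g n hg L hL hs => ?_⟩
    obtain ⟨φ, hφ, h1⟩ := hG g n (by omega) L hL (fun i hi => hs i (by omega))
    rcases hs k (by omega) with ⟨p, hp, ρ, hρ⟩ | ⟨Q, hQ1, hQ2, ρ, hQ, hρ⟩
    · obtain ⟨φ', hφ', h2⟩ := Itr_step (m := m) (hg₀ p) (show g₀ + N + 2 + m ≤ g by omega)
        (by omega) (L k) ρ hφ h1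
      refine ⟨φ', hφ', fun i hi => ?_⟩
      obtain ⟨⟨a1, a2⟩, b1, b2⟩ := h2 i hi
      exact ⟨hρ _ a2, hρ _ b2⟩
    · obtain ⟨φ', hφ', h2⟩ := Itr_step (m := m) (hN Q hQ) (show g₀ + N + 2 + m ≤ g by omega)
        (by omega) (L k) ρ hφ h1
      refine ⟨φ', hφ', fun i hi => ?_⟩
      obtain ⟨⟨a1, a2⟩, b1, b2⟩ := h2 i hi
      exact ⟨hρ _ a2, hρ _ b2⟩

/-- The theorem for chains. -/
theorem Itr_main (hCor : St_Cor) (hDed : St_Ded) (hCst : St_Cst) (k N : ℕ) :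
    ∃ g₁ : ℕ, ∀ g n : ℕ, g₁ ≤ g → ∀ L : ℕ → Subgroup (F g n), L 0 = ⊤ →
      (∀ i < k, Stp N (L i) (L (i + 1))) →
      ∀ M : Subgroup (F g n), M.Normal → L k ≤ M → ∀ (K : Subgroup (F g n)) [K.FiniteIndex],
      ⁅M, M⁆ ≤ K → bdry g n ∈ K.normalCore → ∀ f : K → ℚ, IsClass K f → f ≠ 0 →
      (orbit K f).Infinite := by
  obtain ⟨G, hG⟩ := Itr_chain hCor hDed hCst N k 2
  refine ⟨G + 2, ?_⟩
  intro g n hg L hL hs M hM hLM K _ hK hR f hf hne
  obtain ⟨φ, hφ, h1⟩ := hG g n (by omega) L hL hs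
  have hNc : ⁅M, M⁆ ≤ K.normalCore := Subgroup.normal_le_normalCore.2 hK
  have hBn : (M.map (QuotientGroup.mk' K.normalCore)).Normal :=
    Subgroup.Normal.map inferInstance _ (QuotientGroup.mk'_surjective _)
  refine infinite_of_block (by omega) K hR (M.map (QuotientGroup.mk' K.normalCore)) ?_ hφ
    (fun i hi => ⟨?_, ?_⟩) hf hne
  · rintro _ ⟨x, hx, rfl⟩ _ ⟨y, hy, rfl⟩
    rw [← map_mul, ← map_mul]
    rw [QuotientGroup.mk'_apply, QuotientGroup.mk'_apply, QuotientGroup.eq]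
    apply hNc
    have e : (x * y)⁻¹ * (y * x) = ⁅y⁻¹, x⁻¹⁆ := by
      rw [commutatorElement_def]
      group
    rw [e]
    exact Subgroup.commutator_mem_commutator (M.inv_mem hy) (M.inv_mem hx)
  · exact ⟨φ (ga i), hLM (h1 i hi).1, rfl⟩
  · exact ⟨φ (gb i), hLM (h1 i hi).2, rfl⟩

end Pool.Agent.PWS
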