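import Pool.Agent.PWS.St

/-!
Campaign PWS, module Lin: three trace conditions.
-/

set_option autoImplicit false

namespace Pool.Agent.PWS

open Pool.Agent.PW Pool.Agent.PWM Pool.Agent.PWX
open scoped Classical

section

variable {K : Type} [Field K]

omit [Field K] in
theorem Lin_ext {A B : Matrix (Fin 2) (Fin 2) K} (h1 : A 0 0 = B 0 0) (h2 : A 0 1 = B 0 1)
    (h3 : A 1 0 = B 1 0) (h4 : A 1 1 = B 1 1) : A = B := by
  ext i j
  fin_cases i <;> fin_cases j
  · exact h1
  · exact h2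
  · exact h3
  · exact h4

theorem Lin_tr (A B : Matrix (Fin 2) (Fin 2) K) : (A * B).trace =
    A 0 0 * B 0 0 + A 0 1 * B 1 0 + (A 1 0 * B 0 1 + A 1 1 * B 1 1) := by
  rw [Matrix.trace_fin_two, Matrix.mul_apply, Matrix.mul_apply, Fin.sum_univ_two,
    Fin.sum_univ_two]

theorem Lin_par (A B z : Matrix (Fin 2) (Fin 2) K) (hw : A * B - B * A ≠ 0)
    (h1 : z.trace = 0) (h2 : (z * A).trace = 0) (h3 : (z * B).trace = 0) :
    ∃ s : K, z = s • (A * B - B * A) := by
  rw [Matrix.trace_fin_two] at h1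
  rw [Lin_tr] at h2 h3
  have hz : z 1 1 = -z 0 0 := by linear_combination h1
  rw [hz] at h2 h3
  set W := A * B - B * A with hW
  have w00 : W 0 0 = A 0 1 * B 1 0 - B 0 1 * A 1 0 := by
    rw [hW, Matrix.sub_apply, Matrix.mul_apply, Matrix.mul_apply, Fin.sum_univ_two,
      Fin.sum_univ_two]
    ring
  have w01 : W 0 1 = (A 0 0 - A 1 1) * B 0 1 - (B 0 0 - B 1 1) * A 0 1 := by
    rw [hW, Matrix.sub_apply, Matrix.mul_apply, Matrix.mul_apply, Fin.sum_univ_two,
      Fin.sum_univ_two]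
    ring
  have w10 : W 1 0 = (B 0 0 - B 1 1) * A 1 0 - (A 0 0 - A 1 1) * B 1 0 := by
    rw [hW, Matrix.sub_apply, Matrix.mul_apply, Matrix.mul_apply, Fin.sum_univ_two,
      Fin.sum_univ_two]
    ring
  have w11 : W 1 1 = -W 0 0 := by
    rw [w00, hW, Matrix.sub_apply, Matrix.mul_apply, Matrix.mul_apply, Fin.sum_univ_two,
      Fin.sum_univ_two]
    ring
  have p1 : z 0 0 * W 0 1 = z 0 1 * W 0 0 := by
    rw [w00, w01]
    linear_combination B 0 1 * h2 - A 0 1 * h3
  have p2 : z 0 0 * W 1 0 = z 1 0 * W 0 0 := by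
    rw [w00, w10]
    linear_combination A 1 0 * h3 - B 1 0 * h2
  have p3 : z 0 1 * W 1 0 = z 1 0 * W 0 1 := by
    rw [w01, w10]
    linear_combination (B 0 0 - B 1 1) * h2 - (A 0 0 - A 1 1) * h3
  by_cases c0 : W 0 0 = 0
  · by_cases c1 : W 0 1 = 0
    · by_cases c2 : W 1 0 = 0
      · exfalso
        apply hw
        apply Lin_ext
        · rw [c0]; rfl
        · rw [c1]; rfl
        · rw [c2]; rfl
        · rw [w11, c0, neg_zero]; rfl
      · refine ⟨z 1 0 / W 1 0, ?_⟩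
        apply Lin_ext
        · rw [Matrix.smul_apply, smul_eq_mul, div_mul_eq_mul_div, eq_div_iff c2, p2]
        · rw [Matrix.smul_apply, smul_eq_mul, div_mul_eq_mul_div, eq_div_iff c2, p3]
        · rw [Matrix.smul_apply, smul_eq_mul, div_mul_cancel₀ _ c2]
        · rw [Matrix.smul_apply, smul_eq_mul, div_mul_eq_mul_div, eq_div_iff c2, hz, w11]
          linear_combination -p2
    · refine ⟨z 0 1 / W 0 1, ?_⟩
      apply Lin_ext
      · rw [Matrix.smul_apply, smul_eq_mul, div_mul_eq_mul_div, eq_div_iff c1, p1]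
      · rw [Matrix.smul_apply, smul_eq_mul, div_mul_cancel₀ _ c1]
      · rw [Matrix.smul_apply, smul_eq_mul, div_mul_eq_mul_div, eq_div_iff c1, ← p3]
      · rw [Matrix.smul_apply, smul_eq_mul, div_mul_eq_mul_div, eq_div_iff c1, hz, w11]
        linear_combination -p1
  · refine ⟨z 0 0 / W 0 0, ?_⟩
    apply Lin_ext
    · rw [Matrix.smul_apply, smul_eq_mul, div_mul_cancel₀ _ c0]
    · rw [Matrix.smul_apply, smul_eq_mul, div_mul_eq_mul_div, eq_div_iff c0, ← p1]
    · rw [Matrix.smul_apply, smul_eq_mul, div_mul_eq_mul_div, eq_div_iff c0, ← p2]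
    · rw [Matrix.smul_apply, smul_eq_mul, div_mul_eq_mul_div, eq_div_iff c0, hz, w11]
      ring

theorem Lin_det (y w : Matrix (Fin 2) (Fin 2) K) (s : K) (hy : y.det = 1)
    (hw : w.trace = 0) :
    (y + s • w).det = 1 - s * (w * y).trace + s ^ 2 * w.det := by
  rw [Matrix.det_fin_two] at hy
  rw [Matrix.trace_fin_two] at hw
  rw [Matrix.det_fin_two, Matrix.det_fin_two, Lin_tr]
  simp only [Matrix.add_apply, Matrix.smul_apply, smul_eq_mul]
  linear_combination hy + s * (y 0 0 + y 1 1) * hw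

theorem Lin_sq (w : Matrix (Fin 2) (Fin 2) K) (hw : w.trace = 0) (hd : w.det = 0) :
    w * w = 0 := by
  rw [Matrix.trace_fin_two] at hw
  rw [Matrix.det_fin_two] at hd
  have h11 : w 1 1 = -w 0 0 := by linear_combination hw
  rw [h11] at hd
  apply Lin_ext
  · rw [Matrix.mul_apply, Fin.sum_univ_two]
    show _ = (0 : K)
    linear_combination -hd
  · rw [Matrix.mul_apply, Fin.sum_univ_two, h11]
    show _ = (0 : K)
    ring
  · rw [Matrix.mul_apply, Fin.sum_univ_two, h11]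
    show _ = (0 : K)
    ring
  · rw [Matrix.mul_apply, Fin.sum_univ_two, h11]
    show _ = (0 : K)
    linear_combination -hd

end

theorem thm_Lin : St_Lin := by
  intro p hp τ u v _ hv
  have hne : (u : M2 p) * (v : M2 p) - (v : M2 p) * (u : M2 p) ≠ 0 := by
    intro h
    apply hv
    unfold Cz
    rw [Subgroup.mem_centralizer_iff]
    intro x hx
    rw [Set.mem_singleton_iff.1 hx]
    apply Subtype.ext
    rw [Matrix.SpecialLinearGroup.coe_mul, Matrix.SpecialLinearGroup.coe_mul]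
    exact sub_eq_zero.1 h
  rcases le_or_gt {y : SL p | tr y = τ ∧ tr (y * u) = τ ∧ tr (y * v) = τ}.ncard 2 with h | h
  · exact Or.inl h
  right
  set w : M2 p := (u : M2 p) * (v : M2 p) - (v : M2 p) * (u : M2 p) with hw
  have hw0 : w.trace = 0 := by
    rw [hw, Matrix.trace_sub, Matrix.trace_mul_comm, sub_self]
  have hwu : (w * (u : M2 p)).trace = 0 := by
    rw [hw, sub_mul, Matrix.trace_sub, Matrix.mul_assoc, Matrix.trace_mul_comm, sub_self]
  have hwv : (w * (v : M2 p)).trace = 0 := by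
    rw [hw, sub_mul, Matrix.trace_sub, Matrix.mul_assoc (v : M2 p) (u : M2 p) (v : M2 p),
      Matrix.trace_mul_comm (v : M2 p), sub_self]
  have hpar : ∀ y y' : SL p, (tr y = τ ∧ tr (y * u) = τ ∧ tr (y * v) = τ) →
      (tr y' = τ ∧ tr (y' * u) = τ ∧ tr (y' * v) = τ) →
      ∃ s : ZMod p, (y' : M2 p) = (y : M2 p) + s • w := by
    rintro y y' ⟨a1, a2, a3⟩ ⟨b1, b2, b3⟩
    unfold tr at a1 a2 a3 b1 b2 b3
    rw [Matrix.SpecialLinearGroup.coe_mul] at a2 a3 b2 b3
    obtain ⟨s, hs⟩ := Lin_par (u : M2 p) (v : M2 p) ((y' : M2 p) - (y : M2 p)) hne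
      (by rw [Matrix.trace_sub, a1, b1, sub_self])
      (by rw [sub_mul, Matrix.trace_sub, a2, b2, sub_self])
      (by rw [sub_mul, Matrix.trace_sub, a3, b3, sub_self])
    refine ⟨s, ?_⟩
    rw [hw, ← hs]
    abel
  obtain ⟨y0, h0, y1, h1, y2, h2, h01, h02, h12⟩ := (Set.two_lt_ncard (Set.toFinite _)).1 h
  obtain ⟨s1, e1⟩ := hpar y0 y1 h0 h1
  obtain ⟨s2, e2⟩ := hpar y0 y2 h0 h2
  have hs1 : s1 ≠ 0 := by
    rintro rfl
    rw [zero_smul, add_zero] at e1
    exact h01 (Subtype.ext e1.symm)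
  have hs2 : s2 ≠ 0 := by
    rintro rfl
    rw [zero_smul, add_zero] at e2
    exact h02 (Subtype.ext e2.symm)
  have hs12 : s1 - s2 ≠ 0 := by
    intro h3
    rw [sub_eq_zero.1 h3, ← e2] at e1
    exact h12 (Subtype.ext e1)
  have d1 := Lin_det (y0 : M2 p) w s1 y0.2 hw0
  have d2 := Lin_det (y0 : M2 p) w s2 y0.2 hw0
  rw [← e1, y1.2] at d1
  rw [← e2, y2.2] at d2
  have f1 : s1 * w.det - (w * (y0 : M2 p)).trace = 0 := by
    apply (mul_eq_zero.1 (_ : s1 * (s1 * w.det - (w * (y0 : M2 p)).trace) = 0)).resolve_left hs1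
    linear_combination -d1
  have f2 : s2 * w.det - (w * (y0 : M2 p)).trace = 0 := by
    apply (mul_eq_zero.1 (_ : s2 * (s2 * w.det - (w * (y0 : M2 p)).trace) = 0)).resolve_left hs2
    linear_combination -d2
  have hd : w.det = 0 := by
    apply (mul_eq_zero.1 (_ : (s1 - s2) * w.det = 0)).resolve_left hs12
    linear_combination f1 - f2
  have ht : (w * (y0 : M2 p)).trace = 0 := by
    rw [hd] at f1
    linear_combination -f1
  have hww := Lin_sq w hw0 hd
  refine ⟨w, hne, hww, hwu, hwv, fun y hy1 hy2 hy3 => ?_⟩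
  obtain ⟨s, hs⟩ := hpar y0 y h0 ⟨hy1, hy2, hy3⟩
  rw [hs, mul_add, Matrix.trace_add, ht, Matrix.mul_smul, hww, smul_zero, Matrix.trace_zero,
    add_zero]

end Pool.Agent.PWS
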