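import Mathlib
import Pool.Agent.PWS.St

/-!
Campaign PWS, module Lne: nilpotent matrices and eigenlines.
-/

set_option autoImplicit false

namespace Pool.Agent.PWS

open Pool.Agent.PW Pool.Agent.PWM Pool.Agent.PWX
open scoped Classical

section field

variable {K : Type*} [Field K]

private lemma Lne_ent (w : Matrix (Fin 2) (Fin 2) K) (h : w * w = 0) :
    w 1 1 = - w 0 0 ∧ w 0 0 * w 0 0 + w 0 1 * w 1 0 = 0 := by
  have h00 := congrFun (congrFun h 0) 0
  have h01 := congrFun (congrFun h 0) 1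
  have h10 := congrFun (congrFun h 1) 0
  have h11 := congrFun (congrFun h 1) 1
  simp only [Matrix.mul_apply, Fin.sum_univ_two, Matrix.zero_apply] at h00 h01 h10 h11
  refine ⟨?_, h00⟩
  by_contra hne
  have hs : w 0 0 + w 1 1 ≠ 0 := fun h0 => hne (by linear_combination h0)
  have e1 : w 0 1 = 0 := by
    have h2 : w 0 1 * (w 0 0 + w 1 1) = 0 := by linear_combination h01
    exact (mul_eq_zero.mp h2).resolve_right hs
  have e3 : w 0 0 = 0 := by
    have h2 : w 0 0 * w 0 0 = 0 := by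
      rw [e1] at h00
      linear_combination h00
    exact mul_self_eq_zero.mp h2
  have e4 : w 1 1 = 0 := by
    have h2 : w 1 1 * w 1 1 = 0 := by
      rw [e1] at h11
      linear_combination h11
    exact mul_self_eq_zero.mp h2
  exact hs (by rw [e3, e4, add_zero])

private lemma Lne_off (w : Matrix (Fin 2) (Fin 2) K) (hw : w ≠ 0) (h : w * w = 0) :
    w 0 1 ≠ 0 ∨ w 1 0 ≠ 0 := by
  obtain ⟨h1, h2⟩ := Lne_ent w h
  by_contra hcon
  push Not at hcon
  obtain ⟨e1, e2⟩ := hcon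
  have e3 : w 0 0 = 0 := by
    rw [e1] at h2
    have h3 : w 0 0 * w 0 0 = 0 := by linear_combination h2
    exact mul_self_eq_zero.mp h3
  apply hw
  ext i j
  fin_cases i <;> fin_cases j
  · exact e3
  · exact e1
  · exact e2
  · show w 1 1 = 0
    rw [h1, e3, neg_zero]

private lemma Lne_tr (w y : Matrix (Fin 2) (Fin 2) K) : Matrix.trace (w * y) =
    w 0 0 * y 0 0 + w 0 1 * y 1 0 + (w 1 0 * y 0 1 + w 1 1 * y 1 1) := by
  rw [Matrix.trace_fin_two, Matrix.mul_apply, Matrix.mul_apply, Fin.sum_univ_two,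
    Fin.sum_univ_two]

/-- the eigenvalue on the line -/
private lemma Lne_eig (w y : Matrix (Fin 2) (Fin 2) K) (hw : w ≠ 0) (h : w * w = 0)
    (hy : Matrix.trace (w * y) = 0) : ∃ μ : K, y * w = μ • w := by
  obtain ⟨h1, h2⟩ := Lne_ent w h
  rw [Lne_tr, h1] at hy
  have ext2 : ∀ μ : K, y 0 0 * w 0 0 + y 0 1 * w 1 0 = μ * w 0 0 →
      y 0 0 * w 0 1 - y 0 1 * w 0 0 = μ * w 0 1 →
      y 1 0 * w 0 0 + y 1 1 * w 1 0 = μ * w 1 0 →
      y 1 0 * w 0 1 - y 1 1 * w 0 0 = - (μ * w 0 0) → y * w = μ • w := by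
    intro μ a b c d
    ext i j
    rw [Matrix.mul_apply, Fin.sum_univ_two, Matrix.smul_apply, smul_eq_mul]
    fin_cases i <;> fin_cases j
    · exact a
    · show y 0 0 * w 0 1 + y 0 1 * w 1 1 = μ * w 0 1
      rw [h1]
      linear_combination b
    · exact c
    · show y 1 0 * w 0 1 + y 1 1 * w 1 1 = μ * w 1 1
      rw [h1]
      linear_combination d
  rcases Lne_off w hw h with hb | hc
  · refine ⟨(y 0 0 * w 0 1 - y 0 1 * w 0 0) / w 0 1, ext2 _ ?_ ?_ ?_ ?_⟩
    · field_simp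
      linear_combination y 0 1 * h2
    · field_simp
    · field_simp
      linear_combination w 0 0 * hy + (y 1 1 - y 0 0) * h2
    · field_simp
      linear_combination w 0 1 * hy - y 0 1 * h2
  · refine ⟨(y 1 0 * w 0 0 + y 1 1 * w 1 0) / w 1 0, ext2 _ ?_ ?_ ?_ ?_⟩
    · field_simp
      linear_combination w 1 0 * hy - y 1 0 * h2
    · field_simp
      linear_combination (y 0 0 - y 1 1) * h2 - w 0 0 * hy
    · field_simp
    · field_simp
      linear_combination y 1 0 * h2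

/-- two nilpotent matrices with the same eigenline -/
private lemma Lne_prop (z w w' x : Matrix (Fin 2) (Fin 2) K) (hz : z ≠ 0) (hw : w ≠ 0)
    (h : w * w = 0) (h' : w' * w' = 0) (h1 : z * w = 0) (h2 : z * w' = 0)
    (hx : Matrix.trace (w * x) = 0) : Matrix.trace (w' * x) = 0 := by
  obtain ⟨e1, e2⟩ := Lne_ent w h
  obtain ⟨f1, f2⟩ := Lne_ent w' h'
  have a00 := congrFun (congrFun h1 0) 0
  have a01 := congrFun (congrFun h1 0) 1
  have a10 := congrFun (congrFun h1 1) 0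
  have a11 := congrFun (congrFun h1 1) 1
  have b00 := congrFun (congrFun h2 0) 0
  have b01 := congrFun (congrFun h2 0) 1
  have b10 := congrFun (congrFun h2 1) 0
  have b11 := congrFun (congrFun h2 1) 1
  simp only [Matrix.mul_apply, Fin.sum_univ_two, Matrix.zero_apply] at a00 a01 a10 a11 b00 b01 b10 b11
  rw [e1] at a01 a11
  rw [f1] at b01 b11
  have key : ∀ p q : K, p * w 0 0 + q * w 1 0 = 0 → p * w 0 1 + q * - w 0 0 = 0 →
      p * w' 0 0 + q * w' 1 0 = 0 → p * w' 0 1 + q * - w' 0 0 = 0 → (p ≠ 0 ∨ q ≠ 0) →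
      w 0 0 * w' 1 0 - w' 0 0 * w 1 0 = 0 ∧ w 0 1 * w' 1 0 - w' 0 1 * w 1 0 = 0 ∧
      w 0 0 * w' 0 1 - w' 0 0 * w 0 1 = 0 := by
    intro p q c1 c2 d1 d2 hpq
    rcases hpq with hp | hq
    · refine ⟨?_, ?_, ?_⟩
      · refine (mul_eq_zero.mp (?_ : p * _ = 0)).resolve_left hp
        linear_combination w' 1 0 * c1 - w 1 0 * d1
      · have g1 : w 0 0 * w' 1 0 - w' 0 0 * w 1 0 = 0 := by
          refine (mul_eq_zero.mp (?_ : p * _ = 0)).resolve_left hp
          linear_combination w' 1 0 * c1 - w 1 0 * d1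
        refine (mul_eq_zero.mp (?_ : p * _ = 0)).resolve_left hp
        linear_combination w' 1 0 * c2 - w 1 0 * d2 + q * g1
      · refine (mul_eq_zero.mp (?_ : p * _ = 0)).resolve_left hp
        linear_combination w 0 0 * d2 - w' 0 0 * c2
    · refine ⟨?_, ?_, ?_⟩
      · refine (mul_eq_zero.mp (?_ : q * _ = 0)).resolve_left hq
        linear_combination w 0 0 * d1 - w' 0 0 * c1
      · have g1 : w 0 0 * w' 0 1 - w' 0 0 * w 0 1 = 0 := by
          refine (mul_eq_zero.mp (?_ : q * _ = 0)).resolve_left hq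
          linear_combination w 0 1 * d2 - w' 0 1 * c2
        refine (mul_eq_zero.mp (?_ : q * _ = 0)).resolve_left hq
        linear_combination w 0 1 * d1 - w' 0 1 * c1 + p * g1
      · refine (mul_eq_zero.mp (?_ : q * _ = 0)).resolve_left hq
        linear_combination w 0 1 * d2 - w' 0 1 * c2
  have hne : (z 0 0 ≠ 0 ∨ z 0 1 ≠ 0) ∨ (z 1 0 ≠ 0 ∨ z 1 1 ≠ 0) := by
    by_contra hcon
    push Not at hcon
    obtain ⟨⟨c1, c2⟩, c3, c4⟩ := hcon
    apply hz
    ext i j
    fin_cases i <;> fin_cases j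
    · exact c1
    · exact c2
    · exact c3
    · exact c4
  obtain ⟨g1, g2, g3⟩ : w 0 0 * w' 1 0 - w' 0 0 * w 1 0 = 0 ∧
      w 0 1 * w' 1 0 - w' 0 1 * w 1 0 = 0 ∧ w 0 0 * w' 0 1 - w' 0 0 * w 0 1 = 0 := by
    rcases hne with hne | hne
    · exact key _ _ a00 a01 b00 b01 hne
    · exact key _ _ a10 a11 b10 b11 hne
  rw [Lne_tr, e1] at hx
  rw [Lne_tr, f1]
  rcases Lne_off w hw h with hb | hc
  · refine (mul_eq_zero.mp (?_ : w 0 1 * _ = 0)).resolve_left hb
    linear_combination w' 0 1 * hx + (x 1 1 - x 0 0) * g3 + x 0 1 * g2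
  · refine (mul_eq_zero.mp (?_ : w 1 0 * _ = 0)).resolve_left hc
    linear_combination w' 1 0 * hx + (x 1 1 - x 0 0) * g1 - x 1 0 * g2

private lemma Lne_ch (y : Matrix (Fin 2) (Fin 2) K) (h : y.det = 1) :
    y * y = Matrix.trace y • y - 1 := by
  rw [Matrix.det_fin_two] at h
  ext i j
  rw [Matrix.mul_apply, Fin.sum_univ_two, Matrix.sub_apply, Matrix.smul_apply, smul_eq_mul,
    Matrix.trace_fin_two]
  fin_cases i <;> fin_cases j
  · show y 0 0 * y 0 0 + y 0 1 * y 1 0 = (y 0 0 + y 1 1) * y 0 0 - (1 : Matrix (Fin 2) (Fin 2) K) 0 0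
    rw [Matrix.one_apply_eq]
    linear_combination -h
  · show y 0 0 * y 0 1 + y 0 1 * y 1 1 = (y 0 0 + y 1 1) * y 0 1 - (1 : Matrix (Fin 2) (Fin 2) K) 0 1
    rw [Matrix.one_apply_ne (by decide)]
    ring
  · show y 1 0 * y 0 0 + y 1 1 * y 1 0 = (y 0 0 + y 1 1) * y 1 0 - (1 : Matrix (Fin 2) (Fin 2) K) 1 0
    rw [Matrix.one_apply_ne (by decide)]
    ring
  · show y 1 0 * y 0 1 + y 1 1 * y 1 1 = (y 0 0 + y 1 1) * y 1 1 - (1 : Matrix (Fin 2) (Fin 2) K) 1 1
    rw [Matrix.one_apply_eq]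
    linear_combination -h

private lemma Lne_root (w y : Matrix (Fin 2) (Fin 2) K) (hw : w ≠ 0) (hy : y.det = 1) (μ : K)
    (h : y * w = μ • w) : μ * μ - Matrix.trace y * μ + 1 = 0 := by
  have h1 : y * (y * w) = (μ * μ) • w := by
    rw [h, Matrix.mul_smul, h, smul_smul]
  rw [← Matrix.mul_assoc, Lne_ch y hy, Matrix.sub_mul, Matrix.smul_mul, h, Matrix.one_mul,
    smul_smul] at h1
  have h2 : (μ * μ - Matrix.trace y * μ + 1) • w = 0 := by
    rw [add_smul, sub_smul, ← h1, one_smul]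
    abel
  exact (smul_eq_zero.mp h2).resolve_right hw

private lemma Lne_two (τ : K) : ∃ μ₁ μ₂ : K, ∀ μ, μ * μ - τ * μ + 1 = 0 → μ = μ₁ ∨ μ = μ₂ := by
  by_cases hex : ∃ μ₁ : K, μ₁ * μ₁ - τ * μ₁ + 1 = 0
  · obtain ⟨μ₁, h1⟩ := hex
    refine ⟨μ₁, τ - μ₁, fun μ h => ?_⟩
    have h2 : (μ - μ₁) * (μ - (τ - μ₁)) = 0 := by linear_combination h - h1
    rcases mul_eq_zero.mp h2 with h3 | h3
    · exact Or.inl (sub_eq_zero.mp h3)
    · exact Or.inr (sub_eq_zero.mp h3)
  · exact ⟨0, 0, fun μ h => absurd ⟨μ, h⟩ hex⟩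

/-- a matrix of determinant one which fixes the line from the left fixes it from the right -/
private lemma Lne_adj (u w : Matrix (Fin 2) (Fin 2) K) (hu : u.det = 1) (h : w * w = 0)
    (huw : u * w = w) : w * u = w := by
  obtain ⟨e1, -⟩ := Lne_ent w h
  have hadj : w.adjugate = - w := by
    rw [Matrix.adjugate_fin_two]
    ext i j
    fin_cases i <;> fin_cases j
    · show w 1 1 = - w 0 0
      exact e1
    · rfl
    · rfl
    · show w 0 0 = - w 1 1
      rw [e1, neg_neg]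
  have h1 := Matrix.adjugate_mul_distrib u w
  rw [huw, hadj, Matrix.neg_mul, neg_inj] at h1
  calc w * u = w * u.adjugate * u := by rw [← h1]
    _ = w := by rw [Matrix.mul_assoc, Matrix.adjugate_mul, hu, one_smul, Matrix.mul_one]

end field

/-- (Lne), second part, for subsets of the group. -/
theorem Lne_card (hCom : St_Com) {p : ℕ} [Fact p.Prime] (hp : 3 ≤ p) (τ : ZMod p) (w : M2 p)
    (Y : Finset (SL p)) (M : ℕ) (hw : w ≠ 0) (h : w * w = 0) (hY : ∀ y ∈ Y, tr y = τ)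
    (hM : ∀ g c : SL p, NC c → (Y.filter fun y => g⁻¹ * y ∈ Cz c).card ≤ M) :
    (Y.filter fun y : SL p => Matrix.trace (w * (y : M2 p)) = 0).card ≤ 2 * M := by
  have h2 : (2 : ZMod p) ≠ 0 := by
    intro h0
    have h1 : ((2 : ℕ) : ZMod p) = 0 := by exact_mod_cast h0
    have h3 := (ZMod.natCast_eq_zero_iff 2 p).mp h1
    have := Nat.le_of_dvd (by norm_num) h3
    omega
  obtain ⟨f, hf⟩ : ∃ f : SL p → ZMod p, ∀ y : SL p, Matrix.trace (w * (y : M2 p)) = 0 →
      (y : M2 p) * w = f y • w := by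
    refine ⟨fun y => if hy : ∃ μ : ZMod p, (y : M2 p) * w = μ • w then hy.choose else 0,
      fun y hy => ?_⟩
    have hex := Lne_eig w (y : M2 p) hw h hy
    show (y : M2 p) * w =
      (if hy : ∃ μ : ZMod p, (y : M2 p) * w = μ • w then hy.choose else 0) • w
    rw [dif_pos hex]
    exact hex.choose_spec
  obtain ⟨e1, e2⟩ := Lne_ent w h
  -- the unipotent element
  have hdet : (1 + w).det = 1 := by
    rw [Matrix.det_fin_two, Matrix.add_apply, Matrix.add_apply, Matrix.add_apply,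
      Matrix.add_apply, Matrix.one_apply_eq, Matrix.one_apply_eq,
      Matrix.one_apply_ne (by decide), Matrix.one_apply_ne (by decide), e1]
    linear_combination -e2
  obtain ⟨c, hc⟩ : ∃ c : SL p, (c : M2 p) = 1 + w := ⟨⟨1 + w, hdet⟩, rfl⟩
  have hNC : NC c := by
    intro hcen
    rcases ((hCom p).2.1 c).mp hcen with h1 | h1
    · rw [h1, Matrix.SpecialLinearGroup.coe_one] at hc
      apply hw
      have h3 := congrArg (fun m => m - 1) hc
      simp only [sub_self, add_sub_cancel_left] at h3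
      exact h3.symm
    · rw [h1, Matrix.SpecialLinearGroup.coe_neg, Matrix.SpecialLinearGroup.coe_one] at hc
      have h3 := congrFun (congrFun hc 0) 0
      have h4 := congrFun (congrFun hc 1) 1
      rw [Matrix.neg_apply, Matrix.add_apply, Matrix.one_apply_eq] at h3 h4
      rw [e1] at h4
      have h5 : (2 : ZMod p) * 2 = 0 := by linear_combination -h3 - h4
      rcases mul_eq_zero.mp h5 with h6 | h6 <;> exact h2 h6
  have himg : ((Y.filter fun y : SL p => Matrix.trace (w * (y : M2 p)) = 0).image f).card ≤ 2 := by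
    obtain ⟨μ₁, μ₂, hμ⟩ := Lne_two τ
    refine (Finset.card_le_card (t := {μ₁, μ₂}) ?_).trans Finset.card_le_two
    intro b hb
    obtain ⟨y, hy, rfl⟩ := Finset.mem_image.mp hb
    obtain ⟨hyY, hy0⟩ := Finset.mem_filter.mp hy
    have h3 := Lne_root w (y : M2 p) hw y.2 (f y) (hf y hy0)
    have h4 : Matrix.trace (y : M2 p) = τ := hY y hyY
    rw [h4] at h3
    rw [Finset.mem_insert, Finset.mem_singleton]
    exact hμ _ h3
  have hfib : ∀ b ∈ (Y.filter fun y : SL p => Matrix.trace (w * (y : M2 p)) = 0).image f,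
      ((Y.filter fun y : SL p => Matrix.trace (w * (y : M2 p)) = 0).filter
        fun y => f y = b).card ≤ M := by
    intro b hb
    obtain ⟨g, hg, rfl⟩ := Finset.mem_image.mp hb
    obtain ⟨-, hg0⟩ := Finset.mem_filter.mp hg
    refine (Finset.card_le_card ?_).trans (hM g c hNC)
    intro y hy
    obtain ⟨hy1, hy2⟩ := Finset.mem_filter.mp hy
    obtain ⟨hyY, hy0⟩ := Finset.mem_filter.mp hy1
    refine Finset.mem_filter.mpr ⟨hyY, ?_⟩
    have k1 := hf g hg0
    have k2 := hf y hy0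
    rw [hy2, ← k1] at k2
    have k3 : ((g⁻¹ * y : SL p) : M2 p) * w = w := by
      rw [Matrix.SpecialLinearGroup.coe_mul, Matrix.mul_assoc, k2, ← Matrix.mul_assoc,
        ← Matrix.SpecialLinearGroup.coe_mul, inv_mul_cancel, Matrix.SpecialLinearGroup.coe_one,
        Matrix.one_mul]
    have k4 := Lne_adj _ w (g⁻¹ * y : SL p).2 h k3
    show g⁻¹ * y ∈ Subgroup.centralizer {c}
    rw [Subgroup.mem_centralizer_iff]
    intro x hx
    rw [Set.mem_singleton_iff] at hx
    rw [hx]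
    apply Subtype.ext
    rw [Matrix.SpecialLinearGroup.coe_mul c, Matrix.SpecialLinearGroup.coe_mul _ c, hc,
      Matrix.add_mul, Matrix.mul_add, k3, k4, Matrix.one_mul, Matrix.mul_one]
  have h3 := Finset.card_le_mul_card_image (f := f)
    (Y.filter fun y : SL p => Matrix.trace (w * (y : M2 p)) = 0) M hfib
  calc (Y.filter fun y : SL p => Matrix.trace (w * (y : M2 p)) = 0).card ≤ _ := h3
    _ ≤ M * 2 := Nat.mul_le_mul_left _ himg
    _ = 2 * M := mul_comm _ _

/-- (Lne) Elements which keep a line. -/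
theorem thm_Lne (hCom : St_Com) : St_Lne := by
  intro p _ hp τ hτ hτ'
  have h2 : (2 : ZMod p) ≠ 0 := by
    intro h0
    have h1 : ((2 : ℕ) : ZMod p) = 0 := by exact_mod_cast h0
    have h3 := (ZMod.natCast_eq_zero_iff 2 p).mp h1
    have := Nat.le_of_dvd (by norm_num) h3
    omega
  refine ⟨?_, ?_, ?_⟩
  · intro w x y hw h hx hy
    obtain ⟨μ, hμ⟩ := Lne_eig w (y : M2 p) hw h hy
    rw [Matrix.SpecialLinearGroup.coe_mul, ← Matrix.mul_assoc, Matrix.trace_mul_comm,
      ← Matrix.mul_assoc, hμ, Matrix.smul_mul, Matrix.trace_smul, hx, smul_zero]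
  · intro w Y M hw h hY hM
    refine le_trans ?_ (Lne_card hCom hp τ w Y M hw h hY hM)
    refine le_trans (Finset.card_le_card (t := (Y.filter fun y : SL p =>
      Matrix.trace (w * (y : M2 p)) = 0).image fun y : SL p => (y : M2 p)) ?_)
      Finset.card_image_le
    intro m hm
    obtain ⟨hm1, hm2⟩ := Finset.mem_filter.mp hm
    have hm3 : ∃ a ∈ Y, (a : M2 p) = m := by
      simp only [Finset.bind_def, Finset.pure_def, Finset.mem_sup, Finset.mem_singleton] at hm1
      obtain ⟨a, ha, hb⟩ := hm1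
      exact ⟨a, ha, hb.symm⟩
    obtain ⟨a, ha, rfl⟩ := hm3
    exact Finset.mem_image_of_mem _ (Finset.mem_filter.mpr ⟨ha, hm2⟩)
  · intro y hy
    have hty : Matrix.trace (y : M2 p) = τ := hy
    obtain ⟨w0, hw0, hw0'⟩ : ∃ w0 : M2 p, w0 ≠ 0 ∧ w0 * w0 = 0 := by
      refine ⟨!![0, 1; 0, 0], ?_, ?_⟩
      · intro h0
        have h1 := congrFun (congrFun h0 0) 1
        simp at h1
      · ext i j
        fin_cases i <;> fin_cases j <;> simp
    have hex : ∀ μ : ZMod p, ∃ w₁ : M2 p, w₁ ≠ 0 ∧ w₁ * w₁ = 0 ∧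
        ((∃ w : M2 p, w ≠ 0 ∧ w * w = 0 ∧ (y : M2 p) * w = μ • w) →
          (y : M2 p) * w₁ = μ • w₁) := by
      intro μ
      by_cases hE : ∃ w : M2 p, w ≠ 0 ∧ w * w = 0 ∧ (y : M2 p) * w = μ • w
      · obtain ⟨w, a1, a2, a3⟩ := hE
        exact ⟨w, a1, a2, fun _ => a3⟩
      · exact ⟨w0, hw0, hw0', fun h => absurd h hE⟩
    obtain ⟨μ₁, μ₂, hμ⟩ := Lne_two τ
    obtain ⟨w₁, a1, a2, a3⟩ := hex μ₁
    obtain ⟨w₂, b1, b2, b3⟩ := hex μ₂
    refine ⟨w₁, w₂, a1, a2, b1, b2, fun w hw h hwy => ?_⟩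
    obtain ⟨μ, hyw⟩ := Lne_eig w (y : M2 p) hw h hwy
    have hroot := Lne_root w (y : M2 p) hw y.2 μ hyw
    rw [hty] at hroot
    have hz : (y : M2 p) - μ • 1 ≠ 0 := by
      intro h0
      have c1 := congrFun (congrFun h0 0) 0
      have c2 := congrFun (congrFun h0 1) 1
      rw [Matrix.sub_apply, Matrix.smul_apply, Matrix.one_apply_eq, smul_eq_mul, mul_one,
        Matrix.zero_apply] at c1 c2
      have c3 : τ = 2 * μ := by
        rw [← hty, Matrix.trace_fin_two]
        linear_combination c1 + c2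
      rw [c3] at hroot
      have c4 : (μ - 1) * (μ + 1) = 0 := by linear_combination -hroot
      rcases mul_eq_zero.mp c4 with c5 | c5
      · apply hτ
        rw [c3, sub_eq_zero.mp c5, mul_one]
      · apply hτ'
        rw [c3, eq_neg_of_add_eq_zero_left c5]
        ring
    have hzw : ∀ w' : M2 p, (y : M2 p) * w' = μ • w' → ((y : M2 p) - μ • 1) * w' = 0 := by
      intro w' h'
      rw [Matrix.sub_mul, h', Matrix.smul_mul, Matrix.one_mul, sub_self]
    rcases hμ μ hroot with h3 | h3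
    · left
      intro x hx
      have h4 := a3 ⟨w, hw, h, by rw [← h3]; exact hyw⟩
      exact Lne_prop _ w w₁ x hz hw h a2 (hzw w hyw) (hzw w₁ (by rw [h3]; exact h4)) hx
    · right
      intro x hx
      have h4 := b3 ⟨w, hw, h, by rw [← h3]; exact hyw⟩
      exact Lne_prop _ w w₂ x hz hw h b2 (hzw w hyw) (hzw w₂ (by rw [h3]; exact h4)) hx

end Pool.Agent.PWS
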