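import Pool.Agent.PWS.St

/-!
# PWS: monotonicity of the local mapping classes
-/

set_option autoImplicit false

namespace Pool.Agent.PWS

open Pool.Agent.PW Pool.Agent.PWM Pool.Agent.PWX
open scoped Classical Pointwise

theorem Mon_Let {g l h l' h' : ℕ} (h1 : l' ≤ l) (h2 : l + h ≤ l' + h') :
    Let g l h ≤ Let g l' h' := by
  refine Subgroup.closure_mono ?_
  rintro x ⟨i, hi1, hi2, hx⟩
  exact ⟨i, h1.trans hi1, lt_of_lt_of_le hi2 h2, hx⟩

theorem Mon_map {g l h l' h' : ℕ} (h1 : l' ≤ l) (h2 : l + h ≤ l' + h') (ψ : MulAut (F g 0))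
    (hψ : ψ ∈ Loc g l h) (x : F g 0) (hx : x ∈ Let g l' h') : ψ x ∈ Let g l' h' := by
  obtain ⟨_, hfix, hiff⟩ := hψ
  unfold Let at hx
  induction hx using Subgroup.closure_induction with
  | mem x hx =>
    obtain ⟨i, hi1, hi2, hx⟩ := hx
    by_cases hi : (i : ℕ) < l ∨ l + h ≤ (i : ℕ)
    · have h3 := hfix i hi
      have h4 : ψ x = x := by
        rcases hx with rfl | rfl
        · exact h3.1
        · exact h3.2
      rw [h4]
      exact Subgroup.subset_closure ⟨i, hi1, hi2, hx⟩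
    · push Not at hi
      have h5 : x ∈ Let g l h := Subgroup.subset_closure ⟨i, hi.1, hi.2, hx⟩
      exact Mon_Let h1 h2 ((hiff x).1 h5)
  | one => rw [map_one]; exact Subgroup.one_mem _
  | mul x y _ _ hx hy => rw [map_mul]; exact Subgroup.mul_mem _ hx hy
  | inv x _ hx => rw [map_inv]; exact Subgroup.inv_mem _ hx

theorem thm_Mon : St_Mon := by
  intro g l h l' h' h1 h2
  have key : Loc g l h ≤ Loc g l' h' := by
    intro ψ hψ
    refine ⟨hψ.1, fun i hi => hψ.2.1 i ?_, fun x => ⟨Mon_map h1 h2 ψ hψ x, fun hx => ?_⟩⟩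
    · rcases hi with hi | hi
      · exact Or.inl (lt_of_lt_of_le hi h1)
      · exact Or.inr (h2.trans hi)
    · have h3 := Mon_map h1 h2 ψ⁻¹ (Subgroup.inv_mem _ hψ) _ hx
      have h4 : ψ⁻¹ (ψ x) = x := by simp
      rwa [h4] at h3
  refine ⟨key, fun {Q} _ ρ => ?_⟩
  rintro q ⟨ψ, hψ, i, hi1, hi2, hq⟩
  exact ⟨ψ, key hψ, i, h1.trans hi1, lt_of_lt_of_le hi2 h2, hq⟩

end Pool.Agent.PWS
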