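import Pool.Agent.PWS.St

/-!
# The multitwist about the curve `a_0 a_1 ... a_(g-1)`
-/

set_option autoImplicit false

namespace Pool.Agent.PWS

open Pool.Agent.PW Pool.Agent.PWM Pool.Agent.PWX

theorem Mtw_pa_zero (g l : ℕ) : pa g l 0 = 1 := by
  simp [pa]

theorem Mtw_pa_one {g : ℕ} (i : Fin g) : pa g (i : ℕ) 1 = ga i := by
  simp [pa]

theorem Mtw_pa_add (g l h k : ℕ) : pa g l (h + k) = pa g l h * pa g (l + h) k := by
  unfold pa
  rw [← List.prod_append, ← List.map_append, List.range'_append_1]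

/-- The cyclic rotations of the word `a_0 a_1 ... a_(g-1)`. -/
def MtwE (g i : ℕ) : F g 0 := pa g i (g - i) * pa g 0 i

theorem Mtw_E_zero (g : ℕ) : MtwE g 0 = pa g 0 g := by
  simp [MtwE, Mtw_pa_zero]

theorem Mtw_E_last (g : ℕ) : MtwE g g = pa g 0 g := by
  simp [MtwE, Mtw_pa_zero]

theorem Mtw_E_succ {g : ℕ} (i : Fin g) :
    ga i * MtwE g ((i : ℕ) + 1) = MtwE g (i : ℕ) * ga i := by
  have h1 : g - (i : ℕ) = 1 + (g - ((i : ℕ) + 1)) := by omega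
  unfold MtwE
  rw [h1, Mtw_pa_add g (i : ℕ) 1, Mtw_pa_add g 0 (i : ℕ) 1, Nat.zero_add, Mtw_pa_one]
  group

theorem Mtw_E_pow {g : ℕ} (i : Fin g) (k : ℤ) :
    ga i * MtwE g ((i : ℕ) + 1) ^ k = MtwE g (i : ℕ) ^ k * ga i := by
  have h1 : SemiconjBy (ga i) (MtwE g ((i : ℕ) + 1)) (MtwE g (i : ℕ)) := Mtw_E_succ i
  exact h1.zpow_right k

/-- The twist which keeps all the `a_i`. -/
def MtwS (g : ℕ) (k : ℤ) : F g 0 →* F g 0 :=
  FreeGroup.lift fun x => match x with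
    | Gen.a i => ga i
    | Gen.b i => MtwE g ((i : ℕ) + 1) ^ k * gb i
    | Gen.c j => gc j

theorem MtwS_a {g : ℕ} (k : ℤ) (i : Fin g) : MtwS g k (ga i) = ga i := by
  simp [MtwS, ga]

theorem MtwS_b {g : ℕ} (k : ℤ) (i : Fin g) :
    MtwS g k (gb i) = MtwE g ((i : ℕ) + 1) ^ k * gb i := by
  simp [MtwS, gb]

theorem MtwS_pa (g : ℕ) (k : ℤ) (l h : ℕ) : MtwS g k (pa g l h) = pa g l h := by
  unfold pa
  rw [map_list_prod, List.map_map]
  congr 1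
  apply List.map_congr_left
  intro j _
  simp only [Function.comp]
  by_cases hj : j < g
  · simp only [hj, dif_pos, MtwS_a]
  · simp [hj]

theorem MtwS_E (g : ℕ) (k : ℤ) (i : ℕ) : MtwS g k (MtwE g i) = MtwE g i := by
  unfold MtwE
  rw [map_mul, MtwS_pa, MtwS_pa]

theorem MtwS_comp (g : ℕ) (k l : ℤ) : (MtwS g k).comp (MtwS g l) = MtwS g (k + l) := by
  apply hom_ext
  · intro i
    simp [MtwS_a]
  · intro i
    simp only [MonoidHom.comp_apply, MtwS_b, map_mul, map_zpow, MtwS_E]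
    rw [← mul_assoc, ← zpow_add, add_comm l k]
  · intro j
    exact j.elim0

theorem MtwS_zero (g : ℕ) : MtwS g 0 = MonoidHom.id _ := by
  apply hom_ext
  · intro i
    simp [MtwS_a]
  · intro i
    simp [MtwS_b]
  · intro j
    exact j.elim0

/-- The automorphism. -/
def MtwA (g : ℕ) (k : ℤ) : MulAut (F g 0) := mkAut (MtwS g k) (MtwS g (-k))
  (by rw [MtwS_comp, neg_add_cancel, MtwS_zero]) (by rw [MtwS_comp, add_neg_cancel, MtwS_zero])

theorem MtwA_apply (g : ℕ) (k : ℤ) (x : F g 0) : MtwA g k x = MtwS g k x := rfl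

theorem MtwS_hd {g : ℕ} (k : ℤ) (i : ℕ) (hi : i < g) :
    MtwS g k (hd g 0 i) = MtwE g i ^ k * hd g 0 i * (MtwE g (i + 1) ^ k)⁻¹ := by
  have h0 : hd g 0 i = cm (ga ⟨i, hi⟩) (gb ⟨i, hi⟩) := hd_fin (⟨i, hi⟩ : Fin g)
  rw [h0, map_cm, MtwS_a, MtwS_b]
  have h1 := Mtw_E_pow (⟨i, hi⟩ : Fin g) k
  simp only at h1
  unfold cm
  rw [← mul_assoc, h1]
  group

theorem MtwS_seg {g : ℕ} (k : ℤ) (m : ℕ) (hm : m ≤ g) :
    MtwS g k (seg g 0 0 m) = MtwE g 0 ^ k * seg g 0 0 m * (MtwE g m ^ k)⁻¹ := by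
  induction m with
  | zero => simp [seg_zero]
  | succ m ih =>
    rw [seg_add, map_mul, ih (by omega), seg_one, Nat.zero_add, MtwS_hd k m (by omega)]
    group

theorem MtwS_bdry (g : ℕ) (k : ℤ) :
    MtwS g k (bdry g 0) = pa g 0 g ^ k * bdry g 0 * (pa g 0 g ^ k)⁻¹ := by
  rw [bdry_eq, cseg_zero, mul_one, MtwS_seg k g le_rfl, Mtw_E_zero, Mtw_E_last]

theorem thm_Mtw : St_Mtw := by
  intro g k
  refine ⟨MulAut.conj (pa g 0 g ^ (-k)) * MtwA g k, ?_, fun i => ⟨?_, ?_⟩⟩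
  · show (MulAut.conj (pa g 0 g ^ (-k)) * MtwA g k) (bdry g 0) = bdry g 0
    rw [MulAut.mul_apply, MtwA_apply, MtwS_bdry, MulAut.conj_apply]
    group
  · rw [MulAut.mul_apply, MtwA_apply, MtwS_a, MulAut.conj_apply]
    group
  · have h1 : pa g ((i : ℕ) + 1) (g - (i : ℕ) - 1) * pa g 0 ((i : ℕ) + 1) =
        MtwE g ((i : ℕ) + 1) := by
      unfold MtwE
      rw [Nat.sub_sub]
    rw [MulAut.mul_apply, MtwA_apply, MtwS_b, MulAut.conj_apply, h1]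
    group

end Pool.Agent.PWS
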