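import Pool.Agent.PWS.St

/-!
Campaign PWS, module Nrm: the centraliser of a noncentral element is not normal.
-/

set_option autoImplicit false

namespace Pool.Agent.PWS

private theorem Nrm_card {G : Type} [Group G] [Finite G] (c : G)
    (h : ∀ x : G, x * c * x⁻¹ ∈ Cz c) : Nat.card G ≤ Nat.card (Cz c) ^ 2 := by
  rw [← Subgroup.index_mul_card (Cz c), sq]
  refine Nat.mul_le_mul_right _ ?_
  show Nat.card (G ⧸ Cz c) ≤ _
  refine Nat.card_le_card_of_injective (fun q : G ⧸ Cz c =>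
    (⟨q.out * c * q.out⁻¹, h _⟩ : Cz c)) ?_
  intro q r hqr
  have h1 : q.out * c * q.out⁻¹ = r.out * c * r.out⁻¹ := congrArg Subtype.val hqr
  rw [← QuotientGroup.out_eq' q, ← QuotientGroup.out_eq' r, QuotientGroup.eq]
  show q.out⁻¹ * r.out ∈ Subgroup.centralizer {c}
  rw [Subgroup.mem_centralizer_singleton_iff]
  have h2 : q.out⁻¹ * (q.out * c * q.out⁻¹) * r.out = q.out⁻¹ * (r.out * c * r.out⁻¹) * r.out := by
    rw [h1]
  have h3 : q.out⁻¹ * (q.out * c * q.out⁻¹) * r.out = c * (q.out⁻¹ * r.out) := by group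
  have h4 : q.out⁻¹ * (r.out * c * r.out⁻¹) * r.out = q.out⁻¹ * r.out * c := by group
  rw [h3, h4] at h2
  first
    | exact h2
    | exact h2.symm

theorem thm_Nrm (hCom : St_Com) (hCen : St_Cen) : St_Nrm := by
  intro p _ hp c hc htop
  obtain ⟨-, -, hcard⟩ := hCom p
  have hC := (hCen p (by omega) c hc).1
  have : Finite (SL p) := by
    apply Nat.finite_of_card_ne_zero
    rw [hcard]
    have h1 : 1 < p ^ 2 := by nlinarith
    exact Nat.mul_ne_zero (by omega) (by omega)
  have h := Nrm_card c (fun x => by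
    have h1 : x ∈ Nz c := by
      rw [htop]
      exact Subgroup.mem_top x
    have h2 : c ∈ Cz c := by
      show c ∈ Subgroup.centralizer {c}
      rw [Subgroup.mem_centralizer_singleton_iff]
    exact (h1 c).1 h2)
  rw [hcard] at h
  have h1 : Nat.card (Cz c) ^ 2 ≤ (2 * p) ^ 2 := Nat.pow_le_pow_left hC 2
  have h2 : p * (p ^ 2 - 1) ≤ p * (4 * p) := by
    calc p * (p ^ 2 - 1) ≤ (2 * p) ^ 2 := le_trans h h1
      _ = p * (4 * p) := by ring
  have h3 : p ^ 2 - 1 ≤ 4 * p := Nat.le_of_mul_le_mul_left h2 (by omega)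
  have h4 : 5 * p ≤ p ^ 2 := by nlinarith
  omega

end Pool.Agent.PWS
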