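import Pool.Agent.PWS.St

/-!
Campaign PWS, module One: cosets of centralisers.
-/

set_option autoImplicit false

namespace Pool.Agent.PWS

open scoped Classical Pointwise

private theorem One_mem {G : Type} [Group G] (c x : G) : x ∈ Cz c ↔ x * c = c * x := by
  show x ∈ Subgroup.centralizer {c} ↔ _
  rw [Subgroup.mem_centralizer_singleton_iff]

/-- the centraliser of a noncentral element of the centraliser -/
private theorem One_eq {G : Type} [Group G]
    (hcom : ∀ c x y : G, NC c → x ∈ Cz c → y ∈ Cz c → x * y = y * x) {c z : G}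
    (hc : NC c) (hz : NC z) (h : z ∈ Cz c) (a : G) : a ∈ Cz z ↔ a ∈ Cz c := by
  have h1 : z * c = c * z := (One_mem c z).1 h
  constructor
  · intro ha
    rw [One_mem]
    exact hcom z a c hz ha ((One_mem z c).2 h1.symm)
  · intro ha
    rw [One_mem]
    exact hcom c a z hc ha h

/-- the intersection of the centraliser with a conjugate is central -/
private theorem One_cap {G : Type} [Group G]
    (hcom : ∀ c x y : G, NC c → x ∈ Cz c → y ∈ Cz c → x * y = y * x) {c γ z : G}
    (hc : NC c) (hγ : γ ∉ Nz c) (h1 : z ∈ Cz c) (h2 : γ⁻¹ * z * γ ∈ Cz c) :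
    z ∈ Subgroup.center G := by
  by_contra hz
  have hzN : NC z := hz
  have htN : NC (γ⁻¹ * z * γ) := by
    intro h
    apply hz
    have h3 : z = γ * (γ⁻¹ * z * γ) * γ⁻¹ := by group
    rw [h3]
    exact (Subgroup.center G).normal_of_characteristic.conj_mem _ h γ
  apply hγ
  intro y
  have e1 := One_eq hcom hc hzN h1 (γ * y * γ⁻¹)
  have e2 := One_eq hcom hc htN h2 y
  rw [← e1, ← e2, One_mem, One_mem]
  constructor
  · intro h
    have h3 : γ * y * γ⁻¹ * z = γ * (y * (γ⁻¹ * z * γ)) * γ⁻¹ := by group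
    rw [h3, h]
    group
  · intro h
    have h3 : y * (γ⁻¹ * z * γ) = γ⁻¹ * (γ * y * γ⁻¹ * z) * γ := by group
    rw [h3, h]
    group

theorem thm_One (hCom : St_Com) (hNrm : St_Nrm) : St_One := by
  intro p _ hp D k h1D hgen g c hc
  obtain ⟨hcom, hcen, -⟩ := hCom p
  obtain ⟨W, hW⟩ : ∃ W, W = (D ^ k).filter fun y => g⁻¹ * y ∈ Cz c := ⟨_, rfl⟩
  rw [← hW]
  rcases W.eq_empty_or_nonempty with h0 | ⟨y, hy⟩
  · rw [h0]
    simp
  have hWm : ∀ w ∈ W, w ∈ D ^ k ∧ y⁻¹ * w ∈ Cz c := by
    intro w hw
    rw [hW, Finset.mem_filter] at hw hy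
    refine ⟨hw.1, ?_⟩
    have h2 : y⁻¹ * w = (g⁻¹ * y)⁻¹ * (g⁻¹ * w) := by group
    rw [h2]
    exact (Cz c).mul_mem ((Cz c).inv_mem hy.2) hw.2
  -- an element which moves
  obtain ⟨h, hhD, hh⟩ : ∃ h ∈ D, h * y ∉ Nz c := by
    by_contra hcon
    push Not at hcon
    have h2 : y ∈ Nz c := by
      have := hcon 1 h1D
      rwa [one_mul] at this
    apply hNrm p hp c hc
    rw [eq_top_iff, ← hgen, Subgroup.closure_le]
    intro d hd
    have h3 := (Nz c).mul_mem (hcon d hd) ((Nz c).inv_mem h2)
    rwa [mul_assoc, mul_inv_cancel, mul_one] at h3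
  have hcount := Finset.card_le_mul_card_image_of_maps_to (s := W ×ˢ W)
    (t := D ^ (2 * k + 1)) (f := fun q : SL p × SL p => q.1 * h * q.2) (by
      rintro ⟨w, w'⟩ hq
      have hq' := Finset.mem_product.1 (Finset.mem_coe.1 hq)
      have e : D ^ (2 * k + 1) = D ^ k * D * D ^ k := by
        rw [← pow_succ, ← pow_add]
        congr 1
        omega
      refine Finset.mem_coe.2 ?_
      rw [e]
      exact Finset.mul_mem_mul (Finset.mul_mem_mul (hWm w hq'.1).1 hhD) (hWm w' hq'.2).1) 2 (by
      intro b _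
      rcases ((W ×ˢ W).filter fun q : SL p × SL p => q.1 * h * q.2 = b).eq_empty_or_nonempty
        with h0 | ⟨⟨w, w'⟩, hw⟩
      · rw [h0]
        simp
      rw [Finset.mem_filter, Finset.mem_product] at hw
      obtain ⟨⟨hw1, hw2⟩, hwb⟩ := hw
      refine le_trans (Finset.card_le_card (t := {(w, w'), (-w, -w')}) ?_)
        Finset.card_le_two
      rintro ⟨v, v'⟩ hv
      rw [Finset.mem_filter, Finset.mem_product] at hv
      obtain ⟨⟨hv1, hv2⟩, hvb⟩ := hv
      -- the coordinates in the coset
      obtain ⟨x, hx⟩ : ∃ x, x = y⁻¹ * w := ⟨_, rfl⟩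
      obtain ⟨x', hx'⟩ : ∃ x', x' = y⁻¹ * w' := ⟨_, rfl⟩
      obtain ⟨u, hu⟩ : ∃ u, u = y⁻¹ * v := ⟨_, rfl⟩
      obtain ⟨u', hu'⟩ : ∃ u', u' = y⁻¹ * v' := ⟨_, rfl⟩
      have hxC : x ∈ Cz c := by rw [hx]; exact (hWm w hw1).2
      have hxC' : x' ∈ Cz c := by rw [hx']; exact (hWm w' hw2).2
      have huC : u ∈ Cz c := by rw [hu]; exact (hWm v hv1).2
      have huC' : u' ∈ Cz c := by rw [hu']; exact (hWm v' hv2).2
      have hw3 : w = y * x := by rw [hx]; group
      have hw4 : w' = y * x' := by rw [hx']; group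
      have hv3 : v = y * u := by rw [hu]; group
      have hv4 : v' = y * u' := by rw [hu']; group
      have hwb' : w * h * w' = b := hwb
      have hvb' : v * h * v' = b := hvb
      have hmain : x * (h * y) * x' = u * (h * y) * u' := by
        have h3 : w * h * w' = v * h * v' := by rw [hwb', hvb']
        rw [hw3, hw4, hv3, hv4] at h3
        have h4 : y * (x * (h * y) * x') = y * (u * (h * y) * u') := by
          calc y * (x * (h * y) * x') = y * x * h * (y * x') := by group
            _ = y * u * h * (y * u') := h3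
            _ = _ := by group
        exact mul_left_cancel h4
      have hz : u⁻¹ * x ∈ Subgroup.center (SL p) := by
        refine One_cap hcom hc hh ((Cz c).mul_mem ((Cz c).inv_mem huC) hxC) ?_
        have h3 : (h * y)⁻¹ * (u⁻¹ * x) * (h * y) = u' * x'⁻¹ := by
          have h4 : (h * y)⁻¹ * (u⁻¹ * x) * (h * y) =
              (h * y)⁻¹ * u⁻¹ * (x * (h * y) * x') * x'⁻¹ := by group
          rw [h4, hmain]
          group
        rw [h3]
        exact (Cz c).mul_mem huC' ((Cz c).inv_mem hxC')
      have hz2 := (hcen _).1 hz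
      rw [Finset.mem_insert, Finset.mem_singleton]
      rcases hz2 with hz2 | hz2
      · left
        have h3 : u = x := by
          rw [inv_mul_eq_one] at hz2
          exact hz2
        have h4 : u' = x' := by
          rw [← h3] at hmain
          exact (mul_left_cancel hmain).symm
        rw [hv3, hv4, h3, h4, hw3, hw4]
      · right
        have h3 : x = -u := by
          rw [inv_mul_eq_iff_eq_mul] at hz2
          rw [hz2, mul_neg, mul_one]
        have h4 : u' = -x' := by
          rw [h3, neg_mul, neg_mul, ← mul_neg] at hmain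
          exact (mul_left_cancel hmain).symm
        rw [hv3, hv4, h4, hw3, hw4, h3, mul_neg, mul_neg, neg_neg])
  rw [Finset.card_product] at hcount
  rw [sq]
  exact hcount

end Pool.Agent.PWS
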