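import Pool.Agent.PWS.St

/-!
Campaign PWS: rich tori (fibres of conjugation).
-/

set_option autoImplicit false

namespace Pool.Agent.PWS

open Pool.Agent.PW Pool.Agent.PWM Pool.Agent.PWX
open scoped Classical Pointwise

theorem Orb_tr {p : ℕ} (x c : SL p) : tr (x * c * x⁻¹) = tr c := by
  have e : ((x * c * x⁻¹ : SL p) : M2 p) = (x : M2 p) * (c : M2 p) * ((x⁻¹ : SL p) : M2 p) := by
    rw [Matrix.SpecialLinearGroup.coe_mul, Matrix.SpecialLinearGroup.coe_mul]
  have e2 : ((x⁻¹ : SL p) : M2 p) * (x : M2 p) = 1 := by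
    rw [← Matrix.SpecialLinearGroup.coe_mul]
    simp
  unfold tr
  rw [e, Matrix.trace_mul_comm, ← Matrix.mul_assoc, e2, Matrix.one_mul]

theorem Orb_cz {G : Type} [Group G] (x y c : G) (h : x * c * x⁻¹ = y * c * y⁻¹) :
    x⁻¹ * y ∈ Cz c := by
  unfold Cz
  rw [Subgroup.mem_centralizer_singleton_iff]
  have h2 : c = x⁻¹ * (y * c * y⁻¹) * x := by
    rw [← h]
    group
  calc x⁻¹ * y * c = x⁻¹ * (y * c * y⁻¹) * x * (x⁻¹ * y) := by group
    _ = c * (x⁻¹ * y) := by rw [← h2]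

theorem Orb_inv {G : Type} [Group G] [DecidableEq G] {D : Finset G} (hD : D⁻¹ = D) {x : G}
    (hx : x ∈ D) : x⁻¹ ∈ D := by
  rw [← hD]
  exact Finset.inv_mem_inv hx

theorem thm_Orb (hCls : St_Cls) : St_Orb := by
  intro p hp hp5 D K hK h1 hinv hcl h3 c hc hnc ht1 ht2
  have hY := hCls p hp5 D K hK h1 hinv hcl h3 (tr c) ht1 ht2
  set Y := (D ^ 4).filter fun y => tr y = tr c with hYdef
  set R := ((D ^ 2).filter fun y => y ∈ Cz c).card with hR
  have himg : D.image (fun x => x * c * x⁻¹) ⊆ Y := by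
    intro y hy
    obtain ⟨x, hx, rfl⟩ := Finset.mem_image.1 hy
    rw [hYdef, Finset.mem_filter]
    refine ⟨?_, Orb_tr x c⟩
    have e : D ^ 4 = D * D ^ 2 * D := by
      rw [show (4 : ℕ) = 1 + 2 + 1 from rfl, pow_add, pow_add, pow_one]
    rw [e]
    exact Finset.mul_mem_mul (Finset.mul_mem_mul hx hc) (Orb_inv hinv hx)
  have hcard : D.card ≤ R * (D.image (fun x => x * c * x⁻¹)).card := by
    refine Finset.card_le_mul_card_image D R ?_
    intro b hb
    obtain ⟨x0, hx0, rfl⟩ := Finset.mem_image.1 hb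
    rw [hR]
    refine Finset.card_le_card_of_injOn (fun x => x0⁻¹ * x) ?_ ?_
    · intro x hx
      have hx' := Finset.mem_filter.1 (Finset.mem_coe.1 hx)
      refine Finset.mem_coe.2 (Finset.mem_filter.2 ⟨?_, ?_⟩)
      · rw [pow_two]
        exact Finset.mul_mem_mul (Orb_inv hinv hx0) hx'.1
      · exact Orb_cz x0 x c hx'.2.symm
    · intro x _ y _ hxy
      exact mul_left_cancel hxy
  have h4 : D.card ≤ R * Y.card := hcard.trans (Nat.mul_le_mul_left _ (Finset.card_le_card himg))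
  have ha : 0 < D.card := Finset.card_pos.2 ⟨1, h1⟩
  have h5 : D.card ^ 3 ≤ R ^ 3 * (7000 * K ^ 16 * D.card ^ 2) := by
    calc D.card ^ 3 ≤ (R * Y.card) ^ 3 := Nat.pow_le_pow_left h4 3
      _ = R ^ 3 * Y.card ^ 3 := by ring
      _ ≤ R ^ 3 * (7000 * K ^ 16 * D.card ^ 2) := Nat.mul_le_mul_left _ hY
  have h6 : D.card ^ 2 * D.card ≤ D.card ^ 2 * (7000 * K ^ 16 * R ^ 3) := by
    calc D.card ^ 2 * D.card = D.card ^ 3 := by ring
      _ ≤ R ^ 3 * (7000 * K ^ 16 * D.card ^ 2) := h5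
      _ = D.card ^ 2 * (7000 * K ^ 16 * R ^ 3) := by ring
  exact Nat.le_of_mul_le_mul_left h6 (pow_pos ha 2)

end Pool.Agent.PWS
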