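import Pool.Agent.PWS.St

/-!
Campaign PWS, module Par: the products of consecutive `a_i`.
-/

set_option autoImplicit false

namespace Pool.Agent.PWS

open Pool.Agent.PW Pool.Agent.PWM Pool.Agent.PWX
open scoped Classical Pointwise

private theorem Par_one {Q : Type} [Group Q] {g : ℕ} (ρ : F g 0 →* Q) (l : ℕ) (hl : l < g) :
    ρ (ga ⟨l, hl⟩) ∈ Sm ρ l 1 :=
  ⟨1, Subgroup.one_mem _, ⟨l, hl⟩, le_rfl, Nat.lt_succ_self l, rfl⟩

private theorem Par_succ (g l j : ℕ) (h : l + j < g) :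
    pa g l (j + 1) = pa g l j * ga ⟨l + j, h⟩ := by
  unfold pa
  rw [List.range'_1_concat, List.map_append, List.prod_append]
  simp [h]

private theorem Par_ind (hPrd : St_Prd) {Q : Type} [Group Q] {g : ℕ} (ρ : F g 0 →* Q) (l j : ℕ)
    (h : l + (j + 1) ≤ g) : ρ (pa g l (j + 1)) ∈ Sm ρ l (j + 1) := by
  induction j with
  | zero =>
    have h1 : l < g := by omega
    have e : pa g l (0 + 1) = ga ⟨l, h1⟩ := by
      have := Par_succ g l 0 (by omega)
      rw [this]
      simp [pa]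
    rw [e]
    exact Par_one ρ l h1
  | succ j ih =>
    rw [Par_succ g l (j + 1) (by omega), map_mul]
    exact hPrd ρ l (j + 1) 1 _ _ (ih (by omega)) (Par_one ρ (l + (j + 1)) (by omega))

theorem thm_Par (hMon : St_Mon) (hPrd : St_Prd) : St_Par := by
  intro Q _ g ρ l j r hj hjr hr
  obtain ⟨j, rfl⟩ : ∃ k, j = k + 1 := ⟨j - 1, by omega⟩
  exact (hMon g l (j + 1) l r le_rfl (by omega)).2 ρ (Par_ind hPrd ρ l j (by omega))

end Pool.Agent.PWS
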