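import Pool.Agent.PWS.St

/-!
Campaign PWS: the pivot argument.
-/

set_option autoImplicit false

namespace Pool.Agent.PWS

open Pool.Agent.PW Pool.Agent.PWM Pool.Agent.PWX
open scoped Classical Pointwise

theorem Piv_tr {p : ℕ} (x c : SL p) : tr (x * c * x⁻¹) = tr c := by
  have e : ((x * c * x⁻¹ : SL p) : M2 p) = (x : M2 p) * (c : M2 p) * ((x⁻¹ : SL p) : M2 p) := by
    rw [Matrix.SpecialLinearGroup.coe_mul, Matrix.SpecialLinearGroup.coe_mul]
  have e2 : ((x⁻¹ : SL p) : M2 p) * (x : M2 p) = 1 := by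
    rw [← Matrix.SpecialLinearGroup.coe_mul]
    simp
  unfold tr
  rw [e, Matrix.trace_mul_comm, ← Matrix.mul_assoc, e2, Matrix.one_mul]

theorem Piv_cz {G : Type} [Group G] {x c : G} : x ∈ Cz c ↔ x * c = c * x := by
  unfold Cz
  rw [Subgroup.mem_centralizer_singleton_iff]

theorem Piv_cz_conj {G : Type} [Group G] (d x c : G) :
    x ∈ Cz (d * c * d⁻¹) ↔ d⁻¹ * x * d ∈ Cz c := by
  rw [Piv_cz, Piv_cz]
  constructor
  · intro h
    calc d⁻¹ * x * d * c = d⁻¹ * (x * (d * c * d⁻¹)) * d := by group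
      _ = d⁻¹ * ((d * c * d⁻¹) * x) * d := by rw [h]
      _ = c * (d⁻¹ * x * d) := by group
  · intro h
    calc x * (d * c * d⁻¹) = d * (d⁻¹ * x * d * c) * d⁻¹ := by group
      _ = d * (c * (d⁻¹ * x * d)) * d⁻¹ := by rw [h]
      _ = d * c * d⁻¹ * x := by group

theorem Piv_nc {G : Type} [Group G] {c : G} (h : NC c) (x : G) : NC (x * c * x⁻¹) := by
  intro h2
  apply h
  have := (Subgroup.Normal.conj_mem (inferInstance : (Subgroup.center G).Normal) _ h2 x⁻¹)
  have e : x⁻¹ * (x * c * x⁻¹) * x⁻¹⁻¹ = c := by group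
  rwa [e] at this

theorem Piv_inv {G : Type} [Group G] [DecidableEq G] {D : Finset G} (hD : D⁻¹ = D) {x : G}
    (hx : x ∈ D) : x⁻¹ ∈ D := by
  rw [← hD]
  exact Finset.inv_mem_inv hx

/-- The counting step. -/
theorem Piv_count {G : Type} [Group G] [DecidableEq G] (D S : Finset G) (T : Subgroup G) (e : G)
    (d : G) (hD : D⁻¹ = D) (hd : d ∈ D) (hS : S ⊆ D ^ 2) (hT : ∀ t ∈ S, t ∈ T)
    (hc : ∀ t ∈ T, d * t * d⁻¹ ∈ D ^ 2 → d * t * d⁻¹ = 1 ∨ d * t * d⁻¹ = e) :
    D.card * S.card ≤ 2 * (D ^ 5).card := by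
  rw [← Finset.card_product]
  have himg : (D ×ˢ S).image (fun q => q.1 * (d * q.2 * d⁻¹)) ⊆ D ^ 5 := by
    intro y hy
    obtain ⟨q, hq, rfl⟩ := Finset.mem_image.1 hy
    have hq' := Finset.mem_product.1 hq
    have e5 : D ^ 5 = D * (D * D ^ 2 * D) := by
      rw [show (5 : ℕ) = 1 + (1 + 2 + 1) from rfl, pow_add, pow_add, pow_add, pow_one]
    rw [e5]
    exact Finset.mul_mem_mul hq'.1
      (Finset.mul_mem_mul (Finset.mul_mem_mul hd (hS hq'.2)) (Piv_inv hD hd))
  refine (Finset.card_le_mul_card_image (f := fun q : G × G => q.1 * (d * q.2 * d⁻¹))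
    (D ×ˢ S) 2 ?_).trans (Nat.mul_le_mul_left _ (Finset.card_le_card himg))
  intro b hb
  obtain ⟨q0, hq0, rfl⟩ := Finset.mem_image.1 hb
  have hq0' := Finset.mem_product.1 hq0
  have hsub : ((D ×ˢ S).filter
      fun q => q.1 * (d * q.2 * d⁻¹) = q0.1 * (d * q0.2 * d⁻¹)).card ≤
      ({q0.1, q0.1 * e} : Finset G).card := by
    refine Finset.card_le_card_of_injOn (fun q => q.1) ?_ ?_
    · intro q hq
      have hq1 := Finset.mem_filter.1 (Finset.mem_coe.1 hq)
      have hq2 := Finset.mem_product.1 hq1.1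
      have e1 : q0.1⁻¹ * q.1 = d * (q0.2 * q.2⁻¹) * d⁻¹ := by
        have := hq1.2
        calc q0.1⁻¹ * q.1 = q0.1⁻¹ * (q.1 * (d * q.2 * d⁻¹)) * (d * q.2 * d⁻¹)⁻¹ := by group
          _ = q0.1⁻¹ * (q0.1 * (d * q0.2 * d⁻¹)) * (d * q.2 * d⁻¹)⁻¹ := by rw [this]
          _ = d * (q0.2 * q.2⁻¹) * d⁻¹ := by group
      have hm : q0.1⁻¹ * q.1 ∈ D ^ 2 := by
        rw [pow_two]
        exact Finset.mul_mem_mul (Piv_inv hD hq0'.1) hq2.1
      have := hc (q0.2 * q.2⁻¹) (T.mul_mem (hT _ hq0'.2) (T.inv_mem (hT _ hq2.2)))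
        (by rw [← e1]; exact hm)
      rw [← e1] at this
      refine Finset.mem_coe.2 ?_
      rw [Finset.mem_insert, Finset.mem_singleton]
      rcases this with h | h
      · left
        show q.1 = q0.1
        rw [inv_mul_eq_one] at h
        exact h.symm
      · right
        show q.1 = q0.1 * e
        rw [← h]
        group
    · intro q hq r hr hqr
      have hq1 := (Finset.mem_filter.1 (Finset.mem_coe.1 hq)).2
      have hr1 := (Finset.mem_filter.1 (Finset.mem_coe.1 hr)).2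
      have h1 : q.1 = r.1 := hqr
      have h2 : q.1 * (d * q.2 * d⁻¹) = r.1 * (d * r.2 * d⁻¹) := hq1.trans hr1.symm
      rw [h1] at h2
      have h3 := mul_left_cancel h2
      have h4 := mul_left_cancel (mul_right_cancel h3)
      exact Prod.ext h1 h4
  exact hsub.trans Finset.card_le_two

theorem thm_Piv (hCom : St_Com) (hCen : St_Cen) (hOrb : St_Orb) : St_Piv := by
  intro p hp hp5 D K hK h1 hinv hcl h3 hbig c hc hnc ht1 ht2
  have step : ∀ x d : SL p, d ∈ D → (∃ c' ∈ D ^ 2, NC c' ∧ c' ∈ Cz (x * c * x⁻¹)) →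
      ∃ c' ∈ D ^ 2, NC c' ∧ c' ∈ Cz (d * x * c * (d * x)⁻¹) := by
    rintro x d hd ⟨c', hc', hnc', hcz⟩
    have hncx : NC (x * c * x⁻¹) := Piv_nc hnc x
    have htc' := ((hCen p (by omega) (x * c * x⁻¹) hncx).2
      (by rw [Piv_tr]; exact ht1) (by rw [Piv_tr]; exact ht2)).2 c' hcz hnc'
    have hR := hOrb p hp5 D K hK h1 hinv hcl h3 c' hc' hnc' htc'.1 htc'.2
    set S := (D ^ 2).filter fun y => y ∈ Cz c' with hS
    by_contra hno
    push Not at hno
    have hcount : D.card * S.card ≤ 2 * (D ^ 5).card := by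
      refine Piv_count D S (Cz c') (-1) d hinv hd (Finset.filter_subset _ _)
        (fun t ht => (Finset.mem_filter.1 ht).2) ?_
      intro t ht htd
      rw [← (hCom p).2.1]
      by_contra hcen
      refine hno _ htd hcen ?_
      have e : d * x * c * (d * x)⁻¹ = d * (x * c * x⁻¹) * d⁻¹ := by group
      rw [e, Piv_cz_conj]
      have e2 : d⁻¹ * (d * t * d⁻¹) * d = t := by group
      rw [e2, Piv_cz]
      refine (hCom p).1 c' t (x * c * x⁻¹) hnc' ht ?_
      rw [Piv_cz]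
      exact (Piv_cz.1 hcz).symm
    have h5 : (D ^ 5).card ≤ K ^ 3 * D.card := by
      have h3' : ((D ^ 3).card : ℝ) ≤ (K : ℝ) * D.card := by exact_mod_cast h3
      have := Finset.small_pow_of_small_tripling (m := 5) (by norm_num) h3' hinv
      exact_mod_cast this
    have ha : 0 < D.card := Finset.card_pos.2 ⟨1, h1⟩
    have h6 : S.card ≤ 2 * K ^ 3 := by
      have : D.card * S.card ≤ D.card * (2 * K ^ 3) := by
        calc D.card * S.card ≤ 2 * (D ^ 5).card := hcount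
          _ ≤ 2 * (K ^ 3 * D.card) := Nat.mul_le_mul_left _ h5
          _ = D.card * (2 * K ^ 3) := by ring
      exact Nat.le_of_mul_le_mul_left this ha
    have h7 : D.card ≤ 7000 * K ^ 16 * (2 * K ^ 3) ^ 3 :=
      hR.trans (Nat.mul_le_mul_left _ (Nat.pow_le_pow_left h6 3))
    have h8 : 7000 * K ^ 16 * (2 * K ^ 3) ^ 3 ≤ 56000 * K ^ 31 := by
      have : K ^ 25 ≤ K ^ 31 := Nat.pow_le_pow_right hK (by norm_num)
      calc 7000 * K ^ 16 * (2 * K ^ 3) ^ 3 = 56000 * K ^ 25 := by ring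
        _ ≤ 56000 * K ^ 31 := Nat.mul_le_mul_left _ this
    omega
  intro x
  have hx : x ∈ Subgroup.closure (D : Set (SL p)) := by
    rw [hcl]
    trivial
  induction hx using Subgroup.closure_induction_left with
  | one =>
    refine ⟨c, hc, hnc, ?_⟩
    rw [Piv_cz]
    group
  | mul_left d hd y _ ih =>
    exact step y d (Finset.mem_coe.1 hd) ih
  | inv_mul_cancel d hd y _ ih =>
    exact step y d⁻¹ (Piv_inv hinv (Finset.mem_coe.1 hd)) ih

end Pool.Agent.PWS
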