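import Pool.Agent.PWS.St

/-!
Campaign PWS, module Prd: products of simple closed curves in consecutive blocks (helper52).
-/

set_option autoImplicit false

namespace Pool.Agent.PWS

open Pool.Agent.PW Pool.Agent.PWM Pool.Agent.PWX
open scoped Classical

/-- a mapping class of a block fixes the group of a block further to the right. -/
theorem Prd_fix {g l h h' : ℕ} {ψ : MulAut (F g 0)} (hψ : ψ ∈ Loc g l h) {x : F g 0}
    (hx : x ∈ Let g (l + h) h') : ψ x = x := by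
  unfold Let at hx
  induction hx using Subgroup.closure_induction with
  | mem x hx =>
    obtain ⟨i, hi1, -, hi | hi⟩ := hx
    · rw [hi]; exact (hψ.2.1 i (Or.inr hi1)).1
    · rw [hi]; exact (hψ.2.1 i (Or.inr hi1)).2
  | one => exact map_one ψ
  | mul a b _ _ ha hb => rw [map_mul, ha, hb]
  | inv a _ ha => rw [map_inv, ha]

theorem thm_Prd (hMon : St_Mon) (hSws : St_Sws) (hExt : St_Ext) : St_Prd := by
  intro Q _ g ρ l h h' x y hx hy
  obtain ⟨ψ, hψ, i, hi1, hi2, rfl⟩ := hx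
  obtain ⟨ψ', hψ', j, hj1, hj2, rfl⟩ := hy
  have hij : (i : ℕ) + 1 ≤ j := by omega
  have hjg : (j : ℕ) < g := j.2
  set i' : Fin g := ⟨(i : ℕ) + 1, by omega⟩ with hi'
  obtain ⟨χ, hχ, hχ1⟩ := hExt g i i' rfl
  obtain ⟨ω, hω, hω1, -⟩ := hSws g i' j hij
  have hi'v : (i' : ℕ) = (i : ℕ) + 1 := rfl
  have m1 : ψ ∈ Loc g l (h + h') := (hMon g l h l (h + h') le_rfl (by omega)).1 hψ
  have m2 : ψ' ∈ Loc g l (h + h') := (hMon g (l + h) h' l (h + h') (by omega) (by omega)).1 hψ'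
  have m3 : ω ∈ Loc g l (h + h') :=
    (hMon g i' ((j : ℕ) - (i' : ℕ) + 1) l (h + h') (by omega) (by omega)).1 hω
  have m4 : χ ∈ Loc g l (h + h') := (hMon g i 2 l (h + h') (by omega) (by omega)).1 hχ
  have f1 : ψ' (ga i) = ga i := (hψ'.2.1 i (Or.inl hi2)).1
  have f2 : ω (ga i) = ga i := (hω.2.1 i (Or.inl (by omega))).1
  have f3 : ψ' (ga j) ∈ Let g (l + h) h' :=
    (hψ'.2.2 (ga j)).1 (Subgroup.subset_closure ⟨j, hj1, hj2, Or.inl rfl⟩)
  refine ⟨ψ * ψ' * ω * χ, mul_mem (mul_mem (mul_mem m1 m2) m3) m4, i, hi1, by omega, ?_⟩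
  have e : (ψ * ψ' * ω * χ) (ga i) = ψ (ga i) * ψ' (ga j) := by
    show ψ (ψ' (ω (χ (ga i)))) = ψ (ga i) * ψ' (ga j)
    rw [hχ1, map_mul, f2, hω1, map_mul, f1, map_mul, Prd_fix hψ f3]
  rw [e, map_mul]

end Pool.Agent.PWS
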