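import Pool.Agent.PWS.St

/-!
Campaign PWS, module Pre: change of the frame.
-/

set_option autoImplicit false

namespace Pool.Agent.PWS

open Pool.Agent.PW Pool.Agent.PWM Pool.Agent.PWX
open scoped Classical Pointwise

theorem Pre_top (g : ℕ) : Let g 0 g = ⊤ := by
  rw [eq_top_iff, ← FreeGroup.closure_range_of]
  apply Subgroup.closure_mono
  rintro _ ⟨x, rfl⟩
  cases x with
  | a i => exact ⟨i, Nat.zero_le _, by omega, Or.inl rfl⟩
  | b i => exact ⟨i, Nat.zero_le _, by omega, Or.inr rfl⟩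
  | c j => exact j.elim0

theorem Pre_loc (g : ℕ) : Loc g 0 g = MCGd g := by
  ext ψ
  constructor
  · intro h
    exact h.1
  · intro h
    refine ⟨h, fun i hi => ?_, fun x => ?_⟩
    · exfalso
      have := i.2
      omega
    · rw [Pre_top]
      exact ⟨fun _ => Subgroup.mem_top _, fun _ => Subgroup.mem_top _⟩

theorem Pre_comp {Q : Type} [Group Q] {g n : ℕ} (ρ : F g n →* Q) (ψ ψ' : MulAut (F g n)) :
    pre (pre ρ ψ) ψ' = pre ρ (ψ * ψ') := rfl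

theorem Pre_sm {Q : Type} [Group Q] {g : ℕ} (ρ : F g 0 →* Q) {ψ : MulAut (F g 0)}
    (hψ : ψ ∈ MCGd g) : Sm (pre ρ ψ) 0 g = Sm ρ 0 g := by
  ext q
  constructor
  · rintro ⟨ψ', h', i, h1, h2, rfl⟩
    refine ⟨ψ * ψ', ?_, i, h1, h2, rfl⟩
    rw [Pre_loc] at h' ⊢
    exact mul_mem hψ h'
  · rintro ⟨ψ', h', i, h1, h2, rfl⟩
    refine ⟨ψ⁻¹ * ψ', ?_, i, h1, h2, ?_⟩
    · rw [Pre_loc] at h' ⊢
      exact mul_mem (inv_mem hψ) h'
    · show ρ (ψ' (ga i)) = ρ (ψ ((ψ⁻¹ * ψ') (ga i)))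
      simp

theorem thm_Pre : St_Pre := by
  intro p g ρ ψ hψ
  refine ⟨Pre_sm ρ hψ, fun u h => ⟨fun ψ' h' l hl => ?_, ?_⟩⟩
  · rw [Pre_comp]
    exact h.full _ (mul_mem hψ h') l hl
  · rw [Pre_sm ρ hψ]
    exact h.one

end Pool.Agent.PWS
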