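import Pool.Agent.PWS.St
import Pool.Agent.PWM.Block

/-!
Campaign PWS, module Prp: a block with a small image can be killed.
-/

set_option autoImplicit false

namespace Pool.Agent.PWS

open Pool.Agent.PW Pool.Agent.PWM Pool.Agent.PWX

private theorem Prp_blk {h g l : ℕ} (hl : l + h ≤ g) (x : F h 0) : blk h g 0 l hl x ∈ Let g l h := by
  have h1 : (blk h g 0 l hl).range ≤ Let g l h := by
    unfold blk
    apply FreeGroup.range_lift_le
    rintro _ ⟨x, rfl⟩
    apply Subgroup.subset_closure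
    match x with
    | Gen.a i => exact ⟨⟨l + i, by omega⟩, by simp, by simp, Or.inl rfl⟩
    | Gen.b i => exact ⟨⟨l + i, by omega⟩, by simp, by simp, Or.inr rfl⟩
    | Gen.c j => exact j.elim0
  exact h1 ⟨x, rfl⟩

/-- A subgroup of the group `K`, which has a cyclic normal subgroup `C` with a cyclic quotient. -/
private theorem Prp_cyc {G : Type} [Group G] (C K H : Subgroup G)
    (hn : ∀ x ∈ K, ∀ y ∈ C, x * y * x⁻¹ ∈ C) (hH : H ≤ K) (hC : IsCyclic C)
    (hw : ∃ w ∈ K, ∀ x ∈ K, ∃ k : ℤ, (w ^ k)⁻¹ * x ∈ C) :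
    ∃ M : Subgroup H, M.Normal ∧ IsCyclic M ∧ ∃ w : H, ∀ x : H, ∃ k : ℤ, (w ^ k)⁻¹ * x ∈ M := by
  have hN : (C.subgroupOf K).Normal := by
    refine ⟨fun y hy x => ?_⟩
    rw [Subgroup.mem_subgroupOf] at hy ⊢
    exact hn x x.2 y hy
  have hM : (C.subgroupOf H).Normal := by
    refine ⟨fun y hy x => ?_⟩
    rw [Subgroup.mem_subgroupOf] at hy ⊢
    exact hn x (hH x.2) y hy
  refine ⟨C.subgroupOf H, hM, ?_, ?_⟩
  · let f : C.subgroupOf H →* C :=
      { toFun := fun x => ⟨x.1.1, Subgroup.mem_subgroupOf.1 x.2⟩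
        map_one' := rfl
        map_mul' := fun _ _ => rfl }
    apply isCyclic_of_injective f
    intro x y hxy
    apply Subtype.ext
    apply Subtype.ext
    exact congrArg (fun z : C => (z : G)) hxy
  · have hQ : IsCyclic (K ⧸ C.subgroupOf K) := by
      obtain ⟨w, hwK, hw⟩ := hw
      refine ⟨⟨QuotientGroup.mk' (C.subgroupOf K) ⟨w, hwK⟩, fun q => ?_⟩⟩
      obtain ⟨x, rfl⟩ := QuotientGroup.mk'_surjective _ q
      obtain ⟨k, hk⟩ := hw x x.2
      refine ⟨k, ?_⟩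
      show (QuotientGroup.mk' (C.subgroupOf K) ⟨w, hwK⟩) ^ k = _
      rw [← map_zpow]
      apply QuotientGroup.eq.2
      rw [Subgroup.mem_subgroupOf]
      exact hk
    let f : H →* K ⧸ C.subgroupOf K := (QuotientGroup.mk' _).comp (Subgroup.inclusion hH)
    obtain ⟨⟨g0, w, hw0⟩, hg⟩ := IsCyclic.exists_generator (α := f.range)
    refine ⟨w, fun x => ?_⟩
    obtain ⟨k, hk⟩ := hg ⟨f x, x, rfl⟩
    refine ⟨k, ?_⟩
    have h1 : g0 ^ k = f x := congrArg Subtype.val hk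
    rw [← hw0, ← map_zpow] at h1
    have h2 : (Subgroup.inclusion hH (w ^ k))⁻¹ * Subgroup.inclusion hH x ∈ C.subgroupOf K :=
      QuotientGroup.eq.1 h1
    rw [Subgroup.mem_subgroupOf] at h2 ⊢
    exact h2

theorem thm_Prp (hCom : St_Com) (hDik : St_Dik) (hCyc : St_Cyc) (hCst : St_Cst) (hDed : St_Ded)
    (hBlk : St_Blk) : St_Prp := by
  intro p _ g ρ l h hh hlh hne
  apply hBlk ρ h l hlh
  have hle : (ρ.comp (blk h g 0 l hlh)).range ≤ (Let g l h).map ρ := by
    rintro _ ⟨x, rfl⟩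
    exact ⟨_, Prp_blk hlh x, rfl⟩
  have hsmall : Nat.card (ρ.comp (blk h g 0 l hlh)).range ≤ 120 →
      Dead (ρ.comp (blk h g 0 l hlh)) := by
    intro h1
    exact hDed _ _ (hCst (Q := (ρ.comp (blk h g 0 l hlh)).range)).1 (by omega)
  rcases hDik p (ρ.comp (blk h g 0 l hlh)).range with h1 | h1 | ⟨c, hc, h1⟩
  · exact absurd (top_le_iff.1 (h1 ▸ hle)) hne
  · exact hsmall h1
  · have hp : p.Prime := Fact.out
    rcases Nat.lt_or_ge p 3 with h3 | h3
    · have h4 : p = 2 := by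
        have := hp.two_le
        omega
      subst h4
      apply hsmall
      have h5 := (hCom 2).2.2
      have h6 := Subgroup.card_le_card_group (ρ.comp (blk h g 0 l hlh)).range
      rw [h5] at h6
      omega
    · obtain ⟨h4, h5⟩ := hCyc p h3 c hc
      obtain ⟨M, hM1, hM2, hM3⟩ := Prp_cyc (Cz c) (Nz c) _
        (fun x hx y hy => (hx y).1 hy) h1 h4 h5
      exact hDed _ 2 ((hCst (Q := (ρ.comp (blk h g 0 l hlh)).range)).2 M hM1 hM2 hM3) (by omega)

end Pool.Agent.PWS
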