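import Pool.Agent.PWS.St

/-!
# PWS Rep: invariant spaces of functions on SL_2(F_p) are large (Frobenius)
-/

set_option autoImplicit false

namespace Pool.Agent.PWS

open Pool.Agent.PW Pool.Agent.PWM Pool.Agent.PWX
open scoped Classical Pointwise

private def RepU {p : ℕ} (t : ZMod p) : SL p :=
  ⟨!![1, t; 0, 1], by rw [Matrix.det_fin_two_of]; ring⟩

private def RepD {p : ℕ} (s : (ZMod p)ˣ) : SL p :=
  ⟨!![(s : ZMod p), 0; 0, ((s⁻¹ : (ZMod p)ˣ) : ZMod p)], by
    rw [Matrix.det_fin_two_of, Units.mul_inv]; ring⟩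

private def RepV (p : ℕ) : SL p := ⟨!![1, 0; 1, 1], by rw [Matrix.det_fin_two_of]; ring⟩

private def RepW (p : ℕ) : SL p := ⟨!![0, 1; -1, 0], by rw [Matrix.det_fin_two_of]; ring⟩

private theorem RepU_mul {p : ℕ} (s t : ZMod p) : RepU s * RepU t = RepU (s + t) := by
  apply Subtype.ext
  show (!![1, s; 0, 1] : M2 p) * !![1, t; 0, 1] = !![1, s + t; 0, 1]
  rw [Matrix.mul_fin_two]
  congr 2 <;> ring_nf

private theorem RepUD {p : ℕ} (s : (ZMod p)ˣ) (t : ZMod p) : RepU t * RepD s =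
    RepD s * RepU (((s⁻¹ : (ZMod p)ˣ) : ZMod p) * ((s⁻¹ : (ZMod p)ˣ) : ZMod p) * t) := by
  apply Subtype.ext
  show (!![1, t; 0, 1] : M2 p) * !![(s : ZMod p), 0; 0, ((s⁻¹ : (ZMod p)ˣ) : ZMod p)] =
    !![(s : ZMod p), 0; 0, ((s⁻¹ : (ZMod p)ˣ) : ZMod p)] *
      !![1, ((s⁻¹ : (ZMod p)ˣ) : ZMod p) * ((s⁻¹ : (ZMod p)ˣ) : ZMod p) * t; 0, 1]
  rw [Matrix.mul_fin_two, Matrix.mul_fin_two]
  have h : (s : ZMod p) * ((s⁻¹ : (ZMod p)ˣ) : ZMod p) = 1 := Units.mul_inv s
  have h2 : t * ((s⁻¹ : (ZMod p)ˣ) : ZMod p) = (s : ZMod p) *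
      (((s⁻¹ : (ZMod p)ˣ) : ZMod p) * ((s⁻¹ : (ZMod p)ˣ) : ZMod p) * t) := by
    rw [← mul_assoc, ← mul_assoc, h, one_mul, mul_comm]
  ext i j
  fin_cases i <;> fin_cases j <;> simp [h2]

private theorem RepVW (p : ℕ) : RepV p * RepW p = RepW p * RepU (-1) := by
  apply Subtype.ext
  show (!![1, 0; 1, 1] : M2 p) * !![0, 1; -1, 0] = !![0, 1; -1, 0] * !![1, -1; 0, 1]
  rw [Matrix.mul_fin_two, Matrix.mul_fin_two]
  ext i j
  fin_cases i <;> fin_cases j <;> simp

/-- right translation -/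
private def RepR {G : Type} [Group G] (x : G) : (G → ℂ) →ₗ[ℂ] (G → ℂ) :=
  LinearMap.funLeft ℂ ℂ (fun y : G => y * x)

private theorem RepR_apply {G : Type} [Group G] (x : G) (f : G → ℂ) (y : G) :
    RepR x f y = f (y * x) := rfl

private theorem RepR_mul {G : Type} [Group G] (x y : G) (f : G → ℂ) :
    RepR x (RepR y f) = RepR (x * y) f := by
  funext z
  rw [RepR_apply, RepR_apply, RepR_apply, mul_assoc]

private theorem RepR_one {G : Type} [Group G] (f : G → ℂ) : RepR (1 : G) f = f := by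
  funext z
  rw [RepR_apply, mul_one]

/-- case A -/
private theorem RepA {p : ℕ} [Fact p.Prime] (hG : St_Gn2) (h3 : 3 ≤ p)
    (V : Submodule ℂ (SL p → ℂ)) (hV : RInv V)
    (h : ∀ f ∈ V, ∀ t, RepR (RepU t : SL p) f = f) : V = ⊥ := by
  have hp := (Fact.out : p.Prime)
  have hmem : ∀ x : SL p, ∀ f ∈ V, RepR x f ∈ V := fun x f hf => hV.1 f hf x
  let H : Subgroup (SL p) :=
    { carrier := {x | ∀ f ∈ V, RepR x f = f}
      one_mem' := fun f _ => RepR_one f
      mul_mem' := by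
        intro a b ha hb f hf
        rw [← RepR_mul, hb f hf, ha f hf]
      inv_mem' := by
        intro a ha f hf
        have h1 := ha _ (hmem a⁻¹ f hf)
        rw [RepR_mul, mul_inv_cancel, RepR_one] at h1
        exact h1.symm }
  have hu : RepU 1 ∈ H := fun f hf => h f hf 1
  have hu' : RepU (-1) ∈ H := fun f hf => h f hf (-1)
  have hv : RepV p ∈ H := by
    intro f hf
    have h1 : RepV p = RepW p * RepU (-1) * (RepW p)⁻¹ := by
      rw [← RepVW, mul_assoc, mul_inv_cancel, mul_one]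
    rw [h1, ← RepR_mul, ← RepR_mul, hu' _ (hmem _ f hf), RepR_mul, mul_inv_cancel, RepR_one]
  have htop : H = ⊤ := by
    rw [eq_top_iff, ← hG p (RepU 1) (RepV p) ?_ ?_ ?_, Subgroup.closure_le]
    · intro x hx
      rcases hx with rfl | hx
      · exact hu
      · rw [Set.mem_singleton_iff] at hx
        rw [hx]
        exact hv
    · show Matrix.trace (!![1, 1; 0, 1] : M2 p) = 2
      rw [Matrix.trace_fin_two_of]
      norm_num
    · show Matrix.trace (!![1, 0; 1, 1] : M2 p) = 2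
      rw [Matrix.trace_fin_two_of]
      norm_num
    · intro heq
      have h1 : ((RepU 1 * RepV p : SL p) : M2 p) 0 0 = ((RepV p * RepU 1 : SL p) : M2 p) 0 0 := by
        rw [heq]
      have e1 : ((RepU 1 * RepV p : SL p) : M2 p) = !![1, 1; 0, 1] * !![1, 0; 1, 1] := rfl
      have e2 : ((RepV p * RepU 1 : SL p) : M2 p) = !![1, 0; 1, 1] * !![1, 1; 0, 1] := rfl
      rw [e1, e2, Matrix.mul_fin_two, Matrix.mul_fin_two] at h1
      simp at h1
  rw [eq_bot_iff]
  intro f hf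
  rw [Submodule.mem_bot]
  have hconst : ∀ x, f x = f 1 := by
    intro x
    have h1 : x ∈ H := by rw [htop]; trivial
    have h2 := congrFun (h1 f hf) 1
    rw [RepR_apply, one_mul] at h2
    exact h2
  have hsum := hV.2 f hf
  rw [Finset.sum_congr rfl (fun x _ => hconst x), Finset.sum_const, nsmul_eq_mul] at hsum
  have hne : ((Finset.univ : Finset (SL p)).card : ℂ) ≠ 0 := by
    rw [Nat.cast_ne_zero]
    exact (Finset.card_pos.2 ⟨1, Finset.mem_univ _⟩).ne'
  have h1 : f 1 = 0 := (mul_eq_zero.1 hsum).resolve_left hne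
  funext x
  rw [hconst x, h1]
  rfl

/-- the part of a function for a character -/
private noncomputable def RepP {p : ℕ} [Fact p.Prime] (ψ : AddChar (ZMod p) ℂ) (f : SL p → ℂ) :
    SL p → ℂ := ∑ t : ZMod p, ψ (-t) • RepR (RepU t) f

private theorem RepP_eig {p : ℕ} [Fact p.Prime] (ψ : AddChar (ZMod p) ℂ) (f : SL p → ℂ)
    (s : ZMod p) : RepR (RepU s) (RepP ψ f) = ψ s • RepP ψ f := by
  unfold RepP
  rw [map_sum, Finset.smul_sum]
  rw [← Equiv.sum_comp (Equiv.addLeft s) (fun t => ψ s • ψ (-t) • RepR (RepU t) f)]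
  refine Finset.sum_congr rfl fun t _ => ?_
  rw [map_smul, RepR_mul, RepU_mul, Equiv.coe_addLeft, smul_smul, ← AddChar.map_add_eq_mul]
  congr 2
  ring

private theorem RepP_sum {p : ℕ} [Fact p.Prime] (f : SL p → ℂ) :
    ∑ ψ : AddChar (ZMod p) ℂ, RepP ψ f = (p : ℂ) • f := by
  have hp := (Fact.out : p.Prime)
  unfold RepP
  rw [Finset.sum_comm]
  have h1 : ∀ t : ZMod p, ∑ ψ : AddChar (ZMod p) ℂ, ψ (-t) • RepR (RepU t) f =
      if t = 0 then (p : ℂ) • f else 0 := by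
    intro t
    rw [← Finset.sum_smul, AddChar.sum_apply_eq_ite]
    by_cases h : t = 0
    · subst h
      have e : (RepU (0 : ZMod p) : SL p) = 1 := by
        apply Subtype.ext
        show (!![1, 0; 0, 1] : M2 p) = 1
        exact Matrix.one_fin_two.symm
      rw [if_pos (neg_zero), if_pos rfl, e, RepR_one, ZMod.card]
    · rw [if_neg (fun h' => h (neg_eq_zero.1 h')), if_neg h, zero_smul]
  rw [Finset.sum_congr rfl (fun t _ => h1 t), Finset.sum_ite_eq' Finset.univ (0 : ZMod p),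
    if_pos (Finset.mem_univ _)]

private theorem Rep_inj {p : ℕ} [Fact p.Prime] {ψ : AddChar (ZMod p) ℂ} (h : ψ ≠ 1) {c : ZMod p}
    (hc : ψ c = 1) : c = 0 := by
  by_contra hne
  apply h
  rw [AddChar.eq_one_iff]
  intro y
  have h1 : y = (y * c⁻¹).val • c := by
    rw [nsmul_eq_mul, ZMod.natCast_val, ZMod.cast_id', id, mul_assoc, inv_mul_cancel₀ hne, mul_one]
  rw [h1, AddChar.map_nsmul_eq_pow, hc, one_pow]

theorem thm_Rep (hGn2 : St_Gn2) : St_Rep := by
  intro p _ h3 V hVb hV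
  have hp := (Fact.out : p.Prime)
  have hmem : ∀ x : SL p, ∀ f ∈ V, RepR x f ∈ V := fun x f hf => hV.1 f hf x
  have hPV : ∀ ψ : AddChar (ZMod p) ℂ, ∀ f ∈ V, RepP ψ f ∈ V := fun ψ f hf =>
    V.sum_mem fun t _ => V.smul_mem _ (hmem _ f hf)
  -- an eigenvector with a nontrivial character
  obtain ⟨f, hf, ψ, hψ, hne⟩ : ∃ f ∈ V, ∃ ψ : AddChar (ZMod p) ℂ, ψ ≠ 1 ∧ RepP ψ f ≠ 0 := by
    by_contra hcon
    push Not at hcon
    apply hVb
    apply RepA hGn2 h3 V hV
    intro f hf t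
    have h1 : (p : ℂ) • f = RepP 1 f := by
      rw [← RepP_sum]
      exact Finset.sum_eq_single_of_mem _ (Finset.mem_univ _) fun ψ _ hψ => hcon f hf ψ hψ
    have hp0 : (p : ℂ) ≠ 0 := Nat.cast_ne_zero.2 hp.ne_zero
    have h2 : f = (p : ℂ)⁻¹ • RepP 1 f := by
      rw [← h1, smul_smul, inv_mul_cancel₀ hp0, one_smul]
    rw [h2, map_smul, RepP_eig]
    rw [AddChar.one_apply, one_smul]
  set h := RepP ψ f with hh
  have hhV : h ∈ V := hPV ψ f hf
  have heig : ∀ s, RepR (RepU s) h = ψ s • h := RepP_eig ψ f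
  -- units
  have hu : ∀ i : Fin ((p - 1) / 2), ((i : ℕ) + 1 : ZMod p) ≠ 0 := by
    intro i hi
    have h1 : (((i : ℕ) + 1 : ℕ) : ZMod p) = 0 := by push_cast; exact hi
    rw [ZMod.natCast_eq_zero_iff] at h1
    have h2 := Nat.le_of_dvd (by omega) h1
    have := i.2
    omega
  let s : Fin ((p - 1) / 2) → (ZMod p)ˣ := fun i => (Units.mk0 _ (hu i))⁻¹
  let μ : Fin ((p - 1) / 2) → ℂ := fun i =>
    ψ (((i : ℕ) + 1 : ZMod p) * ((i : ℕ) + 1 : ZMod p) * 1)
  have hμ : Function.Injective μ := by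
    intro i j hij
    have h1 : ψ (((i : ℕ) + 1 : ZMod p) * ((i : ℕ) + 1 : ZMod p) * 1 -
        ((j : ℕ) + 1 : ZMod p) * ((j : ℕ) + 1 : ZMod p) * 1) = 1 := by
      rw [AddChar.map_sub_eq_div]
      have hij' : ψ (((i : ℕ) + 1 : ZMod p) * ((i : ℕ) + 1 : ZMod p) * 1) =
        ψ (((j : ℕ) + 1 : ZMod p) * ((j : ℕ) + 1 : ZMod p) * 1) := hij
      rw [hij']
      refine div_self fun h0 => ?_
      have h1 := AddChar.map_add_eq_mul ψ
        (((j : ℕ) + 1 : ZMod p) * ((j : ℕ) + 1 : ZMod p) * 1)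
        (-(((j : ℕ) + 1 : ZMod p) * ((j : ℕ) + 1 : ZMod p) * 1))
      rw [add_neg_cancel, AddChar.map_zero_eq_one, h0, zero_mul] at h1
      exact one_ne_zero h1
    have h2 := Rep_inj hψ h1
    have h4 : ((i : ℕ) + 1 - ((j : ℕ) + 1) : ZMod p) * ((i : ℕ) + 1 + ((j : ℕ) + 1) : ZMod p) = 0 := by
      rw [← h2]; ring
    rcases mul_eq_zero.1 h4 with h5 | h5
    · have h6 : (((i : ℕ) : ℕ) : ZMod p) = (((j : ℕ) : ℕ) : ZMod p) := by
        have := sub_eq_zero.1 h5
        exact add_right_cancel this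
      rw [ZMod.natCast_eq_natCast_iff'] at h6
      have hi := i.2
      have hj := j.2
      rw [Nat.mod_eq_of_lt (by omega), Nat.mod_eq_of_lt (by omega)] at h6
      exact Fin.ext h6
    · exfalso
      have h6 : (((i : ℕ) + 1 + ((j : ℕ) + 1) : ℕ) : ZMod p) = 0 := by
        push_cast
        exact h5
      rw [ZMod.natCast_eq_zero_iff] at h6
      have h7 := Nat.le_of_dvd (by omega) h6
      have hi := i.2
      have hj := j.2
      omega
  let v : Fin ((p - 1) / 2) → (SL p → ℂ) := fun i => RepR (RepD (s i)) h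
  have hv : ∀ i, Module.End.HasEigenvector
      (RepR (RepU (1 : ZMod p)) : Module.End ℂ (SL p → ℂ)) (μ i) (v i) := by
    intro i
    refine ⟨?_, ?_⟩
    · rw [Module.End.mem_eigenspace_iff]
      show RepR (RepU 1) (RepR (RepD (s i)) h) = _ • RepR (RepD (s i)) h
      rw [RepR_mul, RepUD, ← RepR_mul, heig, map_smul]
      have e : (((s i)⁻¹ : (ZMod p)ˣ) : ZMod p) = ((i : ℕ) + 1 : ZMod p) := by
        show (((Units.mk0 _ (hu i))⁻¹⁻¹ : (ZMod p)ˣ) : ZMod p) = _
        rw [inv_inv, Units.val_mk0]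
      rw [e]
    · intro h0
      apply hne
      have h1 : RepR (RepD (s i))⁻¹ (v i) = h := by
        show RepR (RepD (s i))⁻¹ (RepR (RepD (s i)) h) = h
        rw [RepR_mul, inv_mul_cancel, RepR_one]
      rw [← h1, h0, map_zero]
  have hli := Module.End.eigenvectors_linearIndependent' _ μ hμ v hv
  have hvV : ∀ i, v i ∈ V := fun i => hmem _ h hhV
  have hli2 : LinearIndependent ℂ (fun i => (⟨v i, hvV i⟩ : V)) := by
    apply LinearIndependent.of_comp V.subtype
    exact hli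
  have h5 := hli2.fintype_card_le_finrank
  rwa [Fintype.card_fin] at h5

end Pool.Agent.PWS
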