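import Pool.Agent.PWS.St

/-!
Campaign PWS, module Ruz: Ruzsa's calculus.
-/

set_option autoImplicit false

namespace Pool.Agent.PWS

open scoped Pointwise

theorem Ruz_cancel (N X Y : ℕ) (hN : 0 < N) (h : N * X ≤ Y * N) : X ≤ Y := by
  rw [Nat.mul_comm Y N] at h
  exact Nat.le_of_mul_le_mul_left h hN

theorem thm_Ruz : St_Ruz := by
  intro G _ _ L A R N K hN hL hA hR h1 h2
  have key : ∀ W W' : Finset G, (L * W).card ≤ K * N → (L * W').card ≤ K * N →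
      (W⁻¹ * W').card ≤ K ^ 2 * N := by
    intro W W' hW hW'
    refine Ruz_cancel N _ _ hN ?_
    calc N * (W⁻¹ * W').card ≤ L.card * (W⁻¹ * W').card := Nat.mul_le_mul_right _ hL
      _ ≤ (L * W).card * (L * W').card :=
          Finset.ruzsa_triangle_inequality_invMul_mul_mul W L W'
      _ ≤ (K * N) * (K * N) := Nat.mul_le_mul hW hW'
      _ = K ^ 2 * N * N := by ring
  have h2' : (L * (A * R)).card ≤ K * N := by rwa [← mul_assoc]
  have kAA := key A A h1 h1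
  have kAR := key A (A * R) h1 h2'
  have kRR := key (A * R) (A * R) h2' h2'
  refine ⟨kAA, ?_⟩
  have hD : (A⁻¹ * A)⁻¹ = A⁻¹ * A := by rw [mul_inv_rev, inv_inv]
  have e2 : (A⁻¹ * A * (A⁻¹ * (A * R))).card ≤ K ^ 4 * N := by
    refine Ruz_cancel N _ _ hN ?_
    have t := Finset.ruzsa_triangle_inequality_mul_mul_invMul (A⁻¹ * A) R (A⁻¹ * (A * R))
    have i1 : A⁻¹ * A * R = A⁻¹ * (A * R) := mul_assoc _ _ _
    have i2 : (A⁻¹ * (A * R))⁻¹ * R = (A * R)⁻¹ * (A * R) := by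
      rw [mul_inv_rev, inv_inv, mul_assoc]
    rw [i1, i2] at t
    calc N * (A⁻¹ * A * (A⁻¹ * (A * R))).card
        ≤ (A⁻¹ * A * (A⁻¹ * (A * R))).card * R.card := by
          rw [Nat.mul_comm]
          exact Nat.mul_le_mul_left _ hR
      _ ≤ _ := t
      _ ≤ (K ^ 2 * N) * (K ^ 2 * N) := Nat.mul_le_mul kAR kRR
      _ = K ^ 4 * N * N := by ring
  refine Ruz_cancel N _ _ hN ?_
  have t := Finset.ruzsa_triangle_inequality_mul_mul_invMul ((A⁻¹ * A) ^ 2) R (A⁻¹ * A)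
  rw [hD] at t
  have i3 : (A⁻¹ * A) ^ 2 * (A⁻¹ * A) = (A⁻¹ * A) ^ 3 := (pow_succ _ 2).symm
  have i4 : (A⁻¹ * A) ^ 2 * R = A⁻¹ * A * (A⁻¹ * (A * R)) := by
    rw [sq, mul_assoc (A⁻¹ * A), mul_assoc A⁻¹ A R]
  have i5 : A⁻¹ * A * R = A⁻¹ * (A * R) := mul_assoc _ _ _
  rw [i3, i4, i5] at t
  calc N * ((A⁻¹ * A) ^ 3).card ≤ ((A⁻¹ * A) ^ 3).card * R.card := by
        rw [Nat.mul_comm]
        exact Nat.mul_le_mul_left _ hR
    _ ≤ _ := t
    _ ≤ (K ^ 4 * N) * (K ^ 2 * N) := Nat.mul_le_mul e2 kAR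
    _ = K ^ 6 * N * N := by ring

end Pool.Agent.PWS
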