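import Pool.Agent.PWS.St

/-!
Campaign PWS, module Scl: the scales.
-/

set_option autoImplicit false

namespace Pool.Agent.PWS

/-- A minimal value exists. -/
theorem Scl_min (f : ℕ → ℕ → ℕ) (R r : ℕ) (hr : r ≤ R) :
    ∃ m, (∃ i, i + 3 ^ r ≤ 3 ^ R ∧ f i (3 ^ r) = m) ∧ ∀ i, i + 3 ^ r ≤ 3 ^ R → m ≤ f i (3 ^ r) := by
  classical
  have hex : ∃ m, ∃ i, i + 3 ^ r ≤ 3 ^ R ∧ f i (3 ^ r) = m :=
    ⟨f 0 (3 ^ r), 0, by rw [zero_add]; exact Nat.pow_le_pow_right (by norm_num) hr, rfl⟩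
  refine ⟨Nat.find hex, Nat.find_spec hex, fun i hi => ?_⟩
  exact Nat.find_min' hex ⟨i, hi, rfl⟩

theorem thm_Scl : St_Scl := by
  intro f R K T hmono hT hlt
  by_contra hcon
  push Not at hcon
  have hTf : ∀ r, r ≤ R → ∀ i, i + 3 ^ r ≤ 3 ^ R → T ≤ f i (3 ^ r) := by
    intro r hr i hi
    have h3 : 1 ≤ 3 ^ r := Nat.one_le_pow _ _ (by norm_num)
    exact (hT i (by omega)).trans (hmono i 1 i (3 ^ r) le_rfl (by omega) hi)
  have key : ∀ r, r ≤ R → ∀ i, i + 3 ^ r ≤ 3 ^ R → K ^ r * T ≤ f i (3 ^ r) := by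
    intro r
    induction r with
    | zero =>
      intro hr i hi
      rw [pow_zero, one_mul]
      exact hTf 0 hr i hi
    | succ r ih =>
      intro hr i hi
      obtain ⟨m, ⟨i₀, hi₀, hm₀⟩, hm⟩ := Scl_min f R r (by omega)
      have h1 : K ^ r * T ≤ m := by
        rw [← hm₀]
        exact ih (by omega) i₀ hi₀
      have h2 : T ≤ m := by
        rw [← hm₀]
        exact hTf r (by omega) i₀ hi₀
      have hp : 3 ^ (r + 1) = 3 * 3 ^ r := by rw [pow_succ, mul_comm]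
      have h3 : 1 ≤ 3 ^ r := Nat.one_le_pow _ _ (by norm_num)
      have hi' : i + 3 * 3 ^ r ≤ 3 ^ R := by
        rw [← hp]
        exact hi
      have h4 := hcon i (3 ^ r) m h3 hi' h2 (hm i (by omega)) (hm (i + 3 ^ r) (by omega))
        (hm (i + 2 * 3 ^ r) (by omega))
      rw [hp]
      calc K ^ (r + 1) * T = K * (K ^ r * T) := by rw [pow_succ]; ring
        _ ≤ K * m := Nat.mul_le_mul_left _ h1
        _ ≤ f i (3 * 3 ^ r) := h4.le
  have := key R le_rfl 0 (by rw [zero_add])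
  omega

end Pool.Agent.PWS
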