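import Pool.Agent.PWS.St

set_option autoImplicit false

/-!
# PWS, module Seq: the trace functions `l ↦ tr (c ^ l b)`
-/

namespace Pool.Agent.PWS

open Pool.Agent.PW Pool.Agent.PWM Pool.Agent.PWX
open scoped Classical

section field

variable {k : Type} [Field k]

/-- three distinct roots of a quadratic polynomial -/
lemma Seq_three (A B C x y z : k) (hxy : x ≠ y) (hxz : x ≠ z) (hyz : y ≠ z)
    (hx : A * x ^ 2 + B * x + C = 0) (hy : A * y ^ 2 + B * y + C = 0)
    (hz : A * z ^ 2 + B * z + C = 0) : A = 0 ∧ B = 0 ∧ C = 0 := by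
  have h1 : A * (x + y) + B = 0 := by
    have h : (x - y) * (A * (x + y) + B) = 0 := by linear_combination hx - hy
    exact (mul_eq_zero.1 h).resolve_left (sub_ne_zero.2 hxy)
  have h2 : A * (x + z) + B = 0 := by
    have h : (x - z) * (A * (x + z) + B) = 0 := by linear_combination hx - hz
    exact (mul_eq_zero.1 h).resolve_left (sub_ne_zero.2 hxz)
  have h3 : A = 0 := by
    have h : (y - z) * A = 0 := by linear_combination h1 - h2
    exact (mul_eq_zero.1 h).resolve_left (sub_ne_zero.2 hyz)
  have h4 : B = 0 := by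
    rw [h3, zero_mul, zero_add] at h1
    exact h1
  refine ⟨h3, h4, ?_⟩
  rw [h3, h4, zero_mul, zero_mul, zero_add, zero_add] at hx
  exact hx

/-- three points on a line and on the conic -/
lemma Seq_conic (u v t τ : k) (α β : Fin 3 → k) (hd : ∀ i j, i ≠ j → α i = α j → β i ≠ β j)
    (hl : ∀ i, α i * u + β i * v = τ) (hN : ∀ i, α i ^ 2 + α i * β i * t + β i ^ 2 = 1) :
    u * t = 2 * v ∧ 2 * u = v * t ∧ u ^ 2 = v ^ 2 := by
  have h01 : (0 : Fin 3) ≠ 1 := by decide
  have h02 : (0 : Fin 3) ≠ 2 := by decide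
  have h12 : (1 : Fin 3) ≠ 2 := by decide
  by_cases hu : u = 0
  · by_cases hv : v = 0
    · rw [hu, hv]
      simp
    · exfalso
      have hb : ∀ i j, β i = β j := by
        intro i j
        have h1 := hl i
        have h2 := hl j
        rw [hu, mul_zero, zero_add] at h1 h2
        exact mul_right_cancel₀ hv (h1.trans h2.symm)
      have ha : ∀ i j, i ≠ j → α i ≠ α j := fun i j hij h => hd i j hij h (hb i j)
      have h := Seq_three 1 (β 0 * t) (β 0 ^ 2 - 1) (α 0) (α 1) (α 2) (ha _ _ h01) (ha _ _ h02)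
        (ha _ _ h12) (by linear_combination hN 0)
        (by
          have h5 := hN 1
          rw [hb 1 0] at h5
          linear_combination h5)
        (by
          have h5 := hN 2
          rw [hb 2 0] at h5
          linear_combination h5)
      exact one_ne_zero h.1
  · have hb : ∀ i j, i ≠ j → β i ≠ β j := by
      intro i j hij h
      refine hd i j hij ?_ h
      have h1 := hl i
      have h2 := hl j
      rw [h] at h1
      have h3 : α i * u = α j * u := by linear_combination h1 - h2
      exact mul_right_cancel₀ hu h3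
    have hq : ∀ i, (v ^ 2 - u * v * t + u ^ 2) * β i ^ 2 + (τ * (u * t - 2 * v)) * β i +
        (τ ^ 2 - u ^ 2) = 0 := by
      intro i
      linear_combination u ^ 2 * hN i - (u * α i + τ - β i * v + u * β i * t) * hl i
    obtain ⟨hA, hB, hC⟩ := Seq_three _ _ _ _ _ _ (hb _ _ h01) (hb _ _ h02) (hb _ _ h12)
      (hq 0) (hq 1) (hq 2)
    have hτ : τ ≠ 0 := by
      intro h
      rw [h] at hC
      have h5 : u ^ 2 = 0 := by linear_combination -hC
      exact hu (pow_eq_zero_iff (two_ne_zero) |>.1 h5)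
    have h1 : u * t - 2 * v = 0 := (mul_eq_zero.1 hB).resolve_left hτ
    have h2 : u ^ 2 = v ^ 2 := by linear_combination hA + v * h1
    refine ⟨by linear_combination h1, ?_, h2⟩
    have h3 : u * (2 * u - v * t) = 0 := by linear_combination 2 * h2 - v * h1
    have h4 := (mul_eq_zero.1 h3).resolve_left hu
    linear_combination h4

/-- commutation of `b c b⁻¹` with `c` -/
lemma Seq_comm (B C : Matrix (Fin 2) (Fin 2) k) (hB : B.det = 1) (hC : C.det = 1)
    (h1 : B.trace * C.trace = 2 * (C * B).trace) (h2 : 2 * B.trace = (C * B).trace * C.trace)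
    (h3 : B.trace ^ 2 = (C * B).trace ^ 2) :
    C * (B * C * (B.trace • 1 - B)) = (B * C * (B.trace • 1 - B)) * C := by
  obtain ⟨u, hu⟩ : ∃ u, u = B.trace := ⟨_, rfl⟩
  obtain ⟨t, ht⟩ : ∃ t, t = C.trace := ⟨_, rfl⟩
  obtain ⟨v, hv⟩ : ∃ v, v = (C * B).trace := ⟨_, rfl⟩
  rw [← hu, ← ht, ← hv] at h1
  rw [← hu, ← ht, ← hv] at h2
  rw [← hu, ← hv] at h3
  rw [← hu]
  rw [Matrix.det_fin_two] at hB hC
  rw [Matrix.trace_fin_two] at hu ht
  rw [Matrix.trace_fin_two, Matrix.mul_apply, Matrix.mul_apply, Fin.sum_univ_two,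
    Fin.sum_univ_two] at hv
  have hc2 : C * C = t • C - 1 := by
    ext i j
    fin_cases i <;> fin_cases j <;>
      simp [Matrix.mul_apply, Fin.sum_univ_two, ht]
    · linear_combination -hC
    · ring
    · ring
    · linear_combination -hC
  have hcbc : C * B * C = B + v • C - u • 1 := by
    ext i j
    fin_cases i <;> fin_cases j <;>
      simp [Matrix.mul_apply, Fin.sum_univ_two, hu, hv]
    · linear_combination (-B 1 1) * hC
    · linear_combination (B 0 1) * hC
    · linear_combination (B 1 0) * hC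
    · linear_combination (-B 0 0) * hC
  have hcb2 : (C * B) * (C * B) = v • (C * B) - 1 := by
    have h4 : (C * B) * (C * B) = (C * B * C) * B := by simp only [mul_assoc]
    have hb2 : B * B = u • B - 1 := by
      ext i j
      fin_cases i <;> fin_cases j <;>
        simp [Matrix.mul_apply, Fin.sum_univ_two, hu]
      · linear_combination -hB
      · ring
      · ring
      · linear_combination -hB
    rw [h4, hcbc, sub_mul, add_mul, hb2, smul_mul_assoc, smul_mul_assoc, one_mul]
    abel
  have hbc2 : (B * C) * (B * C) = v • (B * C) - 1 := by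
    have h4 : (B * C) * (B * C) = B * (C * B * C) := by simp only [mul_assoc]
    have hb2 : B * B = u • B - 1 := by
      ext i j
      fin_cases i <;> fin_cases j <;>
        simp [Matrix.mul_apply, Fin.sum_univ_two, hu]
      · linear_combination -hB
      · ring
      · ring
      · linear_combination -hB
    rw [h4, hcbc, mul_sub, mul_add, hb2, mul_smul_comm, mul_smul_comm, mul_one]
    abel
  have hpol : C * B = u • C + t • B - (u * t - v) • 1 - B * C := by
    ext i j
    fin_cases i <;> fin_cases j <;>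
      simp [Matrix.mul_apply, Fin.sum_univ_two, hu, ht, hv] <;> ring
  have e1 : C * (B * C * (u • 1 - B)) = u • (C * B * C) - (C * B) * (C * B) := by
    rw [mul_sub, mul_smul_comm, mul_one, mul_sub, mul_smul_comm]
    simp only [mul_assoc]
  have e2 : (B * C * (u • 1 - B)) * C = u • (B * (C * C)) - (B * C) * (B * C) := by
    rw [mul_sub, mul_smul_comm, mul_one, sub_mul, smul_mul_assoc]
    simp only [mul_assoc]
  rw [e1, e2, hcbc, hcb2, hbc2, hc2, hpol, mul_sub, mul_one, mul_smul_comm]
  have f1 : v = u * t - v := by linear_combination -h1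
  have f2 : 2 * u - v * t = 0 := by linear_combination h2
  have f3 : u ^ 2 = v * (u * t - v) := by linear_combination h3 - v * h1
  match_scalars
  · linear_combination f2
  · ring
  · linear_combination -f3
  · linear_combination -h1

end field

variable {p : ℕ} [Fact p.Prime]

/-- the powers of `c` are linear combinations of `1` and `c` -/
lemma Seq_pow (c : SL p) (l : ℕ) : ∃ α β : ZMod p, α ^ 2 + α * β * tr c + β ^ 2 = 1 ∧
    ((c ^ l : SL p) : M2 p) = α • (1 : M2 p) + β • (c : M2 p) := by
  have hC : (c : M2 p).det = 1 := c.2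
  have hc2 : (c : M2 p) * (c : M2 p) = tr c • (c : M2 p) - 1 := by
    unfold tr
    rw [Matrix.det_fin_two] at hC
    rw [Matrix.trace_fin_two]
    ext i j
    fin_cases i <;> fin_cases j <;>
      simp [Matrix.mul_apply, Fin.sum_univ_two]
    · linear_combination -hC
    · ring
    · ring
    · linear_combination -hC
  induction l with
  | zero => exact ⟨1, 0, by ring, by simp⟩
  | succ l ih =>
    obtain ⟨α, β, h1, h2⟩ := ih
    refine ⟨-β, α + β * tr c, by linear_combination h1, ?_⟩
    rw [pow_succ, Matrix.SpecialLinearGroup.coe_mul, h2, add_mul, smul_mul_assoc, one_mul,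
      smul_mul_assoc, hc2]
    module

lemma Seq_nd (b c : SL p) (h : ¬ Nd c b) :
    tr b * tr c = 2 * tr (c * b) ∧ 2 * tr b = tr (c * b) * tr c ∧ tr b ^ 2 = tr (c * b) ^ 2 := by
  unfold Nd at h
  push Not at h
  obtain ⟨τ, hτ⟩ := h
  have h3 : 2 < ((Finset.range (orderOf c)).filter fun l => tr (c ^ l * b) = τ).card := by omega
  obtain ⟨x, hx, y, hy, z, hz, hxy, hxz, hyz⟩ := Finset.two_lt_card.1 h3
  obtain ⟨f, hf⟩ : ∃ f : Fin 3 → ℕ, f = ![x, y, z] := ⟨_, rfl⟩
  have hfm : ∀ i, f i < orderOf c ∧ tr (c ^ f i * b) = τ := by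
    intro i
    rw [Finset.mem_filter, Finset.mem_range] at hx hy hz
    fin_cases i
    · simpa [hf] using hx
    · simpa [hf] using hy
    · simpa [hf] using hz
  have hfi : Function.Injective f := by
    intro i j hij
    rw [hf] at hij
    fin_cases i <;> fin_cases j <;> simp_all
  choose α β hN hc using fun i => Seq_pow c (f i)
  refine Seq_conic (tr b) (tr (c * b)) (tr c) τ α β ?_ ?_ hN
  · intro i j hij h1 h2
    apply hij
    apply hfi
    have h4 : c ^ f i = c ^ f j := by
      apply Subtype.ext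
      show ((c ^ f i : SL p) : M2 p) = ((c ^ f j : SL p) : M2 p)
      rw [hc, hc, h1, h2]
    exact pow_injOn_Iio_orderOf (hfm i).1 (hfm j).1 h4
  · intro i
    have h5 : ((c ^ f i * b : SL p) : M2 p) =
        α i • (b : M2 p) + β i • ((c * b : SL p) : M2 p) := by
      rw [Matrix.SpecialLinearGroup.coe_mul, hc, add_mul, smul_mul_assoc, smul_mul_assoc, one_mul,
        Matrix.SpecialLinearGroup.coe_mul]
    have h6 : tr (c ^ f i * b) = α i * tr b + β i * tr (c * b) := by
      unfold tr
      rw [h5, Matrix.trace_add, Matrix.trace_smul, Matrix.trace_smul, smul_eq_mul, smul_eq_mul]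
    rw [← h6]
    exact (hfm i).2

lemma Seq_nz (hCom : St_Com) (b c : SL p) (hc : NC c)
    (h : (b * c * b⁻¹) * c = c * (b * c * b⁻¹)) : b ∈ Nz c := by
  have hmem : ∀ x y : SL p, y ∈ Cz x ↔ x * y = y * x := by
    intro x y
    unfold Cz
    rw [Subgroup.mem_centralizer_iff]
    constructor
    · intro h1
      exact h1 x rfl
    · intro h1 z hz
      rw [Set.mem_singleton_iff.1 hz]
      exact h1
  have hc' : NC (b * c * b⁻¹) := by
    intro h1
    apply hc
    have h2 := Subgroup.mem_center_iff.1 h1 b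
    have h3 : b * c * b⁻¹ = c := by
      have h4 : b * (b * c * b⁻¹) = b * c := by
        rw [h2]
        group
      exact mul_left_cancel h4
    rwa [h3] at h1
  have h1 := (hCom p).1
  have e1 : b * c * b⁻¹ ∈ Cz c := (hmem _ _).2 h.symm
  have e2 : c ∈ Cz (b * c * b⁻¹) := (hmem _ _).2 h
  show ∀ y, y ∈ Cz c ↔ b * y * b⁻¹ ∈ Cz c
  intro y
  have e3 : y ∈ Cz c ↔ b * y * b⁻¹ ∈ Cz (b * c * b⁻¹) := by
    rw [hmem, hmem]
    constructor
    · intro h2
      calc b * c * b⁻¹ * (b * y * b⁻¹) = b * (c * y) * b⁻¹ := by group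
        _ = b * (y * c) * b⁻¹ := by rw [h2]
        _ = b * y * b⁻¹ * (b * c * b⁻¹) := by group
    · intro h2
      have h5 : b * (c * y) * b⁻¹ = b * (y * c) * b⁻¹ := by
        calc b * (c * y) * b⁻¹ = b * c * b⁻¹ * (b * y * b⁻¹) := by group
          _ = b * y * b⁻¹ * (b * c * b⁻¹) := h2
          _ = b * (y * c) * b⁻¹ := by group
      exact mul_left_cancel (mul_right_cancel h5)
  rw [e3]
  constructor
  · intro h2
    exact (hmem _ _).2 (h1 _ c _ hc' e2 h2)
  · intro h2
    exact (hmem _ _).2 (h1 _ (b * c * b⁻¹) _ hc e1 h2)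

lemma Seq_one (hCom : St_Com) (b c : SL p) (hc : NC c) (h : ¬ Nd c b) : b ∈ Nz c := by
  obtain ⟨h1, h2, h3⟩ := Seq_nd b c h
  refine Seq_nz hCom b c hc ?_
  have h4 := Seq_comm (b : M2 p) (c : M2 p) b.2 c.2
    (by simpa [tr, Matrix.SpecialLinearGroup.coe_mul] using h1)
    (by simpa [tr, Matrix.SpecialLinearGroup.coe_mul] using h2)
    (by simpa [tr, Matrix.SpecialLinearGroup.coe_mul] using h3)
  have hinv : ((b⁻¹ : SL p) : M2 p) = (b : M2 p).trace • 1 - (b : M2 p) := by
    rw [Matrix.SpecialLinearGroup.coe_inv, Matrix.trace_fin_two, Matrix.adjugate_fin_two]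
    ext i j
    fin_cases i <;> fin_cases j <;> simp
  have h5 : (((b * c * b⁻¹) * c : SL p) : M2 p) =
      ((b : M2 p) * (c : M2 p) * ((b : M2 p).trace • 1 - (b : M2 p))) * (c : M2 p) := by
    rw [Matrix.SpecialLinearGroup.coe_mul, Matrix.SpecialLinearGroup.coe_mul,
      Matrix.SpecialLinearGroup.coe_mul, hinv]
  have h6 : ((c * (b * c * b⁻¹) : SL p) : M2 p) =
      (c : M2 p) * ((b : M2 p) * (c : M2 p) * ((b : M2 p).trace • 1 - (b : M2 p))) := by
    rw [Matrix.SpecialLinearGroup.coe_mul, Matrix.SpecialLinearGroup.coe_mul,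
      Matrix.SpecialLinearGroup.coe_mul, hinv]
  apply Subtype.ext
  exact h5.trans (h4.symm.trans h6.symm)

theorem thm_Seq (hCom : St_Com) : St_Seq := by
  intro p _ _ a b c hc
  by_cases h1 : Nd c b
  · exact Or.inl h1
  by_cases h2 : Nd c (b * a)
  · exact Or.inr (Or.inl h2)
  have h3 := Seq_one hCom b c hc h1
  have h4 := Seq_one hCom (b * a) c hc h2
  refine Or.inr (Or.inr ⟨?_, h3⟩)
  have h5 := (Nz c).mul_mem ((Nz c).inv_mem h3) h4
  rwa [inv_mul_cancel_left] at h5

end Pool.Agent.PWS
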