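import Pool.Agent.PWS.St

/-!
Campaign PWS: the spectral gap (problem MP_26af1b_gt).
-/

set_option autoImplicit false

namespace Pool.Agent.PWS

open scoped Classical InnerProductSpace

section

variable {G : Type} [Group G] [Fintype G]

/-- the shift by `a` as a permutation of the summation variable -/
theorem Spc_sum (A : Finset G) (x : G) (f : G → ℂ) :
    ∑ a ∈ A, f (a⁻¹ * x) = ∑ y, (if x * y⁻¹ ∈ A then f y else 0) := by
  have h1 : ∑ a ∈ A, f (a⁻¹ * x) = ∑ a, (if a ∈ A then f (a⁻¹ * x) else 0) := by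
    rw [Finset.sum_ite_mem, Finset.univ_inter]
  rw [h1]
  refine Fintype.sum_equiv ((Equiv.inv G).trans (Equiv.mulRight x)) _ _ fun a => ?_
  show (if a ∈ A then f (a⁻¹ * x) else 0) =
    (if x * (a⁻¹ * x)⁻¹ ∈ A then f (a⁻¹ * x) else 0)
  have h2 : x * (a⁻¹ * x)⁻¹ = a := by group
  rw [h2]

theorem Spc_card (A : Finset G) (x : G) :
    ∑ y : G, (if x * y⁻¹ ∈ A then (1 : ℝ) else 0) = A.card := by
  have h1 : ((A.card : ℕ) : ℝ) = ∑ a : G, (if a ∈ A then (1 : ℝ) else 0) := by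
    rw [Finset.sum_ite_mem, Finset.univ_inter, Finset.sum_const, nsmul_eq_mul, mul_one]
  rw [h1]
  refine Fintype.sum_equiv ((Equiv.inv G).trans (Equiv.mulLeft x)) _ _ fun a => ?_
  rfl

/-- the operator on functions with sum zero, extended by zero on constants -/
noncomputable def Spc_N (A : Finset G) (c : ℂ) :
    EuclideanSpace ℂ G →ₗ[ℂ] EuclideanSpace ℂ G where
  toFun f := WithLp.toLp 2 fun x => (∑ a ∈ A, f (a⁻¹ * x)) - c * ∑ y, f y
  map_add' f g := by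
    ext x
    simp only [PiLp.add_apply, Finset.sum_add_distrib]
    ring
  map_smul' r f := by
    ext x
    simp only [PiLp.smul_apply, smul_eq_mul, RingHom.id_apply, ← Finset.mul_sum]
    ring

theorem Spc_N_apply (A : Finset G) (c : ℂ) (f : EuclideanSpace ℂ G) (x : G) :
    Spc_N A c f x = (∑ a ∈ A, f (a⁻¹ * x)) - c * ∑ y, f y := rfl

/-- right translation -/
noncomputable def Spc_U (g : G) : EuclideanSpace ℂ G →ₗ[ℂ] EuclideanSpace ℂ G where
  toFun f := WithLp.toLp 2 fun x => f (x * g)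
  map_add' f h := by
    ext x
    rfl
  map_smul' r f := by
    ext x
    rfl

theorem Spc_U_apply (g : G) (f : EuclideanSpace ℂ G) (x : G) : Spc_U g f x = f (x * g) := rfl

theorem Spc_U_inner (g : G) (f h : EuclideanSpace ℂ G) :
    ⟪Spc_U g f, h⟫_ℂ = ⟪f, Spc_U g⁻¹ h⟫_ℂ := by
  rw [PiLp.inner_apply, PiLp.inner_apply]
  refine Fintype.sum_equiv (Equiv.mulRight g) _ _ fun x => ?_
  show ⟪f (x * g), h x⟫_ℂ = ⟪f (x * g), h (x * g * g⁻¹)⟫_ℂ
  rw [mul_inv_cancel_right]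

theorem Spc_U_N (A : Finset G) (c : ℂ) (g : G) (f : EuclideanSpace ℂ G) :
    Spc_N A c (Spc_U g f) = Spc_U g (Spc_N A c f) := by
  ext x
  rw [Spc_N_apply, Spc_U_apply, Spc_N_apply]
  have h1 : ∑ y, Spc_U g f y = ∑ y, f y :=
    Fintype.sum_equiv (Equiv.mulRight g) _ _ fun x => rfl
  rw [h1]
  congr 1
  refine Finset.sum_congr rfl fun a _ => ?_
  rw [Spc_U_apply, mul_assoc]

/-- the rows of the matrix -/
noncomputable def Spc_k (A : Finset G) (c : ℝ) (x : G) : EuclideanSpace ℂ G :=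
  WithLp.toLp 2 fun y => (((if x * y⁻¹ ∈ A then (1 : ℝ) else 0) - c : ℝ) : ℂ)

theorem Spc_k_inner (A : Finset G) (c : ℝ) (x : G) (f : EuclideanSpace ℂ G) :
    Spc_N A (c : ℂ) f x = ⟪Spc_k A c x, f⟫_ℂ := by
  rw [Spc_N_apply, Spc_sum A x fun y => f y, PiLp.inner_apply, Finset.mul_sum,
    ← Finset.sum_sub_distrib]
  refine Finset.sum_congr rfl fun y _ => ?_
  have h1 : Spc_k A c x y = (((if x * y⁻¹ ∈ A then (1 : ℝ) else 0) - c : ℝ) : ℂ) := rfl
  rw [h1, RCLike.inner_apply, Complex.conj_ofReal]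
  split_ifs <;> push_cast <;> ring

theorem Spc_k_norm (A : Finset G) (x : G) :
    ‖Spc_k A ((A.card : ℝ) / Fintype.card G) x‖ ^ 2 ≤ A.card := by
  set c : ℝ := (A.card : ℝ) / Fintype.card G with hc
  have hG : (0 : ℝ) < Fintype.card G := by
    have : Nonempty G := ⟨1⟩
    exact_mod_cast Fintype.card_pos
  have hcG : c * Fintype.card G = A.card := by
    rw [hc, div_mul_cancel₀ _ hG.ne']
  rw [EuclideanSpace.norm_sq_eq]
  have h1 : ∀ y, ‖Spc_k A c x y‖ ^ 2 =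
      (1 - 2 * c) * (if x * y⁻¹ ∈ A then (1 : ℝ) else 0) + c ^ 2 := by
    intro y
    have h2 : Spc_k A c x y = (((if x * y⁻¹ ∈ A then (1 : ℝ) else 0) - c : ℝ) : ℂ) := rfl
    rw [h2, Complex.norm_real, Real.norm_eq_abs, sq_abs]
    split_ifs <;> ring
  rw [Finset.sum_congr rfl fun y _ => h1 y, Finset.sum_add_distrib, ← Finset.mul_sum,
    Spc_card, Finset.sum_const, Finset.card_univ, nsmul_eq_mul]
  have h3 : (0 : ℝ) ≤ c := by positivity
  have h4 : (Fintype.card G : ℝ) * c ^ 2 = c * A.card := by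
    rw [← hcG]
    ring
  rw [h4]
  have h5 : (0 : ℝ) ≤ A.card := by positivity
  nlinarith [mul_nonneg h3 h5]

end

theorem thm_Spc : St_Spc := by
  intro G _ _ d hd A f hf
  set c : ℝ := (A.card : ℝ) / Fintype.card G with hc
  have hGne : Nonempty G := ⟨1⟩
  have hG : (0 : ℝ) < Fintype.card G := by exact_mod_cast Fintype.card_pos
  have hcG : c * Fintype.card G = A.card := by
    rw [hc, div_mul_cancel₀ _ hG.ne']
  set N := Spc_N A (c : ℂ) with hN
  set T : EuclideanSpace ℂ G →ₗ[ℂ] EuclideanSpace ℂ G := (LinearMap.adjoint N) ∘ₗ N with hT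
  have hTi : ∀ u v, ⟪T u, v⟫_ℂ = ⟪N u, N v⟫_ℂ := by
    intro u v
    rw [hT, LinearMap.comp_apply, LinearMap.adjoint_inner_left]
  have hTs : T.IsSymmetric := by
    intro u v
    rw [hTi, hT, LinearMap.comp_apply, LinearMap.adjoint_inner_right]
  have hTre : ∀ u, RCLike.re ⟪T u, u⟫_ℂ = ‖N u‖ ^ 2 := by
    intro u
    rw [hTi]
    exact inner_self_eq_norm_sq (N u)
  have hnt : Nontrivial (EuclideanSpace ℂ G) := by
    refine ⟨⟨EuclideanSpace.single 1 1, 0, fun h => ?_⟩⟩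
    have h1 := congrArg (fun v : EuclideanSpace ℂ G => v 1) h
    simp at h1
  set μ : ℝ := ⨆ x : {x : EuclideanSpace ℂ G // x ≠ 0},
    RCLike.re ⟪T x, x⟫_ℂ / ‖(x : EuclideanSpace ℂ G)‖ ^ 2 with hμ
  have hev : Module.End.HasEigenvalue T ((μ : ℝ) : ℂ) :=
    LinearMap.IsSymmetric.hasEigenvalue_iSup_of_finiteDimensional hTs
  -- the bound
  have hbd : ∀ u : EuclideanSpace ℂ G, ‖N u‖ ^ 2 ≤ μ * ‖u‖ ^ 2 := by
    intro u
    by_cases hu : u = 0
    · rw [hu, map_zero, norm_zero]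
      simp
    · have hupos : 0 < ‖u‖ ^ 2 := by positivity
      rw [← div_le_iff₀ hupos, ← hTre]
      refine le_ciSup (f := fun x : {x : EuclideanSpace ℂ G // x ≠ 0} =>
        RCLike.re ⟪T x, x⟫_ℂ / ‖(x : EuclideanSpace ℂ G)‖ ^ 2) ?_ ⟨u, hu⟩
      refine ⟨‖LinearMap.toContinuousLinearMap T‖, ?_⟩
      rintro _ ⟨⟨x, hx⟩, rfl⟩
      have hxpos : 0 < ‖x‖ ^ 2 := by positivity
      show RCLike.re ⟪T x, x⟫_ℂ / ‖x‖ ^ 2 ≤ _
      rw [div_le_iff₀ hxpos]
      calc RCLike.re ⟪T x, x⟫_ℂ ≤ ‖⟪T x, x⟫_ℂ‖ := RCLike.re_le_norm _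
        _ ≤ ‖T x‖ * ‖x‖ := norm_inner_le_norm _ _
        _ ≤ (‖LinearMap.toContinuousLinearMap T‖ * ‖x‖) * ‖x‖ := by
          refine mul_le_mul_of_nonneg_right ?_ (norm_nonneg _)
          exact (LinearMap.toContinuousLinearMap T).le_opNorm x
        _ = ‖LinearMap.toContinuousLinearMap T‖ * ‖x‖ ^ 2 := by ring
  -- the function
  set F : EuclideanSpace ℂ G := WithLp.toLp 2 f with hF
  have hFn : ‖F‖ ^ 2 = ∑ x, ‖f x‖ ^ 2 := EuclideanSpace.norm_sq_eq F
  have hNF : ‖N F‖ ^ 2 = ∑ x, ‖Lt A f x‖ ^ 2 := by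
    rw [EuclideanSpace.norm_sq_eq]
    refine Finset.sum_congr rfl fun x _ => ?_
    have h1 : N F x = Lt A f x := by
      rw [hN, Spc_N_apply]
      have h2 : ∑ y, F y = 0 := hf
      rw [h2, mul_zero, sub_zero]
      rfl
    rw [h1]
  rw [← hNF, ← hFn]
  have hcard0 : (0 : ℝ) ≤ (A.card : ℝ) * Fintype.card G * ‖F‖ ^ 2 := by positivity
  by_cases hμ0 : μ ≤ 0
  · have h1 : ‖N F‖ ^ 2 ≤ 0 :=
      (hbd F).trans (mul_nonpos_of_nonpos_of_nonneg hμ0 (by positivity))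
    have h2 : (d : ℝ) * ‖N F‖ ^ 2 ≤ 0 := mul_nonpos_of_nonneg_of_nonpos (Nat.cast_nonneg d) h1
    exact h2.trans hcard0
  have hμpos : 0 < μ := lt_of_not_ge hμ0
  -- the eigenspace
  set W : Submodule ℂ (EuclideanSpace ℂ G) := Module.End.eigenspace T ((μ : ℝ) : ℂ) with hW
  have hWm : ∀ u, u ∈ W ↔ T u = ((μ : ℝ) : ℂ) • u := fun u => Module.End.mem_eigenspace_iff
  have hWne : W ≠ ⊥ := hev
  let Φ : (G → ℂ) ≃ₗ[ℂ] EuclideanSpace ℂ G := (WithLp.linearEquiv 2 ℂ (G → ℂ)).symm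
  set V : Submodule ℂ (G → ℂ) := W.comap Φ.toLinearMap with hV
  have hVm : ∀ u : G → ℂ, u ∈ V ↔ WithLp.toLp 2 u ∈ W := fun u => Iff.rfl
  have hVfin : Module.finrank ℂ V = Module.finrank ℂ W := by
    have h1 : V = W.map Φ.symm.toLinearMap := by
      rw [hV]
      exact (Submodule.map_equiv_eq_comap_symm Φ.symm W).symm
    rw [h1]
    exact LinearEquiv.finrank_map_eq Φ.symm W
  have hVne : V ≠ ⊥ := by
    intro h
    apply hWne
    rw [eq_bot_iff]
    intro u hu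
    have h1 : (WithLp.ofLp u) ∈ V := hu
    rw [h, Submodule.mem_bot] at h1
    rw [Submodule.mem_bot]
    ext x
    exact congrFun h1 x
  have hN1 : N (WithLp.toLp 2 fun _ => 1) = 0 := by
    ext x
    rw [hN, Spc_N_apply]
    show (∑ a ∈ A, (1 : ℂ)) - (c : ℂ) * ∑ y : G, (1 : ℂ) = 0
    rw [Finset.sum_const, Finset.sum_const, Finset.card_univ, nsmul_eq_mul, nsmul_eq_mul, mul_one,
      mul_one, sub_eq_zero]
    have h2 : ((c * Fintype.card G : ℝ) : ℂ) = ((A.card : ℝ) : ℂ) := by rw [hcG]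
    push_cast at h2
    exact h2.symm
  have hVR : RInv V := by
    constructor
    · intro u hu g
      rw [hVm, hWm] at hu ⊢
      have h1 : (WithLp.toLp 2 (fun y => u (y * g)) : EuclideanSpace ℂ G) =
          Spc_U g (WithLp.toLp 2 u) := rfl
      rw [h1]
      refine ext_inner_right ℂ fun v => ?_
      rw [hTi, hN, Spc_U_N, Spc_U_inner, ← Spc_U_N, ← hN, ← hTi, hu, inner_smul_left,
        inner_smul_left, Spc_U_inner]
    · intro u hu
      rw [hVm, hWm] at hu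
      have h1 : ⟪(WithLp.toLp 2 fun _ => 1 : EuclideanSpace ℂ G), T (WithLp.toLp 2 u)⟫_ℂ = 0 := by
        rw [← hTs, hTi, hN1, inner_zero_left]
      rw [hu, inner_smul_right, mul_eq_zero] at h1
      rcases h1 with h1 | h1
      · exact absurd (Complex.ofReal_eq_zero.1 h1) hμpos.ne'
      · rw [PiLp.inner_apply] at h1
        rw [← h1]
        refine Finset.sum_congr rfl fun x _ => ?_
        show u x = ⟪(1 : ℂ), u x⟫_ℂ
        rw [RCLike.inner_apply, map_one, mul_one]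
  have hdW : d ≤ Module.finrank ℂ W := hVfin ▸ hd V hVne hVR
  -- the trace
  have htr : μ * Module.finrank ℂ W ≤ (A.card : ℝ) * Fintype.card G := by
    let b := stdOrthonormalBasis ℂ W
    have hb : Orthonormal ℂ fun j => ((b j : W) : EuclideanSpace ℂ G) := by
      have h := b.orthonormal
      exact h.comp_linearIsometry W.subtypeₗᵢ
    have h1 : ∀ j, ‖N (b j : EuclideanSpace ℂ G)‖ ^ 2 = μ := by
      intro j
      rw [← hTre, (hWm _).1 (b j).2, inner_smul_left, inner_self_eq_norm_sq_to_K, hb.1 j]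
      simp
    have h2 : μ * Module.finrank ℂ W = ∑ j, ‖N (b j : EuclideanSpace ℂ G)‖ ^ 2 := by
      rw [Finset.sum_congr rfl fun j _ => h1 j, Finset.sum_const, Finset.card_univ,
        Fintype.card_fin, nsmul_eq_mul, mul_comm]
    rw [h2]
    have h3 : ∀ j, ‖N (b j : EuclideanSpace ℂ G)‖ ^ 2 =
        ∑ x, ‖⟪((b j : W) : EuclideanSpace ℂ G), Spc_k A c x⟫_ℂ‖ ^ 2 := by
      intro j
      rw [EuclideanSpace.norm_sq_eq]
      refine Finset.sum_congr rfl fun x _ => ?_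
      rw [hN, Spc_k_inner, norm_inner_symm]
    rw [Finset.sum_congr rfl fun j _ => h3 j, Finset.sum_comm]
    calc ∑ x, ∑ j, ‖⟪((b j : W) : EuclideanSpace ℂ G), Spc_k A c x⟫_ℂ‖ ^ 2
        ≤ ∑ x : G, (A.card : ℝ) := by
          refine Finset.sum_le_sum fun x _ => ?_
          exact (hb.sum_inner_products_le (Spc_k A c x)).trans (Spc_k_norm A x)
      _ = (A.card : ℝ) * Fintype.card G := by
          rw [Finset.sum_const, Finset.card_univ, nsmul_eq_mul, mul_comm]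
  have hFpos : 0 ≤ ‖F‖ ^ 2 := by positivity
  calc (d : ℝ) * ‖N F‖ ^ 2 ≤ (Module.finrank ℂ W : ℝ) * (μ * ‖F‖ ^ 2) := by
        refine mul_le_mul ?_ (hbd F) (by positivity) (by positivity)
        exact_mod_cast hdW
    _ = (μ * Module.finrank ℂ W) * ‖F‖ ^ 2 := by ring
    _ ≤ (A.card : ℝ) * Fintype.card G * ‖F‖ ^ 2 := mul_le_mul_of_nonneg_right htr hFpos

end Pool.Agent.PWS
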