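import Pool.Agent.PWS.St

set_option autoImplicit false

/-!
# PWS, module Spn: right ideals of the matrix algebra
-/

namespace Pool.Agent.PWS

theorem thm_Spn : St_Spn := by
  intro p _ V h1 hV
  have hx : ∀ x : SL p, (x : M2 p) ∈ V := by
    intro x
    have := hV x 1 h1
    rwa [one_mul] at this
  have a1 : (!![1, 1; 0, 1] : M2 p) ∈ V :=
    hx ⟨!![1, 1; 0, 1], by rw [Matrix.det_fin_two_of]; ring⟩
  have a2 : (!![1, 0; 1, 1] : M2 p) ∈ V :=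
    hx ⟨!![1, 0; 1, 1], by rw [Matrix.det_fin_two_of]; ring⟩
  have a3 : (!![2, 1; 1, 1] : M2 p) ∈ V :=
    hx ⟨!![2, 1; 1, 1], by rw [Matrix.det_fin_two_of]; ring⟩
  rw [eq_top_iff]
  intro M _
  have hM : M = (M 0 0 - M 1 1) • (!![2, 1; 1, 1] : M2 p) + (M 0 1 - (M 0 0 - M 1 1)) • (!![1, 1; 0, 1] : M2 p) +
      (M 1 0 - (M 0 0 - M 1 1)) • (!![1, 0; 1, 1] : M2 p) +
      (M 1 1 + (M 0 0 - M 1 1) - M 0 1 - M 1 0) • (1 : M2 p) := by
    ext i j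
    fin_cases i <;> fin_cases j <;> simp <;> ring
  rw [hM]
  exact V.add_mem (V.add_mem (V.add_mem (V.smul_mem _ a3) (V.smul_mem _ a1)) (V.smul_mem _ a2))
    (V.smul_mem _ h1)

end Pool.Agent.PWS
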