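import Pool.Agent.PWS.Hnd

/-!
Campaign PWS, module Sws: moving a handle to the right.
-/

set_option autoImplicit false

namespace Pool.Agent.PWS

open Pool.Agent.PW Pool.Agent.PWM Pool.Agent.PWX
open scoped Classical

theorem Sws_dl_mem {g l h : ℕ} {i : Fin g} (h1 : l ≤ (i : ℕ)) (h2 : (i : ℕ) < l + h) :
    (dl i : F g 0) ∈ Let g l h := by
  unfold dl cm
  exact Subgroup.mul_mem _ (Subgroup.mul_mem _ (Subgroup.mul_mem _ (Hnd_ga_mem h1 h2)
    (Hnd_gb_mem h1 h2)) (Subgroup.inv_mem _ (Hnd_ga_mem h1 h2)))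
    (Subgroup.inv_mem _ (Hnd_gb_mem h1 h2))

/-- The inverse of the swap of two neighbours is a mapping class of the block of these two
handles. -/
theorem Sws_swap {g : ℕ} (i j : Fin g) (h : (j : ℕ) = i + 1) :
    (Sw (n := 0) i j h)⁻¹ ∈ Loc g i 2 := by
  have ai : (ga i : F g 0) ∈ Let g i 2 := Hnd_ga_mem le_rfl (by omega)
  have bi : (gb i : F g 0) ∈ Let g i 2 := Hnd_gb_mem le_rfl (by omega)
  have di : (dl i : F g 0) ∈ Let g i 2 := Sws_dl_mem le_rfl (by omega)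
  have aj : (ga j : F g 0) ∈ Let g i 2 := Hnd_ga_mem (by omega) (by omega)
  have bj : (gb j : F g 0) ∈ Let g i 2 := Hnd_gb_mem (by omega) (by omega)
  have dj : (dl j : F g 0) ∈ Let g i 2 := Sws_dl_mem (by omega) (by omega)
  have two : ∀ m : Fin g, (i : ℕ) ≤ (m : ℕ) → (m : ℕ) < i + 2 → m = i ∨ m = j := by
    intro m h1 h2
    by_cases h3 : (m : ℕ) = i
    · exact Or.inl (Fin.ext h3)
    · exact Or.inr (Fin.ext (by omega))
  apply Hnd_loc
  · exact inv_of_fix _ (Sw_bdry h)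
  · intro m hm
    have h1 : m ≠ i := by
      rintro rfl
      omega
    have h2 : m ≠ j := by
      rintro rfl
      omega
    exact ⟨inv_of_fix _ (Sw_a' h h1 h2), inv_of_fix _ (Sw_b' h h1 h2)⟩
  · intro m h1 h2
    rcases two m h1 h2 with rfl | rfl
    · rw [Sw_inv_ai, Sw_inv_bi]
      exact ⟨aj, bj⟩
    · rw [Sw_inv_aj, Sw_inv_bj]
      exact ⟨Subgroup.mul_mem _ (Subgroup.mul_mem _ (Subgroup.inv_mem _ dj) ai) dj,
        Subgroup.mul_mem _ (Subgroup.mul_mem _ (Subgroup.inv_mem _ dj) bi) dj⟩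
  · intro m h1 h2
    rw [inv_inv]
    rcases two m h1 h2 with rfl | rfl
    · rw [Sw_ai, Sw_bi]
      exact ⟨Subgroup.mul_mem _ (Subgroup.mul_mem _ di aj) (Subgroup.inv_mem _ di),
        Subgroup.mul_mem _ (Subgroup.mul_mem _ di bj) (Subgroup.inv_mem _ di)⟩
    · rw [Sw_aj, Sw_bj]
      exact ⟨ai, bi⟩

theorem Sws_aux (hMon : St_Mon) (g : ℕ) (i : Fin g) (d : ℕ) : ∀ j : Fin g, (j : ℕ) = i + d →
    ∃ ψ ∈ Loc g i (d + 1), ψ (ga i) = ga j ∧ ψ (gb i) = gb j := by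
  induction d with
  | zero =>
    intro j hj
    have e : j = i := Fin.ext (by omega)
    subst e
    exact ⟨1, Subgroup.one_mem _, rfl, rfl⟩
  | succ d ih =>
    intro j hj
    have hk : (i : ℕ) + d < g := by
      have := j.2
      omega
    obtain ⟨ψ, hψ, h1, h2⟩ := ih ⟨i + d, hk⟩ rfl
    have h : (j : ℕ) = ((⟨i + d, hk⟩ : Fin g) : ℕ) + 1 := by
      show (j : ℕ) = i + d + 1
      omega
    refine ⟨(Sw ⟨i + d, hk⟩ j h)⁻¹ * ψ, Subgroup.mul_mem _ ?_ ?_, ?_, ?_⟩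
    · refine (hMon g (i + d) 2 i (d + 1 + 1) (Nat.le_add_right _ _) (by omega)).1 ?_
      exact Sws_swap ⟨i + d, hk⟩ j h
    · exact (hMon g i (d + 1) i (d + 1 + 1) le_rfl (by omega)).1 hψ
    · rw [MulAut.mul_apply, h1, Sw_inv_ai]
    · rw [MulAut.mul_apply, h2, Sw_inv_bi]

theorem thm_Sws (hMon : St_Mon) : St_Sws := by
  intro g i j hij
  exact Sws_aux hMon g i ((j : ℕ) - (i : ℕ)) j (by omega)

end Pool.Agent.PWS
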