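import Pool.Agent.PWS.St
import Pool.Agent.PWM.Bas

/-!
Campaign PWS, module Tgt: tight homomorphisms (problem MP_26af1b_gt).
-/

set_option autoImplicit false

namespace Pool.Agent.PWS

open Pool.Agent.PW Pool.Agent.PWM Pool.Agent.PWX

theorem Tgt_dead {Q : Type} [Group Q] {g : ℕ} (ρ : F g 0 →* Q) (ψ : MulAut (F g 0))
    (hψ : ψ ∈ MCGd g) (h : Dead (pre ρ ψ)) : Dead ρ := by
  obtain ⟨φ, hφ, h0, h1, h2⟩ := h
  exact ⟨ψ * φ, mul_mem (MCGd_le g hψ) hφ, h0, h1, h2⟩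

theorem thm_Tgt (hPrp : St_Prp) (hFot : St_Fot) : St_Tgt := by
  intro p _ g ρ hg hd
  have hfull : ∀ ψ ∈ MCGd g, ∀ l, l + 120 ≤ g → (Let g l 120).map (pre ρ ψ) = ⊤ := by
    intro ψ hψ l hl
    by_contra hne
    exact hd (Tgt_dead ρ ψ hψ (hPrp p (pre ρ ψ) l 120 le_rfl hl hne))
  refine ⟨hfull, fun h1 => hd (hFot ρ h1 fun ψ hψ => ?_)⟩
  rw [eq_top_iff, ← hfull ψ hψ 1 (by omega)]
  apply Subgroup.map_mono
  unfold Let
  apply Subgroup.closure_mono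
  rintro x ⟨i, h2, h3, h4⟩
  exact ⟨i, h2, by omega, h4⟩

end Pool.Agent.PWS
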