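import Pool.Agent.PWS.St

/-!
Campaign PWS, module Trc: few traces of elements of small order.
-/

set_option autoImplicit false

namespace Pool.Agent.PWS

/-- an eigenvalue of an element of order dividing `d` -/
private theorem Trc_eig {p : ℕ} [Fact p.Prime] {K : Type*} [Field K] [Algebra (ZMod p) K]
    (x : SL p) (d : ℕ) (hx : x ^ d = 1) (μ : K)
    (hμ : μ ^ 2 - algebraMap (ZMod p) K (tr x) * μ + 1 = 0) : μ ^ d = 1 := by
  obtain ⟨X, hX⟩ : ∃ X : Matrix (Fin 2) (Fin 2) K,
    X = (x : M2 p).map (algebraMap (ZMod p) K) := ⟨_, rfl⟩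
  have hXd : X ^ d = 1 := by
    have h1 : X = (algebraMap (ZMod p) K).mapMatrix (x : M2 p) := hX
    rw [h1, ← map_pow, ← Matrix.SpecialLinearGroup.coe_pow, hx,
      Matrix.SpecialLinearGroup.coe_one, map_one]
  have hdet : (μ • (1 : Matrix (Fin 2) (Fin 2) K) - X).det = 0 := by
    have h1 : (x : M2 p) 0 0 * (x : M2 p) 1 1 - (x : M2 p) 0 1 * (x : M2 p) 1 0 = 1 := by
      have h2 := x.det_coe
      rwa [Matrix.det_fin_two] at h2
    have h3 := congrArg (algebraMap (ZMod p) K) h1
    simp only [map_sub, map_mul, map_one] at h3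
    have h4 : tr x = (x : M2 p) 0 0 + (x : M2 p) 1 1 := Matrix.trace_fin_two _
    rw [h4, map_add] at hμ
    rw [Matrix.det_fin_two, hX]
    simp only [Matrix.sub_apply, Matrix.smul_apply, Matrix.one_apply_eq, Matrix.map_apply,
      smul_eq_mul, mul_one]
    rw [Matrix.one_apply_ne (show (0 : Fin 2) ≠ 1 by decide),
      Matrix.one_apply_ne (show (1 : Fin 2) ≠ 0 by decide)]
    linear_combination hμ + h3
  have hcom : Commute (μ • (1 : Matrix (Fin 2) (Fin 2) K)) X :=
    (Commute.one_left X).smul_left μ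
  have h5 := hcom.mul_geom_sum₂ d
  have h6 := congrArg Matrix.det h5
  rw [Matrix.det_mul, hdet, zero_mul, hXd, smul_pow, one_pow] at h6
  have h7 : (μ ^ d • (1 : Matrix (Fin 2) (Fin 2) K) - 1).det = (μ ^ d - 1) ^ 2 := by
    have h8 : (μ ^ d • (1 : Matrix (Fin 2) (Fin 2) K) - 1) = (μ ^ d - 1) • 1 := by
      rw [sub_smul, one_smul]
    rw [h8, Matrix.det_smul, Matrix.det_one, mul_one, Fintype.card_fin]
  rw [h7] at h6
  exact sub_eq_zero.1 (pow_eq_zero_iff (two_ne_zero)|>.1 h6.symm)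

private theorem Trc_one {p : ℕ} [Fact p.Prime] (d : ℕ) (hd : 0 < d) :
    {τ : ZMod p | ∃ x : SL p, x ^ d = 1 ∧ tr x = τ}.ncard ≤ d := by
  obtain ⟨K, hK1, hK2, hK3⟩ : ∃ (K : Type) (_ : Field K) (_ : Algebra (ZMod p) K),
    IsAlgClosed K := ⟨AlgebraicClosure (ZMod p), inferInstance, inferInstance, inferInstance⟩
  have hinj : Function.Injective (algebraMap (ZMod p) K) := (algebraMap (ZMod p) K).injective
  rw [← Set.ncard_image_of_injective _ hinj]
  have hsub : algebraMap (ZMod p) K '' {τ : ZMod p | ∃ x : SL p, x ^ d = 1 ∧ tr x = τ} ⊆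
      (fun μ : K => μ + μ⁻¹) '' ((Polynomial.nthRootsFinset d (1 : K) : Finset K) : Set K) := by
    rintro _ ⟨τ, ⟨x, hx, rfl⟩, rfl⟩
    obtain ⟨μ, hμ⟩ := IsAlgClosed.exists_root
      (Polynomial.X ^ 2 - Polynomial.C (algebraMap (ZMod p) K (tr x)) * Polynomial.X + 1 :
        Polynomial K) (by
        have h1 : (Polynomial.X ^ 2 - Polynomial.C (algebraMap (ZMod p) K (tr x)) *
            Polynomial.X + 1 : Polynomial K).degree = 2 := by
          compute_degree!
        rw [h1]
        decide)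
    rw [Polynomial.IsRoot.def] at hμ
    simp only [Polynomial.eval_add, Polynomial.eval_sub, Polynomial.eval_mul,
      Polynomial.eval_pow, Polynomial.eval_X, Polynomial.eval_C, Polynomial.eval_one] at hμ
    have hμ0 : μ ≠ 0 := by
      intro h
      rw [h] at hμ
      simp at hμ
    refine ⟨μ, ?_, ?_⟩
    · rw [Finset.mem_coe, Polynomial.mem_nthRootsFinset hd]
      exact Trc_eig x d hx μ hμ
    · show μ + μ⁻¹ = _
      field_simp
      linear_combination hμ
  refine le_trans (Set.ncard_le_ncard hsub (Set.toFinite _)) ?_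
  refine le_trans (Set.ncard_image_le (Set.toFinite _)) ?_
  rw [Set.ncard_coe_finset]
  classical
  rw [Polynomial.nthRootsFinset_def]
  exact le_trans (Multiset.toFinset_card_le _) (Polynomial.card_nthRoots d 1)

theorem thm_Trc : St_Trc := by
  intro p _ t
  have : Finite (SL p) := inferInstance
  have hsub : {τ : ZMod p | ∃ x : SL p, orderOf x < t ∧ tr x = τ} ⊆
      ⋃ d ∈ Finset.Ico 1 t, {τ : ZMod p | ∃ x : SL p, x ^ d = 1 ∧ tr x = τ} := by
    rintro τ ⟨x, hx, rfl⟩
    rw [Set.mem_iUnion₂]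
    refine ⟨orderOf x, ?_, x, pow_orderOf_eq_one x, rfl⟩
    rw [Finset.mem_Ico]
    exact ⟨orderOf_pos x, hx⟩
  refine le_trans (Set.ncard_le_ncard hsub (Set.toFinite _)) ?_
  refine le_trans (Finset.set_ncard_biUnion_le _ _) ?_
  refine le_trans (Finset.sum_le_card_nsmul _ _ t fun d hd => ?_) ?_
  · rw [Finset.mem_Ico] at hd
    exact le_trans (Trc_one d (by omega)) (by omega)
  · rw [Nat.card_Ico, smul_eq_mul, sq]
    exact Nat.mul_le_mul_right _ (by omega)

end Pool.Agent.PWS
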