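import Pool.Agent.PWS.St

/-!
Campaign PWS, module Tri: triples in a conjugacy class.
-/

set_option autoImplicit false

namespace Pool.Agent.PWS

open Pool.Agent.PW Pool.Agent.PWM Pool.Agent.PWX
open scoped Classical Pointwise

/-- Counting by fibres. -/
private lemma Tri_fib {α β : Type} (S : Finset α) (T : Finset β) (f : α → β) (n : ℕ)
    (hf : ∀ a ∈ S, f a ∈ T)
    (hn : ∀ b ∈ T, ∀ S' : Finset α, (∀ a ∈ S', a ∈ S ∧ f a = b) → S'.card ≤ n) :
    S.card ≤ n * T.card :=
  Finset.card_le_mul_card_image_of_maps_to hf n fun b hb =>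
    hn b hb _ fun _ ha => Finset.mem_filter.mp ha

private lemma Tri_inj {α β : Type} (S : Finset α) (T : Finset β) (f : α → β) (n : ℕ)
    (hf : ∀ a ∈ S, f a ∈ T) (hi : ∀ a ∈ S, ∀ b ∈ S, f a = f b → a = b) (hT : T.card ≤ n) :
    S.card ≤ n :=
  (Finset.card_le_card_of_injOn f hf fun a ha b hb h => hi a ha b hb h).trans hT

theorem thm_Tri (hCom : St_Com) (hLin : St_Lin) (hLne : St_Lne) : St_Tri := by
  intro p _ hp τ Y M h2 h2' hY hM
  obtain ⟨hN1, hN2, hN3⟩ := hLne p hp τ h2 h2'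
  have hYM : ∀ w : M2 p, w ≠ 0 → w * w = 0 →
      (Y.filter fun y : SL p => Matrix.trace (w * (y : M2 p)) = 0).card ≤ 2 * M := by
    intro w h0 hw
    refine Tri_inj _ _ (fun y : SL p => (y : M2 p)) _ (fun y hy => ?_) (fun y _ z _ h => ?_)
      (hN2 w Y M h0 hw hY hM)
    · obtain ⟨h3, h4⟩ := Finset.mem_filter.mp hy
      refine Finset.mem_filter.mpr ⟨?_, h4⟩
      simp only [Finset.bind_def, Finset.pure_def, Finset.mem_sup, Finset.mem_singleton]
      exact ⟨y, h3, rfl⟩
    · exact Subtype.ext h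
  obtain ⟨T, hT⟩ : ∃ T : Finset (SL p × SL p × SL p), T = Y ×ˢ Y ×ˢ Y := ⟨_, rfl⟩
  have hTmem : ∀ t ∈ T, t.1 ∈ Y ∧ t.2.1 ∈ Y ∧ t.2.2 ∈ Y := by
    intro t ht
    rw [hT, Finset.mem_product, Finset.mem_product] at ht
    exact ht
  obtain ⟨B1, hB1⟩ : ∃ B1 : SL p × SL p × SL p → Prop, ∀ t, B1 t ↔
    t.1⁻¹ * t.2.1 ∈ Subgroup.center (SL p) := ⟨_, fun _ => Iff.rfl⟩
  obtain ⟨B2, hB2⟩ : ∃ B2 : SL p × SL p × SL p → Prop, ∀ t, B2 t ↔
    NC (t.1⁻¹ * t.2.1) ∧ t.1⁻¹ * t.2.2 ∈ Cz (t.1⁻¹ * t.2.1) := ⟨_, fun _ => Iff.rfl⟩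
  obtain ⟨B3, hB3⟩ : ∃ B3 : SL p × SL p × SL p → Prop, ∀ t, B3 t ↔
    ∃ w : M2 p, w ≠ 0 ∧ w * w = 0 ∧ Matrix.trace (w * (t.1 : M2 p)) = 0 ∧
      Matrix.trace (w * (t.2.1 : M2 p)) = 0 := ⟨_, fun _ => Iff.rfl⟩
  -- first kind
  have c1 : (T.filter B1).card ≤ 2 * (Y.card * Y.card) := by
    rw [← Finset.card_product]
    refine Tri_fib _ (Y ×ˢ Y) (fun t => (t.1, t.2.2)) 2 (fun t ht => ?_) (fun b _ S' hS' => ?_)
    · obtain ⟨h3, h4, h5⟩ := hTmem t (Finset.mem_filter.mp ht).1
      exact Finset.mem_product.mpr ⟨h3, h5⟩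
    · refine Tri_inj _ ({b.1, b.1 * -1} : Finset (SL p)) (fun t => t.2.1) 2 (fun t ht => ?_)
        (fun t ht t' ht' htt => ?_) Finset.card_le_two
      · obtain ⟨h3, h4⟩ := hS' t ht
        replace h3 := (Finset.mem_filter.mp h3).2
        have h5 : t.1 = b.1 := congrArg Prod.fst h4
        rw [hB1, (hCom p).2.1, h5] at h3
        rw [Finset.mem_insert, Finset.mem_singleton]
        rcases h3 with h3 | h3
        · left
          rw [inv_mul_eq_one] at h3
          exact h3.symm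
        · right
          rw [inv_mul_eq_iff_eq_mul] at h3
          exact h3
      · have h3 := (hS' t ht).2
        have h4 := (hS' t' ht').2
        have h5 : t.1 = t'.1 := (congrArg Prod.fst h3).trans (congrArg Prod.fst h4).symm
        have h6 : t.2.2 = t'.2.2 := (congrArg Prod.snd h3).trans (congrArg Prod.snd h4).symm
        exact Prod.ext h5 (Prod.ext htt h6)
  -- second kind
  have c2 : (T.filter B2).card ≤ M * (Y.card * Y.card) := by
    rw [← Finset.card_product]
    refine Tri_fib _ (Y ×ˢ Y) (fun t => (t.1, t.2.1)) M (fun t ht => ?_) (fun b _ S' hS' => ?_)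
    · obtain ⟨h3, h4, h5⟩ := hTmem t (Finset.mem_filter.mp ht).1
      exact Finset.mem_product.mpr ⟨h3, h4⟩
    · by_cases hnc : NC (b.1⁻¹ * b.2)
      · refine Tri_inj _ (Y.filter fun y => b.1⁻¹ * y ∈ Cz (b.1⁻¹ * b.2)) (fun t => t.2.2) M
          (fun t ht => ?_) (fun t ht t' ht' htt => ?_) (hM _ _ hnc)
        · obtain ⟨h6, h4⟩ := hS' t ht
          obtain ⟨h6, h3⟩ := Finset.mem_filter.mp h6
          have h5 : t.1 = b.1 := congrArg Prod.fst h4
          have h7 : t.2.1 = b.2 := congrArg Prod.snd h4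
          rw [hB2, h5, h7] at h3
          exact Finset.mem_filter.mpr ⟨(hTmem t h6).2.2, h3.2⟩
        · have h3 := (hS' t ht).2
          have h4 := (hS' t' ht').2
          have h5 : t.1 = t'.1 := (congrArg Prod.fst h3).trans (congrArg Prod.fst h4).symm
          have h6 : t.2.1 = t'.2.1 := (congrArg Prod.snd h3).trans (congrArg Prod.snd h4).symm
          exact Prod.ext h5 (Prod.ext h6 htt)
      · rw [Finset.card_eq_zero.mpr]
        · exact Nat.zero_le _
        · rw [Finset.eq_empty_iff_forall_notMem]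
          intro t ht
          obtain ⟨h3, h4⟩ := hS' t ht
          replace h3 := (Finset.mem_filter.mp h3).2
          have h5 : t.1 = b.1 := congrArg Prod.fst h4
          have h7 : t.2.1 = b.2 := congrArg Prod.snd h4
          rw [hB2, h5, h7] at h3
          exact hnc h3.1
  -- third kind
  have c3 : (T.filter B3).card ≤ (2 * M + 2 * M) * (Y.card * Y.card) := by
    rw [← Finset.card_product]
    refine Tri_fib _ (Y ×ˢ Y) (fun t => (t.1, t.2.2)) (2 * M + 2 * M) (fun t ht => ?_)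
      (fun b hb S' hS' => ?_)
    · obtain ⟨h3, h4, h5⟩ := hTmem t (Finset.mem_filter.mp ht).1
      exact Finset.mem_product.mpr ⟨h3, h5⟩
    · obtain ⟨w₁, w₂, h3, h4, h5, h6, h7⟩ := hN3 b.1 (hY _ (Finset.mem_product.mp hb).1)
      refine Tri_inj _ ((Y.filter fun y : SL p => Matrix.trace (w₁ * (y : M2 p)) = 0) ∪
        (Y.filter fun y : SL p => Matrix.trace (w₂ * (y : M2 p)) = 0)) (fun t => t.2.1) _
        (fun t ht => ?_) (fun t ht t' ht' htt => ?_)
        ((Finset.card_union_le _ _).trans (Nat.add_le_add (hYM _ h3 h4) (hYM _ h5 h6)))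
      · obtain ⟨h8, h10⟩ := hS' t ht
        obtain ⟨h8, h9⟩ := Finset.mem_filter.mp h8
        have h11 : t.1 = b.1 := congrArg Prod.fst h10
        rw [hB3, h11] at h9
        obtain ⟨w, hw0, hww, hw1, hw2⟩ := h9
        rw [Finset.mem_union, Finset.mem_filter, Finset.mem_filter]
        rcases h7 w hw0 hww hw1 with h | h
        · exact Or.inl ⟨(hTmem t h8).2.1, h _ hw2⟩
        · exact Or.inr ⟨(hTmem t h8).2.1, h _ hw2⟩
      · have h3 := (hS' t ht).2
        have h4 := (hS' t' ht').2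
        have h5 : t.1 = t'.1 := (congrArg Prod.fst h3).trans (congrArg Prod.fst h4).symm
        have h6 : t.2.2 = t'.2.2 := (congrArg Prod.snd h3).trans (congrArg Prod.snd h4).symm
        exact Prod.ext h5 (Prod.ext htt h6)
  -- the good triples
  have c4 : (T.filter fun t => ¬ B1 t ∧ ¬ B2 t ∧ ¬ B3 t).card ≤
      2 * ((Y⁻¹ * Y).card * (Y⁻¹ * Y).card) := by
    rw [← Finset.card_product]
    refine Tri_fib _ ((Y⁻¹ * Y) ×ˢ (Y⁻¹ * Y)) (fun t => (t.1⁻¹ * t.2.1, t.1⁻¹ * t.2.2)) 2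
      (fun t ht => ?_) (fun b _ S' hS' => ?_)
    · obtain ⟨h3, h4, h5⟩ := hTmem t (Finset.mem_filter.mp ht).1
      exact Finset.mem_product.mpr ⟨Finset.mul_mem_mul (Finset.inv_mem_inv h3) h4,
        Finset.mul_mem_mul (Finset.inv_mem_inv h3) h5⟩
    · obtain ⟨u, v⟩ := b
      -- the elements of the fibre
      have hfib : ∀ t ∈ S',
          t.2.1 = t.1 * u ∧ t.2.2 = t.1 * v ∧ t.1 ∈ Y ∧ t.2.1 ∈ Y ∧ t.2.2 ∈ Y ∧ ¬ B1 t ∧
            ¬ B2 t ∧ ¬ B3 t := by
        intro t ht
        obtain ⟨h3, h7⟩ := hS' t ht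
        obtain ⟨h3, h4, h5, h6⟩ := Finset.mem_filter.mp h3
        obtain ⟨h8, h9, h10⟩ := hTmem t h3
        have h11 : t.1⁻¹ * t.2.1 = u := congrArg Prod.fst h7
        have h12 : t.1⁻¹ * t.2.2 = v := congrArg Prod.snd h7
        exact ⟨inv_mul_eq_iff_eq_mul.mp h11, inv_mul_eq_iff_eq_mul.mp h12, h8, h9, h10, h4, h5, h6⟩
      by_cases hne : S' = ∅
      · rw [hne, Finset.card_empty]
        exact Nat.zero_le _
      · obtain ⟨t, ht⟩ := Finset.nonempty_iff_ne_empty.mpr hne
        obtain ⟨h3, h4, h5, h6, h7, h8, h9, h10⟩ := hfib t ht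
        have h11 : t.1⁻¹ * t.2.1 = u := by rw [h3, inv_mul_cancel_left]
        have h12 : t.1⁻¹ * t.2.2 = v := by rw [h4, inv_mul_cancel_left]
        rw [hB1, h11] at h8
        rw [hB2, h11, h12] at h9
        have hvu : v ∉ Cz u := fun h => h9 ⟨h8, h⟩
        rcases hLin p τ u v h8 hvu with h13 | ⟨w, hw0, hww, hwu, hwv, hwy⟩
        · obtain ⟨S, hS⟩ : ∃ S : Finset (SL p), S = Finset.univ.filter fun y : SL p =>
            tr y = τ ∧ tr (y * u) = τ ∧ tr (y * v) = τ := ⟨_, rfl⟩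
          have hSc : S.card ≤ 2 := by
            rw [← Set.ncard_coe_finset]
            have h14 : (S : Set (SL p)) =
                {y : SL p | tr y = τ ∧ tr (y * u) = τ ∧ tr (y * v) = τ} := by
              rw [hS]
              ext y
              simp
            rw [h14]
            exact h13
          refine Tri_inj _ S (fun t => t.1) 2 (fun s hs => ?_) (fun s hs s' hs' hss => ?_) hSc
          · obtain ⟨a1, a2, a3, a4, a5, _⟩ := hfib s hs
            rw [hS, Finset.mem_filter]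
            refine ⟨Finset.mem_univ _, hY _ a3, ?_, ?_⟩
            · rw [← a1]
              exact hY _ a4
            · rw [← a2]
              exact hY _ a5
          · obtain ⟨a1, a2, _⟩ := hfib s hs
            obtain ⟨b1, b2, _⟩ := hfib s' hs'
            have hss' : s.1 = s'.1 := hss
            refine Prod.ext hss' (Prod.ext ?_ ?_)
            · rw [a1, b1, hss']
            · rw [a2, b2, hss']
        · exfalso
          apply h10
          rw [hB3]
          have hy0 : Matrix.trace (w * (t.1 : M2 p)) = 0 := by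
            apply hwy _ (hY _ h5)
            · rw [← h3]
              exact hY _ h6
            · rw [← h4]
              exact hY _ h7
          refine ⟨w, hw0, hww, hy0, ?_⟩
          rw [h3]
          exact hN1 w t.1 u hw0 hww hy0 hwu
  -- the sum
  have hcov : T ⊆ (T.filter B1 ∪ T.filter B2) ∪ (T.filter B3 ∪
      T.filter fun t => ¬ B1 t ∧ ¬ B2 t ∧ ¬ B3 t) := by
    intro t ht
    simp only [Finset.mem_union, Finset.mem_filter]
    tauto
  have hsum := (Finset.card_le_card hcov).trans ((Finset.card_union_le _ _).trans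
    (Nat.add_le_add (Finset.card_union_le _ _) (Finset.card_union_le _ _)))
  have hTc : T.card = Y.card ^ 3 := by
    rw [hT, Finset.card_product, Finset.card_product]
    ring
  rw [hTc] at hsum
  calc Y.card ^ 3 ≤ 2 * (Y.card * Y.card) + M * (Y.card * Y.card) +
        ((2 * M + 2 * M) * (Y.card * Y.card) + 2 * ((Y⁻¹ * Y).card * (Y⁻¹ * Y).card)) :=
        hsum.trans (Nat.add_le_add (Nat.add_le_add c1 c2) (Nat.add_le_add c3 c4))
    _ = 2 * (Y⁻¹ * Y).card ^ 2 + (2 + 5 * M) * Y.card ^ 2 := by ring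

end Pool.Agent.PWS
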