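import Pool.Agent.PWS.St

/-!
Campaign PWS, module Upb: the upper bound.
-/

set_option autoImplicit false

namespace Pool.Agent.PWS

open Pool.Agent.PW Pool.Agent.PWM Pool.Agent.PWX
open scoped Classical Pointwise

/-- A matrix is determined by its traces against a basis. -/
private lemma Upb_inj {p : ℕ} [Fact p.Prime] (e : Fin 4 → SL p)
    (he : LinearIndependent (ZMod p) (fun i => (e i : M2 p))) (y z : M2 p)
    (h : ∀ i, Matrix.trace ((e i : M2 p) * y) = Matrix.trace ((e i : M2 p) * z)) : y = z := by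
  rw [Matrix.ext_iff_trace_mul_left]
  intro v
  have hspan : Submodule.span (ZMod p) (Set.range fun i => (e i : M2 p)) = ⊤ := by
    apply he.span_eq_top_of_card_eq_finrank'
    rw [Fintype.card_fin, Module.finrank_matrix]
    simp
  have hv : v ∈ Submodule.span (ZMod p) (Set.range fun i => (e i : M2 p)) := by
    rw [hspan]
    exact Submodule.mem_top
  induction hv using Submodule.span_induction with
  | mem x hx =>
    obtain ⟨i, rfl⟩ := hx
    exact h i
  | zero => rw [zero_mul, zero_mul]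
  | add x x' _ _ h1 h2 => rw [add_mul, add_mul, Matrix.trace_add, Matrix.trace_add, h1, h2]
  | smul c x _ h1 => rw [smul_mul_assoc, smul_mul_assoc, Matrix.trace_smul, Matrix.trace_smul, h1]

theorem thm_Upb (hMon : St_Mon) (hPrd : St_Prd) (hTrc : St_Trc) (hBas : St_Bas) : St_Upb := by
  intro p _ g ρ u l h s hT hul hlh hs
  obtain ⟨e, he, he1⟩ := hBas p ρ u 0 hT (by omega)
  obtain ⟨T, hTdef⟩ : ∃ T : Set (ZMod p), T = {τ | ∃ x : SL p, orderOf x < s + 1 ∧ tr x = τ} :=
    ⟨_, rfl⟩
  have hTc : T.ncard ≤ (s + 1) ^ 2 := by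
    rw [hTdef]
    exact hTrc p (s + 1)
  have hTfin : T.Finite := Set.toFinite T
  -- the products are simple curves
  have hmem : ∀ y ∈ Sm ρ l h, ∀ i, e i * y ∈ Sm ρ 0 g := by
    intro y hy i
    rcases he1 i with h1 | h1
    · rw [h1, one_mul]
      exact (hMon g l h 0 g (Nat.zero_le _) (by omega)).2 ρ hy
    · have h2 : e i ∈ Sm ρ 0 l :=
        (hMon g 0 (3 * u) 0 l le_rfl (by omega)).2 ρ h1
      have h3 : y ∈ Sm ρ (0 + l) h := by rw [Nat.zero_add]; exact hy
      exact (hMon g 0 (l + h) 0 g le_rfl (by omega)).2 ρ (hPrd ρ 0 l h _ _ h2 h3)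
  have hmap : ∀ y ∈ Sm ρ l h, ∀ i, tr (e i * y) ∈ T := by
    intro y hy i
    rw [hTdef]
    exact ⟨e i * y, Nat.lt_succ_of_le (hs _ (hmem y hy i)), rfl⟩
  have h1 : (Sm ρ l h).ncard ≤ (Set.univ.pi fun _ : Fin 4 => T).ncard := by
    refine Set.ncard_le_ncard_of_injOn (fun y i => tr (e i * y)) ?_ ?_ ?_
    · intro y hy
      exact fun i _ => hmap y hy i
    · intro y _ z _ hyz
      apply Subtype.ext
      apply Upb_inj e he
      intro i
      have h2 := congrFun hyz i
      exact h2
    · exact Set.toFinite _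
  have h2 : (Set.univ.pi fun _ : Fin 4 => T).ncard = T.ncard ^ 4 := by
    have h3 : (Set.univ.pi fun _ : Fin 4 => T) =
        ((Fintype.piFinset fun _ : Fin 4 => hTfin.toFinset : Finset (Fin 4 → ZMod p)) :
          Set (Fin 4 → ZMod p)) := by
      ext f
      rw [Set.mem_univ_pi, Finset.mem_coe, Fintype.mem_piFinset]
      exact forall_congr' fun i => (Set.Finite.mem_toFinset hTfin).symm
    rw [h3, Set.ncard_coe_finset, Fintype.card_piFinset, Finset.prod_const, Finset.card_univ,
      Fintype.card_fin, Set.ncard_eq_toFinset_card T hTfin]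
  rw [h2] at h1
  refine h1.trans ?_
  calc T.ncard ^ 4 ≤ ((s + 1) ^ 2) ^ 4 := Nat.pow_le_pow_left hTc 4
    _ = (s + 1) ^ 8 := by rw [← pow_mul]

end Pool.Agent.PWS
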