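import Pool.Agent.PWS.Ari
import Pool.Agent.PWS.Bas
import Pool.Agent.PWS.Blk
import Pool.Agent.PWS.Cen
import Pool.Agent.PWS.Cls
import Pool.Agent.PWS.Com
import Pool.Agent.PWS.Cor
import Pool.Agent.PWS.Cst
import Pool.Agent.PWS.Cyc
import Pool.Agent.PWS.Ded
import Pool.Agent.PWS.Dik
import Pool.Agent.PWS.Dka
import Pool.Agent.PWS.End
import Pool.Agent.PWS.Ext
import Pool.Agent.PWS.Flo
import Pool.Agent.PWS.Flw
import Pool.Agent.PWS.Fot
import Pool.Agent.PWS.Frm
import Pool.Agent.PWS.Gen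
import Pool.Agent.PWS.Gn2
import Pool.Agent.PWS.Gow
import Pool.Agent.PWS.Gro
import Pool.Agent.PWS.Hel
import Pool.Agent.PWS.Hnd
import Pool.Agent.PWS.Itr
import Pool.Agent.PWS.Lin
import Pool.Agent.PWS.Lne
import Pool.Agent.PWS.Mon
import Pool.Agent.PWS.Mtw
import Pool.Agent.PWS.Nrm
import Pool.Agent.PWS.One
import Pool.Agent.PWS.Orb
import Pool.Agent.PWS.Par
import Pool.Agent.PWS.Piv
import Pool.Agent.PWS.Prd
import Pool.Agent.PWS.Pre
import Pool.Agent.PWS.Prp
import Pool.Agent.PWS.Reg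
import Pool.Agent.PWS.Rep
import Pool.Agent.PWS.Ruz
import Pool.Agent.PWS.Scl
import Pool.Agent.PWS.Seq
import Pool.Agent.PWS.Spc
import Pool.Agent.PWS.Spn
import Pool.Agent.PWS.Sws
import Pool.Agent.PWS.Tgt
import Pool.Agent.PWS.Trc
import Pool.Agent.PWS.Tri
import Pool.Agent.PWS.Upb

/-!
Campaign PWS: assembly of the core theorem.
-/

set_option autoImplicit false

namespace Pool.Agent.PWS

theorem all_Cor : St_Cor := by
  have hCom : St_Com := thm_Com
  have hCen : St_Cen := thm_Cen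
  have hNrm : St_Nrm := thm_Nrm hCom hCen
  have hSeq : St_Seq := thm_Seq hCom
  have hGn2 : St_Gn2 := thm_Gn2
  have hMon : St_Mon := thm_Mon
  have hHnd : St_Hnd := thm_Hnd
  have hSws : St_Sws := thm_Sws hMon
  have hExt : St_Ext := thm_Ext
  have hPrd : St_Prd := thm_Prd hMon hSws hExt
  have hGen : St_Gen := thm_Gen hMon hHnd
  have hPar : St_Par := thm_Par hMon hPrd
  have hFrm : St_Frm := thm_Frm hSws hExt
  have hMtw : St_Mtw := thm_Mtw
  have hPre : St_Pre := thm_Pre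
  have hBlk : St_Blk := thm_Blk
  have hDed : St_Ded := thm_Ded
  have hCst : St_Cst := thm_Cst
  have hFot : St_Fot := thm_Fot hSws
  have hTrc : St_Trc := thm_Trc
  have hSpn : St_Spn := thm_Spn
  have hCyc : St_Cyc := thm_Cyc hCen
  have hDik : St_Dik := thm_Dik hCom hCen hGn2 thm_Dka
  have hPrp : St_Prp := thm_Prp hCom hDik hCyc hCst hDed hBlk
  have hTgt : St_Tgt := thm_Tgt hPrp hFot
  have hRuz : St_Ruz := thm_Ruz
  have hOne : St_One := thm_One hCom hNrm
  have hLin : St_Lin := thm_Lin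
  have hLne : St_Lne := thm_Lne hCom
  have hTri : St_Tri := thm_Tri hCom hLin hLne
  have hCls : St_Cls := thm_Cls hOne hTri
  have hOrb : St_Orb := thm_Orb hCls
  have hReg : St_Reg := thm_Reg hCom
  have hPiv : St_Piv := thm_Piv hCom hCen hOrb
  have hHel : St_Hel := thm_Hel hCom hCen hOrb hReg hPiv
  have hRep : St_Rep := thm_Rep hGn2
  have hSpc : St_Spc := thm_Spc
  have hGow : St_Gow := thm_Gow hCom hRep hSpc
  have hBas : St_Bas := thm_Bas hMon hPrd hGen hSpn
  have hUpb : St_Upb := thm_Upb hMon hPrd hTrc hBas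
  have hGro : St_Gro := thm_Gro hMon hPar
  have hFlo : St_Flo := thm_Flo hCom hNrm hSeq
  have hFlw : St_Flw := thm_Flw hCom hMon hHnd hFrm hMtw hPre hTrc hFlo
  have hEnd : St_End := thm_End hCom hMon hPrd hGen hRuz hHel hGow
  exact thm_Cor hCom hMon hCst hDed hTgt hGro hUpb thm_Ari hFlw hPre thm_Scl hEnd

end Pool.Agent.PWS
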