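import Pool.Agent.PWS.St

/-!
Campaign PWS, module Ari: the choice of the constants.
-/

set_option autoImplicit false

namespace Pool.Agent.PWS

theorem Ari_gen (R e c0 m : ℕ) (hm : 1 ≤ m) (hc0 : 1 ≤ c0) (he : 1 ≤ e) (hR : 16 * e < R + e) :
    ∃ S : ℕ, ∀ s, S ≤ s → ∃ K : ℕ, 1 ≤ K ∧ 4 * m * (c0 * K ^ e) ^ 2 < s ∧
      (s + 1) ^ 8 < K ^ R * (c0 * K ^ e) := by
  set c : ℕ := 4 * m * c0 ^ 2 * 2 ^ (2 * e) with hc
  set B : ℕ := (2 * c) ^ 8 + 1 with hB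
  refine ⟨4 * m * (c0 * B ^ e) ^ 2 + 1, fun s hs => ?_⟩
  have hex : ∃ j : ℕ, s ≤ 4 * m * (c0 * j ^ e) ^ 2 := by
    refine ⟨s, ?_⟩
    have h1 : s ≤ s ^ e := Nat.le_self_pow (by omega) s
    have h2 : s ≤ c0 * s ^ e := h1.trans (Nat.le_mul_of_pos_left _ hc0)
    have h3 : c0 * s ^ e ≤ (c0 * s ^ e) ^ 2 := Nat.le_self_pow (by omega) _
    exact (h2.trans h3).trans (Nat.le_mul_of_pos_left _ (by omega))
  classical
  set j := Nat.find hex with hj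
  have hj1 : s ≤ 4 * m * (c0 * j ^ e) ^ 2 := Nat.find_spec hex
  have hj2 : B < j := by
    by_contra hcon
    push Not at hcon
    have h1 : 4 * m * (c0 * j ^ e) ^ 2 ≤ 4 * m * (c0 * B ^ e) ^ 2 := by gcongr
    omega
  obtain ⟨K, hK⟩ : ∃ K, j = K + 1 := ⟨j - 1, by omega⟩
  have hKB : B ≤ K := by omega
  have hK1 : 1 ≤ K := by omega
  have hK2 : 4 * m * (c0 * K ^ e) ^ 2 < s := by
    by_contra hcon
    push Not at hcon
    have := Nat.find_min' hex hcon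
    omega
  refine ⟨K, hK1, hK2, ?_⟩
  rw [hK] at hj1
  have e1 : s ≤ c * K ^ (2 * e) := by
    refine hj1.trans ?_
    calc 4 * m * (c0 * (K + 1) ^ e) ^ 2 ≤ 4 * m * (c0 * (2 * K) ^ e) ^ 2 := by
          gcongr
          omega
      _ = c * K ^ (2 * e) := by
          rw [hc, mul_pow, mul_pow, mul_pow, ← pow_mul, ← pow_mul, Nat.mul_comm e 2]
          ring
  have hs1 : 1 ≤ s := by omega
  calc (s + 1) ^ 8 ≤ (2 * s) ^ 8 := by
        gcongr
        omega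
    _ ≤ (2 * (c * K ^ (2 * e))) ^ 8 := by gcongr
    _ = (2 * c) ^ 8 * K ^ (16 * e) := by
        rw [← mul_assoc, mul_pow, ← pow_mul]
        congr 2
        ring
    _ < K * K ^ (16 * e) := by
        apply Nat.mul_lt_mul_of_pos_right
        · omega
        · positivity
    _ = K ^ (16 * e + 1) := by ring
    _ ≤ K ^ (R + e) := Nat.pow_le_pow_right hK1 (by omega)
    _ = K ^ R * K ^ e := pow_add _ _ _
    _ ≤ K ^ R * (c0 * K ^ e) := by
        apply Nat.mul_le_mul_left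
        exact Nat.le_mul_of_pos_left _ hc0

theorem thm_Ari : St_Ari := by
  obtain ⟨R, hR⟩ : ∃ R : ℕ, R = 9300 := ⟨_, rfl⟩
  obtain ⟨S, hS⟩ := Ari_gen R 612 (10 ^ 32) (3 ^ R)
    (Nat.one_le_pow _ _ (by norm_num)) (Nat.one_le_pow _ _ (by norm_num))
    (by norm_num) (by omega)
  refine ⟨R, S, fun s hs => ?_⟩
  obtain ⟨K, h1, h2, h3⟩ := hS s hs
  exact ⟨K, 10 ^ 32 * K ^ 612, h1, rfl, h2, h3⟩

end Pool.Agent.PWS
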