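import Pool.Agent.PWS.St
import Pool.Agent.PWB.Main

/-!
Campaign PWS, module Fin: covers whose deck group is an extension of a subquotient of `SL_2(F_p)` by
an abelian group.
-/

set_option autoImplicit false

namespace Pool.Agent.PWS

open Pool.Agent.PW Pool.Agent.PWM Pool.Agent.PWX Pool.Agent.PWB
open scoped commutatorElement

theorem thm_Fin (hTwo : St_Two) (hCor : St_Cor) : St_Fin := by
  obtain ⟨g₀, h0, hg₀⟩ := hCor
  refine ⟨g₀ + 1, ?_⟩
  intro p _ g n hg ρ K _ hK hR f hf hne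
  obtain ⟨φ, hφ, h1⟩ := hTwo g₀ h0 (fun ρ => hg₀ p ρ) ρ hg
  have hNc : ⁅ρ.ker, ρ.ker⁆ ≤ K.normalCore := Subgroup.normal_le_normalCore.2 hK
  have hBn : ((ρ.ker).map (QuotientGroup.mk' K.normalCore)).Normal :=
    Subgroup.Normal.map inferInstance _ (QuotientGroup.mk'_surjective _)
  refine infinite_of_block (by omega) K hR ((ρ.ker).map (QuotientGroup.mk' K.normalCore)) ?_ hφ
    (fun i hi => ⟨?_, ?_⟩) hf hne
  · rintro _ ⟨x, hx, rfl⟩ _ ⟨y, hy, rfl⟩
    rw [← map_mul, ← map_mul]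
    rw [QuotientGroup.mk'_apply, QuotientGroup.mk'_apply, QuotientGroup.eq]
    apply hNc
    have e : (x * y)⁻¹ * (y * x) = ⁅y⁻¹, x⁻¹⁆ := by
      rw [commutatorElement_def]
      group
    rw [e]
    exact Subgroup.commutator_mem_commutator (ρ.ker.inv_mem hy) (ρ.ker.inv_mem hx)
  · exact ⟨φ (ga i), (h1 i hi).1, rfl⟩
  · exact ⟨φ (gb i), (h1 i hi).2, rfl⟩

end Pool.Agent.PWS
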