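import Pool.Agent.PWS.St

set_option autoImplicit false

namespace Pool.Agent.PWS

open Pool.Agent.PW Pool.Agent.PWM Pool.Agent.PWX
open scoped Classical Pointwise

theorem thm_Gen (hMon : St_Mon) (hHnd : St_Hnd) : St_Gen := by
  intro Q _ g ρ l h
  apply le_antisymm
  · rw [Subgroup.closure_le]
    rintro q ⟨ψ, hψ, i, h1, h2, rfl⟩
    refine ⟨ψ (ga i), ?_, rfl⟩
    exact (hψ.2.2 (ga i)).1 (Subgroup.subset_closure ⟨i, h1, h2, Or.inl rfl⟩)
  · unfold Let
    rw [MonoidHom.map_closure, Subgroup.closure_le]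
    rintro _ ⟨x, ⟨i, h1, h2, hx⟩, rfl⟩
    rcases hx with rfl | rfl
    · exact Subgroup.subset_closure ⟨1, Subgroup.one_mem _, i, h1, h2, rfl⟩
    · obtain ⟨ψ, hψ, he⟩ := (hHnd g i).2.2
      have h3 : ρ (gb i)⁻¹ ∈ Sm ρ l h := by
        refine (hMon g i 1 l h h1 (by omega)).2 ρ ?_
        exact ⟨ψ, hψ, i, le_rfl, Nat.lt_succ_self _, by rw [he]⟩
      have h4 := Subgroup.inv_mem _ (Subgroup.subset_closure h3)
      rw [map_inv, inv_inv] at h4
      exact h4

end Pool.Agent.PWS
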