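import Pool.Agent.PWS.St

/-!
Campaign PWS, module Reg: there is a regular semisimple element.
-/

set_option autoImplicit false

namespace Pool.Agent.PWS

open Pool.Agent.PW Pool.Agent.PWM Pool.Agent.PWX
open scoped Classical Pointwise

section

variable {F : Type} [Field F]

/-- The identity behind the commutation of two elements. -/
private lemma Reg_sq (a0 a1 a2 a3 b0 b1 b2 b3 : F) (h2 : (2 : F) ≠ 0)
    (ha : (a0 - a3) ^ 2 + 4 * (a1 * a2) = 0) (hb : (b0 - b3) ^ 2 + 4 * (b1 * b2) = 0)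
    (hab : (a0 - a3) * (b0 - b3) + 2 * (a1 * b2 + a2 * b1) = 0) :
    a1 * b2 = a2 * b1 ∧ (a0 - a3) * b1 = a1 * (b0 - b3) ∧ (a0 - a3) * b2 = a2 * (b0 - b3) := by
  have h4 : (4 : F) ≠ 0 := by
    have : (4 : F) = 2 * 2 := by norm_num
    rw [this]
    exact mul_ne_zero h2 h2
  have e1 : a1 * b2 = a2 * b1 := by
    have h : 4 * (a1 * b2 - a2 * b1) ^ 2 = 0 := by
      linear_combination (-((a0 - a3) * (b0 - b3)) + 2 * (a1 * b2 + a2 * b1)) * hab +
        (b0 - b3) ^ 2 * ha - 4 * (a1 * a2) * hb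
    have h5 := (mul_eq_zero.mp h).resolve_left h4
    have h6 : a1 * b2 - a2 * b1 = 0 := by
      exact pow_eq_zero_iff (n := 2) (by norm_num) |>.mp h5
    exact sub_eq_zero.mp h6
  refine ⟨e1, ?_, ?_⟩
  · have h : ((a0 - a3) * b1 - a1 * (b0 - b3)) ^ 2 = 0 := by
      linear_combination b1 ^ 2 * ha + a1 ^ 2 * hb - 2 * a1 * b1 * hab
    exact sub_eq_zero.mp (pow_eq_zero_iff (n := 2) (by norm_num) |>.mp h)
  · have h : ((a0 - a3) * b2 - a2 * (b0 - b3)) ^ 2 = 0 := by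
      linear_combination b2 ^ 2 * ha + a2 ^ 2 * hb - 2 * a2 * b2 * hab
    exact sub_eq_zero.mp (pow_eq_zero_iff (n := 2) (by norm_num) |>.mp h)

end

/-- The determinant in coordinates. -/
private lemma Reg_det {p : ℕ} (x : SL p) :
    (x : M2 p) 0 0 * (x : M2 p) 1 1 - (x : M2 p) 0 1 * (x : M2 p) 1 0 = 1 := by
  have h := x.2
  rw [Matrix.det_fin_two] at h
  exact h

private lemma Reg_tr {p : ℕ} (x : SL p) : tr x = (x : M2 p) 0 0 + (x : M2 p) 1 1 := by
  unfold tr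
  rw [Matrix.trace_fin_two]

private lemma Reg_mul {p : ℕ} (x y : SL p) (i j : Fin 2) : ((x * y : SL p) : M2 p) i j =
    (x : M2 p) i 0 * (y : M2 p) 0 j + (x : M2 p) i 1 * (y : M2 p) 1 j := by
  rw [Matrix.SpecialLinearGroup.coe_mul, Matrix.mul_apply, Fin.sum_univ_two]

private lemma Reg_inv {p : ℕ} (x : SL p) : ((x⁻¹ : SL p) : M2 p) =
    !![(x : M2 p) 1 1, -(x : M2 p) 0 1; -(x : M2 p) 1 0, (x : M2 p) 0 0] := by
  rw [Matrix.SpecialLinearGroup.SL2_inv_expl]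
  rfl

private lemma Reg_tr_mul {p : ℕ} (x y : SL p) : tr (x * y) =
    (x : M2 p) 0 0 * (y : M2 p) 0 0 + (x : M2 p) 0 1 * (y : M2 p) 1 0 +
      ((x : M2 p) 1 0 * (y : M2 p) 0 1 + (x : M2 p) 1 1 * (y : M2 p) 1 1) := by
  rw [Reg_tr, Reg_mul, Reg_mul]

private lemma Reg_tr_inv {p : ℕ} (x y : SL p) : tr (x * y) + tr (x * y⁻¹) = tr x * tr y := by
  rw [Reg_tr_mul, Reg_tr_mul, Reg_inv, Reg_tr, Reg_tr]
  simp only [Matrix.of_apply, Matrix.cons_val', Matrix.cons_val_zero, Matrix.cons_val_one,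
    Matrix.cons_val_fin_one]
  ring

private lemma Reg_two {p : ℕ} [Fact p.Prime] (hp : 3 ≤ p) : (2 : ZMod p) ≠ 0 := by
  intro h
  have h1 : ((2 : ℕ) : ZMod p) = 0 := by exact_mod_cast h
  rw [ZMod.natCast_eq_zero_iff] at h1
  have := Nat.le_of_dvd (by norm_num) h1
  omega

/-- The commutation. -/
private lemma Reg_comm {p : ℕ} [Fact p.Prime] (hp : 3 ≤ p) (a b : SL p)
    (ha : tr a = 2 ∨ tr a = -2) (hb : tr b = 2 ∨ tr b = -2)
    (hab : tr (a * b) = 2 ∨ tr (a * b) = -2) (hab' : tr (a * b⁻¹) = 2 ∨ tr (a * b⁻¹) = -2) :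
    a * b = b * a := by
  have h2 := Reg_two (p := p) hp
  have h4 : (4 : ZMod p) ≠ 0 := by
    have : (4 : ZMod p) = 2 * 2 := by norm_num
    rw [this]
    exact mul_ne_zero h2 h2
  have hs := Reg_tr_inv a b
  -- `2 tr (a b) = tr a tr b`
  have key : 2 * tr (a * b) = tr a * tr b := by
    have hsq : (tr a * tr b) ^ 2 = 16 := by
      rcases ha with ha | ha <;> rcases hb with hb | hb <;> rw [ha, hb] <;> norm_num
    have hne : tr a * tr b ≠ 0 := by
      intro h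
      rw [h] at hsq
      have h16 : (16 : ZMod p) = 4 * 4 := by norm_num
      rw [h16] at hsq
      exact mul_ne_zero h4 h4 (by rw [← hsq]; ring)
    rcases hab with h | h <;> rcases hab' with h' | h'
    · rw [h, h'] at hs
      rw [h, ← hs]
      ring
    · rw [h, h'] at hs
      exact absurd (by rw [← hs]; ring) hne
    · rw [h, h'] at hs
      exact absurd (by rw [← hs]; ring) hne
    · rw [h, h'] at hs
      rw [h, ← hs]
      ring
  have hta : tr a ^ 2 = 4 := by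
    rcases ha with ha | ha <;> rw [ha] <;> norm_num
  have htb : tr b ^ 2 = 4 := by
    rcases hb with hb | hb <;> rw [hb] <;> norm_num
  have hda := Reg_det a
  have hdb := Reg_det b
  rw [Reg_tr] at hta htb
  rw [Reg_tr_mul, Reg_tr, Reg_tr] at key
  obtain ⟨e1, e2, e3⟩ := Reg_sq _ ((a : M2 p) 0 1) ((a : M2 p) 1 0) _ _ ((b : M2 p) 0 1)
    ((b : M2 p) 1 0) _ h2
    (show ((a : M2 p) 0 0 - (a : M2 p) 1 1) ^ 2 + 4 * ((a : M2 p) 0 1 * (a : M2 p) 1 0) = 0 by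
      linear_combination hta - 4 * hda)
    (show ((b : M2 p) 0 0 - (b : M2 p) 1 1) ^ 2 + 4 * ((b : M2 p) 0 1 * (b : M2 p) 1 0) = 0 by
      linear_combination htb - 4 * hdb)
    (by linear_combination key)
  ext i j
  rw [Reg_mul, Reg_mul]
  fin_cases i <;> fin_cases j
  · show (a : M2 p) 0 0 * (b : M2 p) 0 0 + (a : M2 p) 0 1 * (b : M2 p) 1 0 =
      (b : M2 p) 0 0 * (a : M2 p) 0 0 + (b : M2 p) 0 1 * (a : M2 p) 1 0
    linear_combination e1
  · show (a : M2 p) 0 0 * (b : M2 p) 0 1 + (a : M2 p) 0 1 * (b : M2 p) 1 1 =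
      (b : M2 p) 0 0 * (a : M2 p) 0 1 + (b : M2 p) 0 1 * (a : M2 p) 1 1
    linear_combination e2
  · show (a : M2 p) 1 0 * (b : M2 p) 0 0 + (a : M2 p) 1 1 * (b : M2 p) 1 0 =
      (b : M2 p) 1 0 * (a : M2 p) 0 0 + (b : M2 p) 1 1 * (a : M2 p) 1 0
    linear_combination -e3
  · show (a : M2 p) 1 0 * (b : M2 p) 0 1 + (a : M2 p) 1 1 * (b : M2 p) 1 1 =
      (b : M2 p) 1 0 * (a : M2 p) 0 1 + (b : M2 p) 1 1 * (a : M2 p) 1 1
    linear_combination -e1

/-- The group is not commutative. -/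
private lemma Reg_nc {p : ℕ} [Fact p.Prime] : ∃ x y : SL p, x * y ≠ y * x := by
  obtain ⟨x, hx⟩ : ∃ x : SL p, (x : M2 p) = !![1, 1; 0, 1] :=
    ⟨⟨!![1, 1; 0, 1], by simp [Matrix.det_fin_two]⟩, rfl⟩
  obtain ⟨y, hy⟩ : ∃ y : SL p, (y : M2 p) = !![1, 0; 1, 1] :=
    ⟨⟨!![1, 0; 1, 1], by simp [Matrix.det_fin_two]⟩, rfl⟩
  refine ⟨x, y, fun h => ?_⟩
  have h1 : ((x * y : SL p) : M2 p) 0 0 = ((y * x : SL p) : M2 p) 0 0 := by rw [h]
  rw [Reg_mul, Reg_mul, hx, hy] at h1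
  simp at h1

theorem thm_Reg (hCom : St_Com) : St_Reg := by
  intro p _ hp D h1 hinv hcl
  -- it is enough to find an element with trace different from `2`, `-2`
  suffices h : ∃ c ∈ D ^ 2, tr c ≠ 2 ∧ tr c ≠ -2 by
    obtain ⟨c, hc, h2, h3⟩ := h
    refine ⟨c, hc, fun hcen => ?_, h2, h3⟩
    rcases ((hCom p).2.1 c).mp hcen with rfl | rfl
    · apply h2
      rw [Reg_tr]
      simp
      norm_num
    · apply h3
      rw [Reg_tr]
      simp
      norm_num
  by_contra hcon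
  push Not at hcon
  have hall : ∀ c ∈ D ^ 2, tr c = 2 ∨ tr c = -2 := by
    intro c hc
    by_cases h : tr c = 2
    · exact Or.inl h
    · exact Or.inr (hcon c hc h)
  have hmul : ∀ a ∈ D, ∀ b ∈ D, a * b ∈ D ^ 2 := fun a ha b hb => by
    rw [pow_two]
    exact Finset.mul_mem_mul ha hb
  have hself : ∀ a ∈ D, tr a = 2 ∨ tr a = -2 := fun a ha => by
    have := hall _ (hmul a ha 1 h1)
    rwa [mul_one] at this
  have hinv' : ∀ a ∈ D, a⁻¹ ∈ D := fun a ha => by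
    rw [← hinv]
    exact Finset.inv_mem_inv ha
  have hcomm : ∀ a ∈ D, ∀ b ∈ D, a * b = b * a := fun a ha b hb =>
    Reg_comm hp a b (hself a ha) (hself b hb) (hall _ (hmul a ha b hb))
      (hall _ (hmul a ha _ (hinv' b hb)))
  have h2 : (⊤ : Subgroup (SL p)) ≤ Subgroup.centralizer (D : Set (SL p)) := by
    rw [← hcl, Subgroup.closure_le]
    intro a ha
    rw [SetLike.mem_coe, Subgroup.mem_centralizer_iff]
    intro b hb
    exact hcomm b hb a ha
  have h3 : (⊤ : Subgroup (SL p)) ≤ Subgroup.center (SL p) := by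
    rw [← hcl, Subgroup.closure_le]
    intro a ha
    rw [SetLike.mem_coe, Subgroup.mem_center_iff]
    intro b
    exact (Subgroup.mem_centralizer_iff.mp (h2 (Subgroup.mem_top b)) a ha).symm
  obtain ⟨x, y, hxy⟩ := Reg_nc (p := p)
  exact hxy (Subgroup.mem_center_iff.mp (h3 (Subgroup.mem_top y)) x)

end Pool.Agent.PWS
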