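import Pool.Agent.PWS.St
import Pool.Agent.PWM.Blk

/-!
Campaign PWS, module Two: two handles are killed.
-/

set_option autoImplicit false

namespace Pool.Agent.PWS

open Pool.Agent.PW Pool.Agent.PWM Pool.Agent.PWX

theorem thm_Two (hBlk : St_Blk) : St_Two := by
  intro Q _ h hh hD g n ρ hg
  obtain ⟨φ₁, hφ₁, hg0, ha, hb⟩ := hBlk ρ h 0 (by omega) (hD _)
  have hm : 1 + h ≤ g := by omega
  obtain ⟨φ, hφ, h0, hc, hd⟩ := hD ((pre ρ φ₁).comp (blk h g n 1 hm))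
  obtain ⟨c, hcc⟩ := isConj_iff.1 hφ.1
  have hψ : MulAut.conj c * φ ∈ MCGd h := by
    show (MulAut.conj c) (φ (bdry h 0)) = bdry h 0
    rw [MulAut.conj_apply, hcc]
  obtain ⟨Ψ, hΨ, -, hΨb, hΨo, -⟩ := st_Blk hm (MulAut.conj c * φ) hψ
  refine ⟨φ₁ * Ψ, (MCG g n).mul_mem hφ₁ hΨ, fun i hi => ?_⟩
  have hcon : ∀ x : F h 0, ρ (φ₁ (blk h g n 1 hm (φ x))) = 1 →
      ρ (φ₁ (Ψ (blk h g n 1 hm x))) = 1 := by
    intro x hx
    have e : (MulAut.conj c * φ) x = c * φ x * c⁻¹ := rfl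
    rw [hΨb, e, map_mul, map_mul, map_inv, map_mul, map_mul, map_inv, map_mul, map_mul, map_inv,
      hx, mul_one, mul_inv_cancel]
  have h2 : (i : ℕ) = 0 ∨ (i : ℕ) = 1 := by omega
  rcases h2 with h2 | h2
  · have hi0 : i = ⟨0, hg0⟩ := Fin.ext h2
    obtain ⟨e1, e2⟩ := hΨo i (Or.inl (by omega))
    constructor
    · show ρ (φ₁ (Ψ (ga i))) = 1
      rw [e1, hi0]
      exact ha
    · show ρ (φ₁ (Ψ (gb i))) = 1
      rw [e2, hi0]
      exact hb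
  · have e1 : (ga i : F g n) = blk h g n 1 hm (ga ⟨0, h0⟩) := by
      rw [blk_a]
      congr 1
      exact Fin.ext h2
    have e2 : (gb i : F g n) = blk h g n 1 hm (gb ⟨0, h0⟩) := by
      rw [blk_b]
      congr 1
      exact Fin.ext h2
    constructor
    · show ρ (φ₁ (Ψ (ga i))) = 1
      rw [e1]
      exact hcon _ hc
    · show ρ (φ₁ (Ψ (gb i))) = 1
      rw [e2]
      exact hcon _ hd

end Pool.Agent.PWS
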